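import Pool.Agent.W_MP_d15038_ex.Best

/-!
# Link with the reliability polynomial in the edge probability
-/

set_option autoImplicit false
set_option linter.unusedSectionVars false
set_option linter.unusedSimpArgs false

open Finset

namespace Pool.Agent.W_MP_d15038_ex

open scoped Classical

section link

variable {V : Type} [Fintype V]

/-- the reliability of `G` as a function of the edge probability -/
noncomputable def relG (G : SimpleGraph V) (p : ℝ) : ℝ :=
  ∑ S ∈ Finset.univ.filter (fun S : Finset (Sym2 V) =>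
      (S : Set (Sym2 V)) ⊆ G.edgeSet ∧
        (SimpleGraph.fromEdgeSet (S : Set (Sym2 V))).Connected),
    p ^ S.card * (1 - p) ^ (G.edgeSet.ncard - S.card)

theorem mem_Ec {H : SimpleGraph V} {e : Sym2 V} : e ∈ Ec H ↔ e ∈ Hᶜ.edgeSet := by
  unfold Ec
  rw [SimpleGraph.mem_edgeFinset]

theorem ncard_eq (G : SimpleGraph V) [Fintype G.edgeSet] :
    G.edgeSet.ncard = G.edgeFinset.card := by
  rw [← Set.ncard_coe_finset, SimpleGraph.coe_edgeFinset]

theorem relG_eq (G : SimpleGraph V) (p : ℝ) : relG G p = RelE (Ec Gᶜ) (1 - p) := by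
  have hE : Ec Gᶜ = G.edgeFinset := by
    ext e
    rw [mem_Ec, SimpleGraph.mem_edgeFinset, compl_compl]
  rw [hE]
  unfold relG RelE
  rw [sum_filter]
  have hset : ∀ S : Finset (Sym2 V), (S : Set (Sym2 V)) ⊆ G.edgeSet ↔
      S ∈ G.edgeFinset.powerset := by
    intro S
    rw [mem_powerset]
    constructor
    · intro h e he
      rw [SimpleGraph.mem_edgeFinset]
      exact h he
    · intro h e he
      have := h he
      rwa [SimpleGraph.mem_edgeFinset] at this
  have hcard : G.edgeSet.ncard = G.edgeFinset.card := ncard_eq G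
  rw [← Finset.sum_subset (Finset.subset_univ G.edgeFinset.powerset)]
  · refine sum_congr rfl fun S hS => ?_
    by_cases hc : (gr S).Connected
    · rw [if_pos hc, if_pos ⟨(hset S).2 hS, hc⟩, card_sdiff_of_subset (mem_powerset.1 hS), hcard]
      ring_nf
    · rw [if_neg hc, if_neg (fun h => hc h.2)]
  · intro S _ hS
    rw [if_neg (fun h => hS ((hset S).1 h.1))]

theorem relG_cont (G : SimpleGraph V) : Continuous (relG G) := by
  unfold relG
  fun_prop

theorem le_Icc {f g : ℝ → ℝ} (hf : Continuous f) (hg : Continuous g)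
    (h : ∀ p, 0 < p → p < 1 → f p ≤ g p) : ∀ p, 0 ≤ p → p ≤ 1 → f p ≤ g p := by
  intro p h0 h1
  have hc : IsClosed {p | f p ≤ g p} := isClosed_le hf hg
  have hs : Set.Ioo (0 : ℝ) 1 ⊆ {p | f p ≤ g p} := fun x hx => h x hx.1 hx.2
  have h2 := hc.closure_subset_iff.2 hs
  rw [closure_Ioo (by norm_num)] at h2
  exact h2 ⟨h0, h1⟩

theorem card_compl_edges (G : SimpleGraph V) :
    G.edgeSet.ncard + Gᶜ.edgeSet.ncard = (Fintype.card V).choose 2 := by
  have h1 : (⊤ : SimpleGraph V).edgeSet = G.edgeSet ∪ Gᶜ.edgeSet := by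
    ext e
    refine Sym2.inductionOn e fun x y => ?_
    rw [Set.mem_union, SimpleGraph.mem_edgeSet, SimpleGraph.mem_edgeSet,
      SimpleGraph.mem_edgeSet, SimpleGraph.top_adj, SimpleGraph.compl_adj]
    constructor
    · intro h
      by_cases h' : G.Adj x y
      · exact Or.inl h'
      · exact Or.inr ⟨h, h'⟩
    · rintro (h | h)
      · exact h.ne
      · exact h.1
  have h2 : Disjoint G.edgeSet Gᶜ.edgeSet := by
    rw [Set.disjoint_left]
    intro e
    refine Sym2.inductionOn e fun x y => ?_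
    rw [SimpleGraph.mem_edgeSet, SimpleGraph.mem_edgeSet, SimpleGraph.compl_adj]
    exact fun h1 h2 => h2.2 h1
  rw [← Set.ncard_union_eq h2, ← h1, ncard_eq,
    SimpleGraph.card_edgeFinset_top_eq_card_choose_two]

theorem exists_best' (d : ℕ) (h1 : Fintype.card V < 2 * d) (h2 : d + 2 ≤ Fintype.card V)
    (hN : 2 * d - Fintype.card V = 1 ∨ 3 ∣ 2 * d - Fintype.card V) :
    ∃ H : SimpleGraph V, H.edgeSet.ncard = d ∧ ∀ H' : SimpleGraph V, H'.edgeSet.ncard = d →
      ∀ q : ℝ, 0 < q → q < 1 → RelE (Ec H') q ≤ RelE (Ec H) q := by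
  obtain ⟨H, e1, e2⟩ := exists_best (V := V) d h1 h2 hN
  refine ⟨H, (ncard_eq H).trans e1, fun H' h => e2 H' ((ncard_eq H').symm.trans h)⟩

/-- existence, in terms of `relG` -/
theorem exists_umr (m : ℕ)
    (h1 : (Fintype.card V) ^ 2 + 4 ≤ 2 * m + 3 * (Fintype.card V))
    (h2 : 2 * m + 2 * (Fintype.card V) < (Fintype.card V) ^ 2)
    (h3 : (Fintype.card V) ^ 2 - 2 * (Fintype.card V) - 2 * m = 1 ∨
      3 ∣ (Fintype.card V) ^ 2 - 2 * (Fintype.card V) - 2 * m) :
    ∃ G : SimpleGraph V, G.edgeSet.ncard = m ∧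
      ∀ H : SimpleGraph V, H.edgeSet.ncard = m →
        ∀ p : ℝ, 0 ≤ p → p ≤ 1 → relG H p ≤ relG G p := by
  set n := Fintype.card V with hn
  have hch : n.choose 2 * 2 = n * (n - 1) := by
    rw [Nat.choose_two_right]
    exact Nat.div_mul_cancel (Nat.even_mul_pred_self n).two_dvd
  obtain ⟨k, hk⟩ : ∃ k, n = k + 1 := ⟨n - 1, by
    rcases n with _ | n
    · simp at h2
    · omega⟩
  rw [hk] at hch h1 h2 h3
  rw [Nat.add_sub_cancel] at hch
  have e1 : (k + 1) ^ 2 = (k + 1) * k + (k + 1) := by ring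
  rw [e1] at h1 h2 h3
  set c := (k + 1).choose 2 with hc
  set b := (k + 1) * k with hb
  obtain ⟨H, hH1, hH2⟩ := exists_best' (V := V) (c - m)
    (by rw [← hn, hk]; omega) (by rw [← hn, hk]; omega)
    (by
      rw [← hn, hk]
      have : 2 * (c - m) - (k + 1) = b + (k + 1) - 2 * (k + 1) - 2 * m := by omega
      rwa [this])
  have hHc := card_compl_edges H
  rw [← hn, hk, ← hc] at hHc
  have hcc : ∀ G : SimpleGraph V, Gᶜᶜ = G := fun G => compl_compl G
  refine ⟨Hᶜ, by omega, ?_⟩
  intro G hG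
  have hGc := card_compl_edges G
  rw [← hn, hk, ← hc] at hGc
  refine le_Icc (relG_cont G) (relG_cont Hᶜ) fun p hp0 hp1 => ?_
  rw [relG_eq, relG_eq, hcc]
  exact hH2 Gᶜ (by omega) (1 - p) (by linarith) (by linarith)

end link

end Pool.Agent.W_MP_d15038_ex
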