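import Pool.Agent.W_MP_d15038_ex.Iso

/-!
# Existence of a graph which is optimal for all probabilities
-/

set_option autoImplicit false
set_option linter.unusedSectionVars false
set_option linter.unusedSimpArgs false

open Finset

namespace Pool.Agent.W_MP_d15038_ex

open scoped Classical

section best

variable {V : Type} [Fintype V]

theorem exists_graph (d : ℕ) (hd : d ≤ (Fintype.card V).choose 2) :
    ∃ H : SimpleGraph V, H.edgeFinset.card = d := by
  obtain ⟨S, h1, h2⟩ := exists_subset_card_eq (s := (⊤ : SimpleGraph V).edgeFinset) (n := d)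
    (by rw [SimpleGraph.card_edgeFinset_top_eq_card_choose_two]; exact hd)
  refine ⟨SimpleGraph.fromEdgeSet (S : Set (Sym2 V)), ?_⟩
  have h3 : (SimpleGraph.fromEdgeSet (S : Set (Sym2 V))).edgeSet = (S : Set (Sym2 V)) := by
    rw [SimpleGraph.edgeSet_fromEdgeSet]
    ext e
    constructor
    · rintro ⟨h, _⟩
      exact h
    · intro h
      refine ⟨h, ?_⟩
      have := h1 h
      rw [SimpleGraph.mem_edgeFinset] at this
      exact (⊤ : SimpleGraph V).not_isDiag_of_mem_edgeSet this
  rw [← h2, ← Set.ncard_coe_finset S, ← Set.ncard_coe_finset, SimpleGraph.coe_edgeFinset, h3]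

theorem choose_ge {n d : ℕ} (h : d + 2 ≤ n) : d ≤ n.choose 2 := by
  obtain ⟨k, rfl⟩ : ∃ k, n = k + 2 := ⟨n - 2, by omega⟩
  have h1 : (k + 2).choose 2 = (k + 1).choose 1 + (k + 1).choose 2 := Nat.choose_succ_succ _ _
  rw [h1, Nat.choose_one_right]
  omega

theorem exists_best (d : ℕ) (h1 : Fintype.card V < 2 * d) (h2 : d + 2 ≤ Fintype.card V)
    (hN : 2 * d - Fintype.card V = 1 ∨ 3 ∣ 2 * d - Fintype.card V) :
    ∃ H : SimpleGraph V, H.edgeFinset.card = d ∧ ∀ H' : SimpleGraph V, H'.edgeFinset.card = d →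
      ∀ q : ℝ, 0 < q → q < 1 → RelE (Ec H') q ≤ RelE (Ec H) q := by
  obtain ⟨H0, hH0⟩ := exists_graph (V := V) d (choose_ge h2)
  have hopt : ∀ q : ℝ, 0 < q → q < 1 → ∃ H : SimpleGraph V, H.edgeFinset.card = d ∧ Good H q := by
    intro q hq0 hq1
    obtain ⟨H, e1, e2⟩ := exists_opt H0 q
    rw [hH0] at e1
    exact ⟨H, e1, hq0, hq1, e2, by omega, by omega⟩
  obtain ⟨H, e1, g1⟩ := hopt (1 / 2) (by norm_num) (by norm_num)
  refine ⟨H, e1, fun H' hH' q hq0 hq1 => ?_⟩
  obtain ⟨K, e2, g2⟩ := hopt q hq0 hq1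
  have hKH : RelE (Ec K) q = RelE (Ec H) q := by
    have c1 := g1.card_D2
    have c2 := g2.card_D2
    rcases hN with hN | hN
    · exact rel_eq_P3 (g2.allP3 (by omega)) (g1.allP3 (by omega)) (by omega) hq0
    · exact rel_eq_tri (g2.allTri (by
        have : (D2 K).card = 2 * d - Fintype.card V := by omega
        rwa [this])) (g1.allTri (by
        have : (D2 H).card = 2 * d - Fintype.card V := by omega
        rwa [this])) (by omega) hq0
  rw [← hKH]
  exact g2.opt.max H' (by omega)

end best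

end Pool.Agent.W_MP_d15038_ex
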