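import Pool.Agent.W_MP_d15038_fx.Digit

/-!
# The certificate theorem
-/

set_option autoImplicit false

open Polynomial

namespace Pool.Agent.W_MP_d15038_ex

theorem uf_perm (k : ℕ) (t : ℝ) {a b : List ℕ} (h : a.Perm b) : uf k t a = uf k t b := by
  unfold uf
  rw [(h.map _).sum_eq, h.length_eq]

/-! ### inequalities between the real outputs -/

theorem CoefLe.real {q : ℕ[X] × ℕ[X]} (h : CoefLe q) {y : ℝ} (hy : 0 ≤ y) :
    q.2.eval₂ (Nat.castRingHom ℝ) y ≤ q.1.eval₂ (Nat.castRingHom ℝ) y := by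
  have hn : max q.1.natDegree q.2.natDegree < max q.1.natDegree q.2.natDegree + 1 := Nat.lt_succ_self _
  rw [eval₂_eq_sum_range' _ ((le_max_left _ _).trans_lt hn),
    eval₂_eq_sum_range' _ ((le_max_right _ _).trans_lt hn)]
  refine Finset.sum_le_sum fun i _ => mul_le_mul_of_nonneg_right ?_ (pow_nonneg hy i)
  exact Nat.cast_le.2 (h i)

theorem CoefLe.real_lt {q : ℕ[X] × ℕ[X]} (h : CoefLe q) (hne : q.1 ≠ q.2) {y : ℝ} (hy : 0 < y) :
    q.2.eval₂ (Nat.castRingHom ℝ) y < q.1.eval₂ (Nat.castRingHom ℝ) y := by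
  have hn : max q.1.natDegree q.2.natDegree < max q.1.natDegree q.2.natDegree + 1 := Nat.lt_succ_self _
  rw [eval₂_eq_sum_range' _ ((le_max_left _ _).trans_lt hn),
    eval₂_eq_sum_range' _ ((le_max_right _ _).trans_lt hn)]
  obtain ⟨i, hi⟩ : ∃ i, q.1.coeff i ≠ q.2.coeff i := by
    by_contra hcon
    push Not at hcon
    exact hne (Polynomial.ext hcon)
  have hi2 : q.2.coeff i < q.1.coeff i := lt_of_le_of_ne (h i) (Ne.symm hi)
  refine Finset.sum_lt_sum (fun i _ => mul_le_mul_of_nonneg_right (Nat.cast_le.2 (h i))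
    (pow_nonneg hy.le i)) ⟨i, ?_, mul_lt_mul_of_pos_right (Nat.cast_lt.2 hi2) (pow_pos hy i)⟩
  rw [Finset.mem_range]
  have h1 : q.1.coeff i ≠ 0 := by omega
  have h2 := le_natDegree_of_ne_zero h1
  have h3 := le_max_left q.1.natDegree q.2.natDegree
  omega

theorem gok_sum {T : Tab} {k : ℕ} (hk0 : 0 < k) (hk : k ≤ 10) (hc : CloseOK T k)
    {NH NH' : List (List ℕ)} {G : List (ℕ × List Part)} (hG : GOK T.types NH NH' k G)
    (y : ℝ) (cs : List (Clu × ℝ)) {U : List ℕ → ℝ} (hU : SymF U) :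
    zd (T.types.map U) ((mkGrp (opsReal y) T.types G).map (gval y k cs)) =
      ((parts (nthL NH) (nthL NH') k).map fun p => U (p.1.map List.length) * pval y k cs p).sum := by
  obtain ⟨hT, -, -⟩ := hc
  have hpos : ∀ τ ∈ T.types, 0 < τ.length := by
    intro τ hτ
    rw [List.length_pos_iff]
    rintro rfl
    have := (hT [] hτ).1
    simp [lsumN] at this
    omega
  rw [zip_sum y k cs U T.types _ hG.keys hpos]
  · exact hG.sum _
  · intro τ hτ g hg hgτ p hp
    obtain ⟨h1, hinv⟩ := hG.mem g hg p hp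
    have h3 : (p.1.map List.length).Perm τ := by
      refine key_perm ?_ ?_ ?_
      · rw [List.length_map]
        have := hinv.length_le
        omega
      · have := (hT τ hτ).2
        omega
      · rw [← key_eq, ← keyS_eq, h1, hgτ]
    refine ⟨?_, hU _ _ h3⟩
    have := h3.length_eq
    rwa [List.length_map] at this

theorem mkGrp_mem {y : ℝ} {T : List (List ℕ)} {G : List (ℕ × List Part)} {g : Grp ℝ}
    (hg : g ∈ mkGrp (opsReal y) T G) {p : Entry ℝ} (hp : p ∈ g.2) :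
    ∃ g' ∈ G, ∃ p' ∈ g'.2, p.1 = p'.1 := by
  induction T generalizing G with
  | nil => exact absurd hg (by simp [mkGrp])
  | cons τ T ih =>
    cases G with
    | nil => exact absurd hg (by simp [mkGrp])
    | cons g0 G =>
      change g ∈ (odd' (len τ), mkEntries (opsReal y) g0.2) :: mkGrp (opsReal y) T G at hg
      rcases List.mem_cons.1 hg with rfl | hg
      · unfold mkEntries at hp
        rw [lmap_eq] at hp
        obtain ⟨p', hp', rfl⟩ := List.mem_map.1 hp
        exact ⟨g0, List.mem_cons_self, p', hp', rfl⟩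
      · obtain ⟨g', h1, h2⟩ := ih hg
        exact ⟨g', List.mem_cons_of_mem _ h1, h2⟩

theorem gok_blk {y : ℝ} {T : Tab} {k : ℕ} {NH NH' : List (List ℕ)} {G : List (ℕ × List Part)}
    (hG : GOK T.types NH NH' k G) :
    ∀ g ∈ mkGrp (opsReal y) T.types G, ∀ p ∈ g.2, ∀ b ∈ p.1, b.length ≤ k := by
  intro g hg p hp b hb
  obtain ⟨g', h1, p', h2, h3⟩ := mkGrp_mem hg hp
  rw [h3] at hb
  exact (hG.mem g' h1 p' h2).2.blk_le b hb

/-- The certificate theorem. `pat` is a pattern of the marks, `cs` the clusters with the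
parameters `s`, `t` the parameters of the unmarked clusters. -/
theorem cert_nonneg {T : Tab} {k r : ℕ} {NH NH' MH MH' : List (List ℕ)}
    (hk0 : 0 < k) (hk : k ≤ 10) (hc : CloseOK T k)
    (h : CertOK T k r NH NH' MH MH') {y : ℝ} (hy : 0 ≤ y)
    {p0 : Part} (hp0 : p0 ∈ parts noN noN r) (s : List ℝ) (hs : ∀ x ∈ s, 0 ≤ x ∧ x ≤ 1)
    (hlen : s.length = p0.1.length)
    {ι : Type} (I : Finset ι) (t : ι → ℝ) (ht : ∀ i ∈ I, 0 < t i ∧ t i < 1) :
    0 ≤ ((parts (nthL NH) (nthL NH') k).map fun p => (∏ i ∈ I, uf k (t i) (p.1.map List.length)) *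
      pval y k ((p0.1.map (mkClu k MH MH')).zip s) p).sum := by
  obtain ⟨G, hG, h3, -⟩ := h
  have hU : SymF (fun τ => ∏ i ∈ I, uf k (t i) τ) := fun a b hab =>
    Finset.prod_congr rfl fun i _ => uf_perm k (t i) hab
  rw [← gok_sum hk0 hk hc hG y _ hU]
  obtain ⟨c0, c, g1, g2, g0, g3⟩ := StrC.prod hk0 hk hc I t ht
  have hzip : ((p0.1.map (mkClu k MH MH')).zip s).map Prod.fst = p0.1.map (mkClu k MH MH') := by
    rw [← List.unzip_fst, List.unzip_zip_left]
    rw [List.length_map, hlen]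
  refine tot_nonneg hk ⟨g1, g2, g3⟩ _ (fun c hc' => ?_) _ (gok_blk hG) ?_
  · exact hs _ (List.of_mem_zip hc').2
  · rw [hzip, outs_real_eq]
    intro p hp
    obtain ⟨p', hp', rfl⟩ := List.mem_map.1 hp
    exact (h3 p0 hp0 p' hp').real hy

theorem discPat_mem (r : ℕ) : ∃ p ∈ parts noN noN r, p.1 = discPat r := by
  induction r with
  | zero => exact ⟨([], 0, 0), by simp [parts], rfl⟩
  | succ r ih =>
    obtain ⟨p, hp, hp1⟩ := ih
    rw [parts_succ]
    refine ⟨_, List.mem_flatMap.2 ⟨p, hp, List.mem_append.2 (Or.inr (List.mem_singleton.2 rfl))⟩, ?_⟩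
    rw [hp1]
    rfl

theorem cert_pos {T : Tab} {k r : ℕ} {NH NH' MH MH' : List (List ℕ)}
    (hk0 : 0 < k) (hk : k ≤ 10) (hc : CloseOK T k)
    (h : CertOK T k r NH NH' MH MH') {y : ℝ} (hy : 0 < y)
    (s : List ℝ) (hs : ∀ x ∈ s, 0 < x ∧ x ≤ 1)
    (hlen : s.length = (discPat r).length)
    {ι : Type} (I : Finset ι) (t : ι → ℝ) (ht : ∀ i ∈ I, 0 < t i ∧ t i < 1) :
    0 < ((parts (nthL NH) (nthL NH') k).map fun p => (∏ i ∈ I, uf k (t i) (p.1.map List.length)) *
      pval y k (((discPat r).map (mkClu k MH MH')).zip s) p).sum := by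
  obtain ⟨G, hG, h3, q, l, hq, hne⟩ := h
  obtain ⟨p0, hp0, hp1⟩ := discPat_mem r
  have h4 := h3 p0 hp0
  rw [hp1] at h4
  have hU : SymF (fun τ => ∏ i ∈ I, uf k (t i) τ) := fun a b hab =>
    Finset.prod_congr rfl fun i _ => uf_perm k (t i) hab
  rw [← gok_sum hk0 hk hc hG y _ hU]
  obtain ⟨c0, c, g1, g2, g0, g3⟩ := StrC.prod hk0 hk hc I t ht
  have hzip : (((discPat r).map (mkClu k MH MH')).zip s).map Prod.fst =
      (discPat r).map (mkClu k MH MH') := by
    rw [← List.unzip_fst, List.unzip_zip_left]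
    rw [List.length_map, hlen]
  refine tot_pos hk ⟨g1, g2, g3⟩ g0 _ (fun c hc' => ?_) _ (gok_blk hG) ?_ ?_
  · exact hs _ (List.of_mem_zip hc').2
  · rw [hzip, outs_real_eq]
    intro p hp
    obtain ⟨p', hp', rfl⟩ := List.mem_map.1 hp
    exact (h4 p' hp').real hy.le
  · rw [hzip, outs_real_eq, hq, List.map_cons]
    exact ⟨_, _, rfl, (h4 q (by rw [hq]; exact List.mem_cons_self)).real_lt hne hy⟩

end Pool.Agent.W_MP_d15038_ex
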