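import Mathlib

/-!
# Computable certificates for local comparisons
-/

set_option autoImplicit false

namespace Pool.Agent.W_MP_d15038_ex

/-- Operations used by the certificates; `pw n` is `(1+y)^n`, `dpw a b` is `(1+y)^a-(1+y)^b`. -/
structure Ops (A : Type) where
  add : A → A → A
  mul : A → A → A
  nat : ℕ → A
  pw : ℕ → A
  dpw : ℕ → ℕ → A

def opsNat (Q : ℕ) : Ops ℕ where
  add := Nat.add
  mul := Nat.mul
  nat := fun n => n
  pw := fun n => Nat.pow (Nat.succ Q) n
  dpw := fun a b => Nat.sub (Nat.pow (Nat.succ Q) a) (Nat.pow (Nat.succ Q) b)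

/-- kernel friendly list operations -/
def lmap {α β : Type} (f : α → β) (l : List α) : List β :=
  List.rec (motive := fun _ => List β) [] (fun a _ ih => f a :: ih) l

def lappend {α : Type} (l m : List α) : List α :=
  List.rec (motive := fun _ => List α) m (fun a _ ih => a :: ih) l

def lbind {α β : Type} (f : α → List β) (l : List α) : List β :=
  List.rec (motive := fun _ => List β) [] (fun a _ ih => lappend (f a) ih) l

def lsum {α A : Type} (z : A) (g : α → A → A) (l : List α) : A :=
  List.rec (motive := fun _ => A) z (fun a _ ih => g a ih) l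

theorem lmap_eq {α β : Type} (f : α → β) (l : List α) : lmap f l = l.map f := by
  induction l with
  | nil => rfl
  | cons a l ih => exact congrArg (f a :: ·) ih

theorem lappend_eq {α : Type} (l m : List α) : lappend l m = l ++ m := by
  induction l with
  | nil => rfl
  | cons a l ih => exact congrArg (a :: ·) ih

theorem lbind_eq {α β : Type} (f : α → List β) (l : List α) : lbind f l = l.flatMap f := by
  induction l with
  | nil => rfl
  | cons a l ih =>
    change lappend (f a) (lbind f l) = _
    rw [lappend_eq, ih, List.flatMap_cons]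

/-- count of the elements of `N` not in the block `b` -/
def memb (a : ℕ) (b : List ℕ) : Bool :=
  List.rec (motive := fun _ => Bool) false (fun c _ ih => cond (Nat.beq a c) true ih) b

def cntOut (b : List ℕ) (N : List ℕ) : ℕ :=
  List.rec (motive := fun _ => ℕ) 0 (fun a _ ih => cond (memb a b) ih (Nat.succ ih)) N

def len {α : Type} (b : List α) : ℕ := List.rec (motive := fun _ => ℕ) 0 (fun _ _ ih => Nat.succ ih) b

/-- a partition with its two exponents -/
abbrev Part := List (List ℕ) × ℕ × ℕ

/-- insert hub `k` in the blocks of `κ`; `pre` = accumulated. -/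
def ins (k : ℕ) (N N' : List ℕ) (e e' : ℕ) (κ : List (List ℕ)) : List Part :=
  List.rec (motive := fun _ => List Part) []
    (fun b rest ih =>
      ((k :: b) :: rest, Nat.add e (Nat.add (len b) (cntOut b N)), Nat.add e' (Nat.add (len b) (cntOut b N'))) ::
      lmap (fun p => (b :: p.1, p.2)) ih) κ

def parts (NH NH' : ℕ → List ℕ) (k : ℕ) : List Part :=
  Nat.rec (motive := fun _ => List Part) [([], 0, 0)]
    (fun k ih => lbind (fun p =>
      lappend (ins k (NH k) (NH' k) p.2.1 p.2.2 p.1)
        [([k] :: p.1, Nat.add p.2.1 (len (NH k)), Nat.add p.2.2 (len (NH' k)))]) ih) k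


/-- key of a list of block sizes -/
def key (κ : List (List ℕ)) : ℕ :=
  List.rec (motive := fun _ => ℕ) 0 (fun b _ ih => Nat.add (Nat.pow 32 (len b)) ih) κ

def keyS (τ : List ℕ) : ℕ :=
  List.rec (motive := fun _ => ℕ) 0 (fun s _ ih => Nat.add (Nat.pow 32 s) ih) τ

def bucket {P : Type} (τ : ℕ) (p : P) (gs : List (ℕ × List P)) : List (ℕ × List P) :=
  List.rec (motive := fun _ => List (ℕ × List P)) [(τ, [p])]
    (fun g r ih => cond (Nat.beq τ g.1) ((g.1, p :: g.2) :: r) (g :: ih)) gs

def groups (init : List (ℕ × List Part)) (ps : List Part) : List (ℕ × List Part) :=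
  List.rec (motive := fun _ => List (ℕ × List Part)) init
    (fun p _ ih => bucket (key p.1) p ih) ps

/-- `n`-th element, default `0` -/
def nth (l : List ℕ) : ℕ → ℕ :=
  List.rec (motive := fun _ => ℕ → ℕ) (fun _ => 0)
    (fun a _ ih n => Nat.rec (motive := fun _ => ℕ) a (fun m _ => ih m) n) l

def nthL (l : List (List ℕ)) : ℕ → List ℕ :=
  List.rec (motive := fun _ => ℕ → List ℕ) (fun _ => [])
    (fun a _ ih n => Nat.rec (motive := fun _ => List ℕ) a (fun m _ => ih m) n) l

/-- `[0, 1, ..., n-1]` -/
def lrange (n : ℕ) : List ℕ :=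
  Nat.rec (motive := fun _ => List ℕ) [] (fun m ih => lappend ih [m]) n

/-- binomial coefficient for `s ≤ 10` -/
def bin (s j : ℕ) : ℕ := Nat.mod (Nat.shiftRight (Nat.pow 257 s) (Nat.mul 8 j)) 256

/-- exponents of a marked cluster -/
structure Clu where
  e : List ℕ
  c : ℕ
  e' : List ℕ
  c' : ℕ

def eblk (e : List ℕ) (b : List ℕ) : ℕ :=
  List.rec (motive := fun _ => ℕ) 0 (fun h _ ih => Nat.add (nth e h) ih) b

/-- block data: size, exponent for `H`, exponent for `H'` -/
def bdata (c : Clu) (κ : List (List ℕ)) : List (ℕ × ℕ × ℕ) :=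
  lmap (fun b => (len b, eblk c.e b, eblk c.e' b)) κ

/-- the factor with parameter `j` -/
def fac {A : Type} (o : Ops A) (c0 : ℕ) (d : List (ℕ × ℕ)) (j : ℕ) : A :=
  Nat.rec (motive := fun _ => A)
    (lsum (o.nat 0) (fun p acc => o.add (o.dpw (Nat.add c0 p.2) c0) acc) d)
    (fun _ _ => lsum (o.nat 0)
      (fun p acc => cond (Nat.ble j p.1) (o.add (o.mul (o.nat (bin p.1 j)) (o.pw (Nat.add c0 p.2))) acc) acc) d) j

/-- an entry: partition, value for `H`, value for `H'` -/
abbrev Entry (A : Type) := List (List ℕ) × A × A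

/-- maximal block size at least `j` -/
def hasBig (κ : List (List ℕ)) (j : ℕ) : Bool :=
  List.rec (motive := fun _ => Bool) false (fun b _ ih => cond (Nat.ble j (len b)) true ih) κ

def mulEntries {A : Type} (o : Ops A) (c : Clu) (j : ℕ) (es : List (Entry A)) : List (Entry A) :=
  List.rec (motive := fun _ => List (Entry A)) []
    (fun p _ ih => cond (hasBig p.1 j)
      ((p.1,
        o.mul p.2.1 (fac o c.c (lmap (fun b => (len b, eblk c.e b)) p.1) j),
        o.mul p.2.2 (fac o c.c' (lmap (fun b => (len b, eblk c.e' b)) p.1) j)) :: ih)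
      ih) es

/-- group: `true` if the sign of `μ` is positive -/
abbrev Grp (A : Type) := Bool × List (Entry A)

def grpSum {A : Type} (o : Ops A) (g : Grp A) : A × A :=
  cond g.1
    (lsum (o.nat 0) (fun p acc => o.add p.2.2 acc) g.2, lsum (o.nat 0) (fun p acc => o.add p.2.1 acc) g.2)
    (lsum (o.nat 0) (fun p acc => o.add p.2.1 acc) g.2, lsum (o.nat 0) (fun p acc => o.add p.2.2 acc) g.2)

/-- dot product of a row with the list of pairs -/
def dot {A : Type} (o : Ops A) (row : List ℕ) : List (A × A) → A × A :=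
  List.rec (motive := fun _ => List (A × A) → A × A) (fun _ => (o.nat 0, o.nat 0))
    (fun n _ ih l => List.rec (motive := fun _ => A × A) (o.nat 0, o.nat 0)
      (fun p l' _ => (fun r => cond (Nat.beq n 0) r
        (o.add (o.mul (o.nat n) p.1) r.1, o.add (o.mul (o.nat n) p.2) r.2)) (ih l')) l) row

def outs {A : Type} (o : Ops A) (k : ℕ) (rows : List (List ℕ)) (cs : List Clu) :
    List (Grp A) → List (A × A) :=
  List.rec (motive := fun _ => List (Grp A) → List (A × A))
    (fun gs => (fun sums => lmap (fun row => dot o row sums) rows) (lmap (grpSum o) gs))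
    (fun c _ ih gs => lbind (fun j => ih (lmap (fun g => (g.1, mulEntries o c j g.2)) gs)) (lrange (Nat.succ k))) cs

/-- digitwise comparison in base `Q` -/
def digLE (Q : ℕ) (fuel : ℕ) : ℕ → ℕ → Bool :=
  Nat.rec (motive := fun _ => ℕ → ℕ → Bool) (fun a _ => Nat.beq a 0)
    (fun _ ih a b => cond (Nat.beq a 0) true
      (cond (Nat.ble (Nat.mod a Q) (Nat.mod b Q)) (ih (Nat.div a Q) (Nat.div b Q)) false)) fuel

def allLE (Q fuel : ℕ) (l : List (ℕ × ℕ)) : List (ℕ × ℕ) → Bool :=
  List.rec (motive := fun _ => List (ℕ × ℕ) → Bool)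
    (fun m => List.rec (motive := fun _ => Bool) true (fun _ _ _ => false) m)
    (fun a _ ih m => List.rec (motive := fun _ => Bool) false
      (fun b m' _ => cond (Nat.ble Q b.1) false (cond (Nat.ble Q b.2) false
        (cond (digLE Q fuel a.2 a.1) (ih m') false))) m) l

/-- factorial -/
def fct (n : ℕ) : ℕ := Nat.rec (motive := fun _ => ℕ) 1 (fun m ih => Nat.mul (Nat.succ m) ih) n

/-- parity: `true` iff odd -/
def odd' (n : ℕ) : Bool := Nat.beq (Nat.mod n 2) 1

def mkEntries {A : Type} (o : Ops A) (ps : List Part) : List (Entry A) :=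
  lmap (fun p => (p.1, o.mul (o.nat (fct (Nat.pred (len p.1)))) (o.pw p.2.1),
    o.mul (o.nat (fct (Nat.pred (len p.1)))) (o.pw p.2.2))) ps

def mkGrp {A : Type} (o : Ops A) (T : List (List ℕ)) : List (ℕ × List Part) → List (Grp A) :=
  List.rec (motive := fun _ => List (ℕ × List Part) → List (Grp A)) (fun _ => [])
    (fun τ _ ih l => List.rec (motive := fun _ => List (Grp A)) []
      (fun g l' _ => (odd' (len τ), mkEntries o g.2) :: ih l') l) T

/-- the number of marks of `bl` in `M` -/
def cntIn (bl : List ℕ) (M : List ℕ) : ℕ :=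
  List.rec (motive := fun _ => ℕ) 0 (fun a _ ih => cond (memb a M) (Nat.succ ih) ih) bl

/-- exponents for a set of marks `bl`; `MH` the list (indexed by hubs) of marks adjacent to the hub. -/
def mkClu (k : ℕ) (MH MH' : List (List ℕ)) (bl : List ℕ) : Clu :=
  (fun e e' => (fun s s' => Clu.mk e (Nat.sub (max s s') s) e' (Nat.sub (max s s') s'))
    (eblk e (lrange k)) (eblk e' (lrange k)))
    (lmap (fun h => Nat.sub (len bl) (cntIn bl (nthL MH h))) (lrange k))
    (lmap (fun h => Nat.sub (len bl) (cntIn bl (nthL MH' h))) (lrange k))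

def noN : ℕ → List ℕ := fun _ => []

/-- types and table -/
structure Tab where
  types : List (List ℕ)
  rows : List (List ℕ)

def grpd (T : List (List ℕ)) (NH NH' : List (List ℕ)) (k : ℕ) : List (ℕ × List Part) :=
  groups (lmap (fun τ => (keyS τ, [])) T) (parts (nthL NH) (nthL NH') k)

def checkPattern (T : Tab) (k : ℕ) (G : List (ℕ × List Part)) (MH MH' : List (List ℕ)) (Q fuel : ℕ)
    (pat : List (List ℕ)) : Bool :=
  allLE Q fuel
    (outs (opsNat Q) k T.rows (lmap (mkClu k MH MH') pat) (mkGrp (opsNat Q) T.types G))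
    (outs (opsNat 1) k T.rows (lmap (mkClu k MH MH') pat) (mkGrp (opsNat 1) T.types G))

def ball {α : Type} (f : α → Bool) (l : List α) : Bool :=
  List.rec (motive := fun _ => Bool) true (fun a _ ih => cond (f a) ih false) l

/-- the discrete pattern on `r` marks -/
def discPat (r : ℕ) : List (List ℕ) :=
  Nat.rec (motive := fun _ => List (List ℕ)) [] (fun m ih => [m] :: ih) r

/-- the first pair has different components -/
def headNe (l : List (ℕ × ℕ)) : Bool :=
  List.rec (motive := fun _ => Bool) false (fun a _ _ => cond (Nat.beq a.1 a.2) false true) l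

def strictCheck (T : Tab) (k r : ℕ) (G : List (ℕ × List Part)) (MH MH' : List (List ℕ)) (Q : ℕ) : Bool :=
  headNe (outs (opsNat Q) k T.rows (lmap (mkClu k MH MH') (discPat r)) (mkGrp (opsNat Q) T.types G))

def check (T : Tab) (k r : ℕ) (NH NH' MH MH' : List (List ℕ)) (Q fuel : ℕ) : Bool :=
  (fun G => cond (Nat.beq (len G) (len T.types))
    (cond (strictCheck T k r G MH MH' Q)
      (ball (fun p => checkPattern T k G MH MH' Q fuel p.1) (parts noN noN r)) false) false)
    (grpd T.types NH NH' k)

end Pool.Agent.W_MP_d15038_ex
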