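import Pool.Agent.W_MP_d15038_ex.Tabs

/-!
# The tables are closed under the cluster factors
-/

set_option autoImplicit false
set_option maxRecDepth 10000000

namespace Pool.Agent.W_MP_d15038_ex

theorem closeF4 : closeF tab4 4 (Nat.pow 2 64) 10000 = true := by decide +kernel

theorem close4 : CloseOK tab4 4 := closeF_sound closeF4

theorem closeF5 : closeF tab5 5 (Nat.pow 2 64) 10000 = true := by decide +kernel

theorem close5 : CloseOK tab5 5 := closeF_sound closeF5

theorem closeF6 : closeF tab6 6 (Nat.pow 2 64) 10000 = true := by decide +kernel

theorem close6 : CloseOK tab6 6 := closeF_sound closeF6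

theorem closeF7 : closeF tab7 7 (Nat.pow 2 64) 10000 = true := by decide +kernel

theorem close7 : CloseOK tab7 7 := closeF_sound closeF7

theorem closeF8 : closeF tab8 8 (Nat.pow 2 64) 10000 = true := by decide +kernel

theorem close8 : CloseOK tab8 8 := closeF_sound closeF8

theorem closeF9 : closeF tab9 9 (Nat.pow 2 64) 10000 = true := by decide +kernel

theorem close9 : CloseOK tab9 9 := closeF_sound closeF9

end Pool.Agent.W_MP_d15038_ex
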