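import Pool.Agent.W_MP_d15038_fx.Digit
import Pool.Agent.W_MP_d15038_ex.TabsOK

/-!
# Certificates
-/

set_option autoImplicit false
set_option maxRecDepth 10000000

namespace Pool.Agent.W_MP_d15038_ex

theorem fast_R1u3 : fastAll tab4 4 2 [[], [], [1], [2, 0]]
    [[], [], [1], [2, 1]]
    [[0, 1], [], [], []]
    [[0, 1], [], [], []] 25 13 = true := by decide +kernel

theorem chk_R1u3 : CertOK tab4 4 2 [[], [], [1], [2, 0]]
    [[], [], [1], [2, 1]]
    [[0, 1], [], [], []]
    [[0, 1], [], [], []] :=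
  certOK_of_all (by norm_num) (by norm_num) close4 (w := 25) (D := 13) (by norm_num) fast_R1u3

theorem fast_R1u4 : fastAll tab4 4 3 [[], [], [1], [2, 0]]
    [[], [], [1], [2, 1]]
    [[0, 1, 2], [], [], []]
    [[0, 1, 2], [], [], []] 32 16 = true := by decide +kernel

theorem chk_R1u4 : CertOK tab4 4 3 [[], [], [1], [2, 0]]
    [[], [], [1], [2, 1]]
    [[0, 1, 2], [], [], []]
    [[0, 1, 2], [], [], []] :=
  certOK_of_all (by norm_num) (by norm_num) close4 (w := 32) (D := 16) (by norm_num) fast_R1u4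

theorem fast_C4m3 : fastAll tab5 5 2 [[], [], [1], [2], [3, 0]]
    [[], [], [1], [2], [3, 1]]
    [[0, 1], [], [], [], []]
    [[0, 1], [], [], [], []] 34 19 = true := by decide +kernel

theorem chk_C4m3 : CertOK tab5 5 2 [[], [], [1], [2], [3, 0]]
    [[], [], [1], [2], [3, 1]]
    [[0, 1], [], [], [], []]
    [[0, 1], [], [], [], []] :=
  certOK_of_all (by norm_num) (by norm_num) close5 (w := 34) (D := 19) (by norm_num) fast_C4m3

theorem fast_C4m4 : fastAll tab5 5 3 [[], [], [1], [2], [3, 0]]
    [[], [], [1], [2], [3, 1]]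
    [[0, 1, 2], [], [], [], []]
    [[0, 1, 2], [], [], [], []] 43 23 = true := by decide +kernel

theorem chk_C4m4 : CertOK tab5 5 3 [[], [], [1], [2], [3, 0]]
    [[], [], [1], [2], [3, 1]]
    [[0, 1, 2], [], [], [], []]
    [[0, 1, 2], [], [], [], []] :=
  certOK_of_all (by norm_num) (by norm_num) close5 (w := 43) (D := 23) (by norm_num) fast_C4m4

theorem fast_P5 : fastAll tab5 5 0 [[], [0], [1], [2], [3]]
    [[], [0], [1, 0], [], [3]]
    [[], [], [], [], []]
    [[], [], [], [], []] 17 11 = true := by decide +kernel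

theorem chk_P5 : CertOK tab5 5 0 [[], [0], [1], [2], [3]]
    [[], [0], [1, 0], [], [3]]
    [[], [], [], [], []]
    [[], [], [], [], []] :=
  certOK_of_all (by norm_num) (by norm_num) close5 (w := 17) (D := 11) (by norm_num) fast_P5

theorem fast_R1a : fastAll tab4 4 2 [[], [], [1], [0]]
    [[], [], [1], [0]]
    [[0], [], [0], [1]]
    [[], [0], [0], [1]] 24 12 = true := by decide +kernel

theorem chk_R1a : CertOK tab4 4 2 [[], [], [1], [0]]
    [[], [], [1], [0]]
    [[0], [], [0], [1]]
    [[], [0], [0], [1]] :=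
  certOK_of_all (by norm_num) (by norm_num) close4 (w := 24) (D := 12) (by norm_num) fast_R1a

theorem fast_R2a : fastAll tab4 4 3 [[], [], [1], [0]]
    [[], [], [0], [1]]
    [[0], [1], [0], [2]]
    [[0], [1], [0], [2]] 31 15 = true := by decide +kernel

theorem chk_R2a : CertOK tab4 4 3 [[], [], [1], [0]]
    [[], [], [0], [1]]
    [[0], [1], [0], [2]]
    [[0], [1], [0], [2]] :=
  certOK_of_all (by norm_num) (by norm_num) close4 (w := 31) (D := 15) (by norm_num) fast_R2a

theorem fast_R2b : fastAll tab4 4 2 [[], [], [1], [0]]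
    [[], [], [0], [1]]
    [[0], [1], [0], [1]]
    [[0], [1], [0], [1]] 23 11 = true := by decide +kernel

theorem chk_R2b : CertOK tab4 4 2 [[], [], [1], [0]]
    [[], [], [0], [1]]
    [[0], [1], [0], [1]]
    [[0], [1], [0], [1]] :=
  certOK_of_all (by norm_num) (by norm_num) close4 (w := 23) (D := 11) (by norm_num) fast_R2b

theorem fast_F1a : fastAll tab5 5 3 [[], [], [1], [], [3]]
    [[], [], [1], [], [3]]
    [[0, 1, 2], [], [], [], []]
    [[1, 2], [0], [], [], []] 43 23 = true := by decide +kernel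

theorem chk_F1a : CertOK tab5 5 3 [[], [], [1], [], [3]]
    [[], [], [1], [], [3]]
    [[0, 1, 2], [], [], [], []]
    [[1, 2], [0], [], [], []] :=
  certOK_of_all (by norm_num) (by norm_num) close5 (w := 43) (D := 23) (by norm_num) fast_F1a

theorem fast_P3P4 : fastAll tab7 7 0 [[], [0], [1], [], [3], [4], [5]]
    [[], [0], [1, 0], [], [3], [], [5]]
    [[], [], [], [], [], [], []]
    [[], [], [], [], [], [], []] 31 22 = true := by decide +kernel

theorem chk_P3P4 : CertOK tab7 7 0 [[], [0], [1], [], [3], [4], [5]]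
    [[], [0], [1, 0], [], [3], [], [5]]
    [[], [], [], [], [], [], []]
    [[], [], [], [], [], [], []] :=
  certOK_of_all (by norm_num) (by norm_num) close7 (w := 31) (D := 22) (by norm_num) fast_P3P4

theorem fast_P3C4 : fastAll tab7 7 0 [[], [0], [1], [], [3], [4], [5, 3]]
    [[], [0], [1, 0], [], [3], [4], [5]]
    [[], [], [], [], [], [], []]
    [[], [], [], [], [], [], []] 31 22 = true := by decide +kernel

theorem chk_P3C4 : CertOK tab7 7 0 [[], [0], [1], [], [3], [4], [5, 3]]
    [[], [0], [1, 0], [], [3], [4], [5]]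
    [[], [], [], [], [], [], []]
    [[], [], [], [], [], [], []] :=
  certOK_of_all (by norm_num) (by norm_num) close7 (w := 31) (D := 22) (by norm_num) fast_P3C4

end Pool.Agent.W_MP_d15038_ex
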