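import Pool.Agent.W_MP_d15038_fx.Digit
import Pool.Agent.W_MP_d15038_ex.TabsOK

/-!
# Certificates
-/

set_option autoImplicit false
set_option maxRecDepth 10000000

namespace Pool.Agent.W_MP_d15038_ex

theorem fast_P4P4 : fastAll tab8 8 0 [[], [0], [1], [2], [], [4], [5], [6]]
    [[], [0], [1, 0], [], [], [4], [3], [6]]
    [[], [], [], [], [], [], [], []]
    [[], [], [], [], [], [], [], []] 40 29 = true := by decide +kernel

theorem chk_P4P4 : CertOK tab8 8 0 [[], [0], [1], [2], [], [4], [5], [6]]
    [[], [0], [1, 0], [], [], [4], [3], [6]]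
    [[], [], [], [], [], [], [], []]
    [[], [], [], [], [], [], [], []] :=
  certOK_of_all (by norm_num) (by norm_num) close8 (w := 40) (D := 29) (by norm_num) fast_P4P4

theorem fast_C4C4 : fastAll tab8 8 0 [[], [0], [1], [2, 0], [], [4], [5], [6, 4]]
    [[], [0], [1, 0], [], [3], [4], [5], [6, 3]]
    [[], [], [], [], [], [], [], []]
    [[], [], [], [], [], [], [], []] 40 29 = true := by decide +kernel

theorem chk_C4C4 : CertOK tab8 8 0 [[], [0], [1], [2, 0], [], [4], [5], [6, 4]]
    [[], [0], [1, 0], [], [3], [4], [5], [6, 3]]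
    [[], [], [], [], [], [], [], []]
    [[], [], [], [], [], [], [], []] :=
  certOK_of_all (by norm_num) (by norm_num) close8 (w := 40) (D := 29) (by norm_num) fast_C4C4

end Pool.Agent.W_MP_d15038_ex
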