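import Pool.Agent.W_MP_d15038_fx.Digit
import Pool.Agent.W_MP_d15038_ex.TabsOK

/-!
# Certificates
-/

set_option autoImplicit false
set_option maxRecDepth 10000000

namespace Pool.Agent.W_MP_d15038_ex

theorem fast_F1b : fastAll tab6 6 3 [[], [], [1], [], [3], [4]]
    [[], [], [1], [], [3], [4]]
    [[0, 1, 2], [], [], [], [], []]
    [[1, 2], [0], [], [], [], []] 56 31 = true := by decide +kernel

theorem chk_F1b : CertOK tab6 6 3 [[], [], [1], [], [3], [4]]
    [[], [], [1], [], [3], [4]]
    [[0, 1, 2], [], [], [], [], []]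
    [[1, 2], [0], [], [], [], []] :=
  certOK_of_all (by norm_num) (by norm_num) close6 (w := 56) (D := 31) (by norm_num) fast_F1b

end Pool.Agent.W_MP_d15038_ex
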