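import Pool.Agent.W_MP_d15038_fx.Digit
import Pool.Agent.W_MP_d15038_ex.TabsOK

/-!
# Certificates
-/

set_option autoImplicit false
set_option maxRecDepth 10000000

namespace Pool.Agent.W_MP_d15038_ex

/-- the data -/
def d9NH : List (List ℕ) := [[], [0], [1], [], [3], [4], [], [6], [7]]
def d9NH' : List (List ℕ) := [[], [0], [1, 0], [], [3], [], [], [6], [5]]
def d9M : List (List ℕ) := [[], [], [], [], [], [], [], [], []]

end Pool.Agent.W_MP_d15038_ex
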