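import Pool.Agent.W_MP_d15038_fx.Digit
import Pool.Agent.W_MP_d15038_ex.ChkDD

/-!
# Certificates
-/

set_option autoImplicit false
set_option maxRecDepth 10000000

namespace Pool.Agent.W_MP_d15038_ex

theorem f9_b2 : bd2 tab9 9 (grpF tab9.types d9NH d9NH' 9) 50 37 [] = true := by
  decide +kernel

end Pool.Agent.W_MP_d15038_ex
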