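import Pool.Agent.W_MP_d15038_ex.ChkD0
import Pool.Agent.W_MP_d15038_ex.ChkD1
import Pool.Agent.W_MP_d15038_ex.ChkD2

/-!
# Certificates
-/

set_option autoImplicit false
set_option maxRecDepth 10000000

namespace Pool.Agent.W_MP_d15038_ex

theorem chk_TP3 : CertOK tab9 9 0 [[], [0], [1], [], [3], [4], [], [6], [7]]
    [[], [0], [1, 0], [], [3], [], [], [6], [5]]
    [[], [], [], [], [], [], [], [], []]
    [[], [], [], [], [], [], [], [], []] := by
  obtain ⟨h1, h2⟩ := cond_false_right f9_b3s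
  change CertOK tab9 9 0 d9NH d9NH' d9M d9M
  refine certOK_of (by norm_num) (by norm_num) close9 (w := 50) (D := 37) f9_len ⟨f9_small, h2⟩ ?_
  intro p hp
  have hp' : p ∈ [(([], 0, 0) : Part)] := hp
  rw [List.mem_singleton] at hp'
  subst hp'
  exact ⟨50, 37, by norm_num, f9_small, f9_b1, f9_b2, h1⟩

end Pool.Agent.W_MP_d15038_ex
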