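import Pool.Agent.W_MP_d15038_fx.Digit
import Pool.Agent.W_MP_d15038_ex.TabsOK

/-!
# Certificates
-/

set_option autoImplicit false
set_option maxRecDepth 10000000

namespace Pool.Agent.W_MP_d15038_ex

theorem fast_C4C5 : fastAll tab7 7 2 [[], [0], [1], [], [3], [4], [5]]
    [[], [0], [1, 0], [], [3], [], [5]]
    [[0], [], [0], [1], [], [], [1]]
    [[], [], [], [0], [0], [1], [1]] 55 32 = true := by decide +kernel

theorem chk_C4C5 : CertOK tab7 7 2 [[], [0], [1], [], [3], [4], [5]]
    [[], [0], [1, 0], [], [3], [], [5]]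
    [[0], [], [0], [1], [], [], [1]]
    [[], [], [], [0], [0], [1], [1]] :=
  certOK_of_all (by norm_num) (by norm_num) close7 (w := 55) (D := 32) (by norm_num) fast_C4C5

end Pool.Agent.W_MP_d15038_ex
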