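import Pool.Agent.W_MP_d15038_fx.Digit
import Pool.Agent.W_MP_d15038_ex.TabsOK

/-!
# Certificates
-/

set_option autoImplicit false
set_option maxRecDepth 10000000

namespace Pool.Agent.W_MP_d15038_ex

/-- the data -/
def dNH : List (List ℕ) := [[], [0], [1], [2], [3, 0], [], [5], [6]]
def dNH' : List (List ℕ) := [[], [0], [1, 0], [], [3], [4], [5], [6]]
def dMH : List (List ℕ) := [[], [], [], [], [], [1], [], [0]]
def dMH' : List (List ℕ) := [[], [], [], [1], [], [], [], [0]]

end Pool.Agent.W_MP_d15038_ex
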