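import Pool.Agent.W_MP_d15038_fx.Digit
import Pool.Agent.W_MP_d15038_ex.ChkFD

/-!
# Certificates
-/

set_option autoImplicit false
set_option maxRecDepth 10000000

namespace Pool.Agent.W_MP_d15038_ex

theorem f5_b2 : bd2 tab8 8 (grpF tab8.types dNH dNH' 8) 70 43 (lmap (mkClu 8 dMH dMH') [[1], [0]]) = true := by
  decide +kernel

end Pool.Agent.W_MP_d15038_ex
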