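import Pool.Agent.W_MP_d15038_ex.ChkF0
import Pool.Agent.W_MP_d15038_ex.ChkF1
import Pool.Agent.W_MP_d15038_ex.ChkF2
import Pool.Agent.W_MP_d15038_ex.ChkF3

/-!
# Certificates
-/

set_option autoImplicit false
set_option maxRecDepth 10000000

namespace Pool.Agent.W_MP_d15038_ex

theorem chk_C5C5 : CertOK tab8 8 2 [[], [0], [1], [2], [3, 0], [], [5], [6]]
    [[], [0], [1, 0], [], [3], [4], [5], [6]]
    [[], [], [], [], [], [1], [], [0]]
    [[], [], [], [1], [], [], [], [0]] := by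
  obtain ⟨h1, h2⟩ := cond_false_right f5_b3s
  change CertOK tab8 8 2 dNH dNH' dMH dMH'
  refine certOK_of (by norm_num) (by norm_num) close8 (w := 70) (D := 43) f5_len ⟨f5_small, h2⟩ ?_
  intro p hp
  have hp' : p ∈ [(([[1, 0]], 1, 1) : Part), ([[1], [0]], 0, 0)] := hp
  rcases List.mem_cons.1 hp' with rfl | hp'
  · exact ⟨62, 43, by norm_num, fastPat_sound f5_one⟩
  · rw [List.mem_singleton] at hp'
    subst hp'
    exact ⟨70, 43, by norm_num, f5_small, f5_b1, f5_b2, h1⟩

end Pool.Agent.W_MP_d15038_ex
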