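import Pool.Agent.W_MP_d15038_ex.Excl

/-!
# Classification of the components
-/

set_option autoImplicit false
set_option linter.unusedSectionVars false
set_option linter.unusedSimpArgs false

open Finset

namespace Pool.Agent.W_MP_d15038_ex

open scoped Classical

section cl

variable {V : Type} [Fintype V] {H : SimpleGraph V} {q : ℝ}

theorem Good.side (h : Good H q) {x a b : V} (hx : Nb H x [a, b]) (hab : b ≠ a)
    (ha : H.degree a = 2) (hb : H.degree b = 2) :
    ∃ a2, a2 ≠ x ∧ Nb H a [x, a2] ∧ (a2 = b ∨ H.degree a2 = 2) := by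
  have axa : H.Adj x a := hx.adj (by simp)
  obtain ⟨a2, h1, h2⟩ := nb_two axa.symm ha
  refine ⟨a2, h1, h2, ?_⟩
  by_contra hcon
  push Not at hcon
  have h3 := h.pos a2
  have h4 := h.le_two a2
  have h5 : H.degree a2 = 1 := by omega
  have a3 : H.Adj a a2 := h2.adj (by simp)
  have hdx : H.degree x = 2 := hx.deg (by simpa using hab.symm)
  rcases h.leaf_class (nb_one a3.symm h5) with k | ⟨c, k⟩ | ⟨c, d, k⟩
  · have := k.deg a (by simp)
    omega
  · have hd := k.degs
    have hac : H.Adj a c := k.2.2.1.adj (by simp)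
    have hnd := k.1
    simp only [List.nodup_cons, List.mem_cons, List.not_mem_nil, or_false, not_false_eq_true,
      List.nodup_nil, and_true, not_or] at hnd
    rcases (h2.two c).1 hac with e | e
    · subst e; omega
    · exact hnd.1.2 e.symm
  · have hd := k.degs
    have hac : H.Adj a c := k.2.2.1.adj (by simp)
    have hcd : H.Adj c d := k.2.2.2.1.adj (by simp)
    have hnd := k.1
    simp only [List.nodup_cons, List.mem_cons, List.not_mem_nil, or_false, not_false_eq_true,
      List.nodup_nil, and_true, not_or] at hnd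
    rcases (h2.two c).1 hac with e | e
    · subst e
      rcases (hx.two d).1 hcd with e | e
      · exact hnd.2.1.2 e.symm
      · subst e; omega
    · exact hnd.1.2.1 e.symm

theorem Good.class2 (h : Good H q) {x : V} (hx : H.degree x = 2) :
    (∃ a c, IsP3 H a x c) ∨ (∃ a b c d, IsP4 H a b c d ∧ (x = b ∨ x = c)) ∨
      (∃ b c, IsTri H x b c) ∨ (∃ b c d, IsC4 H x b c d) ∨ ∃ b c d e, IsC5 H x b c d e := by
  have hs : ∀ x y, H.Adj x y → H.Adj y x := fun x y h => h.symm
  have hi : ∀ x, ¬ H.Adj x x := fun x h => h.ne rfl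
  obtain ⟨a, axa⟩ := (SimpleGraph.degree_pos_iff_exists_adj _ _).1 (show 0 < H.degree x by omega)
  obtain ⟨b, hab, n0⟩ := nb_two axa hx
  have axb : H.Adj x b := n0.adj (by simp)
  have leafc : ∀ a', H.Adj x a' → H.degree a' = 1 →
      (∃ a c, IsP3 H a x c) ∨ (∃ a b c d, IsP4 H a b c d ∧ (x = b ∨ x = c)) := by
    intro a' h1 h2
    rcases h.leaf_class (nb_one h1.symm h2) with k | ⟨c, k⟩ | ⟨c, d, k⟩
    · have := k.deg x (by simp)
      omega
    · exact Or.inl ⟨_, _, k⟩
    · exact Or.inr ⟨_, _, _, _, k, Or.inl rfl⟩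
  have pa := h.pos a
  have pb := h.pos b
  have ta := h.le_two a
  have tb := h.le_two b
  by_cases ha : H.degree a = 1
  · rcases leafc a axa ha with k | k
    · exact Or.inl k
    · exact Or.inr (Or.inl k)
  by_cases hb : H.degree b = 1
  · rcases leafc b axb hb with k | k
    · exact Or.inl k
    · exact Or.inr (Or.inl k)
  have ha2 : H.degree a = 2 := by omega
  have hb2 : H.degree b = 2 := by omega
  obtain ⟨a2, m1, n1, m2⟩ := h.side n0 hab ha2 hb2
  obtain ⟨b2, m3, n2, m4⟩ := h.side n0.swap hab.symm hb2 ha2
  have f0 := n0.two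
  have f1 := n1.two
  have f2 := n2.two
  have aaa : H.Adj a a2 := n1.adj (by simp)
  have abb : H.Adj b b2 := n2.adj (by simp)
  by_cases hc1 : a2 = b
  · subst hc1
    refine Or.inr (Or.inr (Or.inl ⟨a, a2, ?_, n0.swap, n1, ?_⟩))
    · simp only [List.nodup_cons, List.mem_cons, List.not_mem_nil, or_false, not_false_eq_true,
        List.nodup_nil, and_true, not_or]
      repeat' apply And.intro
      all_goals grind
    · have : b2 = a := by
        rcases (f2 a).1 aaa.symm with e | e
        · exact absurd e axa.ne.symm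
        · exact e.symm
      subst this
      exact n2.swap
  have hc2 : b2 ≠ a := by
    rintro rfl
    grind
  have ha3 : H.degree a2 = 2 := by tauto
  have hb3 : H.degree b2 = 2 := by tauto
  obtain ⟨a3, m5, n3⟩ := nb_two aaa.symm ha3
  obtain ⟨b3, m6, n4⟩ := nb_two abb.symm hb3
  have f3 := n3.two
  have f4 := n4.two
  have aa3 : H.Adj a2 a3 := n3.adj (by simp)
  have ab3 : H.Adj b2 b3 := n4.adj (by simp)
  by_cases hc3 : a2 = b2
  · subst hc3
    refine Or.inr (Or.inr (Or.inr (Or.inl ⟨a, a2, b, ?_, n0.swap, n1, ?_, n2.swap⟩)))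
    · simp only [List.nodup_cons, List.mem_cons, List.not_mem_nil, or_false, not_false_eq_true,
        List.nodup_nil, and_true, not_or]
      repeat' apply And.intro
      all_goals grind
    · have : a3 = b := by
        rcases (f3 b).1 abb.symm with e | e
        · exact absurd e hab
        · exact e.symm
      subst this
      exact n3
  by_cases hc4 : a3 = b2
  · subst hc4
    refine Or.inr (Or.inr (Or.inr (Or.inr ⟨a, a2, a3, b, ?_, n0.swap, n1, n3, ?_, n2.swap⟩)))
    · simp only [List.nodup_cons, List.mem_cons, List.not_mem_nil, or_false, not_false_eq_true,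
        List.nodup_nil, and_true, not_or]
      repeat' apply And.intro
      all_goals grind
    · have : b3 = a2 := by
        rcases (f4 a2).1 aa3.symm with e | e
        · exact absurd e hc1
        · exact e.symm
      subst this
      exact n4.swap
  exfalso
  by_cases hc5 : a3 = b3
  · subst hc5
    refine h.nb (cmp_R2b h.q0 h.q1 ?_ n2 n3 n1 n4)
    simp only [List.nodup_cons, List.mem_cons, List.not_mem_nil, or_false, not_false_eq_true,
      List.nodup_nil, and_true, not_or]
    repeat' apply And.intro
    all_goals grind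
  · refine h.nb (cmp_R2a h.q0 h.q1 ?_ n2 n3.swap.swap n1 n4)
    simp only [List.nodup_cons, List.mem_cons, List.not_mem_nil, or_false, not_false_eq_true,
      List.nodup_nil, and_true, not_or]
    repeat' apply And.intro
    all_goals grind

end cl

end Pool.Agent.W_MP_d15038_ex
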