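import Pool.Agent.W_MP_d15038_ex.SurgList
import Pool.Agent.W_MP_d15038_ex.TabsOK
import Pool.Agent.W_MP_d15038_ex.ChkA
import Pool.Agent.W_MP_d15038_ex.ChkB
import Pool.Agent.W_MP_d15038_ex.ChkB2
import Pool.Agent.W_MP_d15038_ex.ChkC
import Pool.Agent.W_MP_d15038_ex.ChkD
import Pool.Agent.W_MP_d15038_ex.ChkE
import Pool.Agent.W_MP_d15038_ex.ChkF

/-!
# The local comparisons
-/

set_option autoImplicit false
set_option maxRecDepth 100000

namespace Pool.Agent.W_MP_d15038_ex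

section

variable {V : Type} [Fintype V] {H : SimpleGraph V} {q : ℝ}

theorem cmp_R1u3 (hq0 : 0 < q) (hq1 : q < 1) {v4 v1 v2 v3 a b : V}
    (hnd : [v4, v1, v2, v3, a, b].Nodup)
    (n0 : Nb H v4 [v3, a, b])
    (n1 : Nb H v1 [v2])
    (n2 : Nb H v2 [v1, v3])
    (n3 : Nb H v3 [v2, v4])
    : Better H q :=
  surgery_list (k := 4) (r := 2) (A := [[3, 4, 5], [2], [1, 3], [2, 0]])
    (A' := [[4, 5], [2, 3], [1, 3], [2, 1]])
    hnd rfl rfl ⟨n0, n1, n2, n3, trivial⟩ (by decide) (by decide) (by decide) hq0 hq1 (by decide) (by decide)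
    close4 rfl rfl rfl rfl chk_R1u3

theorem cmp_R1u4 (hq0 : 0 < q) (hq1 : q < 1) {v4 v1 v2 v3 a b c : V}
    (hnd : [v4, v1, v2, v3, a, b, c].Nodup)
    (n0 : Nb H v4 [v3, a, b, c])
    (n1 : Nb H v1 [v2])
    (n2 : Nb H v2 [v1, v3])
    (n3 : Nb H v3 [v2, v4])
    : Better H q :=
  surgery_list (k := 4) (r := 3) (A := [[3, 4, 5, 6], [2], [1, 3], [2, 0]])
    (A' := [[4, 5, 6], [2, 3], [1, 3], [2, 1]])
    hnd rfl rfl ⟨n0, n1, n2, n3, trivial⟩ (by decide) (by decide) (by decide) hq0 hq1 (by decide) (by decide)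
    close4 rfl rfl rfl rfl chk_R1u4

theorem cmp_C4m3 (hq0 : 0 < q) (hq1 : q < 1) {v5 v1 v2 v3 v4 a b : V}
    (hnd : [v5, v1, v2, v3, v4, a, b].Nodup)
    (n0 : Nb H v5 [v4, a, b])
    (n1 : Nb H v1 [v2])
    (n2 : Nb H v2 [v1, v3])
    (n3 : Nb H v3 [v2, v4])
    (n4 : Nb H v4 [v3, v5])
    : Better H q :=
  surgery_list (k := 5) (r := 2) (A := [[4, 5, 6], [2], [1, 3], [2, 4], [3, 0]])
    (A' := [[5, 6], [2, 4], [1, 3], [2, 4], [3, 1]])
    hnd rfl rfl ⟨n0, n1, n2, n3, n4, trivial⟩ (by decide) (by decide) (by decide) hq0 hq1 (by decide) (by decide)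
    close5 rfl rfl rfl rfl chk_C4m3

theorem cmp_C4m4 (hq0 : 0 < q) (hq1 : q < 1) {v5 v1 v2 v3 v4 a b c : V}
    (hnd : [v5, v1, v2, v3, v4, a, b, c].Nodup)
    (n0 : Nb H v5 [v4, a, b, c])
    (n1 : Nb H v1 [v2])
    (n2 : Nb H v2 [v1, v3])
    (n3 : Nb H v3 [v2, v4])
    (n4 : Nb H v4 [v3, v5])
    : Better H q :=
  surgery_list (k := 5) (r := 3) (A := [[4, 5, 6, 7], [2], [1, 3], [2, 4], [3, 0]])
    (A' := [[5, 6, 7], [2, 4], [1, 3], [2, 4], [3, 1]])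
    hnd rfl rfl ⟨n0, n1, n2, n3, n4, trivial⟩ (by decide) (by decide) (by decide) hq0 hq1 (by decide) (by decide)
    close5 rfl rfl rfl rfl chk_C4m4

theorem cmp_P5 (hq0 : 0 < q) (hq1 : q < 1) {v1 v2 v3 v4 v5 : V}
    (hnd : [v1, v2, v3, v4, v5].Nodup)
    (n0 : Nb H v1 [v2])
    (n1 : Nb H v2 [v1, v3])
    (n2 : Nb H v3 [v2, v4])
    (n3 : Nb H v4 [v3, v5])
    (n4 : Nb H v5 [v4])
    : Better H q :=
  surgery_list (k := 5) (r := 0) (A := [[1], [0, 2], [1, 3], [2, 4], [3]])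
    (A' := [[1, 2], [0, 2], [1, 0], [4], [3]])
    hnd rfl rfl ⟨n0, n1, n2, n3, n4, trivial⟩ (by decide) (by decide) (by decide) hq0 hq1 (by decide) (by decide)
    close5 rfl rfl rfl rfl chk_P5

theorem cmp_R1a (hq0 : 0 < q) (hq1 : q < 1) {v4 v1 v2 v5 v3 v6 : V}
    (hnd : [v4, v1, v2, v5, v3, v6].Nodup)
    (n0 : Nb H v4 [v3, v5])
    (n1 : Nb H v1 [v2])
    (n2 : Nb H v2 [v1, v3])
    (n3 : Nb H v5 [v4, v6])
    : Better H q :=
  surgery_list (k := 4) (r := 2) (A := [[4, 3], [2], [1, 4], [0, 5]])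
    (A' := [[3], [2, 4], [1, 4], [0, 5]])
    hnd rfl rfl ⟨n0, n1, n2, n3, trivial⟩ (by decide) (by decide) (by decide) hq0 hq1 (by decide) (by decide)
    close4 rfl rfl rfl rfl chk_R1a

theorem cmp_R2a (hq0 : 0 < q) (hq1 : q < 1) {b a2 a b2 x a3 b3 : V}
    (hnd : [b, a2, a, b2, x, a3, b3].Nodup)
    (n0 : Nb H b [x, b2])
    (n1 : Nb H a2 [a, a3])
    (n2 : Nb H a [x, a2])
    (n3 : Nb H b2 [b, b3])
    : Better H q :=
  surgery_list (k := 4) (r := 3) (A := [[4, 3], [2, 5], [4, 1], [0, 6]])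
    (A' := [[2, 4], [3, 5], [4, 0], [1, 6]])
    hnd rfl rfl ⟨n0, n1, n2, n3, trivial⟩ (by decide) (by decide) (by decide) hq0 hq1 (by decide) (by decide)
    close4 rfl rfl rfl rfl chk_R2a

theorem cmp_R2b (hq0 : 0 < q) (hq1 : q < 1) {b a2 a b2 x a3 : V}
    (hnd : [b, a2, a, b2, x, a3].Nodup)
    (n0 : Nb H b [x, b2])
    (n1 : Nb H a2 [a, a3])
    (n2 : Nb H a [x, a2])
    (n3 : Nb H b2 [b, a3])
    : Better H q :=
  surgery_list (k := 4) (r := 2) (A := [[4, 3], [2, 5], [4, 1], [0, 5]])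
    (A' := [[2, 4], [3, 5], [4, 0], [1, 5]])
    hnd rfl rfl ⟨n0, n1, n2, n3, trivial⟩ (by decide) (by decide) (by decide) hq0 hq1 (by decide) (by decide)
    close4 rfl rfl rfl rfl chk_R2b

theorem cmp_F1a (hq0 : 0 < q) (hq1 : q < 1) {u v w v1 w1 z a b : V}
    (hnd : [u, v, w, v1, w1, z, a, b].Nodup)
    (n0 : Nb H u [z, a, b])
    (n1 : Nb H v [w])
    (n2 : Nb H w [v])
    (n3 : Nb H v1 [w1])
    (n4 : Nb H w1 [v1])
    : Better H q :=
  surgery_list (k := 5) (r := 3) (A := [[5, 6, 7], [2], [1], [4], [3]])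
    (A' := [[6, 7], [5, 2], [1], [4], [3]])
    hnd rfl rfl ⟨n0, n1, n2, n3, n4, trivial⟩ (by decide) (by decide) (by decide) hq0 hq1 (by decide) (by decide)
    close5 rfl rfl rfl rfl chk_F1a

theorem cmp_F1b (hq0 : 0 < q) (hq1 : q < 1) {u v w a1 b1 c1 z a b : V}
    (hnd : [u, v, w, a1, b1, c1, z, a, b].Nodup)
    (n0 : Nb H u [z, a, b])
    (n1 : Nb H v [w])
    (n2 : Nb H w [v])
    (n3 : Nb H a1 [b1])
    (n4 : Nb H b1 [a1, c1])
    (n5 : Nb H c1 [b1])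
    : Better H q :=
  surgery_list (k := 6) (r := 3) (A := [[6, 7, 8], [2], [1], [4], [3, 5], [4]])
    (A' := [[7, 8], [6, 2], [1], [4], [3, 5], [4]])
    hnd rfl rfl ⟨n0, n1, n2, n3, n4, n5, trivial⟩ (by decide) (by decide) (by decide) hq0 hq1 (by decide) (by decide)
    close6 rfl rfl rfl rfl chk_F1b

theorem cmp_P3P4 (hq0 : 0 < q) (hq1 : q < 1) {a b c d e f g : V}
    (hnd : [a, b, c, d, e, f, g].Nodup)
    (n0 : Nb H a [b])
    (n1 : Nb H b [a, c])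
    (n2 : Nb H c [b])
    (n3 : Nb H d [e])
    (n4 : Nb H e [d, f])
    (n5 : Nb H f [e, g])
    (n6 : Nb H g [f])
    : Better H q :=
  surgery_list (k := 7) (r := 0) (A := [[1], [0, 2], [1], [4], [3, 5], [4, 6], [5]])
    (A' := [[1, 2], [0, 2], [1, 0], [4], [3], [6], [5]])
    hnd rfl rfl ⟨n0, n1, n2, n3, n4, n5, n6, trivial⟩ (by decide) (by decide) (by decide) hq0 hq1 (by decide) (by decide)
    close7 rfl rfl rfl rfl chk_P3P4

theorem cmp_P3C4 (hq0 : 0 < q) (hq1 : q < 1) {a b c d e f g : V}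
    (hnd : [a, b, c, d, e, f, g].Nodup)
    (n0 : Nb H a [b])
    (n1 : Nb H b [a, c])
    (n2 : Nb H c [b])
    (n3 : Nb H d [g, e])
    (n4 : Nb H e [d, f])
    (n5 : Nb H f [e, g])
    (n6 : Nb H g [f, d])
    : Better H q :=
  surgery_list (k := 7) (r := 0) (A := [[1], [0, 2], [1], [6, 4], [3, 5], [4, 6], [5, 3]])
    (A' := [[1, 2], [0, 2], [1, 0], [4], [3, 5], [4, 6], [5]])
    hnd rfl rfl ⟨n0, n1, n2, n3, n4, n5, n6, trivial⟩ (by decide) (by decide) (by decide) hq0 hq1 (by decide) (by decide)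
    close7 rfl rfl rfl rfl chk_P3C4

theorem cmp_P4P4 (hq0 : 0 < q) (hq1 : q < 1) {a b c d e f g h : V}
    (hnd : [a, b, c, d, e, f, g, h].Nodup)
    (n0 : Nb H a [b])
    (n1 : Nb H b [a, c])
    (n2 : Nb H c [b, d])
    (n3 : Nb H d [c])
    (n4 : Nb H e [f])
    (n5 : Nb H f [e, g])
    (n6 : Nb H g [f, h])
    (n7 : Nb H h [g])
    : Better H q :=
  surgery_list (k := 8) (r := 0) (A := [[1], [0, 2], [1, 3], [2], [5], [4, 6], [5, 7], [6]])
    (A' := [[1, 2], [0, 2], [1, 0], [6], [5], [4], [3, 7], [6]])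
    hnd rfl rfl ⟨n0, n1, n2, n3, n4, n5, n6, n7, trivial⟩ (by decide) (by decide) (by decide) hq0 hq1 (by decide) (by decide)
    close8 rfl rfl rfl rfl chk_P4P4

theorem cmp_C4C4 (hq0 : 0 < q) (hq1 : q < 1) {a b c d e f g h : V}
    (hnd : [a, b, c, d, e, f, g, h].Nodup)
    (n0 : Nb H a [d, b])
    (n1 : Nb H b [a, c])
    (n2 : Nb H c [b, d])
    (n3 : Nb H d [c, a])
    (n4 : Nb H e [h, f])
    (n5 : Nb H f [e, g])
    (n6 : Nb H g [f, h])
    (n7 : Nb H h [g, e])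
    : Better H q :=
  surgery_list (k := 8) (r := 0) (A := [[3, 1], [0, 2], [1, 3], [2, 0], [7, 5], [4, 6], [5, 7], [6, 4]])
    (A' := [[1, 2], [0, 2], [1, 0], [4, 7], [3, 5], [4, 6], [5, 7], [6, 3]])
    hnd rfl rfl ⟨n0, n1, n2, n3, n4, n5, n6, n7, trivial⟩ (by decide) (by decide) (by decide) hq0 hq1 (by decide) (by decide)
    close8 rfl rfl rfl rfl chk_C4C4

theorem cmp_P3C5 (hq0 : 0 < q) (hq1 : q < 1) {a b c d e f g h : V}
    (hnd : [a, b, c, d, e, f, g, h].Nodup)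
    (n0 : Nb H a [b])
    (n1 : Nb H b [a, c])
    (n2 : Nb H c [b])
    (n3 : Nb H d [h, e])
    (n4 : Nb H e [d, f])
    (n5 : Nb H f [e, g])
    (n6 : Nb H g [f, h])
    (n7 : Nb H h [g, d])
    : Better H q :=
  surgery_list (k := 8) (r := 0) (A := [[1], [0, 2], [1], [7, 4], [3, 5], [4, 6], [5, 7], [6, 3]])
    (A' := [[1, 2], [0, 2], [1, 0], [4, 5], [3, 5], [4, 3], [7], [6]])
    hnd rfl rfl ⟨n0, n1, n2, n3, n4, n5, n6, n7, trivial⟩ (by decide) (by decide) (by decide) hq0 hq1 (by decide) (by decide)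
    close8 rfl rfl rfl rfl chk_P3C5

theorem cmp_C4P4 (hq0 : 0 < q) (hq1 : q < 1) {a b c d e f g h : V}
    (hnd : [a, b, c, d, e, f, g, h].Nodup)
    (n0 : Nb H a [d, b])
    (n1 : Nb H b [a, c])
    (n2 : Nb H c [b, d])
    (n3 : Nb H d [c, a])
    (n4 : Nb H e [f])
    (n5 : Nb H f [e, g])
    (n6 : Nb H g [f, h])
    (n7 : Nb H h [g])
    : Better H q :=
  surgery_list (k := 8) (r := 0) (A := [[3, 1], [0, 2], [1, 3], [2, 0], [5], [4, 6], [5, 7], [6]])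
    (A' := [[1, 2], [0, 2], [1, 0], [4, 5], [3, 5], [4, 3], [7], [6]])
    hnd rfl rfl ⟨n0, n1, n2, n3, n4, n5, n6, n7, trivial⟩ (by decide) (by decide) (by decide) hq0 hq1 (by decide) (by decide)
    close8 rfl rfl rfl rfl chk_C4P4

theorem cmp_TP3 (hq0 : 0 < q) (hq1 : q < 1) {a b c d e f g h i : V}
    (hnd : [a, b, c, d, e, f, g, h, i].Nodup)
    (n0 : Nb H a [b])
    (n1 : Nb H b [a, c])
    (n2 : Nb H c [b])
    (n3 : Nb H d [e])
    (n4 : Nb H e [d, f])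
    (n5 : Nb H f [e])
    (n6 : Nb H g [h])
    (n7 : Nb H h [g, i])
    (n8 : Nb H i [h])
    : Better H q :=
  surgery_list (k := 9) (r := 0) (A := [[1], [0, 2], [1], [4], [3, 5], [4], [7], [6, 8], [7]])
    (A' := [[1, 2], [0, 2], [1, 0], [4], [3], [8], [7], [6], [5]])
    hnd rfl rfl ⟨n0, n1, n2, n3, n4, n5, n6, n7, n8, trivial⟩ (by decide) (by decide) (by decide) hq0 hq1 (by decide) (by decide)
    close9 rfl rfl rfl rfl chk_TP3

theorem cmp_C4C5 (hq0 : 0 < q) (hq1 : q < 1) {a b c e f g h d i : V}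
    (hnd : [a, b, c, e, f, g, h, d, i].Nodup)
    (n0 : Nb H a [d, b])
    (n1 : Nb H b [a, c])
    (n2 : Nb H c [b, d])
    (n3 : Nb H e [i, f])
    (n4 : Nb H f [e, g])
    (n5 : Nb H g [f, h])
    (n6 : Nb H h [g, i])
    : Better H q :=
  surgery_list (k := 7) (r := 2) (A := [[7, 1], [0, 2], [1, 7], [8, 4], [3, 5], [4, 6], [5, 8]])
    (A' := [[1, 2], [0, 2], [1, 0], [7, 4], [3, 7], [6, 8], [5, 8]])
    hnd rfl rfl ⟨n0, n1, n2, n3, n4, n5, n6, trivial⟩ (by decide) (by decide) (by decide) hq0 hq1 (by decide) (by decide)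
    close7 rfl rfl rfl rfl chk_C4C5

theorem cmp_C5C5 (hq0 : 0 < q) (hq1 : q < 1) {a b c d e f g h i j : V}
    (hnd : [a, b, c, d, e, f, g, h, i, j].Nodup)
    (n0 : Nb H a [e, b])
    (n1 : Nb H b [a, c])
    (n2 : Nb H c [b, d])
    (n3 : Nb H d [c, e])
    (n4 : Nb H e [d, a])
    (n5 : Nb H f [j, g])
    (n6 : Nb H g [f, h])
    (n7 : Nb H h [g, i])
    : Better H q :=
  surgery_list (k := 8) (r := 2) (A := [[4, 1], [0, 2], [1, 3], [2, 4], [3, 0], [9, 6], [5, 7], [6, 8]])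
    (A' := [[1, 2], [0, 2], [1, 0], [4, 9], [3, 5], [4, 6], [5, 7], [6, 8]])
    hnd rfl rfl ⟨n0, n1, n2, n3, n4, n5, n6, n7, trivial⟩ (by decide) (by decide) (by decide) hq0 hq1 (by decide) (by decide)
    close8 rfl rfl rfl rfl chk_C5C5

end

end Pool.Agent.W_MP_d15038_ex
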