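import Mathlib

/-!
# Random-cluster expansion of coloring sums, and the reliability as a linear coefficient
-/

set_option autoImplicit false

open Finset

namespace Pool.Agent.W_MP_d15038_ex

open scoped Classical in
/-- `1` if the edge is monochromatic, `q` otherwise. -/
noncomputable def wte {Y C : Type*} (q : ℝ) (τ : Y → C) (e : Sym2 Y) : ℝ :=
  if (e.map τ).IsDiag then 1 else q

section FK

open scoped Classical

variable {Y : Type*} [Fintype Y]

/-- graph with the given edges -/
abbrev gr (S : Finset (Sym2 Y)) : SimpleGraph Y := SimpleGraph.fromEdgeSet (S : Set (Sym2 Y))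

theorem mono_iff (S : Finset (Sym2 Y)) {C : Type*} (τ : Y → C) :
    (∀ e ∈ S, (e.map τ).IsDiag) ↔ ∀ x y, (gr S).Reachable x y → τ x = τ y := by
  constructor
  · rintro h x y ⟨w⟩
    induction w with
    | nil => rfl
    | @cons a b c hab _ ih =>
      rw [← ih]
      have h1 := (SimpleGraph.fromEdgeSet_adj _).1 hab
      have := h _ (Finset.mem_coe.1 h1.1)
      simpa using this
  · intro h e
    refine Sym2.inductionOn e fun x y he => ?_
    rw [Sym2.map_mk]
    by_cases hxy : x = y
    · subst hxy
      simp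
    · have : (gr S).Adj x y := (SimpleGraph.fromEdgeSet_adj _).2 ⟨Finset.mem_coe.2 he, hxy⟩
      simpa using h x y this.reachable

theorem sum_mono (S : Finset (Sym2 Y)) (m : ℕ) (ψ : Y → Fin m → ℝ) :
    ∑ τ : Y → Fin m, (if ∀ e ∈ S, (e.map τ).IsDiag then ∏ y, ψ y (τ y) else 0) =
      ∏ C : (gr S).ConnectedComponent, ∑ c : Fin m,
        ∏ y ∈ univ.filter (fun y => (gr S).connectedComponentMk y = C), ψ y c := by
  rw [Finset.prod_univ_sum, ← Finset.sum_filter]
  symm
  refine Finset.sum_bij' (fun f _ => fun y => f ((gr S).connectedComponentMk y))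
    (fun τ _ => fun C => τ C.out) ?_ ?_ ?_ ?_ ?_
  · intro f _
    rw [mem_filter]
    refine ⟨mem_univ _, (mono_iff S _).2 fun x y hxy => ?_⟩
    change f _ = f _
    rw [SimpleGraph.ConnectedComponent.eq.2 hxy]
  · intro τ _
    simp
  · intro f _
    funext C
    change f ((gr S).connectedComponentMk C.out) = f C
    congr 1
    exact Quot.out_eq C
  · intro τ hτ
    rw [mem_filter] at hτ
    funext y
    have h := (mono_iff S τ).1 hτ.2
    exact h _ _ (SimpleGraph.ConnectedComponent.exact (Quot.out_eq _))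
  · intro f _
    rw [← Finset.prod_fiberwise univ (fun y => (gr S).connectedComponentMk y)]
    refine prod_congr rfl fun C _ => prod_congr rfl fun y hy => ?_
    change ψ y (f C) = ψ y (f ((gr S).connectedComponentMk y))
    rw [(mem_filter.1 hy).2]

theorem fk_general (E : Finset (Sym2 Y)) (q : ℝ) (m : ℕ) (ψ : Y → Fin m → ℝ) :
    ∑ τ : Y → Fin m, (∏ y, ψ y (τ y)) * ∏ e ∈ E, wte q τ e =
      ∑ S ∈ E.powerset, ((1 - q) ^ S.card * q ^ (E \ S).card) *
        ∏ C : (gr S).ConnectedComponent, ∑ c : Fin m,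
          ∏ y ∈ univ.filter (fun y => (gr S).connectedComponentMk y = C), ψ y c := by
  have h1 : ∀ τ : Y → Fin m, ∏ e ∈ E, wte q τ e =
      ∑ S ∈ E.powerset, (if ∀ e ∈ S, (e.map τ).IsDiag then (1 - q) ^ S.card else 0) *
        q ^ (E \ S).card := by
    intro τ
    have h2 : ∀ e ∈ E, wte q τ e = (if (e.map τ).IsDiag then 1 - q else 0) + q := by
      intro e _
      unfold wte
      split_ifs <;> ring
    rw [prod_congr rfl h2, prod_add]
    refine sum_congr rfl fun S _ => ?_
    rw [prod_const]
    congr 1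
    by_cases h : ∀ e ∈ S, (e.map τ).IsDiag
    · rw [if_pos h, ← prod_const]
      exact prod_congr rfl fun e he => if_pos (h e he)
    · rw [if_neg h]
      push Not at h
      obtain ⟨e, he, he'⟩ := h
      exact prod_eq_zero he (if_neg he')
  simp only [h1, mul_sum]
  rw [sum_comm]
  refine sum_congr rfl fun S _ => ?_
  rw [← sum_mono, mul_sum]
  refine sum_congr rfl fun τ _ => ?_
  split_ifs <;> ring

theorem fk_one (E : Finset (Sym2 Y)) (q : ℝ) (m : ℕ) :
    ∑ τ : Y → Fin m, ∏ e ∈ E, wte q τ e =
      ∑ S ∈ E.powerset, ((1 - q) ^ S.card * q ^ (E \ S).card) *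
        (m : ℝ) ^ Nat.card (gr S).ConnectedComponent := by
  have := fk_general E q m (fun _ _ => 1)
  simpa [Nat.card_eq_fintype_card] using this

end FK

/-! ### the reliability -/

open scoped Classical in
/-- all-terminal reliability of the graph with edge set `E`, closed probability `q`. -/
noncomputable def RelE {V : Type*} [Fintype V] (E : Finset (Sym2 V)) (q : ℝ) : ℝ :=
  ∑ S ∈ E.powerset, if (gr S).Connected then (1 - q) ^ S.card * q ^ (E \ S).card else 0

theorem connected_iff_card {V : Type*} (G : SimpleGraph V) :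
    G.Connected ↔ Nat.card G.ConnectedComponent = 1 := by
  rw [SimpleGraph.connected_iff, Nat.card_eq_one_iff_unique]
  constructor
  · rintro ⟨h1, h2⟩
    exact ⟨h1.subsingleton_connectedComponent, ⟨G.connectedComponentMk (Classical.arbitrary V)⟩⟩
  · rintro ⟨h1, ⟨C⟩⟩
    have hne : Nonempty V := ⟨C.out⟩
    refine ⟨fun x y => ?_, hne⟩
    rw [← SimpleGraph.ConnectedComponent.eq]
    exact Subsingleton.elim _ _

open scoped Classical in
open Polynomial in
/-- the reliability is the linear coefficient of the coloring polynomial. -/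
theorem rel_eq_coeff {V : Type*} [Fintype V] (E : Finset (Sym2 V)) (q : ℝ) (P : ℝ[X])
    (h : ∀ m : ℕ, ∑ τ : V → Fin m, ∏ e ∈ E, wte q τ e = P.eval (m : ℝ)) :
    RelE E q = P.coeff 1 := by
  have h1 : P = ∑ S ∈ E.powerset, C ((1 - q) ^ S.card * q ^ (E \ S).card) *
      X ^ Nat.card (gr S).ConnectedComponent := by
    refine Polynomial.eq_of_infinite_eval_eq _ _ ?_
    refine Set.Infinite.mono (s := Set.range (Nat.cast : ℕ → ℝ)) ?_
      (Set.infinite_range_of_injective Nat.cast_injective)
    rintro _ ⟨m, rfl⟩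
    rw [Set.mem_ofPred_eq, ← h m, fk_one, eval_finsetSum]
    refine sum_congr rfl fun S _ => ?_
    rw [eval_mul, eval_C, eval_pow, eval_X]
  rw [h1, finsetSum_coeff]
  unfold RelE
  refine sum_congr rfl fun S _ => ?_
  rw [coeff_C_mul, coeff_X_pow]
  by_cases hc : (gr S).Connected
  · rw [if_pos hc, if_pos ((connected_iff_card _).1 hc).symm, mul_one]
  · rw [if_neg hc, if_neg (fun h => hc ((connected_iff_card _).2 h.symm)), mul_zero]

end Pool.Agent.W_MP_d15038_ex
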