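import Pool.Agent.W_MP_d15038_ex.Cert
import Pool.Agent.W_MP_d15038_ex.FK

/-!
# Sums over the colourings of the hubs
-/

set_option autoImplicit false

open Finset

namespace Pool.Agent.W_MP_d15038_ex

section cls

variable {Ω : Type*}

open scoped Classical in
/-- the list of the hubs `< k` of colour `c`, in decreasing order -/
noncomputable def cls : (k : ℕ) → (Fin k → Ω) → Ω → List ℕ
  | 0, _, _ => []
  | k + 1, σ, c => if σ (Fin.last k) = c then k :: cls k (fun i => σ i.castSucc) c
      else cls k (fun i => σ i.castSucc) c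

theorem mem_cls : ∀ (k : ℕ) (σ : Fin k → Ω) (c : Ω) (a : ℕ),
    a ∈ cls k σ c ↔ ∃ h : a < k, σ ⟨a, h⟩ = c := by
  intro k
  induction k with
  | zero => intro σ c a; simp [cls]
  | succ k ih =>
    intro σ c a
    rw [cls]
    have key : a ∈ cls k (fun i => σ i.castSucc) c ↔ ∃ h : a < k, σ ⟨a, h.trans (Nat.lt_succ_self _)⟩ = c :=
      ih _ _ _
    rcases lt_trichotomy a k with h | h | h
    · have h2 : (∃ h : a < k + 1, σ ⟨a, h⟩ = c) ↔ a ∈ cls k (fun i => σ i.castSucc) c := by
        rw [key]
        exact ⟨fun ⟨_, h'⟩ => ⟨h, h'⟩, fun ⟨_, h'⟩ => ⟨_, h'⟩⟩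
      rw [h2]
      split_ifs with h3
      · rw [List.mem_cons]
        constructor
        · rintro (rfl | h4)
          · exact absurd h (lt_irrefl _)
          · exact h4
        · exact Or.inr
      · rfl
    · subst h
      have h1 : a ∉ cls a (fun i => σ i.castSucc) c := by
        rw [key]
        rintro ⟨h, _⟩
        exact lt_irrefl _ h
      split_ifs with h3
      · refine iff_of_true List.mem_cons_self ⟨Nat.lt_succ_self _, h3⟩
      · refine iff_of_false h1 ?_
        rintro ⟨_, h4⟩
        exact h3 h4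
    · have h1 : a ∉ cls k (fun i => σ i.castSucc) c := by
        rw [key]
        rintro ⟨h', _⟩
        omega
      refine iff_of_false ?_ ?_
      · split_ifs with h3
        · rw [List.mem_cons]
          rintro (h4 | h4)
          · omega
          · exact h1 h4
        · exact h1
      · rintro ⟨h', _⟩
        omega

theorem nodup_cls : ∀ (k : ℕ) (σ : Fin k → Ω) (c : Ω), (cls k σ c).Nodup := by
  intro k
  induction k with
  | zero => intro σ c; simp [cls]
  | succ k ih =>
    intro σ c
    rw [cls]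
    split_ifs
    · refine List.nodup_cons.2 ⟨?_, ih _ _⟩
      rw [mem_cls]
      rintro ⟨h, _⟩
      exact lt_irrefl _ h
    · exact ih _ _

open scoped Classical in
/-- weight of the pairs of hubs -/
noncomputable def HW (q : ℝ) (NH : ℕ → List ℕ) : (k : ℕ) → (Fin k → Ω) → ℝ
  | 0, _ => 1
  | k + 1, σ => HW q NH k (fun i => σ i.castSucc) *
      ∏ i : Fin k, (if σ i.castSucc = σ (Fin.last k) ∨ (i : ℕ) ∈ NH k then 1 else q)

theorem memb_eq (a : ℕ) (b : List ℕ) : memb a b = true ↔ a ∈ b := by
  induction b with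
  | nil => simp [memb]
  | cons c b ih =>
    change cond (Nat.beq a c) true (memb a b) = true ↔ _
    rcases h : Nat.beq a c with _ | _
    · rw [cond_false, ih, List.mem_cons]
      have : a ≠ c := Nat.ne_of_beq_eq_false h
      tauto
    · rw [cond_true]
      have : a = c := Nat.eq_of_beq_eq_true h
      simp [this]

theorem cntOut_eq (b N : List ℕ) : cntOut b N = (N.filter (fun a => a ∉ b)).length := by
  induction N with
  | nil => rfl
  | cons a N ih =>
    change cond (memb a b) (cntOut b N) (Nat.succ (cntOut b N)) = _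
    rw [List.filter_cons]
    rcases h : memb a b with _ | _
    · have h1 : a ∉ b := fun h2 => by rw [(memb_eq a b).2 h2] at h; cases h
      rw [cond_false, ih]
      simp [h1]
    · have h1 : a ∈ b := (memb_eq a b).1 h
      rw [cond_true, ih]
      simp [h1]

/-- weight of inserting hub `k` in the block `b` -/
noncomputable def stepw (q y : ℝ) (k : ℕ) (N : List ℕ) (b : List ℕ) : ℝ :=
  q ^ k * (1 + y) ^ (b.length + cntOut b N)

open scoped Classical in
theorem stepw_eq {q y : ℝ} (hqy : q * (1 + y) = 1) (k : ℕ) (N : List ℕ) (hN : N.Nodup)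
    (hN' : ∀ a ∈ N, a < k) (σ : Fin k → Ω) (c : Ω) :
    ∏ i : Fin k, (if σ i = c ∨ (i : ℕ) ∈ N then (1 : ℝ) else q) =
      stepw q y k N (cls k σ c) := by
  have h1 : (univ.filter fun i : Fin k => σ i = c ∨ (i : ℕ) ∈ N).card =
      (cls k σ c).length + cntOut (cls k σ c) N := by
    have h2 : ((univ.filter fun i : Fin k => σ i = c ∨ (i : ℕ) ∈ N).map Fin.valEmbedding) =
        (cls k σ c).toFinset ∪ (N.filter (fun a => a ∉ cls k σ c)).toFinset := by
      ext a
      simp only [mem_map, mem_filter, mem_univ, true_and, Fin.valEmbedding_apply, mem_union,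
        List.mem_toFinset, List.mem_filter, decide_eq_true_eq]
      rw [mem_cls]
      constructor
      · rintro ⟨i, h | h, rfl⟩
        · exact Or.inl ⟨i.2, h⟩
        · by_cases h3 : ∃ h : (i : ℕ) < k, σ ⟨i, h⟩ = c
          · exact Or.inl h3
          · exact Or.inr ⟨h, h3⟩
      · rintro (⟨h, h'⟩ | ⟨h, _⟩)
        · exact ⟨⟨a, h⟩, Or.inl h', rfl⟩
        · exact ⟨⟨a, hN' a h⟩, Or.inr h, rfl⟩
    rw [← card_map, h2, card_union_of_disjoint, List.toFinset_card_of_nodup (nodup_cls _ _ _),
      List.toFinset_card_of_nodup (hN.filter _), cntOut_eq]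
    rw [Finset.disjoint_left]
    intro a ha ha'
    rw [List.mem_toFinset] at ha ha'
    rw [List.mem_filter] at ha'
    simp only [decide_eq_true_eq] at ha'
    exact ha'.2 ha
  unfold stepw
  rw [← h1, prod_ite, prod_const_one, one_mul, prod_const]
  have h3 := card_filter_add_card_filter_not (s := (univ : Finset (Fin k)))
    (fun i : Fin k => σ i = c ∨ (i : ℕ) ∈ N)
  rw [card_univ, Fintype.card_fin] at h3
  set A := (univ.filter fun i : Fin k => σ i = c ∨ (i : ℕ) ∈ N).card
  set B := (univ.filter fun i : Fin k => ¬(σ i = c ∨ (i : ℕ) ∈ N)).card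
  rw [← h3, add_comm A B, pow_add, mul_assoc, ← mul_pow, hqy, one_pow, mul_one]

end cls

/-! ### the multiset of nonempty classes -/

/-- nonempty colour classes -/
noncomputable def kap {m : ℕ} (k : ℕ) (σ : Fin k → Fin m) : Multiset (List ℕ) :=
  ((univ : Finset (Fin m)).val.map (cls k σ)).filter (· ≠ [])

theorem kap_sum {m k : ℕ} (σ : Fin k → Fin m) (f : List ℕ → ℝ) :
    ∑ c, f (cls k σ c) = ((kap k σ).map f).sum + ((m : ℝ) - (kap k σ).card) * f [] := by
  have h0 : ∀ M : Multiset (List ℕ), (M.map f).sum = ((M.filter (· ≠ [])).map f).sum +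
      ((M.card : ℝ) - (M.filter (· ≠ [])).card) * f [] := by
    intro M
    induction M using Multiset.induction_on with
    | empty => simp
    | cons a M ih =>
      by_cases h : a = []
      · subst h
        rw [Multiset.filter_cons_of_neg _ (by simp), Multiset.map_cons, Multiset.sum_cons, ih,
          Multiset.card_cons]
        push_cast
        ring
      · rw [Multiset.filter_cons_of_pos (p := (· ≠ [])) _ h, Multiset.map_cons, Multiset.sum_cons, ih,
          Multiset.map_cons, Multiset.sum_cons, Multiset.card_cons, Multiset.card_cons]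
        push_cast
        ring
  have h1 : ∑ c, f (cls k σ c) = (((univ : Finset (Fin m)).val.map (cls k σ)).map f).sum := by
    rw [Multiset.map_map]
    rfl
  rw [h1, h0]
  unfold kap
  rw [Multiset.card_map]
  congr 3
  simp

theorem kap_succ {m k : ℕ} (σ : Fin (k + 1) → Fin m) :
    kap (k + 1) σ = if cls k (fun i => σ i.castSucc) (σ (Fin.last k)) = [] then
      [k] ::ₘ kap k (fun i => σ i.castSucc)
      else (k :: cls k (fun i => σ i.castSucc) (σ (Fin.last k))) ::ₘ
        (kap k (fun i => σ i.castSucc)).erase (cls k (fun i => σ i.castSucc) (σ (Fin.last k))) := by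
  classical
  set σ' : Fin k → Fin m := fun i => σ i.castSucc with hσ'
  set c := σ (Fin.last k) with hc
  have hu : (univ : Finset (Fin m)).val = c ::ₘ ((univ : Finset (Fin m)).erase c).val := by
    rw [Finset.erase_val, Multiset.cons_erase (Finset.mem_univ c)]
  have h1 : ((univ : Finset (Fin m)).erase c).val.map (cls (k + 1) σ) =
      ((univ : Finset (Fin m)).erase c).val.map (cls k σ') := by
    refine Multiset.map_congr rfl fun d hd => ?_
    have : d ≠ c := (Finset.mem_erase.1 (Finset.mem_def.2 hd)).1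
    rw [cls, if_neg (fun h => this h.symm)]
  have h2 : cls (k + 1) σ c = k :: cls k σ' c := by rw [cls, if_pos rfl]
  set M := (((univ : Finset (Fin m)).erase c).val.map (cls k σ')).filter (· ≠ []) with hM
  have h3 : kap (k + 1) σ = (k :: cls k σ' c) ::ₘ M := by
    unfold kap
    rw [hu, Multiset.map_cons, h1, h2, Multiset.filter_cons_of_pos _ (by simp)]
  have h4 : kap k σ' = if cls k σ' c = [] then M else cls k σ' c ::ₘ M := by
    unfold kap
    rw [hu, Multiset.map_cons]
    split_ifs with h
    · rw [h, Multiset.filter_cons_of_neg _ (by simp)]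
    · rw [Multiset.filter_cons_of_pos (p := (· ≠ [])) _ h]
  rw [h3, h4]
  split_ifs with h
  · rw [h]
  · rw [Multiset.erase_cons_head]

theorem ne_nil_of_mem_kap {m k : ℕ} {σ : Fin k → Fin m} {b : List ℕ} (h : b ∈ kap k σ) : b ≠ [] :=
  (Multiset.mem_filter.1 h).2

/-- one step of the recursion on functions of the multiset of classes -/
noncomputable def stepF (m : ℕ) (q y : ℝ) (k : ℕ) (N : List ℕ) (F : Multiset (List ℕ) → ℝ)
    (κ : Multiset (List ℕ)) : ℝ :=
  (κ.map fun b => stepw q y k N b * F ((k :: b) ::ₘ κ.erase b)).sum +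
    ((m : ℝ) - κ.card) * (stepw q y k N [] * F ([k] ::ₘ κ))

theorem HW_succ {Ω : Type*} {q y : ℝ} (hqy : q * (1 + y) = 1) {k : ℕ} (NH : ℕ → List ℕ)
    (hN : (NH k).Nodup) (hN' : ∀ a ∈ NH k, a < k) (τ : Fin (k + 1) → Ω) :
    HW q NH (k + 1) τ = HW q NH k (fun i => τ i.castSucc) *
      stepw q y k (NH k) (cls k (fun i => τ i.castSucc) (τ (Fin.last k))) := by
  rw [← stepw_eq hqy k (NH k) hN hN']
  rfl

theorem sum_flatMap' {α β : Type*} (l : List α) (f : α → List β) (g : β → ℝ) :
    ((l.flatMap f).map g).sum = (l.map fun a => ((f a).map g).sum).sum := by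
  induction l with
  | nil => simp
  | cons a l ih => simp [List.flatMap_cons, ih]

theorem sum_step {q y : ℝ} (hqy : q * (1 + y) = 1) {m k : ℕ} (NH : ℕ → List ℕ)
    (hN : (NH k).Nodup) (hN' : ∀ a ∈ NH k, a < k) (F : Multiset (List ℕ) → ℝ) :
    ∑ σ : Fin (k + 1) → Fin m, HW q NH (k + 1) σ * F (kap (k + 1) σ) =
      ∑ σ : Fin k → Fin m, HW q NH k σ * stepF m q y k (NH k) F (kap k σ) := by
  classical
  rw [← (Fin.snocEquiv (fun _ : Fin (k+1) => Fin m)).sum_comp, Fintype.sum_prod_type_right]
  refine sum_congr rfl fun σ _ => ?_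
  have h1 : ∀ c : Fin m, HW q NH (k + 1) ((Fin.snocEquiv (fun _ : Fin (k+1) => Fin m)) (c, σ)) *
      F (kap (k + 1) ((Fin.snocEquiv (fun _ : Fin (k+1) => Fin m)) (c, σ))) =
      HW q NH k σ * (fun b => stepw q y k (NH k) b * (if b = [] then F ([k] ::ₘ kap k σ) else
        F ((k :: b) ::ₘ (kap k σ).erase b))) (cls k σ c) := by
    intro c
    have e1 : (fun i : Fin k => (Fin.snocEquiv (fun _ : Fin (k+1) => Fin m)) (c, σ) i.castSucc) = σ := by
      funext i
      simp [Fin.snocEquiv]
    have e2 : (Fin.snocEquiv (fun _ : Fin (k+1) => Fin m)) (c, σ) (Fin.last k) = c := by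
      simp [Fin.snocEquiv]
    rw [HW_succ hqy NH hN hN', kap_succ, e1, e2]
    by_cases h : cls k σ c = []
    · simp only [if_pos h]
      ring
    · simp only [if_neg h]
      ring
  simp only [h1]
  rw [← mul_sum, kap_sum σ (fun b => stepw q y k (NH k) b * (if b = [] then F ([k] ::ₘ kap k σ) else
        F ((k :: b) ::ₘ (kap k σ).erase b)))]
  unfold stepF
  simp only [if_true]
  congr 3
  refine Multiset.map_congr rfl fun b hb => ?_
  rw [if_neg (ne_nil_of_mem_kap hb)]

theorem ins_sum (y : ℝ) (k : ℕ) (N N' : List ℕ) (e e' : ℕ) (κ : List (List ℕ)) :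
    ∀ F : Multiset (List ℕ) → ℝ,
    ((ins k N N' e e' κ).map fun p => (1 + y) ^ p.2.1 * F (p.1 : Multiset (List ℕ))).sum =
      (1 + y) ^ e * ((κ : Multiset (List ℕ)).map fun b => (1 + y) ^ (b.length + cntOut b N) *
        F ((k :: b) ::ₘ (κ : Multiset (List ℕ)).erase b)).sum := by
  classical
  induction κ with
  | nil => intro F; simp [ins]
  | cons b κ ih =>
    intro F
    change (((((k :: b) :: κ, Nat.add e (Nat.add (len b) (cntOut b N)),
      Nat.add e' (Nat.add (len b) (cntOut b N'))) : Part) ::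
      lmap (fun p => (b :: p.1, p.2)) (ins k N N' e e' κ)).map _).sum = _
    rw [List.map_cons, List.sum_cons, lmap_eq, List.map_map]
    have h1 := ih (fun μ => F (b ::ₘ μ))
    have h2 : ((fun p : Part => (1 + y) ^ p.2.1 * F (p.1 : Multiset (List ℕ))) ∘
        (fun p : Part => ((b :: p.1, p.2) : Part))) =
        fun p : Part => (1 + y) ^ p.2.1 * F (b ::ₘ (p.1 : Multiset (List ℕ))) := by
      funext p
      rfl
    rw [h2, h1]
    have h3 : ((b :: κ : List (List ℕ)) : Multiset (List ℕ)) = b ::ₘ (κ : Multiset (List ℕ)) := rfl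
    rw [h3, Multiset.map_cons, Multiset.sum_cons, mul_add, Multiset.erase_cons_head]
    congr 1
    · change (1 + y) ^ (e + (len b + cntOut b N)) * F ((k :: b) ::ₘ (κ : Multiset (List ℕ))) = _
      rw [len_eq, pow_add]
      ring
    · congr 2
      refine Multiset.map_congr rfl fun b' hb' => ?_
      rw [Multiset.erase_cons_tail_of_mem hb', Multiset.cons_swap]

/-- `0 + 1 + ... + (k-1)` -/
def tri (k : ℕ) : ℕ := ∑ i ∈ range k, i

theorem tri_succ (k : ℕ) : tri (k + 1) = tri k + k := by
  unfold tri
  rw [sum_range_succ]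

theorem desc_cast (m b : ℕ) : ((m.descFactorial b : ℕ) : ℝ) * ((m : ℝ) - b) =
    ((m.descFactorial (b + 1) : ℕ) : ℝ) := by
  rw [Nat.descFactorial_succ]
  by_cases h : b ≤ m
  · rw [Nat.cast_mul, Nat.cast_sub h]
    ring
  · rw [Nat.descFactorial_eq_zero_iff_lt.2 (by omega)]
    simp

theorem color_sum {q y : ℝ} (hqy : q * (1 + y) = 1) {m : ℕ} (NH NH' : ℕ → List ℕ) :
    ∀ k : ℕ, (∀ i < k, (NH i).Nodup) → (∀ i < k, ∀ a ∈ NH i, a < i) →
    ∀ F : Multiset (List ℕ) → ℝ,
    ∑ σ : Fin k → Fin m, HW q NH k σ * F (kap k σ) =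
      ((parts NH NH' k).map fun p => (m.descFactorial p.1.length : ℝ) * q ^ tri k *
        ((1 + y) ^ p.2.1 * F (p.1 : Multiset (List ℕ)))).sum := by
  classical
  intro k
  induction k with
  | zero =>
    intro _ _ F
    have h1 : ∀ σ : Fin 0 → Fin m, kap 0 σ = 0 := by
      intro σ
      unfold kap
      rw [Multiset.filter_eq_nil]
      intro a ha
      obtain ⟨c, _, rfl⟩ := Multiset.mem_map.1 ha
      simp [cls]
    simp [HW, h1, parts, tri]
  | succ k ih =>
    intro hN hN' F
    rw [sum_step hqy NH (hN k (Nat.lt_succ_self k)) (hN' k (Nat.lt_succ_self k)),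
      ih (fun i hi => hN i (hi.trans (Nat.lt_succ_self k)))
        (fun i hi => hN' i (hi.trans (Nat.lt_succ_self k))), parts_succ]
    rw [sum_flatMap']
    congr 1
    refine List.map_congr_left fun p _ => ?_
    rw [List.map_append, List.sum_append, List.map_singleton, List.sum_singleton]
    unfold stepF
    rw [Multiset.coe_card]
    have h1 : ∀ p' ∈ ins k (NH k) (NH' k) p.2.1 p.2.2 p.1, p'.1.length = p.1.length := by
      intro p' hp'
      obtain ⟨κ1, b, κ2, h1, h2⟩ := mem_ins hp'
      rw [h1, h2]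
      simp
    have h2 : ((ins k (NH k) (NH' k) p.2.1 p.2.2 p.1).map fun p' : Part =>
        (m.descFactorial p'.1.length : ℝ) * q ^ tri (k + 1) *
        ((1 + y) ^ p'.2.1 * F (p'.1 : Multiset (List ℕ)))).sum =
        (m.descFactorial p.1.length : ℝ) * q ^ tri (k + 1) *
        ((ins k (NH k) (NH' k) p.2.1 p.2.2 p.1).map fun p' : Part =>
          (1 + y) ^ p'.2.1 * F (p'.1 : Multiset (List ℕ))).sum := by
      rw [← List.sum_map_mul_left]
      congr 1
      refine List.map_congr_left fun p' hp' => ?_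
      rw [h1 p' hp']
    rw [h2, ins_sum]
    have h3 : (((p.1 : Multiset (List ℕ)).map fun b => stepw q y k (NH k) b *
        F ((k :: b) ::ₘ (p.1 : Multiset (List ℕ)).erase b)).sum) =
        q ^ k * ((p.1 : Multiset (List ℕ)).map fun b => (1 + y) ^ (b.length + cntOut b (NH k)) *
        F ((k :: b) ::ₘ (p.1 : Multiset (List ℕ)).erase b)).sum := by
      rw [← Multiset.sum_map_mul_left]
      congr 1
      refine Multiset.map_congr rfl fun b _ => ?_
      unfold stepw
      ring
    rw [h3]
    simp only [List.length_cons]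
    rw [← desc_cast, tri_succ, pow_add]
    have h4 : stepw q y k (NH k) [] = q ^ k * (1 + y) ^ (NH k).length := by
      unfold stepw
      rw [cntOut_eq]
      simp
    rw [h4, pow_add]
    have h5 : (([k] :: p.1 : List (List ℕ)) : Multiset (List ℕ)) = [k] ::ₘ (p.1 : Multiset (List ℕ)) := rfl
    rw [h5]
    ring

/-- swapping the two exponents -/
theorem parts_swap (NH NH' : ℕ → List ℕ) (k : ℕ) :
    parts NH' NH k = (parts NH NH' k).map (fun p => (p.1, p.2.2, p.2.1)) := by
  have h1 : ∀ (k : ℕ) (N N' : List ℕ) (e e' : ℕ) (κ : List (List ℕ)),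
      ins k N' N e' e κ = (ins k N N' e e' κ).map (fun p => (p.1, p.2.2, p.2.1)) := by
    intro k N N' e e' κ
    induction κ with
    | nil => simp [ins]
    | cons b κ ih =>
      change _ :: lmap (fun p => (b :: p.1, p.2)) (ins k N' N e' e κ) =
        (_ :: lmap (fun p => (b :: p.1, p.2)) (ins k N N' e e' κ)).map _
      rw [List.map_cons, lmap_eq, lmap_eq, ih, List.map_map, List.map_map]
      rfl
  induction k with
  | zero => rfl
  | succ k ih =>
    rw [parts_succ, parts_succ, ih, List.map_flatMap, List.flatMap_map]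
    refine List.flatMap_congr fun p _ => ?_
    rw [List.map_append, h1 k (NH k) (NH' k)]
    rfl

end Pool.Agent.W_MP_d15038_ex
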