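import Pool.Agent.W_MP_d15038_ex.Expand

/-!
# The cone generated by the rows is closed under multiplication by an unmarked cluster
-/

set_option autoImplicit false

open Finset

namespace Pool.Agent.W_MP_d15038_ex

/-! ### computation -/

/-- number of `s`-subsets inside the blocks -/
def cs' (s : ℕ) (τ : List ℕ) : ℕ :=
  List.rec (motive := fun _ => ℕ) 0 (fun x _ ih => Nat.add (bin x s) ih) τ

def lsumN (τ : List ℕ) : ℕ := List.rec (motive := fun _ => ℕ) 0 (fun x _ ih => Nat.add x ih) τ

/-- pointwise product of a row with `cs'` -/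
def rowC (s : ℕ) (row : List ℕ) : List (List ℕ) → List ℕ :=
  List.rec (motive := fun _ => List (List ℕ) → List ℕ) (fun _ => [])
    (fun n _ ih T => List.rec (motive := fun _ => List ℕ) [] (fun τ T' _ => Nat.mul n (cs' s τ) :: ih T') T) row

/-- `v - a • row` -/
def subMul (a : ℕ) (v : List ℕ) : List ℕ → List ℕ :=
  List.rec (motive := fun _ => List ℕ → List ℕ) (fun _ => [])
    (fun x v' ih row => List.rec (motive := fun _ => List ℕ) (x :: v') (fun r row' _ =>
      Nat.sub x (Nat.mul a r) :: ih row') row) v

def ladd (v : List ℕ) : List ℕ → List ℕ :=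
  List.rec (motive := fun _ => List ℕ → List ℕ) (fun w => w)
    (fun x v' ih w => List.rec (motive := fun _ => List ℕ) (x :: v') (fun r w' _ =>
      Nat.add x r :: ih w') w) v

def solve (rows : List (List ℕ)) : ℕ → List ℕ → List ℕ :=
  List.rec (motive := fun _ => ℕ → List ℕ → List ℕ) (fun _ _ => [])
    (fun row _ ih i v => (fun a => a :: ih (Nat.succ i) (subMul a v row)) (nth v i)) rows

def comb (ν : List ℕ) : List (List ℕ) → List ℕ :=
  List.rec (motive := fun _ => List (List ℕ) → List ℕ) (fun _ => [])
    (fun a _ ih rows => List.rec (motive := fun _ => List ℕ) [] (fun row rows' _ =>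
      ladd (lmap (fun x => Nat.mul a x) row) (ih rows')) rows) ν

def leq (l : List ℕ) : List ℕ → Bool :=
  List.rec (motive := fun _ => List ℕ → Bool)
    (fun m => List.rec (motive := fun _ => Bool) true (fun _ _ _ => false) m)
    (fun a _ ih m => List.rec (motive := fun _ => Bool) false (fun b m' _ => cond (Nat.beq a b) (ih m') false) m) l

/-! ### correctness -/

theorem leq_sound : ∀ {l m : List ℕ}, leq l m = true → l = m := by
  intro l
  induction l with
  | nil =>
    intro m h
    cases m with
    | nil => rfl
    | cons b m => exact absurd h (by simp [leq])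
  | cons a l ih =>
    intro m h
    cases m with
    | nil => exact absurd h (by simp [leq])
    | cons b m =>
      change cond (Nat.beq a b) (leq l m) false = true at h
      obtain ⟨h1, h2⟩ := cond_false_right h
      rw [Nat.eq_of_beq_eq_true h1, ih h2]

abbrev cst : List ℕ → List ℝ := List.map (Nat.cast : ℕ → ℝ)

theorem zd_ladd (v w : List ℕ) (d : List ℝ) :
    zd (cst (ladd v w)) d = zd (cst v) d + zd (cst w) d := by
  induction v generalizing w d with
  | nil =>
    change zd (cst w) d = _
    simp [cst]
  | cons x v ih =>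
    cases w with
    | nil =>
      change zd (cst (x :: v)) d = _
      simp [cst]
    | cons r w =>
      change zd (cst ((x + r) :: ladd v w)) d = _
      cases d with
      | nil => simp
      | cons a d =>
        have := ih w d
        simp only [cst, List.map_cons, zd_cons] at this ⊢
        rw [this]
        push_cast
        ring

theorem zd_scale (a : ℕ) (v : List ℕ) (d : List ℝ) :
    zd (cst (v.map fun x => a * x)) d = a * zd (cst v) d := by
  induction v generalizing d with
  | nil => simp [cst]
  | cons x v ih =>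
    cases d with
    | nil => simp
    | cons b d =>
      have := ih d
      simp only [cst, List.map_cons, zd_cons] at this ⊢
      rw [this]
      push_cast
      ring

/-- the values of the rows on `d` -/
noncomputable def Rv (rows : List (List ℕ)) (d : List ℝ) : List ℝ :=
  rows.map fun row => zd (row.map (Nat.cast : ℕ → ℝ)) d

theorem zd_comb (ν : List ℕ) (rows : List (List ℕ)) (d : List ℝ) :
    zd (cst (comb ν rows)) d = zd (cst ν) (Rv rows d) := by
  induction ν generalizing rows with
  | nil =>
    change zd (cst []) d = _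
    simp [cst]
  | cons a ν ih =>
    cases rows with
    | nil =>
      change zd (cst []) d = _
      simp [cst, Rv]
    | cons row rows =>
      change zd (cst (ladd (lmap (fun x => Nat.mul a x) row) (comb ν rows))) d = _
      rw [lmap_eq, zd_ladd, ih]
      have := zd_scale a row d
      simp only [cst, Rv, List.map_cons, zd_cons] at this ⊢
      rw [← this]
      rfl

theorem solve_length (rows : List (List ℕ)) (i : ℕ) (v : List ℕ) :
    (solve rows i v).length = rows.length := by
  induction rows generalizing i v with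
  | nil => rfl
  | cons row rows ih => exact congrArg Nat.succ (ih _ _)

/-- multiplication by `cs'` -/
noncomputable def mulC (T : List (List ℕ)) (s : ℕ) (d : List ℝ) : List ℝ :=
  List.zipWith (fun τ x => (cs' s τ : ℝ) * x) T d

theorem zd_rowC (s : ℕ) (row : List ℕ) (T : List (List ℕ)) (d : List ℝ) :
    zd (cst (rowC s row T)) d = zd (cst row) (mulC T s d) := by
  induction row generalizing T d with
  | nil =>
    change zd (cst []) d = _
    simp [cst]
  | cons n row ih =>
    cases T with
    | nil =>
      change zd (cst []) d = _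
      simp [cst, mulC]
    | cons τ T =>
      cases d with
      | nil => simp [mulC]
      | cons a d =>
        change zd (cst ((n * cs' s τ) :: rowC s row T)) (a :: d) = _
        have := ih T d
        simp only [cst, mulC, List.map_cons, List.zipWith_cons_cons, zd_cons] at this ⊢
        rw [this]
        push_cast
        ring

/-- functionals in the cone -/
def PosF (rows : List (List ℕ)) (φ : List ℝ → ℝ) : Prop :=
  ∃ c : List ℝ, (∀ x ∈ c, 0 ≤ x) ∧ c.length = rows.length ∧ ∀ d, φ d = zd c (Rv rows d)

def StrF (rows : List (List ℕ)) (φ : List ℝ → ℝ) : Prop :=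
  ∃ (c0 : ℝ) (c : List ℝ), (∀ x ∈ c0 :: c, 0 ≤ x) ∧ (c0 :: c).length = rows.length ∧ 0 < c0 ∧
    ∀ d, φ d = zd (c0 :: c) (Rv rows d)

theorem zd_zipAdd {c c' : List ℝ} (h : c.length = c'.length) (d : List ℝ) :
    zd (List.zipWith (· + ·) c c') d = zd c d + zd c' d := by
  induction c generalizing c' d with
  | nil =>
    cases c' with
    | nil => simp
    | cons => simp at h
  | cons a c ih =>
    cases c' with
    | nil => simp at h
    | cons b c' =>
      cases d with
      | nil => simp
      | cons x d =>
        rw [List.zipWith_cons_cons, zd_cons, zd_cons, zd_cons, ih (by simpa using h)]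
        ring

theorem zipAdd_nonneg {c c' : List ℝ} (h : ∀ x ∈ c, 0 ≤ x) (h' : ∀ x ∈ c', 0 ≤ x) :
    ∀ x ∈ List.zipWith (· + ·) c c', 0 ≤ x := by
  induction c generalizing c' with
  | nil => simp
  | cons a c ih =>
    cases c' with
    | nil => simp
    | cons b c' =>
      intro x hx
      rw [List.zipWith_cons_cons] at hx
      rcases List.mem_cons.1 hx with rfl | hx
      · exact add_nonneg (h a List.mem_cons_self) (h' b List.mem_cons_self)
      · exact ih (fun x hx => h x (List.mem_cons_of_mem _ hx))
          (fun x hx => h' x (List.mem_cons_of_mem _ hx)) x hx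

theorem PosF.add {rows : List (List ℕ)} {φ ψ : List ℝ → ℝ} (h : PosF rows φ) (h' : PosF rows ψ) :
    PosF rows (fun d => φ d + ψ d) := by
  obtain ⟨c, h1, h2, h3⟩ := h
  obtain ⟨c', h1', h2', h3'⟩ := h'
  refine ⟨List.zipWith (· + ·) c c', zipAdd_nonneg h1 h1', ?_, fun d => ?_⟩
  · rw [List.length_zipWith, h2, h2', min_self]
  · rw [zd_zipAdd (h2.trans h2'.symm), ← h3, ← h3']

theorem StrF.add {rows : List (List ℕ)} {φ ψ : List ℝ → ℝ} (h : StrF rows φ) (h' : PosF rows ψ) :
    StrF rows (fun d => φ d + ψ d) := by
  obtain ⟨c0, c, h1, h2, h0, h3⟩ := h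
  obtain ⟨c', h1', h2', h3'⟩ := h'
  cases c' with
  | nil => rw [← h2] at h2'; simp at h2'
  | cons b c' =>
    refine ⟨c0 + b, List.zipWith (· + ·) c c', ?_, ?_, ?_, fun d => ?_⟩
    · exact zipAdd_nonneg h1 h1'
    · rw [← h2]
      rw [← h2] at h2'
      simp only [List.length_cons, List.length_zipWith, Nat.add_right_cancel_iff] at h2' ⊢
      omega
    · have := h1' b List.mem_cons_self
      linarith
    · change φ d + ψ d = _
      rw [h3, h3', ← zd_zipAdd (h2.trans h2'.symm)]
      rfl

theorem PosF.smul {rows : List (List ℕ)} {φ : List ℝ → ℝ} (h : PosF rows φ) {a : ℝ} (ha : 0 ≤ a) :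
    PosF rows (fun d => a * φ d) := by
  obtain ⟨c, h1, h2, h3⟩ := h
  refine ⟨c.map (a * ·), ?_, by simpa using h2, fun d => ?_⟩
  · intro x hx
    obtain ⟨x', hx', rfl⟩ := List.mem_map.1 hx
    exact mul_nonneg ha (h1 x' hx')
  · change a * φ d = _
    rw [h3]
    generalize Rv rows d = r
    clear h1 h2 h3
    induction c generalizing r with
    | nil => simp
    | cons b c ih =>
      cases r with
      | nil => simp
      | cons x r =>
        rw [List.map_cons, zd_cons, zd_cons, ← ih r]
        ring

theorem StrF.smul {rows : List (List ℕ)} {φ : List ℝ → ℝ} (h : StrF rows φ) {a : ℝ} (ha : 0 < a) :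
    StrF rows (fun d => a * φ d) := by
  obtain ⟨c0, c, h1, h2, h0, h3⟩ := h
  refine ⟨a * c0, c.map (a * ·), ?_, by simpa using h2, mul_pos ha h0, fun d => ?_⟩
  · intro x hx
    rcases List.mem_cons.1 hx with rfl | hx
    · exact (mul_pos ha h0).le
    · obtain ⟨x', hx', rfl⟩ := List.mem_map.1 hx
      exact mul_nonneg ha.le (h1 x' (List.mem_cons_of_mem _ hx'))
  · change a * φ d = _
    rw [h3]
    generalize Rv rows d = r
    change a * zd (c0 :: c) r = zd ((c0 :: c).map (a * ·)) r
    generalize c0 :: c = c
    induction c generalizing r with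
    | nil => simp
    | cons b c ih =>
      cases r with
      | nil => simp
      | cons x r =>
        rw [List.map_cons, zd_cons, zd_cons, ← ih r]
        ring

theorem PosF.zero (rows : List (List ℕ)) : PosF rows (fun _ => 0) := by
  refine ⟨List.replicate rows.length 0, ?_, by simp, fun d => ?_⟩
  · intro x hx
    rw [List.eq_of_mem_replicate hx]
  · generalize Rv rows d = r
    generalize rows.length = n
    induction n generalizing r with
    | zero => simp
    | succ n ih =>
      cases r with
      | nil => simp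
      | cons x r => rw [List.replicate_succ, zd_cons, ← ih r]; ring

theorem PosF.sum {rows : List (List ℕ)} {ι : Type} (s : Finset ι) (φ : ι → List ℝ → ℝ)
    (h : ∀ i ∈ s, PosF rows (φ i)) : PosF rows (fun d => ∑ i ∈ s, φ i d) := by
  classical
  induction s using Finset.induction_on with
  | empty => simpa using PosF.zero rows
  | insert a s ha ih =>
    simp only [sum_insert ha]
    exact (h a (mem_insert_self _ _)).add (ih fun i hi => h i (mem_insert_of_mem hi))

theorem close_row {T : Tab} {s : ℕ} {row : List ℕ}
    (h : leq (comb (solve T.rows 0 (rowC s row T.types)) T.rows) (rowC s row T.types) = true) :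
    PosF T.rows (fun d => zd (cst row) (mulC T.types s d)) := by
  have h1 := leq_sound h
  refine ⟨cst (solve T.rows 0 (rowC s row T.types)), ?_, ?_, fun d => ?_⟩
  · intro x hx
    obtain ⟨n, _, rfl⟩ := List.mem_map.1 hx
    exact Nat.cast_nonneg n
  · rw [List.length_map, solve_length]
  · change zd (cst row) (mulC T.types s d) = _
    rw [← zd_rowC, ← zd_comb, h1]

theorem close_lin {T : Tab} {s : ℕ} (L : List (List ℕ))
    (h : ∀ row ∈ L, PosF T.rows (fun d => zd (cst row) (mulC T.types s d)))
    (ν : List ℝ) (hν : ∀ x ∈ ν, 0 ≤ x) :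
    PosF T.rows (fun d => zd ν (Rv L (mulC T.types s d))) := by
  induction L generalizing ν with
  | nil => simpa [Rv] using PosF.zero T.rows
  | cons row L ih =>
    cases ν with
    | nil => simpa using PosF.zero T.rows
    | cons a ν =>
      have h1 := (h row List.mem_cons_self).smul (hν a List.mem_cons_self)
      have h2 := ih (fun r hr => h r (List.mem_cons_of_mem _ hr)) ν
        (fun x hx => hν x (List.mem_cons_of_mem _ hx))
      have h3 := h1.add h2
      simpa only [Rv, List.map_cons, zd_cons] using h3

/-- the rows generate a cone which is closed under the factors of unmarked clusters -/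
def CloseOK (T : Tab) (k : ℕ) : Prop :=
    (∀ τ ∈ T.types, lsumN τ = k ∧ τ.length ≤ 10) ∧
    (∀ s < k, ∀ row ∈ T.rows, PosF T.rows (fun d => zd (cst row) (mulC T.types (s + 1) d))) ∧
    ∃ R, T.rows = (T.types.map fun _ => 1) :: R

/-! ### packed check -/

/-- a list packed in base `B` -/
def pkL (B : ℕ) (l : List ℕ) : ℕ :=
  List.rec (motive := fun _ => ℕ) 0 (fun a _ ih => Nat.add a (Nat.mul B ih)) l

/-- coefficients by elimination; `p` a power of `B` -/
def elimF (B : ℕ) (Rs : List ℕ) : ℕ → ℕ → List ℕ :=
  List.rec (motive := fun _ => ℕ → ℕ → List ℕ) (fun _ _ => [])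
    (fun R _ ih p V => (fun a => a :: ih (Nat.mul p B) (Nat.sub V (Nat.mul a R))) (Nat.mod (Nat.div V p) B)) Rs

def dotF (ν : List ℕ) : List ℕ → ℕ :=
  List.rec (motive := fun _ => List ℕ → ℕ) (fun _ => 0)
    (fun a _ ih Rs => List.rec (motive := fun _ => ℕ) 0 (fun R Rs' _ => Nat.add (Nat.mul a R) (ih Rs')) Rs) ν

/-- `v` is a combination of the rows -/
def combOK (B mx : ℕ) (Rs : List ℕ) (v : List ℕ) : Bool :=
  cond (ball (fun x => Nat.ble (Nat.succ x) B) v)
    ((fun ν => cond (Nat.beq (dotF ν Rs) (pkL B v)) (Nat.ble (Nat.succ (Nat.mul (lsumN ν) mx)) B) false)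
      (elimF B Rs 1 (pkL B v))) false

def closeF (T : Tab) (k B mx : ℕ) : Bool :=
  cond (ball (fun τ => cond (Nat.beq (lsumN τ) k) (Nat.ble (len τ) 10) false) T.types)
    (cond (ball (fun row => cond (Nat.beq (len row) (len T.types)) (ball (fun x => Nat.ble x mx) row) false) T.rows)
      (cond (List.rec (motive := fun _ => Bool) false (fun row _ _ => leq row (lmap (fun _ => 1) T.types)) T.rows)
        ((fun Rs => ball (fun s => ball (fun row => combOK B mx Rs (rowC (Nat.succ s) row T.types)) T.rows)
          (lrange k)) (lmap (pkL B) T.rows)) false) false) false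

theorem pkL_cons (B a : ℕ) (l : List ℕ) : pkL B (a :: l) = a + B * pkL B l := rfl

theorem pkL_inj {B : ℕ} : ∀ {l m : List ℕ}, l.length = m.length → (∀ x ∈ l, x < B) →
    (∀ x ∈ m, x < B) → pkL B l = pkL B m → l = m := by
  intro l
  induction l with
  | nil =>
    intro m h _ _ _
    exact (List.length_eq_zero_iff.1 h.symm).symm
  | cons a l ih =>
    intro m h hl hm he
    cases m with
    | nil => simp at h
    | cons b m =>
      rw [pkL_cons, pkL_cons] at he
      have ha := hl a List.mem_cons_self
      have hb := hm b List.mem_cons_self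
      have h1 : a = b := by
        have := congrArg (· % B) he
        simp only [Nat.add_mul_mod_self_left] at this
        rwa [Nat.mod_eq_of_lt ha, Nat.mod_eq_of_lt hb] at this
      have h2 : pkL B l = pkL B m := by
        rw [h1] at he
        exact Nat.eq_of_mul_eq_mul_left (by omega) (Nat.add_left_cancel he)
      rw [h1, ih (by simpa using h) (fun x hx => hl x (List.mem_cons_of_mem _ hx))
        (fun x hx => hm x (List.mem_cons_of_mem _ hx)) h2]

theorem ladd_cons_cons (x r : ℕ) (v w : List ℕ) : ladd (x :: v) (r :: w) = (x + r) :: ladd v w := rfl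
theorem ladd_nil_left (w : List ℕ) : ladd [] w = w := rfl
theorem ladd_nil_right (v : List ℕ) : ladd v [] = v := by cases v <;> rfl

theorem pkL_ladd (B : ℕ) : ∀ v w : List ℕ, pkL B (ladd v w) = pkL B v + pkL B w := by
  intro v
  induction v with
  | nil => intro w; rw [ladd_nil_left]; simp [pkL]
  | cons x v ih =>
    intro w
    cases w with
    | nil => rw [ladd_nil_right]; simp [pkL]
    | cons r w => rw [ladd_cons_cons, pkL_cons, pkL_cons, pkL_cons, ih]; ring

theorem pkL_scale (B a : ℕ) (v : List ℕ) : pkL B (v.map fun x => a * x) = a * pkL B v := by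
  induction v with
  | nil => simp [pkL]
  | cons x v ih => rw [List.map_cons, pkL_cons, pkL_cons, ih]; ring

theorem comb_cons (a : ℕ) (ν : List ℕ) (row : List ℕ) (rows : List (List ℕ)) :
    comb (a :: ν) (row :: rows) = ladd (row.map fun x => a * x) (comb ν rows) := by
  change ladd (lmap (fun x => Nat.mul a x) row) (comb ν rows) = _
  rw [lmap_eq]
  rfl

theorem pkL_comb (B : ℕ) : ∀ (ν : List ℕ) (rows : List (List ℕ)),
    pkL B (comb ν rows) = dotF ν (rows.map (pkL B)) := by
  intro ν
  induction ν with
  | nil => intro rows; rfl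
  | cons a ν ih =>
    intro rows
    cases rows with
    | nil => rfl
    | cons row rows =>
      rw [comb_cons, pkL_ladd, pkL_scale, ih]
      rfl

theorem ladd_le {a b : ℕ} : ∀ {v w : List ℕ}, (∀ x ∈ v, x ≤ a) → (∀ x ∈ w, x ≤ b) →
    ∀ x ∈ ladd v w, x ≤ a + b := by
  intro v
  induction v with
  | nil => intro w _ hw x hx; exact (hw x hx).trans (Nat.le_add_left _ _)
  | cons y v ih =>
    intro w hv hw x hx
    cases w with
    | nil => rw [ladd_nil_right] at hx; exact (hv x hx).trans (Nat.le_add_right _ _)
    | cons r w =>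
      rw [ladd_cons_cons] at hx
      rcases List.mem_cons.1 hx with rfl | hx
      · exact Nat.add_le_add (hv y List.mem_cons_self) (hw r List.mem_cons_self)
      · exact ih (fun x hx => hv x (List.mem_cons_of_mem _ hx))
          (fun x hx => hw x (List.mem_cons_of_mem _ hx)) x hx

theorem comb_le {mx : ℕ} : ∀ (ν : List ℕ) (rows : List (List ℕ)), (∀ row ∈ rows, ∀ x ∈ row, x ≤ mx) →
    ∀ x ∈ comb ν rows, x ≤ lsumN ν * mx := by
  intro ν
  induction ν with
  | nil => intro rows _ x hx; exact absurd hx (by simp [comb])
  | cons a ν ih =>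
    intro rows h x hx
    cases rows with
    | nil => exact absurd hx (by simp [comb])
    | cons row rows =>
      rw [comb_cons] at hx
      change x ≤ (a + lsumN ν) * mx
      rw [add_mul]
      refine ladd_le (fun x hx => ?_) (ih rows fun r hr => h r (List.mem_cons_of_mem _ hr)) x hx
      obtain ⟨y, hy, rfl⟩ := List.mem_map.1 hx
      exact Nat.mul_le_mul_left _ (h row List.mem_cons_self y hy)

theorem ladd_length : ∀ v w : List ℕ, (ladd v w).length = max v.length w.length := by
  intro v
  induction v with
  | nil => intro w; rw [ladd_nil_left]; simp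
  | cons y v ih =>
    intro w
    cases w with
    | nil => rw [ladd_nil_right]; simp
    | cons r w => rw [ladd_cons_cons, List.length_cons, ih]; simp

theorem comb_length_le {n : ℕ} : ∀ (ν : List ℕ) (rows : List (List ℕ)),
    (∀ row ∈ rows, row.length = n) → (comb ν rows).length ≤ n := by
  intro ν
  induction ν with
  | nil => intro rows _; exact Nat.zero_le _
  | cons a ν ih =>
    intro rows h
    cases rows with
    | nil => exact Nat.zero_le _
    | cons row rows =>
      rw [comb_cons, ladd_length, List.length_map, h row List.mem_cons_self]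
      exact max_le le_rfl (ih rows fun r hr => h r (List.mem_cons_of_mem _ hr))

theorem elimF_length (B : ℕ) (Rs : List ℕ) (p V : ℕ) : (elimF B Rs p V).length = Rs.length := by
  induction Rs generalizing p V with
  | nil => rfl
  | cons R Rs ih => exact congrArg Nat.succ (ih _ _)

theorem rowC_length (s : ℕ) : ∀ (row : List ℕ) (T : List (List ℕ)), row.length = T.length →
    (rowC s row T).length = T.length := by
  intro row
  induction row with
  | nil => intro T h; rw [← h]; rfl
  | cons n row ih =>
    intro T h
    cases T with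
    | nil => simp at h
    | cons τ T => exact congrArg Nat.succ (ih T (by simpa using h))

theorem closeF_sound {T : Tab} {k B mx : ℕ} (h : closeF T k B mx = true) : CloseOK T k := by
  unfold closeF at h
  obtain ⟨h1, h⟩ := cond_false_right h
  obtain ⟨h2, h⟩ := cond_false_right h
  obtain ⟨h3, h4⟩ := cond_false_right h
  have hrow : ∀ row ∈ T.rows, row.length = T.types.length ∧ ∀ x ∈ row, x ≤ mx := by
    intro row hrow
    obtain ⟨h5, h6⟩ := cond_false_right (ball_sound h2 row hrow)
    rw [len_eq, len_eq] at h5
    exact ⟨Nat.eq_of_beq_eq_true h5, fun x hx => Nat.le_of_ble_eq_true (ball_sound h6 x hx)⟩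
  have hR : ∃ R, T.rows = (T.types.map fun _ => 1) :: R := by
    rcases hr : T.rows with _ | ⟨row, R⟩
    · rw [hr] at h3
      exact absurd h3 (by simp)
    · rw [hr] at h3
      have := leq_sound h3
      rw [lmap_eq] at this
      exact ⟨R, by rw [this]⟩
  refine ⟨fun τ hτ => ?_, fun s hs row hr => ?_, hR⟩
  · obtain ⟨h4, h5⟩ := cond_false_right (ball_sound h1 τ hτ)
    refine ⟨Nat.eq_of_beq_eq_true h4, ?_⟩
    have := Nat.le_of_ble_eq_true h5
    rwa [len_eq] at this
  · have h5 := ball_sound (ball_sound h4 s (by rw [lrange_eq]; exact List.mem_range.2 hs)) row hr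
    change combOK B mx (lmap (pkL B) T.rows) (rowC (s + 1) row T.types) = true at h5
    rw [lmap_eq] at h5
    have hvl := rowC_length (s + 1) row T.types (hrow row hr).1
    have hzr := zd_rowC (s + 1) row T.types
    generalize rowC (s + 1) row T.types = v at h5 hvl hzr
    obtain ⟨h6, h7⟩ := cond_false_right h5
    obtain ⟨h8, h9⟩ := cond_false_right h7
    have h6 := ball_sound h6
    have hνl := elimF_length B (T.rows.map (pkL B)) 1 (pkL B v)
    generalize elimF B (T.rows.map (pkL B)) 1 (pkL B v) = ν at h8 h9 hνl
    have h9 : lsumN ν * mx < B := Nat.le_of_ble_eq_true h9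
    have h8 := Nat.eq_of_beq_eq_true h8
    rw [← pkL_comb] at h8
    rw [List.length_map] at hνl
    have hclen : (comb ν T.rows).length = T.types.length := by
      refine le_antisymm (comb_length_le ν T.rows fun row hr => (hrow row hr).1) ?_
      obtain ⟨R, hR⟩ := hR
      rw [hR] at hνl ⊢
      cases ν with
      | nil => simp at hνl
      | cons a ν =>
        rw [comb_cons, ladd_length, List.length_map, List.length_map]
        exact le_max_left _ _
    have heq : comb ν T.rows = v := by
      refine pkL_inj (hclen.trans hvl.symm) (fun x hx => ?_)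
        (fun x hx => Nat.le_of_ble_eq_true (h6 x hx)) h8
      exact (comb_le ν T.rows (fun row hr => (hrow row hr).2) x hx).trans_lt h9
    refine ⟨cst ν, ?_, ?_, fun d => ?_⟩
    · intro x hx
      obtain ⟨n, _, rfl⟩ := List.mem_map.1 hx
      exact Nat.cast_nonneg n
    · rw [List.length_map, hνl]
    · change zd (cst row) (mulC T.types (s + 1) d) = _
      rw [← hzr, ← zd_comb, heq]

/-- factor of an unmarked cluster -/
noncomputable def uf (k : ℕ) (t : ℝ) (τ : List ℕ) : ℝ :=
  (τ.map fun x => t ^ (k - x)).sum - τ.length * t ^ k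

theorem cs'_eq (s : ℕ) (hs : s ≤ 10) (τ : List ℕ) (hτ : ∀ x ∈ τ, x ≤ 10) :
    (cs' s τ : ℝ) = (τ.map fun x => (Nat.choose x s : ℝ)).sum := by
  induction τ with
  | nil => simp [cs']
  | cons x τ ih =>
    change ((bin x s + cs' s τ : ℕ) : ℝ) = _
    rw [List.map_cons, List.sum_cons, ← ih (fun x hx => hτ x (List.mem_cons_of_mem _ hx)),
      bin_eq x (hτ x List.mem_cons_self) s hs]
    push_cast
    ring

theorem uf_expand (k : ℕ) (hk : k ≤ 10) (t : ℝ) (τ : List ℕ) (hτ : ∀ x ∈ τ, x ≤ k) :
    uf k t τ = ∑ s ∈ range k, (1 - t) ^ (s + 1) * t ^ (k - (s + 1)) * (cs' (s + 1) τ : ℝ) := by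
  have h1 : ∀ s ∈ range k, (1 - t) ^ (s + 1) * t ^ (k - (s + 1)) * (cs' (s + 1) τ : ℝ) =
      (τ.map fun x => (1 - t) ^ (s + 1) * t ^ (k - (s + 1)) * (Nat.choose x (s+1) : ℝ)).sum := by
    intro s hs
    rw [mem_range] at hs
    rw [cs'_eq _ (by omega) τ (fun x hx => (hτ x hx).trans hk), ← List.sum_map_mul_left]
  rw [sum_congr rfl h1]
  clear h1
  unfold uf
  induction τ with
  | nil => simp
  | cons x τ ih =>
    have ih' := ih (fun x hx => hτ x (List.mem_cons_of_mem _ hx))
    simp only [List.map_cons, List.sum_cons, List.length_cons]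
    rw [sum_add_distrib, ← ih']
    have h3 := binom_aux t (hτ x List.mem_cons_self)
    rw [sum_range_succ'] at h3
    simp only [pow_zero, one_mul, Nat.sub_zero, Nat.choose_zero_right, Nat.cast_one, mul_one] at h3
    rw [← h3]
    push_cast
    ring

theorem le_lsumN {τ : List ℕ} {x : ℕ} (hx : x ∈ τ) : x ≤ lsumN τ := by
  induction τ with
  | nil => simp at hx
  | cons a τ ih =>
    change x ≤ a + lsumN τ
    rcases List.mem_cons.1 hx with rfl | hx
    · exact Nat.le_add_right _ _
    · exact (ih hx).trans (Nat.le_add_left _ _)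

theorem cs'_one (τ : List ℕ) (hτ : ∀ x ∈ τ, x ≤ 10) : cs' 1 τ = lsumN τ := by
  induction τ with
  | nil => rfl
  | cons x τ ih =>
    change bin x 1 + cs' 1 τ = x + lsumN τ
    rw [ih (fun x hx => hτ x (List.mem_cons_of_mem _ hx)), bin_eq x (hτ x List.mem_cons_self) 1 (by norm_num),
      Nat.choose_one_right]

theorem zd_map_mul (T : List (List ℕ)) (f g : List ℕ → ℝ) (d : List ℝ) :
    zd (T.map fun τ => f τ * g τ) d = zd (T.map f) (List.zipWith (fun τ x => g τ * x) T d) := by
  induction T generalizing d with
  | nil => simp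
  | cons τ T ih =>
    cases d with
    | nil => simp
    | cons a d =>
      rw [List.map_cons, zd_cons, List.map_cons, List.zipWith_cons_cons, zd_cons, ih]
      ring

theorem zd_map_congr (T : List (List ℕ)) {f g : List ℕ → ℝ} (h : ∀ τ ∈ T, f τ = g τ) (d : List ℝ) :
    zd (T.map f) d = zd (T.map g) d := by
  rw [List.map_congr_left h]

theorem zd_map_sum_mul (T : List (List ℕ)) (f : List ℕ → ℝ) {ι : Type} (s : Finset ι)
    (w : ι → ℝ) (g : ι → List ℕ → ℝ) (d : List ℝ) :
    zd (T.map fun τ => f τ * ∑ i ∈ s, w i * g i τ) d =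
      ∑ i ∈ s, w i * zd (T.map fun τ => f τ * g i τ) d := by
  induction T generalizing d with
  | nil => simp
  | cons τ T ih =>
    cases d with
    | nil => simp
    | cons a d =>
      simp only [List.map_cons, zd_cons]
      rw [ih, mul_sum, sum_mul, ← sum_add_distrib]
      refine sum_congr rfl fun i _ => ?_
      ring

/-- strict cone condition for a function on types -/
def StrC (T : Tab) (f : List ℕ → ℝ) : Prop := StrF T.rows (fun d => zd (T.types.map f) d)

theorem StrC.mul {T : Tab} {k : ℕ} (hk0 : 0 < k) (hk : k ≤ 10) (h : CloseOK T k)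
    {f : List ℕ → ℝ} (hf : StrC T f) {t : ℝ} (h0 : 0 < t) (h1 : t < 1) :
    StrC T (fun τ => f τ * uf k t τ) := by
  obtain ⟨hT, hC, -⟩ := h
  have hle : ∀ τ ∈ T.types, ∀ x ∈ τ, x ≤ k := fun τ hτ x hx => by
    rw [← (hT τ hτ).1]
    exact le_lsumN hx
  have hconst : ∀ (L : List (List ℕ)) (d : List ℝ), zd (L.map fun τ => f τ * (k:ℝ)) d =
      (k : ℝ) * zd (L.map f) d := by
    intro L
    induction L with
    | nil => intro d; simp
    | cons τ L ih =>
      intro d
      cases d with
      | nil => simp
      | cons a d =>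
        rw [List.map_cons, List.map_cons, zd_cons, zd_cons, ih]
        ring
  have e1 : ∀ d, zd (T.types.map fun τ => f τ * uf k t τ) d =
      ((1 - t) * t ^ (k - 1) * k) * zd (T.types.map f) d +
      ∑ s ∈ range (k - 1), ((1 - t) ^ (s + 1 + 1) * t ^ (k - (s + 1 + 1))) *
        zd (T.types.map fun τ => f τ * (cs' (s + 1 + 1) τ : ℝ)) d := by
    intro d
    rw [zd_map_congr T.types (g := fun τ => f τ * ∑ s ∈ range k,
      ((1 - t) ^ (s + 1) * t ^ (k - (s + 1))) * (cs' (s + 1) τ : ℝ))
      (fun τ hτ => by rw [uf_expand k hk t τ (hle τ hτ)]), zd_map_sum_mul]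
    obtain ⟨k', rfl⟩ : ∃ k', k = k' + 1 := ⟨k - 1, by omega⟩
    rw [sum_range_succ', Nat.add_sub_cancel, add_comm]
    congr 1
    rw [zd_map_congr T.types (f := fun τ => f τ * (cs' (0 + 1) τ : ℝ))
      (g := fun τ => f τ * ((k' + 1 : ℕ) : ℝ))
      (fun τ hτ => by
        rw [zero_add, cs'_one τ (fun x hx => (hle τ hτ x hx).trans hk), (hT τ hτ).1]), hconst]
    simp only [zero_add, pow_one, Nat.add_sub_cancel]
    ring
  unfold StrC
  simp only [e1]
  refine StrF.add ?_ ?_
  · exact StrF.smul hf (mul_pos (mul_pos (by linarith) (pow_pos h0 _)) (Nat.cast_pos.2 hk0))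
  · refine PosF.sum _ _ fun s hs => ?_
    rw [mem_range] at hs
    refine PosF.smul ?_ (mul_nonneg (pow_nonneg (by linarith) _) (pow_nonneg h0.le _))
    obtain ⟨c0, c, g1, g2, g0, g3⟩ := hf
    have hs' : s + 1 < k := by omega
    have hC' := hC (s + 1) hs'
    have g4 := close_lin (T := T) (s := s + 1 + 1) T.rows hC' (c0 :: c) g1
    have g5 : zd (T.types.map fun τ => f τ * (cs' (s + 1 + 1) τ : ℝ)) =
        (fun d => zd (c0 :: c) (Rv T.rows (mulC T.types (s + 1 + 1) d))) := by
      funext d
      rw [zd_map_mul]
      exact g3 _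
    rw [g5]
    exact g4

theorem StrC.one {T : Tab} {k : ℕ} (h : CloseOK T k) : StrC T (fun _ => 1) := by
  obtain ⟨-, -, R, hR⟩ := h
  unfold StrC StrF
  rw [hR]
  refine ⟨1, List.replicate R.length 0, ?_, by simp, one_pos, fun d => ?_⟩
  · intro x hx
    rcases List.mem_cons.1 hx with rfl | hx
    · exact zero_le_one
    · rw [List.eq_of_mem_replicate hx]
  · rw [Rv, List.map_cons, zd_cons]
    have h1 : ∀ (r : List ℝ) (n : ℕ), zd (List.replicate n 0) r = 0 := by
      intro r n
      induction n generalizing r with
      | zero => simp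
      | succ n ih =>
        cases r with
        | nil => simp
        | cons x r => rw [List.replicate_succ, zd_cons, ih r]; ring
    change zd (T.types.map fun _ => 1) d = _
    rw [h1, add_zero, one_mul, List.map_map]
    congr 1
    refine List.map_congr_left fun τ _ => ?_
    simp

theorem StrC.prod {T : Tab} {k : ℕ} (hk0 : 0 < k) (hk : k ≤ 10) (h : CloseOK T k)
    {ι : Type} (s : Finset ι) (t : ι → ℝ) (ht : ∀ i ∈ s, 0 < t i ∧ t i < 1) :
    StrC T (fun τ => ∏ i ∈ s, uf k (t i) τ) := by
  classical
  induction s using Finset.induction_on with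
  | empty => simpa using StrC.one h
  | insert a s ha ih =>
    simp only [prod_insert ha]
    have h1 := (ih fun i hi => ht i (mem_insert_of_mem hi)).mul hk0 hk h
      (ht a (mem_insert_self _ _)).1 (ht a (mem_insert_self _ _)).2
    refine (iff_of_eq ?_).1 h1
    congr 1
    funext τ
    exact mul_comm _ _

end Pool.Agent.W_MP_d15038_ex
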