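import Pool.Agent.W_MP_d15038_ex.Class

/-!
# Counting the components
-/

set_option autoImplicit false
set_option linter.unusedSectionVars false
set_option linter.unusedSimpArgs false

open Finset

namespace Pool.Agent.W_MP_d15038_ex

open scoped Classical

section cnt

variable {V : Type} [Fintype V] {H : SimpleGraph V} {q : ℝ}

/-- vertices of degree two -/
noncomputable def D2 (H : SimpleGraph V) : Finset V := univ.filter fun x => H.degree x = 2

theorem mem_D2 {x : V} : x ∈ D2 H ↔ H.degree x = 2 := by
  unfold D2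
  rw [mem_filter]
  simp

theorem Good.card_D2 (h : Good H q) : Fintype.card V + (D2 H).card = 2 * H.edgeFinset.card := by
  rw [← h.sum_deg]
  have h1 : ∀ x ∈ (univ : Finset V), H.degree x = 1 + (if H.degree x = 2 then 1 else 0) := by
    intro x _
    have := h.pos x
    have := h.le_two x
    split_ifs <;> omega
  rw [sum_congr rfl h1, sum_add_distrib, ← card_filter, sum_const, card_univ, smul_eq_mul, mul_one]
  rfl

theorem IsTri.rot {a b c : V} (h : IsTri H a b c) : IsTri H b c a := by
  obtain ⟨h0, h1, h2, h3⟩ := h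
  refine ⟨?_, h2, h3, h1⟩
  have : [a, b, c].Perm [b, c, a] := by
    have := List.perm_middle (a := a) (l₁ := [b, c]) (l₂ := [])
    exact this.symm
  exact this.nodup_iff.1 h0

/-- vertices in triangles -/
noncomputable def TT (H : SimpleGraph V) : Finset V := univ.filter fun x => ∃ b c, IsTri H x b c

theorem mem_TT {x : V} : x ∈ TT H ↔ ∃ b c, IsTri H x b c := by
  unfold TT
  rw [mem_filter]
  simp

theorem three_dvd_TT : 3 ∣ (TT H).card := by
  rw [card_eq_sum_card_image (fun x => H.connectedComponentMk x)]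
  refine dvd_sum fun C hC => ?_
  obtain ⟨x, hx, rfl⟩ := mem_image.1 hC
  obtain ⟨b, c, h⟩ := mem_TT.1 hx
  have : ((TT H).filter fun y => H.connectedComponentMk y = H.connectedComponentMk x) =
      [x, b, c].toFinset := by
    ext y
    rw [mem_filter, List.mem_toFinset, SimpleGraph.ConnectedComponent.eq]
    constructor
    · rintro ⟨_, h1⟩
      exact h.comp.reach (by simp) h1.symm
    · intro hy
      refine ⟨?_, h.comp.cn y hy x (by simp)⟩
      rw [mem_TT]
      simp only [List.mem_cons, List.not_mem_nil, or_false] at hy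
      rcases hy with rfl | rfl | rfl
      · exact ⟨_, _, h⟩
      · exact ⟨_, _, h.rot⟩
      · exact ⟨_, _, h.rot.rot⟩
  rw [this, List.toFinset_card_of_nodup h.1]
  simp

/-- degree two, not in a triangle -/
noncomputable def RR (H : SimpleGraph V) : Finset V := (D2 H).filter fun x => ¬ ∃ b c, IsTri H x b c

theorem mem_RR {x : V} : x ∈ RR H ↔ H.degree x = 2 ∧ ¬ ∃ b c, IsTri H x b c := by
  unfold RR
  rw [mem_filter, mem_D2]

theorem card_RR : (D2 H).card = (TT H).card + (RR H).card := by
  have h1 := card_filter_add_card_filter_not (s := D2 H) (fun x => ∃ b c, IsTri H x b c)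
  have h2 : ((D2 H).filter fun x => ∃ b c, IsTri H x b c) = TT H := by
    ext x
    rw [mem_filter, mem_TT, mem_D2]
    constructor
    · exact fun h => h.2
    · rintro ⟨b, c, h⟩
      exact ⟨h.deg x (by simp), b, c, h⟩
  rw [h2] at h1
  exact h1.symm

theorem card_of_list {R : Finset V} {l : List V} (hl : l.Nodup) (h : ∀ x, x ∈ R ↔ x ∈ l) :
    R.card = l.length := by
  rw [← List.toFinset_card_of_nodup hl]
  congr 1
  ext x
  rw [h x, List.mem_toFinset]

theorem not_tri_of_comp {S : List V} (hS : IsComp H S) (hlen : S.length ≠ 3) {x : V}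
    (hx : x ∈ S) : ¬ ∃ b c, IsTri H x b c := by
  rintro ⟨b, c, h⟩
  exact hS.disj_len h.comp (by simpa using hlen) x (by simp) hx

theorem Good.no_C4 (h : Good H q) (h3 : 3 ∣ (RR H).card) {a b c d : V} (k : IsC4 H a b c d) :
    False := by
  have := card_of_list k.1 (R := RR H) (fun y => by
    rw [mem_RR]
    constructor
    · rintro ⟨h1, h2⟩
      rcases h.class2 h1 with ⟨a', c', k'⟩ | ⟨a', b', c', d', k', _⟩ | k' | ⟨b', c', d', k'⟩ |
        ⟨b', c', d', e', k'⟩
      · exact (h.no_P3C4 k' k).elim
      · exact (h.no_C4P4 k k').elim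
      · exact absurd k' h2
      · by_contra hcon
        exact h.no_C4C4 k k' (x := y) (by simp) hcon
      · exact (h.no_C4C5 k k').elim
    · intro hy
      exact ⟨k.deg y hy, not_tri_of_comp k.comp (by simp) hy⟩)
  rw [this] at h3
  simp at h3

theorem Good.no_P4 (h : Good H q) (h3 : 3 ∣ (RR H).card) {a b c d : V} (k : IsP4 H a b c d) :
    False := by
  have hd := k.degs
  have hbc : b ≠ c := by
    have := k.1
    simp only [List.nodup_cons, List.mem_cons, List.not_mem_nil, or_false, not_false_eq_true,
      List.nodup_nil, and_true, not_or] at this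
    exact this.2.1.1
  have hP4 : ∀ y a' b' c' d', H.degree y = 2 → IsP4 H a' b' c' d' → (y = b' ∨ y = c') →
      y = b ∨ y = c := by
    intro y a' b' c' d' h1 k' hy
    by_cases hm : y ∈ [a, b, c, d]
    · simp only [List.mem_cons, List.not_mem_nil, or_false] at hm
      rcases hm with rfl | rfl | rfl | rfl
      · omega
      · exact Or.inl rfl
      · exact Or.inr rfl
      · omega
    · exact (h.no_P4P4 k k' (x := y) (by simp only [List.mem_cons]; tauto) hm).elim
  by_cases h5 : ∃ e1 e2 e3 e4 e5, IsC5 H e1 e2 e3 e4 e5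
  · obtain ⟨e1, e2, e3, e4, e5, k5⟩ := h5
    have hdis := k.comp.disj_len k5.comp (by simp)
    have hnd : ([b, c] ++ [e1, e2, e3, e4, e5]).Nodup := by
      refine nodup_app (by simpa using hbc) k5.1 fun x hx hx' => hdis x hx ?_
      simp only [List.mem_cons, List.not_mem_nil, or_false] at hx' ⊢
      tauto
    have := card_of_list hnd (R := RR H) (fun y => by
      rw [mem_RR, List.mem_append]
      constructor
      · rintro ⟨h1, h2⟩
        rcases h.class2 h1 with ⟨a', c', k'⟩ | ⟨a', b', c', d', k', hy⟩ | k' | ⟨b', c', d', k'⟩ |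
          ⟨b', c', d', e', k'⟩
        · exact (h.no_P3P4 k' k).elim
        · left
          have := hP4 y a' b' c' d' h1 k' hy
          simpa using this
        · exact absurd k' h2
        · exact (h.no_C4P4 k' k).elim
        · right
          by_contra hcon
          exact h.no_C5C5 k5 k' (x := y) (by simp) hcon
      · rintro (hy | hy)
        · have hy' : y ∈ [a, b, c, d] := by
            simp only [List.mem_cons, List.not_mem_nil, or_false] at hy ⊢
            tauto
          refine ⟨?_, not_tri_of_comp k.comp (by simp) hy'⟩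
          simp only [List.mem_cons, List.not_mem_nil, or_false] at hy
          rcases hy with rfl | rfl
          · exact hd.2.1
          · exact hd.2.2.1
        · exact ⟨k5.deg y hy, not_tri_of_comp k5.comp (by simp) hy⟩)
    rw [this] at h3
    simp at h3
  · have := card_of_list (l := [b, c]) (by simpa using hbc) (R := RR H) (fun y => by
      rw [mem_RR]
      constructor
      · rintro ⟨h1, h2⟩
        rcases h.class2 h1 with ⟨a', c', k'⟩ | ⟨a', b', c', d', k', hy⟩ | k' | ⟨b', c', d', k'⟩ |
          ⟨b', c', d', e', k'⟩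
        · exact (h.no_P3P4 k' k).elim
        · have := hP4 y a' b' c' d' h1 k' hy
          simpa using this
        · exact absurd k' h2
        · exact (h.no_C4P4 k' k).elim
        · exact (h5 ⟨_, _, _, _, _, k'⟩).elim
      · intro hy
        have hy' : y ∈ [a, b, c, d] := by
          simp only [List.mem_cons, List.not_mem_nil, or_false] at hy ⊢
          tauto
        refine ⟨?_, not_tri_of_comp k.comp (by simp) hy'⟩
        simp only [List.mem_cons, List.not_mem_nil, or_false] at hy
        rcases hy with rfl | rfl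
        · exact hd.2.1
        · exact hd.2.2.1)
    rw [this] at h3
    simp at h3

theorem Good.no_C5 (h : Good H q) (h3 : 3 ∣ (RR H).card) {a b c d e : V}
    (k : IsC5 H a b c d e) : False := by
  have := card_of_list k.1 (R := RR H) (fun y => by
    rw [mem_RR]
    constructor
    · rintro ⟨h1, h2⟩
      rcases h.class2 h1 with ⟨a', c', k'⟩ | ⟨a', b', c', d', k', _⟩ | k' | ⟨b', c', d', k'⟩ |
        ⟨b', c', d', e', k'⟩
      · exact (h.no_P3C5 k' k).elim
      · exact (h.no_P4 h3 k').elim
      · exact absurd k' h2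
      · exact (h.no_C4C5 k' k).elim
      · by_contra hcon
        exact h.no_C5C5 k k' (x := y) (by simp) hcon
    · intro hy
      exact ⟨k.deg y hy, not_tri_of_comp k.comp (by simp) hy⟩)
  rw [this] at h3
  simp at h3

theorem Good.all_tri (h : Good H q) (h3 : 3 ∣ (D2 H).card) {x : V} (hx : H.degree x = 2) :
    ∃ b c, IsTri H x b c := by
  have hR : 3 ∣ (RR H).card := by
    have h1 := card_RR (H := H)
    have h2 := three_dvd_TT (H := H)
    omega
  by_contra hcon
  have hpos : 0 < (RR H).card := card_pos.2 ⟨x, mem_RR.2 ⟨hx, hcon⟩⟩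
  have h2 : 2 < (RR H).card := by omega
  obtain ⟨y1, m1, y2, m2, y3, m3, n12, n13, n23⟩ := two_lt_card.1 h2
  have hP3 : ∀ y ∈ RR H, ∃ a c, IsP3 H a y c := by
    intro y hy
    rw [mem_RR] at hy
    rcases h.class2 hy.1 with k | ⟨a', b', c', d', k', _⟩ | k' | ⟨b', c', d', k'⟩ |
        ⟨b', c', d', e', k'⟩
    · exact k
    · exact (h.no_P4 hR k').elim
    · exact absurd k' hy.2
    · exact (h.no_C4 hR k').elim
    · exact (h.no_C5 hR k').elim
  obtain ⟨a1, c1, k1⟩ := hP3 y1 m1
  obtain ⟨a2, c2, k2⟩ := hP3 y2 m2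
  obtain ⟨a3, c3, k3⟩ := hP3 y3 m3
  have key : ∀ {a y c z : V}, IsP3 H a y c → H.degree z = 2 → z ≠ y → z ∉ [a, y, c] := by
    intro a y c z k hz hzy hm
    have := k.degs
    simp only [List.mem_cons, List.not_mem_nil, or_false] at hm
    rcases hm with rfl | rfl | rfl
    · omega
    · exact hzy rfl
    · omega
  have e2 := (mem_RR.1 m2).1
  have e3 := (mem_RR.1 m3).1
  exact h.no_TP3 k1 k2 k3 (x := y2) (y := y3) (z := y3) (by simp) (key k1 e2 n12.symm) (by simp)
    (key k1 e3 n13.symm) (by simp) (key k2 e3 n23.symm)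

/-- every vertex is in a component `K_2` or in a component of type `X` -/
def AllKX (X : SimpleGraph V → List V → Prop) (H : SimpleGraph V) : Prop :=
  ∀ v, (∃ b, IsK2 H v b) ∨ ∃ S, X H S ∧ v ∈ S

/-- triangle component -/
def XTri (H : SimpleGraph V) (S : List V) : Prop := ∃ a b c, S = [a, b, c] ∧ IsTri H a b c
/-- `P_3` component -/
def XP3 (H : SimpleGraph V) (S : List V) : Prop := ∃ a b c, S = [a, b, c] ∧ IsP3 H a b c
/-- `P_4` component -/
def XP4 (H : SimpleGraph V) (S : List V) : Prop := ∃ a b c d, S = [a, b, c, d] ∧ IsP4 H a b c d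

theorem Good.leaf_cases (h : Good H q) {v : V} (hv : H.degree v = 1) :
    (∃ b, IsK2 H v b) ∨ (∃ b c, IsP3 H v b c) ∨ ∃ b c d, IsP4 H v b c d := by
  obtain ⟨w, hw⟩ := (SimpleGraph.degree_pos_iff_exists_adj _ _).1 (show 0 < H.degree v by omega)
  rcases h.leaf_class (nb_one hw hv) with h1 | ⟨c, h1⟩ | ⟨c, d, h1⟩
  · exact Or.inl ⟨w, h1⟩
  · exact Or.inr (Or.inl ⟨w, c, h1⟩)
  · exact Or.inr (Or.inr ⟨w, c, d, h1⟩)

theorem Good.allTri (h : Good H q) (h3 : 3 ∣ (D2 H).card) : AllKX XTri H := by
  intro v
  have hp := h.pos v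
  have ht := h.le_two v
  rcases (show H.degree v = 1 ∨ H.degree v = 2 by omega) with hv | hv
  · rcases h.leaf_cases hv with k | ⟨b, c, k⟩ | ⟨b, c, d, k⟩
    · exact Or.inl k
    · exfalso
      have hd := k.degs
      obtain ⟨b', c', k'⟩ := h.all_tri h3 hd.2.1
      have hp := k.comp.same k'.comp (x := b) (by simp) (by simp)
      have := k'.deg v (hp.mem_iff.1 (by simp))
      omega
    · exfalso
      have hd := k.degs
      obtain ⟨b', c', k'⟩ := h.all_tri h3 hd.2.1
      exact k.comp.disj_len k'.comp (by simp) b (by simp) (by simp)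
  · obtain ⟨b, c, k⟩ := h.all_tri h3 hv
    exact Or.inr ⟨_, ⟨_, _, _, rfl, k⟩, by simp⟩

theorem two_le_of_ne {a b : V} (ha : H.degree a = 2) (hb : H.degree b = 2) (hab : a ≠ b) :
    2 ≤ (D2 H).card := by
  have : ({a, b} : Finset V) ⊆ D2 H := by
    intro x hx
    rw [mem_insert, mem_singleton] at hx
    rw [mem_D2]
    rcases hx with rfl | rfl <;> assumption
  have h2 := card_le_card this
  rwa [card_pair hab] at h2

theorem three_le_of_list {l : List V} (hl : l.Nodup) (h : ∀ x ∈ l, H.degree x = 2) :
    l.length ≤ (D2 H).card := by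
  rw [← List.toFinset_card_of_nodup hl]
  refine card_le_card fun x hx => ?_
  rw [mem_D2]
  exact h x (List.mem_toFinset.1 hx)

theorem Good.allP3 (h : Good H q) (h1 : (D2 H).card = 1) : AllKX XP3 H := by
  have noP4 : ∀ a b c d, ¬ IsP4 H a b c d := by
    intro a b c d k
    have hd := k.degs
    have hnd := k.1
    simp only [List.nodup_cons, List.mem_cons, List.not_mem_nil, or_false, not_false_eq_true,
      List.nodup_nil, and_true, not_or] at hnd
    have := two_le_of_ne hd.2.1 hd.2.2.1 hnd.2.1.1
    omega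
  intro v
  have hp := h.pos v
  have ht := h.le_two v
  rcases (show H.degree v = 1 ∨ H.degree v = 2 by omega) with hv | hv
  · rcases h.leaf_cases hv with k | ⟨b, c, k⟩ | ⟨b, c, d, k⟩
    · exact Or.inl k
    · exact Or.inr ⟨_, ⟨_, _, _, rfl, k⟩, by simp⟩
    · exact (noP4 _ _ _ _ k).elim
  · rcases h.class2 hv with ⟨a', c', k'⟩ | ⟨a', b', c', d', k', _⟩ | ⟨b', c', k'⟩ |
        ⟨b', c', d', k'⟩ | ⟨b', c', d', e', k'⟩
    · exact Or.inr ⟨_, ⟨_, _, _, rfl, k'⟩, by simp⟩
    · exact (noP4 _ _ _ _ k').elim
    · have := three_le_of_list k'.1 k'.deg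
      simp at this
      omega
    · have := three_le_of_list k'.1 k'.deg
      simp at this
      omega
    · have := three_le_of_list k'.1 k'.deg
      simp at this
      omega

theorem Good.allTwo (h : Good H q) (h1 : (D2 H).card = 2) : AllKX XP3 H ∨ AllKX XP4 H := by
  by_cases h4 : ∃ a b c d, IsP4 H a b c d
  · right
    obtain ⟨a, b, c, d, k⟩ := h4
    have hd := k.degs
    have hnd := k.1
    simp only [List.nodup_cons, List.mem_cons, List.not_mem_nil, or_false, not_false_eq_true,
      List.nodup_nil, and_true, not_or] at hnd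
    have hD : ∀ x, H.degree x = 2 → x = b ∨ x = c := by
      intro x hx
      by_contra hcon
      push Not at hcon
      have := three_le_of_list (H := H) (l := [x, b, c]) (by simp [hcon.1, hcon.2, hnd.2.1.1])
        (by
          intro y hy
          simp only [List.mem_cons, List.not_mem_nil, or_false] at hy
          rcases hy with rfl | rfl | rfl
          · exact hx
          · exact hd.2.1
          · exact hd.2.2.1)
      simp at this
      omega
    intro v
    have hp := h.pos v
    have ht := h.le_two v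
    rcases (show H.degree v = 1 ∨ H.degree v = 2 by omega) with hv | hv
    · rcases h.leaf_cases hv with k' | ⟨b', c', k'⟩ | ⟨b', c', d', k'⟩
      · exact Or.inl k'
      · exact (h.no_P3P4 k' k).elim
      · exact Or.inr ⟨_, ⟨_, _, _, _, rfl, k'⟩, by simp⟩
    · refine Or.inr ⟨_, ⟨_, _, _, _, rfl, k⟩, ?_⟩
      simp only [List.mem_cons, List.not_mem_nil, or_false]
      rcases hD v hv with rfl | rfl
      · exact Or.inr (Or.inl rfl)
      · exact Or.inr (Or.inr (Or.inl rfl))
  · left
    push Not at h4
    intro v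
    have hp := h.pos v
    have ht := h.le_two v
    rcases (show H.degree v = 1 ∨ H.degree v = 2 by omega) with hv | hv
    · rcases h.leaf_cases hv with k | ⟨b, c, k⟩ | ⟨b, c, d, k⟩
      · exact Or.inl k
      · exact Or.inr ⟨_, ⟨_, _, _, rfl, k⟩, by simp⟩
      · exact (h4 _ _ _ _ k).elim
    · rcases h.class2 hv with ⟨a', c', k'⟩ | ⟨a', b', c', d', k', _⟩ | ⟨b', c', k'⟩ |
          ⟨b', c', d', k'⟩ | ⟨b', c', d', e', k'⟩
      · exact Or.inr ⟨_, ⟨_, _, _, rfl, k'⟩, by simp⟩
      · exact (h4 _ _ _ _ k').elim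
      · have := three_le_of_list k'.1 k'.deg
        simp at this
        omega
      · have := three_le_of_list k'.1 k'.deg
        simp at this
        omega
      · have := three_le_of_list k'.1 k'.deg
        simp at this
        omega

end cnt

end Pool.Agent.W_MP_d15038_ex
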