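import Pool.Agent.W_MP_d15038_ex.Leaf

/-!
# Exclusions, and the bound on the degrees
-/

set_option autoImplicit false
set_option linter.unusedSectionVars false
set_option linter.unusedSimpArgs false

open Finset

namespace Pool.Agent.W_MP_d15038_ex

open scoped Classical

section deg

variable {V : Type} [Fintype V] {H : SimpleGraph V}

theorem IsK2.deg {a b : V} (h : IsK2 H a b) : ∀ x ∈ [a, b], H.degree x = 1 := by
  intro x hx
  simp only [List.mem_cons, List.not_mem_nil, or_false] at hx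
  rcases hx with rfl | rfl
  · exact h.1.deg (by simp)
  · exact h.2.deg (by simp)

theorem IsP3.degs {a b c : V} (h : IsP3 H a b c) :
    H.degree a = 1 ∧ H.degree b = 2 ∧ H.degree c = 1 := by
  obtain ⟨h0, h1, h2, h3⟩ := h
  refine ⟨h1.deg (by simp), h2.deg ?_, h3.deg (by simp)⟩
  simp only [List.nodup_cons, List.mem_cons, List.not_mem_nil, or_false, not_false_eq_true,
    List.nodup_nil, and_true, not_or] at h0 ⊢
  exact h0.1.2

theorem IsP4.degs {a b c d : V} (h : IsP4 H a b c d) :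
    H.degree a = 1 ∧ H.degree b = 2 ∧ H.degree c = 2 ∧ H.degree d = 1 := by
  obtain ⟨h0, h1, h2, h3, h4⟩ := h
  simp only [List.nodup_cons, List.mem_cons, List.not_mem_nil, or_false, not_false_eq_true,
    List.nodup_nil, and_true, not_or] at h0
  refine ⟨h1.deg (by simp), h2.deg ?_, h3.deg ?_, h4.deg (by simp)⟩
  · simp only [List.nodup_cons, List.mem_cons, List.not_mem_nil, or_false, not_false_eq_true,
      List.nodup_nil, and_true, not_or]
    exact h0.1.2.1
  · simp only [List.nodup_cons, List.mem_cons, List.not_mem_nil, or_false, not_false_eq_true,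
      List.nodup_nil, and_true, not_or]
    exact h0.2.1.2

theorem IsTri.deg {a b c : V} (h : IsTri H a b c) : ∀ x ∈ [a, b, c], H.degree x = 2 := by
  obtain ⟨h0, h1, h2, h3⟩ := h
  simp only [List.nodup_cons, List.mem_cons, List.not_mem_nil, or_false, not_false_eq_true,
    List.nodup_nil, and_true, not_or] at h0
  intro x hx
  simp only [List.mem_cons, List.not_mem_nil, or_false] at hx
  rcases hx with rfl | rfl | rfl
  · exact h1.deg (by simpa using fun h => h0.2 h.symm)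
  · exact h2.deg (by simpa using h0.1.2)
  · exact h3.deg (by simpa using fun h => h0.1.1 h.symm)

theorem IsC4.deg {a b c d : V} (h : IsC4 H a b c d) : ∀ x ∈ [a, b, c, d], H.degree x = 2 := by
  obtain ⟨h0, h1, h2, h3, h4⟩ := h
  simp only [List.nodup_cons, List.mem_cons, List.not_mem_nil, or_false, not_false_eq_true,
    List.nodup_nil, and_true, not_or] at h0
  intro x hx
  simp only [List.mem_cons, List.not_mem_nil, or_false] at hx
  rcases hx with rfl | rfl | rfl | rfl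
  · exact h1.deg (by simpa using fun h => h0.2.1.2 h.symm)
  · exact h2.deg (by simpa using h0.1.2.1)
  · exact h3.deg (by simpa using h0.2.1.2)
  · exact h4.deg (by simpa using fun h => h0.1.2.1 h.symm)

theorem IsC5.deg {a b c d e : V} (h : IsC5 H a b c d e) :
    ∀ x ∈ [a, b, c, d, e], H.degree x = 2 := by
  obtain ⟨h0, h1, h2, h3, h4, h5⟩ := h
  simp only [List.nodup_cons, List.mem_cons, List.not_mem_nil, or_false, not_false_eq_true,
    List.nodup_nil, and_true, not_or] at h0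
  intro x hx
  simp only [List.mem_cons, List.not_mem_nil, or_false] at hx
  rcases hx with rfl | rfl | rfl | rfl | rfl
  · exact h1.deg (by simpa using fun h => h0.2.1.2.2 h.symm)
  · exact h2.deg (by simpa using h0.1.2.1)
  · exact h3.deg (by simpa using h0.2.1.2.1)
  · exact h4.deg (by simpa using h0.2.2.1.2)
  · exact h5.deg (by simpa using fun h => h0.1.2.2.1 h.symm)

end deg

section excl

variable {V : Type} [Fintype V] {H : SimpleGraph V} {q : ℝ}

theorem Good.no_P3P4 (h : Good H q) {a b c d e f g : V} (h1 : IsP3 H a b c)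
    (h2 : IsP4 H d e f g) : False := by
  have hn := nodup_app h1.comp.nd h2.comp.nd (h1.comp.disj_len h2.comp (by simp))
  obtain ⟨-, n0, n1, n2⟩ := h1
  obtain ⟨-, n3, n4, n5, n6⟩ := h2
  exact h.nb (cmp_P3P4 h.q0 h.q1 hn n0 n1 n2 n3 n4 n5 n6)

theorem Good.no_P3C4 (h : Good H q) {a b c d e f g : V} (h1 : IsP3 H a b c)
    (h2 : IsC4 H d e f g) : False := by
  have hn := nodup_app h1.comp.nd h2.comp.nd (h1.comp.disj_len h2.comp (by simp))
  obtain ⟨-, n0, n1, n2⟩ := h1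
  obtain ⟨-, n3, n4, n5, n6⟩ := h2
  exact h.nb (cmp_P3C4 h.q0 h.q1 hn n0 n1 n2 n3 n4 n5 n6)

theorem Good.no_P3C5 (h : Good H q) {a b c d e f g i : V} (h1 : IsP3 H a b c)
    (h2 : IsC5 H d e f g i) : False := by
  have hn := nodup_app h1.comp.nd h2.comp.nd (h1.comp.disj_len h2.comp (by simp))
  obtain ⟨-, n0, n1, n2⟩ := h1
  obtain ⟨-, n3, n4, n5, n6, n7⟩ := h2
  exact h.nb (cmp_P3C5 h.q0 h.q1 hn n0 n1 n2 n3 n4 n5 n6 n7)

theorem Good.no_P4P4 (h : Good H q) {a b c d e f g i x : V} (h1 : IsP4 H a b c d)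
    (h2 : IsP4 H e f g i) (hx : x ∈ [e, f, g, i]) (hx' : x ∉ [a, b, c, d]) : False := by
  have hn := nodup_app h1.comp.nd h2.comp.nd (h1.comp.disj h2.comp hx hx')
  obtain ⟨-, n0, n1, n2, n3⟩ := h1
  obtain ⟨-, n4, n5, n6, n7⟩ := h2
  exact h.nb (cmp_P4P4 h.q0 h.q1 hn n0 n1 n2 n3 n4 n5 n6 n7)

theorem Good.no_C4C4 (h : Good H q) {a b c d e f g i x : V} (h1 : IsC4 H a b c d)
    (h2 : IsC4 H e f g i) (hx : x ∈ [e, f, g, i]) (hx' : x ∉ [a, b, c, d]) : False := by
  have hn := nodup_app h1.comp.nd h2.comp.nd (h1.comp.disj h2.comp hx hx')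
  obtain ⟨-, n0, n1, n2, n3⟩ := h1
  obtain ⟨-, n4, n5, n6, n7⟩ := h2
  exact h.nb (cmp_C4C4 h.q0 h.q1 hn n0 n1 n2 n3 n4 n5 n6 n7)

theorem Good.no_C4P4 (h : Good H q) {a b c d e f g i : V} (h1 : IsC4 H a b c d)
    (h2 : IsP4 H e f g i) : False := by
  have he : e ∉ [a, b, c, d] := fun h' => by
    have := h1.deg e h'
    have := h2.degs.1
    omega
  have hn := nodup_app h1.comp.nd h2.comp.nd (h1.comp.disj h2.comp (x := e) (by simp) he)
  obtain ⟨-, n0, n1, n2, n3⟩ := h1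
  obtain ⟨-, n4, n5, n6, n7⟩ := h2
  exact h.nb (cmp_C4P4 h.q0 h.q1 hn n0 n1 n2 n3 n4 n5 n6 n7)

theorem Good.no_C4C5 (h : Good H q) {a b c d e f g i j : V} (h1 : IsC4 H a b c d)
    (h2 : IsC5 H e f g i j) : False := by
  have hn := nodup_app h1.comp.nd h2.comp.nd (h1.comp.disj_len h2.comp (by simp))
  obtain ⟨-, n0, n1, n2, n3⟩ := h1
  obtain ⟨-, n4, n5, n6, n7, n8⟩ := h2
  have hp : ([a, b, c, d] ++ [e, f, g, i, j]).Perm [a, b, c, e, f, g, i, d, j] :=
    List.Perm.cons a (List.Perm.cons b (List.Perm.cons c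
      (List.perm_middle (a := d) (l₁ := [e, f, g, i]) (l₂ := [j])).symm))
  exact h.nb (cmp_C4C5 h.q0 h.q1 (hp.nodup_iff.1 hn) n0 n1 n2 n4 n5 n6 n7)

theorem Good.no_C5C5 (h : Good H q) {a b c d e f g i j k x : V} (h1 : IsC5 H a b c d e)
    (h2 : IsC5 H f g i j k) (hx : x ∈ [f, g, i, j, k]) (hx' : x ∉ [a, b, c, d, e]) : False := by
  have hn := nodup_app h1.comp.nd h2.comp.nd (h1.comp.disj h2.comp hx hx')
  obtain ⟨-, n0, n1, n2, n3, n4⟩ := h1
  obtain ⟨-, n5, n6, n7, n8, n9⟩ := h2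
  exact h.nb (cmp_C5C5 h.q0 h.q1 hn n0 n1 n2 n3 n4 n5 n6 n7)

theorem Good.no_TP3 (h : Good H q) {a b c d e f g i j x y z : V} (h1 : IsP3 H a b c)
    (h2 : IsP3 H d e f) (h3 : IsP3 H g i j) (hx : x ∈ [d, e, f]) (hx' : x ∉ [a, b, c])
    (hy : y ∈ [g, i, j]) (hy' : y ∉ [a, b, c]) (hz : z ∈ [g, i, j]) (hz' : z ∉ [d, e, f]) :
    False := by
  have e1 := h2.comp.disj h3.comp hz hz'
  have e2 := h1.comp.disj h3.comp hy hy'
  have e3 := h1.comp.disj h2.comp hx hx'
  have hn := nodup_app h1.comp.nd (nodup_app h2.comp.nd h3.comp.nd e1) (fun w hw => by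
    rcases List.mem_append.1 hw with hw | hw
    · exact e3 w hw
    · exact e2 w hw)
  obtain ⟨-, n0, n1, n2⟩ := h1
  obtain ⟨-, n3, n4, n5⟩ := h2
  obtain ⟨-, n6, n7, n8⟩ := h3
  exact h.nb (cmp_TP3 h.q0 h.q1 hn n0 n1 n2 n3 n4 n5 n6 n7 n8)

theorem Good.F1 (h : Good H q) {u v w : V} {S : List V} (hu : 3 ≤ H.degree u) (h1 : IsK2 H v w)
    (hS : IsComp H S) (hSd : ∀ x ∈ S, H.degree x ≤ 2) (hdis : ∀ x ∈ S, x ∉ [v, w]) :
    ∃ z a b, Nb H u [z, a, b] ∧ ([u, v, w] ++ S ++ [z, a, b]).Nodup := by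
  have h3 := h.le_three h1 u
  obtain ⟨l, l1, l2, l3⟩ := exists_Nb H u
  obtain ⟨z, a, b, rfl⟩ := List.length_eq_three.1 (show l.length = 3 by omega)
  refine ⟨z, a, b, l2, ?_⟩
  have hK := h1.comp
  have hu1 : u ∉ [v, w] := fun h' => by
    have := h1.deg u h'
    omega
  have hu2 : u ∉ S := fun h' => by
    have := hSd u h'
    omega
  have hzz : ∀ x ∈ [z, a, b], H.Adj u x := fun x hx => l2.adj hx
  have c1 : [u, v, w].Nodup := List.nodup_cons.2 ⟨hu1, hK.nd⟩
  refine nodup_app (nodup_app c1 hS.nd ?_) l1 ?_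
  · intro x hx hx'
    rcases List.mem_cons.1 hx' with rfl | hx'
    · exact hu2 hx
    · exact hdis x hx hx'
  · intro x hx hx'
    have hux := hzz x hx
    rcases List.mem_append.1 hx' with hx' | hx'
    · rcases List.mem_cons.1 hx' with rfl | hx'
      · exact hux.ne rfl
      · exact hu1 (hK.cl x hx' u hux.symm)
    · exact hu2 (hS.cl x hx' u hux.symm)

theorem Good.F1a (h : Good H q) {u v w v1 w1 x : V} (hu : 3 ≤ H.degree u) (h1 : IsK2 H v w)
    (h2 : IsK2 H v1 w1) (hx : x ∈ [v1, w1]) (hx' : x ∉ [v, w]) : False := by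
  obtain ⟨z, a, b, n0, hn⟩ := h.F1 hu h1 h2.comp (fun y hy => by
    have := h2.deg y hy
    omega) (h1.comp.disj h2.comp hx hx')
  exact h.nb (cmp_F1a h.q0 h.q1 hn n0 h1.1 h1.2 h2.1 h2.2)

theorem Good.F1b (h : Good H q) {u v w a1 b1 c1 : V} (hu : 3 ≤ H.degree u) (h1 : IsK2 H v w)
    (h2 : IsP3 H a1 b1 c1) : False := by
  obtain ⟨z, a, b, n0, hn⟩ := h.F1 hu h1 h2.comp (fun y hy => by
    have := h2.degs
    simp only [List.mem_cons, List.not_mem_nil, or_false] at hy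
    rcases hy with rfl | rfl | rfl <;> omega) (h1.comp.disj_len h2.comp (by simp))
  exact h.nb (cmp_F1b h.q0 h.q1 hn n0 h1.1 h1.2 h2.2.1 h2.2.2.1 h2.2.2.2)

/-- component with a leaf -/
def LeafComp (H : SimpleGraph V) (S : List V) : Prop :=
  (∃ a b, S = [a, b] ∧ IsK2 H a b) ∨ (∃ a b c, S = [a, b, c] ∧ IsP3 H a b c) ∨
    ∃ a b c d, S = [a, b, c, d] ∧ IsP4 H a b c d

theorem LeafComp.leaves {S : List V} (h : LeafComp H S) :
    (univ.filter fun x => H.degree x = 1 ∧ x ∈ S).card ≤ 2 := by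
  have key : ∀ a b : V, (∀ x ∈ S, H.degree x = 1 → x = a ∨ x = b) →
      (univ.filter fun x => H.degree x = 1 ∧ x ∈ S).card ≤ 2 := by
    intro a b hab
    refine le_trans (card_le_card (t := {a, b}) fun x hx => ?_) card_le_two
    rw [mem_filter] at hx
    rw [mem_insert, mem_singleton]
    exact hab x hx.2.2 hx.2.1
  rcases h with ⟨a, b, rfl, h⟩ | ⟨a, b, c, rfl, h⟩ | ⟨a, b, c, d, rfl, h⟩
  · exact key a b fun x hx _ => by simpa using hx
  · refine key a c fun x hx hd => ?_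
    have := h.degs
    simp only [List.mem_cons, List.not_mem_nil, or_false] at hx
    rcases hx with rfl | rfl | rfl
    · exact Or.inl rfl
    · omega
    · exact Or.inr rfl
  · refine key a d fun x hx hd => ?_
    have := h.degs
    simp only [List.mem_cons, List.not_mem_nil, or_false] at hx
    rcases hx with rfl | rfl | rfl | rfl
    · exact Or.inl rfl
    · omega
    · omega
    · exact Or.inr rfl

theorem Good.exists_leafComp (h : Good H q) {v : V} (hv : H.degree v = 1) :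
    ∃ S, LeafComp H S ∧ v ∈ S := by
  obtain ⟨w, hw⟩ := (SimpleGraph.degree_pos_iff_exists_adj _ _).1 (show 0 < H.degree v by omega)
  rcases h.leaf_class (nb_one hw hv) with h1 | ⟨c, h1⟩ | ⟨c, d, h1⟩
  · exact ⟨[v, w], Or.inl ⟨v, w, rfl, h1⟩, by simp⟩
  · exact ⟨[v, w, c], Or.inr (Or.inl ⟨v, w, c, rfl, h1⟩), by simp⟩
  · exact ⟨[v, w, c, d], Or.inr (Or.inr ⟨v, w, c, d, rfl, h1⟩), by simp⟩

theorem Good.leaves_card (h : Good H q) : 4 ≤ (univ.filter fun x => H.degree x = 1).card := by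
  have h1 : ∀ x ∈ (univ : Finset V), 2 ≤ H.degree x + (if H.degree x = 1 then 1 else 0) := by
    intro x _
    have := h.pos x
    split_ifs <;> omega
  have h2 := sum_le_sum h1
  rw [sum_add_distrib, h.sum_deg, ← card_filter, sum_const, card_univ, smul_eq_mul] at h2
  have := h.hi
  omega

theorem Good.leaves_card' (h : Good H q) {u : V} (hu : 3 ≤ H.degree u) :
    5 ≤ (univ.filter fun x => H.degree x = 1).card := by
  have h1 : ∀ x ∈ (univ : Finset V), 2 ≤ H.degree x + (if H.degree x = 1 then 1 else 0) := by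
    intro x _
    have := h.pos x
    split_ifs <;> omega
  have h2 : ∑ _x : V, 2 < ∑ x : V, (H.degree x + (if H.degree x = 1 then 1 else 0)) :=
    sum_lt_sum h1 ⟨u, mem_univ u, by omega⟩
  rw [sum_add_distrib, h.sum_deg, ← card_filter, sum_const, card_univ, smul_eq_mul] at h2
  have := h.hi
  omega

theorem Good.le_two (h : Good H q) (u : V) : H.degree u ≤ 2 := by
  by_contra hcon
  have hu : 3 ≤ H.degree u := by omega
  have hL := h.leaves_card' hu
  set L := univ.filter fun x => H.degree x = 1 with hLd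
  obtain ⟨l1, hl1⟩ := card_pos.1 (show 0 < L.card by omega)
  obtain ⟨S1, hS1, -⟩ := h.exists_leafComp (mem_filter.1 hl1).2
  have c1 := card_filter_add_card_filter_not (s := L) (fun x => x ∈ S1)
  have c2 : (L.filter fun x => x ∈ S1).card ≤ 2 := by
    rw [hLd, filter_filter]
    exact hS1.leaves
  obtain ⟨l2, hl2⟩ := card_pos.1 (show 0 < (L.filter fun x => ¬ x ∈ S1).card by omega)
  rw [mem_filter] at hl2
  obtain ⟨S2, hS2, hm2⟩ := h.exists_leafComp (mem_filter.1 hl2.1).2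
  have c3 := card_filter_add_card_filter_not (s := L.filter fun x => ¬ x ∈ S1) (fun x => x ∈ S2)
  have c4 : ((L.filter fun x => ¬ x ∈ S1).filter fun x => x ∈ S2).card ≤ 2 := by
    refine le_trans (card_le_card fun x hx => ?_) hS2.leaves
    rw [mem_filter, mem_filter, hLd, mem_filter] at hx
    rw [mem_filter]
    exact ⟨mem_univ _, hx.1.1.2, hx.2⟩
  obtain ⟨l3, hl3⟩ := card_pos.1 (show 0 < ((L.filter fun x => ¬ x ∈ S1).filter
    fun x => ¬ x ∈ S2).card by omega)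
  rw [mem_filter, mem_filter] at hl3
  obtain ⟨S3, hS3, hm3⟩ := h.exists_leafComp (mem_filter.1 hl3.1.1).2
  have x21 := hl2.2
  have x31 := hl3.1.2
  have x32 := hl3.2
  rcases hS1 with ⟨a, b, rfl, k1⟩ | ⟨a, b, c, rfl, k1⟩ | ⟨a, b, c, d, rfl, k1⟩ <;>
  rcases hS2 with ⟨a', b', rfl, k2⟩ | ⟨a', b', c', rfl, k2⟩ | ⟨a', b', c', d', rfl, k2⟩
  · exact h.F1a hu k1 k2 hm2 x21
  · exact h.F1b hu k1 k2
  · rcases hS3 with ⟨a2, b2, rfl, k3⟩ | ⟨a2, b2, c2, rfl, k3⟩ | ⟨a2, b2, c2, d2, rfl, k3⟩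
    · exact h.F1a hu k1 k3 hm3 x31
    · exact h.no_P3P4 k3 k2
    · exact h.no_P4P4 k2 k3 hm3 x32
  · exact h.F1b hu k2 k1
  · rcases hS3 with ⟨a2, b2, rfl, k3⟩ | ⟨a2, b2, c2, rfl, k3⟩ | ⟨a2, b2, c2, d2, rfl, k3⟩
    · exact h.F1b hu k3 k1
    · exact h.no_TP3 k1 k2 k3 hm2 x21 hm3 x31 hm3 x32
    · exact h.no_P3P4 k1 k3
  · exact h.no_P3P4 k1 k2
  · rcases hS3 with ⟨a2, b2, rfl, k3⟩ | ⟨a2, b2, c2, rfl, k3⟩ | ⟨a2, b2, c2, d2, rfl, k3⟩
    · exact h.F1a hu k2 k3 hm3 x32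
    · exact h.no_P3P4 k3 k1
    · exact h.no_P4P4 k1 k3 hm3 x31
  · exact h.no_P3P4 k2 k1
  · exact h.no_P4P4 k1 k2 hm2 x21

end excl

end Pool.Agent.W_MP_d15038_ex
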