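import Pool.Agent.W_MP_d15038_ex.Sound

/-!
# Real expansions: from the outputs to the signed sum
-/

set_option autoImplicit false

open Finset

namespace Pool.Agent.W_MP_d15038_ex

theorem lrange_eq (n : ℕ) : lrange n = List.range n := by
  induction n with
  | zero => rfl
  | succ n ih =>
    change lappend (lrange n) [n] = _
    rw [lappend_eq, ih, List.range_succ]

theorem bin_eq : ∀ s ≤ 10, ∀ j ≤ 10, bin s j = Nat.choose s j := by decide

/-- factor of a marked cluster -/
noncomputable def GF (y s : ℝ) (k : ℕ) (e : List ℕ) (c0 : ℕ) (κ : List (List ℕ)) : ℝ :=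
  (κ.map fun b => s ^ (k - b.length) * (1 + y) ^ (c0 + eblk e b)).sum
    - κ.length * s ^ k * (1 + y) ^ c0

def bd (e : List ℕ) (κ : List (List ℕ)) : List (ℕ × ℕ) := κ.map (fun b => (len b, eblk e b))

theorem fac_zero_real (y : ℝ) (c0 : ℕ) (e : List ℕ) (κ : List (List ℕ)) :
    fac (opsReal y) c0 (bd e κ) 0 =
      (κ.map fun b => (1 + y) ^ (c0 + eblk e b)).sum - κ.length * (1 + y) ^ c0 := by
  change lsum ((0 : ℕ) : ℝ) (fun (p : ℕ × ℕ) acc => (y * ∑ t ∈ Ico c0 (c0 + p.2), (1 + y) ^ t) + acc)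
    (bd e κ) = _
  induction κ with
  | nil => simp [bd]
  | cons b κ ih =>
    change lsum _ _ ((len b, eblk e b) :: bd e κ) = _
    rw [lsum_cons, ih, geom_Ico y (Nat.le_add_right _ _), List.map_cons, List.sum_cons,
      List.length_cons]
    push_cast
    ring

theorem fac_succ_real (y : ℝ) (c0 : ℕ) (e : List ℕ) (κ : List (List ℕ)) (j : ℕ) (hj : j + 1 ≤ 10)
    (hκ : ∀ b ∈ κ, b.length ≤ 10) :
    fac (opsReal y) c0 (bd e κ) (j + 1) =
      (κ.map fun b => (Nat.choose b.length (j+1) : ℝ) * (1 + y) ^ (c0 + eblk e b)).sum := by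
  change lsum ((0 : ℕ) : ℝ) (fun (p : ℕ × ℕ) acc => cond (Nat.ble (j+1) p.1)
    (((bin p.1 (j+1) : ℕ) : ℝ) * (1 + y) ^ (c0 + p.2) + acc) acc) (bd e κ) = _
  induction κ with
  | nil => simp [bd]
  | cons b κ ih =>
    change lsum _ _ ((len b, eblk e b) :: bd e κ) = _
    rw [lsum_cons, ih (fun b hb => hκ b (List.mem_cons_of_mem _ hb)), List.map_cons, List.sum_cons]
    have hb := hκ b List.mem_cons_self
    simp only [len_eq]
    rcases h : Nat.ble (j+1) b.length with _ | _
    · rw [cond_false, Nat.choose_eq_zero_of_lt (not_ble h)]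
      simp
    · rw [cond_true, bin_eq _ hb _ hj]

theorem binom_aux (s : ℝ) {b k : ℕ} (hb : b ≤ k) :
    ∑ j ∈ range (k + 1), (1 - s) ^ j * s ^ (k - j) * (Nat.choose b j : ℝ) = s ^ (k - b) := by
  have h1 : ∑ j ∈ range (k + 1), (1 - s) ^ j * s ^ (k - j) * (Nat.choose b j : ℝ) =
      ∑ j ∈ range (b + 1), (1 - s) ^ j * s ^ (k - j) * (Nat.choose b j : ℝ) := by
    refine (sum_subset (range_mono (Nat.succ_le_succ hb)) fun j _ hj => ?_).symm
    rw [mem_range, not_lt] at hj
    rw [Nat.choose_eq_zero_of_lt hj]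
    simp
  rw [h1]
  have h2 : ∑ j ∈ range (b + 1), (1 - s) ^ j * s ^ (k - j) * (Nat.choose b j : ℝ) =
      s ^ (k - b) * ∑ j ∈ range (b + 1), (1 - s) ^ j * s ^ (b - j) * (Nat.choose b j : ℝ) := by
    rw [mul_sum]
    refine sum_congr rfl fun j hj => ?_
    rw [mem_range] at hj
    have : k - j = (k - b) + (b - j) := by omega
    rw [this, pow_add]
    ring
  rw [h2, ← add_pow]
  simp

theorem GF_expand (y s : ℝ) (k : ℕ) (hk : k ≤ 10) (e : List ℕ) (c0 : ℕ) (κ : List (List ℕ))
    (hκ : ∀ b ∈ κ, b.length ≤ k) :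
    GF y s k e c0 κ = ∑ j ∈ range (k + 1), (1 - s) ^ j * s ^ (k - j) *
      fac (opsReal y) c0 (bd e κ) j := by
  rw [sum_range_succ']
  simp only [pow_zero, one_mul, Nat.sub_zero]
  rw [fac_zero_real]
  have h1 : ∀ j ∈ range k, (1 - s) ^ (j + 1) * s ^ (k - (j + 1)) *
      fac (opsReal y) c0 (bd e κ) (j + 1) =
      (κ.map fun b => (1 - s) ^ (j + 1) * s ^ (k - (j + 1)) * (Nat.choose b.length (j+1) : ℝ) *
        (1 + y) ^ (c0 + eblk e b)).sum := by
    intro j hj
    rw [mem_range] at hj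
    rw [fac_succ_real y c0 e κ j (by omega) (fun b hb => (hκ b hb).trans hk), ← List.sum_map_mul_left]
    congr 1
    refine List.map_congr_left fun b _ => ?_
    ring
  rw [sum_congr rfl h1]
  clear h1
  unfold GF
  have h2 : ∀ κ : List (List ℕ), (∀ b ∈ κ, b.length ≤ k) →
      (κ.map fun b => s ^ (k - b.length) * (1 + y) ^ (c0 + eblk e b)).sum =
      (∑ j ∈ range k, (κ.map fun b => (1 - s) ^ (j + 1) * s ^ (k - (j + 1)) *
        (Nat.choose b.length (j+1) : ℝ) * (1 + y) ^ (c0 + eblk e b)).sum) +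
      s ^ k * (κ.map fun b => (1 + y) ^ (c0 + eblk e b)).sum := by
    intro κ hκ
    induction κ with
    | nil => simp
    | cons b κ ih =>
      simp only [List.map_cons, List.sum_cons]
      rw [ih (fun b hb => hκ b (List.mem_cons_of_mem _ hb)), sum_add_distrib]
      have h3 := binom_aux s (hκ b List.mem_cons_self)
      rw [sum_range_succ'] at h3
      simp only [pow_zero, one_mul, Nat.sub_zero, Nat.choose_zero_right, Nat.cast_one, mul_one] at h3
      rw [← h3, add_mul, sum_mul]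
      ring
  rw [h2 κ hκ]
  ring

theorem fac_hasBig (y : ℝ) (c0 : ℕ) (e : List ℕ) (κ : List (List ℕ)) (j : ℕ)
    (h : hasBig κ j = false) : fac (opsReal y) c0 (bd e κ) j = 0 := by
  have h0 : ∀ κ : List (List ℕ), hasBig κ j = false → ∀ b ∈ κ, b.length < j := by
    intro κ
    induction κ with
    | nil => intro _ b hb; simp at hb
    | cons a κ ih =>
      intro h
      change cond (Nat.ble j (len a)) true (hasBig κ j) = false at h
      rcases h1 : Nat.ble j (len a) with _ | _
      · rw [h1, cond_false] at h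
        intro b hb
        rcases List.mem_cons.1 hb with rfl | hb
        · have := not_ble h1
          rwa [len_eq] at this
        · exact ih h b hb
      · rw [h1, cond_true] at h
        exact absurd h (by simp)
  have h1 := h0 κ h
  cases j with
  | zero =>
    cases κ with
    | nil => rw [fac_zero_real]; simp
    | cons b κ => exact absurd (h1 b List.mem_cons_self) (by omega)
  | succ j =>
    change lsum ((0 : ℕ) : ℝ) (fun (p : ℕ × ℕ) acc => cond (Nat.ble (j+1) p.1)
      (((bin p.1 (j+1) : ℕ) : ℝ) * (1 + y) ^ (c0 + p.2) + acc) acc) (bd e κ) = _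
    clear h h0
    induction κ with
    | nil => simp [bd]
    | cons b κ ih =>
      change lsum _ _ ((len b, eblk e b) :: bd e κ) = _
      rw [lsum_cons, ih (fun b hb => h1 b (List.mem_cons_of_mem _ hb))]
      have h2 := h1 b List.mem_cons_self
      have h3 : Nat.ble (j+1) (len b) = false := by
        rw [len_eq]
        rcases h4 : Nat.ble (j+1) b.length with _ | _
        · rfl
        · exact absurd (Nat.le_of_ble_eq_true h4) (by omega)
      rw [h3, cond_false]

/-! ### the signed sum -/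

/-- value of an entry -/
noncomputable def ev (y : ℝ) (k : ℕ) (cs : List (Clu × ℝ)) (p : Entry ℝ) : ℝ :=
  p.2.2 * (cs.map fun c => GF y c.2 k c.1.e' c.1.c' p.1).prod -
  p.2.1 * (cs.map fun c => GF y c.2 k c.1.e c.1.c p.1).prod

noncomputable def sg (b : Bool) : ℝ := cond b 1 (-1)

noncomputable def gval (y : ℝ) (k : ℕ) (cs : List (Clu × ℝ)) (g : Grp ℝ) : ℝ :=
  sg g.1 * (g.2.map (ev y k cs)).sum

/-- dot product of lists of reals -/
noncomputable def zd (u d : List ℝ) : ℝ := (List.zipWith (· * ·) u d).sum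

@[simp] theorem zd_nil_left (d : List ℝ) : zd [] d = 0 := by simp [zd]
@[simp] theorem zd_nil_right (d : List ℝ) : zd d [] = 0 := by simp [zd]
@[simp] theorem zd_cons (a b : ℝ) (u d : List ℝ) : zd (a :: u) (b :: d) = a * b + zd u d := by
  simp [zd]

theorem zd_sum (u : List ℝ) {α : Type} (l : List α) {ι : Type} (s : Finset ι) (w : ι → ℝ)
    (f : ι → α → ℝ) : zd u (l.map fun a => ∑ j ∈ s, w j * f j a) =
      ∑ j ∈ s, w j * zd u (l.map (f j)) := by
  induction l generalizing u with
  | nil => simp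
  | cons a l ih =>
    cases u with
    | nil => simp
    | cons x u =>
      simp only [List.map_cons, zd_cons, ih, mul_sum, ← sum_add_distrib]
      refine sum_congr rfl fun j _ => ?_
      ring

theorem ev_cons (y : ℝ) (k : ℕ) (hk : k ≤ 10) (c : Clu) (s : ℝ) (cs : List (Clu × ℝ)) (p : Entry ℝ)
    (hp : ∀ b ∈ p.1, b.length ≤ k) :
    ev y k ((c, s) :: cs) p = ∑ j ∈ range (k+1), (1 - s) ^ j * s ^ (k - j) *
      ev y k cs (p.1, p.2.1 * fac (opsReal y) c.c (bd c.e p.1) j,
        p.2.2 * fac (opsReal y) c.c' (bd c.e' p.1) j) := by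
  unfold ev
  simp only [List.map_cons, List.prod_cons]
  rw [GF_expand y s k hk _ _ _ hp, GF_expand y s k hk _ _ _ hp, sum_mul, sum_mul, mul_sum, mul_sum,
    ← sum_sub_distrib]
  refine sum_congr rfl fun j _ => ?_
  ring

theorem mulEntries_sum (y : ℝ) (k : ℕ) (c : Clu) (j : ℕ) (cs : List (Clu × ℝ))
    (es : List (Entry ℝ)) :
    ((mulEntries (opsReal y) c j es).map (ev y k cs)).sum =
      (es.map fun p => ev y k cs (p.1, p.2.1 * fac (opsReal y) c.c (bd c.e p.1) j,
        p.2.2 * fac (opsReal y) c.c' (bd c.e' p.1) j)).sum := by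
  induction es with
  | nil => rfl
  | cons p es ih =>
    have h : mulEntries (opsReal y) c j (p :: es) = cond (hasBig p.1 j)
      ((p.1, p.2.1 * fac (opsReal y) c.c (bd c.e p.1) j,
        p.2.2 * fac (opsReal y) c.c' (bd c.e' p.1) j) :: mulEntries (opsReal y) c j es)
      (mulEntries (opsReal y) c j es) := by
      change cond (hasBig p.1 j) ((p.1,
        (p.2.1 * (fac (opsReal y) c.c (lmap (fun b => (len b, eblk c.e b)) p.1) j)),
        (p.2.2 * (fac (opsReal y) c.c' (lmap (fun b => (len b, eblk c.e' b)) p.1) j))) :: _) _ = _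
      rw [lmap_eq, lmap_eq]
      rfl
    rw [h, List.map_cons, List.sum_cons]
    rcases h1 : hasBig p.1 j with _ | _
    · rw [cond_false, ih, fac_hasBig y _ _ _ _ h1, fac_hasBig y _ _ _ _ h1]
      simp [ev]
    · rw [cond_true, List.map_cons, List.sum_cons, ih]

theorem sum_map_sum {α ι : Type} (l : List α) (s : Finset ι) (f : ι → α → ℝ) :
    (l.map fun a => ∑ j ∈ s, f j a).sum = ∑ j ∈ s, (l.map (f j)).sum := by
  induction l with
  | nil => simp
  | cons a l ih => simp only [List.map_cons, List.sum_cons, ih, sum_add_distrib]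

theorem gval_cons (y : ℝ) (k : ℕ) (hk : k ≤ 10) (c : Clu) (s : ℝ) (cs : List (Clu × ℝ)) (g : Grp ℝ)
    (hg : ∀ p ∈ g.2, ∀ b ∈ p.1, b.length ≤ k) :
    gval y k ((c, s) :: cs) g = ∑ j ∈ range (k+1), (1 - s) ^ j * s ^ (k - j) *
      gval y k cs (g.1, mulEntries (opsReal y) c j g.2) := by
  unfold gval
  simp only
  have h1 : g.2.map (ev y k ((c, s) :: cs)) = g.2.map (fun p => ∑ j ∈ range (k+1),
      (1 - s) ^ j * s ^ (k - j) * ev y k cs (p.1, p.2.1 * fac (opsReal y) c.c (bd c.e p.1) j,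
        p.2.2 * fac (opsReal y) c.c' (bd c.e' p.1) j)) :=
    List.map_congr_left fun p hp => ev_cons y k hk c s cs p (hg p hp)
  rw [h1, sum_map_sum, mul_sum]
  refine sum_congr rfl fun j _ => ?_
  rw [mulEntries_sum, List.sum_map_mul_left]
  ring

/-! ### leaf -/

theorem lsum_real {α : Type} (y : ℝ) (g : α → ℝ) (l : List α) :
    lsum ((opsReal y).nat 0) (fun p acc => (opsReal y).add (g p) acc) l = (l.map g).sum := by
  induction l with
  | nil => exact Nat.cast_zero
  | cons a l ih =>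
    rw [lsum_cons, ih, List.map_cons, List.sum_cons]
    rfl

theorem grpSum_real (y : ℝ) (k : ℕ) (g : Grp ℝ) :
    (grpSum (opsReal y) g).1 - (grpSum (opsReal y) g).2 = gval y k [] g := by
  obtain ⟨b, es⟩ := g
  unfold grpSum gval
  have h1 : ∀ es : List (Entry ℝ), (es.map (ev y k [])).sum =
      (es.map fun p => p.2.2).sum - (es.map fun p => p.2.1).sum := by
    intro es
    induction es with
    | nil => simp
    | cons p es ih =>
      simp only [List.map_cons, List.sum_cons, ih, ev, List.map_nil, List.prod_nil, mul_one]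
      ring
  rw [h1]
  cases b
  · simp only [cond_false, lsum_real, sg]
    ring
  · simp only [cond_true, lsum_real, sg]
    ring

theorem dot_real (y : ℝ) (row : List ℕ) (l : List (ℝ × ℝ)) :
    (dot (opsReal y) row l).1 - (dot (opsReal y) row l).2 =
      zd (row.map (Nat.cast : ℕ → ℝ)) (l.map fun p => p.1 - p.2) := by
  induction row generalizing l with
  | nil =>
    change ((0 : ℕ) : ℝ) - ((0 : ℕ) : ℝ) = _
    simp
  | cons n row ih =>
    cases l with
    | nil => rw [dot_nil_right]; simp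
    | cons p l =>
      rw [dot_cons_cons, List.map_cons, List.map_cons, zd_cons, ← ih l]
      rcases h : Nat.beq n 0 with _ | _
      · rw [cond_false]
        change ((n : ℝ) * p.1 + _) - ((n : ℝ) * p.2 + _) = _
        ring
      · rw [cond_true, Nat.eq_of_beq_eq_true h]
        simp

/-- `U` is in the cone spanned by the rows. -/
def InCone (rows : List (List ℕ)) (U ν : List ℝ) : Prop :=
  (∀ x ∈ ν, 0 ≤ x) ∧ ν.length = rows.length ∧
    ∀ d : List ℝ, zd U d = zd ν (rows.map fun row => zd (row.map (Nat.cast : ℕ → ℝ)) d)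

theorem zd_nonneg {u d : List ℝ} (hu : ∀ x ∈ u, 0 ≤ x) (hd : ∀ x ∈ d, 0 ≤ x) : 0 ≤ zd u d := by
  induction u generalizing d with
  | nil => simp
  | cons a u ih =>
    cases d with
    | nil => simp
    | cons b d =>
      rw [zd_cons]
      have := mul_nonneg (hu a List.mem_cons_self) (hd b List.mem_cons_self)
      have h2 := ih (fun x hx => hu x (List.mem_cons_of_mem _ hx))
        (fun x hx => hd x (List.mem_cons_of_mem _ hx))
      linarith

theorem mem_mulEntries {y : ℝ} {c : Clu} {j : ℕ} {es : List (Entry ℝ)} {p : Entry ℝ}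
    (hp : p ∈ mulEntries (opsReal y) c j es) : ∃ p' ∈ es, p.1 = p'.1 := by
  induction es with
  | nil => exact absurd hp (by simp [mulEntries])
  | cons a es ih =>
    change p ∈ cond (hasBig a.1 j) (_ :: mulEntries (opsReal y) c j es)
      (mulEntries (opsReal y) c j es) at hp
    rcases h : hasBig a.1 j with _ | _
    · rw [h, cond_false] at hp
      obtain ⟨p', h1, h2⟩ := ih hp
      exact ⟨p', List.mem_cons_of_mem _ h1, h2⟩
    · rw [h, cond_true] at hp
      rcases List.mem_cons.1 hp with rfl | hp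
      · exact ⟨a, List.mem_cons_self, rfl⟩
      · obtain ⟨p', h1, h2⟩ := ih hp
        exact ⟨p', List.mem_cons_of_mem _ h1, h2⟩

theorem tot_eq_nil {y : ℝ} {k : ℕ} {rows : List (List ℕ)} {U ν : List ℝ} (hU : InCone rows U ν)
    (gs : List (Grp ℝ)) :
    zd U (gs.map (gval y k [])) =
      zd ν ((outs (opsReal y) k rows [] gs).map fun p => p.1 - p.2) := by
  rw [hU.2.2, outs_nil, List.map_map]
  congr 1
  refine List.map_congr_left fun row _ => ?_
  rw [Function.comp_apply, dot_real, List.map_map]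
  congr 1
  refine List.map_congr_left fun g _ => ?_
  rw [Function.comp_apply, grpSum_real y k]

theorem tot_cons {y : ℝ} {k : ℕ} (hk : k ≤ 10) (c : Clu) (s : ℝ) (cs : List (Clu × ℝ)) (U : List ℝ)
    (gs : List (Grp ℝ)) (hg : ∀ g ∈ gs, ∀ p ∈ g.2, ∀ b ∈ p.1, b.length ≤ k) :
    zd U (gs.map (gval y k ((c, s) :: cs))) = ∑ j ∈ range (k+1), (1 - s) ^ j * s ^ (k - j) *
      zd U ((gs.map fun g => (g.1, mulEntries (opsReal y) c j g.2)).map (gval y k cs)) := by
  have h1 : gs.map (gval y k ((c, s) :: cs)) = gs.map (fun g => ∑ j ∈ range (k+1),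
      (1 - s) ^ j * s ^ (k - j) * gval y k cs (g.1, mulEntries (opsReal y) c j g.2)) :=
    List.map_congr_left fun g hg' => gval_cons y k hk c s cs g (hg g hg')
  rw [h1, zd_sum]
  refine sum_congr rfl fun j _ => ?_
  rw [List.map_map]
  rfl

theorem tot_nonneg {y : ℝ} {k : ℕ} (hk : k ≤ 10) {rows : List (List ℕ)} {U ν : List ℝ}
    (hU : InCone rows U ν) (cs : List (Clu × ℝ)) (hs : ∀ c ∈ cs, 0 ≤ c.2 ∧ c.2 ≤ 1)
    (gs : List (Grp ℝ)) (hg : ∀ g ∈ gs, ∀ p ∈ g.2, ∀ b ∈ p.1, b.length ≤ k)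
    (ho : ∀ p ∈ outs (opsReal y) k rows (cs.map Prod.fst) gs, p.2 ≤ p.1) :
    0 ≤ zd U (gs.map (gval y k cs)) := by
  induction cs generalizing gs with
  | nil =>
    rw [tot_eq_nil hU]
    refine zd_nonneg hU.1 fun x hx => ?_
    obtain ⟨p, hp, rfl⟩ := List.mem_map.1 hx
    exact sub_nonneg.2 (ho p hp)
  | cons c cs ih =>
    obtain ⟨c, s⟩ := c
    rw [tot_cons hk c s cs U gs hg]
    have hs1 := hs (c, s) List.mem_cons_self
    refine sum_nonneg fun j hj => mul_nonneg (mul_nonneg (pow_nonneg (by linarith [hs1.2]) _)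
      (pow_nonneg hs1.1 _)) ?_
    refine ih (fun c hc => hs c (List.mem_cons_of_mem _ hc)) _ ?_ ?_
    · intro g hg1 p hp b hb
      obtain ⟨g', hg', rfl⟩ := List.mem_map.1 hg1
      obtain ⟨p', hp', h2⟩ := mem_mulEntries hp
      exact hg g' hg' p' hp' b (h2 ▸ hb)
    · intro p hp
      refine ho p ?_
      rw [List.map_cons, outs_cons, List.mem_flatMap]
      exact ⟨j, by rw [lrange_eq]; exact List.mem_range.2 (mem_range.1 hj), hp⟩

theorem outs_ne_nil {A : Type} (o : Ops A) (k : ℕ) {rows : List (List ℕ)} (hr : rows ≠ [])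
    (cs : List Clu) (gs : List (Grp A)) : outs o k rows cs gs ≠ [] := by
  induction cs generalizing gs with
  | nil => rw [outs_nil]; simpa using hr
  | cons c cs ih =>
    rw [outs_cons, lrange_eq, List.range_succ_eq_map, List.flatMap_cons]
    intro h
    exact ih _ (List.append_eq_nil_iff.1 h).1

theorem tot_pos {y : ℝ} {k : ℕ} (hk : k ≤ 10) {rows : List (List ℕ)} {U : List ℝ} {ν0 : ℝ}
    {ν' : List ℝ} (hU : InCone rows U (ν0 :: ν')) (hν : 0 < ν0)
    (cs : List (Clu × ℝ)) (hs : ∀ c ∈ cs, 0 < c.2 ∧ c.2 ≤ 1)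
    (gs : List (Grp ℝ)) (hg : ∀ g ∈ gs, ∀ p ∈ g.2, ∀ b ∈ p.1, b.length ≤ k)
    (ho : ∀ p ∈ outs (opsReal y) k rows (cs.map Prod.fst) gs, p.2 ≤ p.1)
    (hst : ∃ p l, outs (opsReal y) k rows (cs.map Prod.fst) gs = p :: l ∧ p.2 < p.1) :
    0 < zd U (gs.map (gval y k cs)) := by
  induction cs generalizing gs with
  | nil =>
    rw [tot_eq_nil hU]
    obtain ⟨p, l, h1, h2⟩ := hst
    rw [List.map_nil] at h1 ho
    rw [h1] at ho ⊢
    rw [List.map_cons, zd_cons]
    have h3 : 0 ≤ zd ν' (l.map fun p => p.1 - p.2) := by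
      refine zd_nonneg (fun x hx => hU.1 x (List.mem_cons_of_mem _ hx)) fun x hx => ?_
      obtain ⟨p, hp, rfl⟩ := List.mem_map.1 hx
      exact sub_nonneg.2 (ho p (List.mem_cons_of_mem _ hp))
    have h4 := mul_pos hν (sub_pos.2 h2)
    linarith
  | cons c cs ih =>
    obtain ⟨c, s⟩ := c
    rw [tot_cons hk c s cs U gs hg]
    have hs1 := hs (c, s) List.mem_cons_self
    have hmem : ∀ j < k + 1, ∀ p ∈ outs (opsReal y) k rows (cs.map Prod.fst)
        (gs.map fun g => (g.1, mulEntries (opsReal y) c j g.2)), p.2 ≤ p.1 := by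
      intro j hj p hp
      refine ho p ?_
      rw [List.map_cons, outs_cons, List.mem_flatMap]
      exact ⟨j, by rw [lrange_eq]; exact List.mem_range.2 hj, hp⟩
    have hgg : ∀ j, ∀ g ∈ gs.map (fun g => ((g.1, mulEntries (opsReal y) c j g.2) : Grp ℝ)),
        ∀ p ∈ g.2, ∀ b ∈ p.1, b.length ≤ k := by
      intro j g hg1 p hp b hb
      obtain ⟨g', hg', rfl⟩ := List.mem_map.1 hg1
      obtain ⟨p', hp', h2⟩ := mem_mulEntries hp
      exact hg g' hg' p' hp' b (h2 ▸ hb)
    refine sum_pos' (fun j hj => mul_nonneg (mul_nonneg (pow_nonneg (by linarith [hs1.2]) _)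
      (pow_nonneg hs1.1.le _)) ?_) ⟨0, mem_range.2 (Nat.succ_pos k), ?_⟩
    · exact tot_nonneg hk hU cs (fun c hc => ⟨(hs c (List.mem_cons_of_mem _ hc)).1.le,
        (hs c (List.mem_cons_of_mem _ hc)).2⟩) _ (hgg j) (hmem j (mem_range.1 hj))
    · refine mul_pos (mul_pos (by simp) (pow_pos hs1.1 _)) ?_
      refine ih (fun c hc => hs c (List.mem_cons_of_mem _ hc)) _ (hgg 0) (hmem 0 (Nat.succ_pos k)) ?_
      obtain ⟨p, l, h1, h2⟩ := hst
      rw [List.map_cons, outs_cons, lrange_eq, List.range_succ_eq_map, List.flatMap_cons] at h1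
      rcases h3 : outs (opsReal y) k rows (cs.map Prod.fst)
        (gs.map fun g => (g.1, mulEntries (opsReal y) c 0 g.2)) with _ | ⟨a, l'⟩
      · exfalso
        refine outs_ne_nil _ _ ?_ _ _ h3
        intro h4
        have h5 := hU.2.1
        rw [h4] at h5
        simp at h5
      · rw [h3, List.cons_append] at h1
        obtain ⟨rfl, _⟩ := List.cons.inj h1
        exact ⟨a, l', h3, h2⟩

end Pool.Agent.W_MP_d15038_ex
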