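import Pool.Agent.W_MP_d15038_ex.Cone

/-!
# Grouping the partitions by type
-/

set_option autoImplicit false

open Polynomial

namespace Pool.Agent.W_MP_d15038_ex

/-! ### invariants of `parts` -/

theorem mem_ins {k : ℕ} {N N' : List ℕ} {e e' : ℕ} {κ : List (List ℕ)} {p : Part}
    (h : p ∈ ins k N N' e e' κ) : ∃ κ1 b κ2, κ = κ1 ++ b :: κ2 ∧ p.1 = κ1 ++ (k :: b) :: κ2 := by
  induction κ generalizing p with
  | nil => exact absurd h (by simp [ins])
  | cons b κ ih =>
    change p ∈ _ :: lmap _ (ins k N N' e e' κ) at h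
    rcases List.mem_cons.1 h with rfl | h
    · exact ⟨[], b, κ, rfl, rfl⟩
    · rw [lmap_eq] at h
      obtain ⟨p', hp', rfl⟩ := List.mem_map.1 h
      obtain ⟨κ1, b', κ2, h1, h2⟩ := ih hp'
      refine ⟨b :: κ1, b', κ2, ?_, ?_⟩
      · rw [h1]; rfl
      · simp only [h2]; rfl

theorem parts_succ (NH NH' : ℕ → List ℕ) (k : ℕ) : parts NH NH' (k + 1) =
    (parts NH NH' k).flatMap (fun p => ins k (NH k) (NH' k) p.2.1 p.2.2 p.1 ++
      [([k] :: p.1, p.2.1 + (NH k).length, p.2.2 + (NH' k).length)]) := by
  change lbind (fun p => lappend (ins k (NH k) (NH' k) p.2.1 p.2.2 p.1)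
      [([k] :: p.1, Nat.add p.2.1 (len (NH k)), Nat.add p.2.2 (len (NH' k)))]) (parts NH NH' k) = _
  rw [lbind_eq]
  congr 1
  funext p
  rw [lappend_eq, len_eq, len_eq]
  rfl

/-- invariant of a partition of `{0,...,k-1}` -/
structure PInv (k : ℕ) (κ : List (List ℕ)) : Prop where
  ne : ∀ b ∈ κ, b ≠ []
  lt : ∀ b ∈ κ, ∀ x ∈ b, x < k
  nd : ∀ b ∈ κ, b.Nodup
  tot : (κ.map List.length).sum = k

theorem parts_inv (NH NH' : ℕ → List ℕ) (k : ℕ) : ∀ p ∈ parts NH NH' k, PInv k p.1 := by
  induction k with
  | zero =>
    intro p hp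
    change p ∈ [(([], 0, 0) : Part)] at hp
    rw [List.mem_singleton] at hp
    subst hp
    exact ⟨by simp, by simp, by simp, by simp⟩
  | succ k ih =>
    intro p hp
    rw [parts_succ, List.mem_flatMap] at hp
    obtain ⟨p0, hp0, hp⟩ := hp
    have h0 := ih p0 hp0
    rcases List.mem_append.1 hp with hp | hp
    · obtain ⟨κ1, b, κ2, h1, h2⟩ := mem_ins hp
      rw [h2]
      rw [h1] at h0
      have hb : b ∈ κ1 ++ b :: κ2 := by simp
      have key : ∀ b' ∈ κ1 ++ (k :: b) :: κ2, b' = k :: b ∨ b' ∈ κ1 ++ b :: κ2 := by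
        intro b' hb'
        simp only [List.mem_append, List.mem_cons] at hb' ⊢
        tauto
      refine ⟨fun b' hb' => ?_, fun b' hb' x hx => ?_, fun b' hb' => ?_, ?_⟩
      · rcases key b' hb' with rfl | h
        · simp
        · exact h0.ne b' h
      · rcases key b' hb' with rfl | h
        · rcases List.mem_cons.1 hx with rfl | hx
          · exact Nat.lt_succ_self _
          · exact (h0.lt b hb x hx).trans (Nat.lt_succ_self _)
        · exact (h0.lt b' h x hx).trans (Nat.lt_succ_self _)
      · rcases key b' hb' with rfl | h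
        · exact List.nodup_cons.2 ⟨fun h => (h0.lt b hb k h).false, h0.nd b hb⟩
        · exact h0.nd b' h
      · have := h0.tot
        simp only [List.map_append, List.map_cons, List.sum_append, List.sum_cons,
          List.length_cons] at this ⊢
        omega
    · rw [List.mem_singleton] at hp
      subst hp
      refine ⟨fun b' hb' => ?_, fun b' hb' x hx => ?_, fun b' hb' => ?_, ?_⟩
      · rcases List.mem_cons.1 hb' with rfl | h
        · simp
        · exact h0.ne b' h
      · rcases List.mem_cons.1 hb' with rfl | h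
        · rw [List.mem_singleton] at hx; omega
        · exact (h0.lt b' h x hx).trans (Nat.lt_succ_self _)
      · rcases List.mem_cons.1 hb' with rfl | h
        · simp
        · exact h0.nd b' h
      · have := h0.tot
        simp only [List.map_cons, List.sum_cons, List.length_cons, List.length_nil]
        omega

theorem PInv.length_le {k : ℕ} {κ : List (List ℕ)} (h : PInv k κ) : κ.length ≤ k := by
  have h1 : ∀ κ : List (List ℕ), (∀ b ∈ κ, b ≠ []) → κ.length ≤ (κ.map List.length).sum := by
    intro κ
    induction κ with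
    | nil => simp
    | cons b κ ih =>
      intro hb
      have h2 := ih fun b hb' => hb b (List.mem_cons_of_mem _ hb')
      have h3 : 0 < b.length := List.length_pos_iff.2 (hb b List.mem_cons_self)
      simp only [List.length_cons, List.map_cons, List.sum_cons]
      omega
  have := h1 κ h.ne
  rwa [h.tot] at this

theorem PInv.blk_le {k : ℕ} {κ : List (List ℕ)} (h : PInv k κ) : ∀ b ∈ κ, b.length ≤ k := by
  intro b hb
  rw [← h.tot]
  exact List.single_le_sum (by simp) _ (List.mem_map_of_mem hb)

theorem PInv.ne_nil {k : ℕ} {κ : List (List ℕ)} (h : PInv k κ) (hk : 0 < k) : κ ≠ [] := by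
  rintro rfl
  have := h.tot
  simp at this
  omega

/-! ### keys -/

theorem key_eq (κ : List (List ℕ)) : key κ = ((κ.map List.length).map (fun s => 32 ^ s)).sum := by
  induction κ with
  | nil => rfl
  | cons b κ ih =>
    change 32 ^ len b + key κ = _
    rw [len_eq, ih]
    rfl

theorem keyS_eq (τ : List ℕ) : keyS τ = (τ.map (fun s => 32 ^ s)).sum := by
  induction τ with
  | nil => rfl
  | cons b κ ih =>
    change 32 ^ b + keyS κ = _
    rw [ih]
    rfl

theorem poly_unique {B : ℕ} (hB : 0 < B) : ∀ (n : ℕ) (P Q : ℕ[X]), P.natDegree ≤ n → Q.natDegree ≤ n →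
    (∀ i, P.coeff i < B) → (∀ i, Q.coeff i < B) → P.eval B = Q.eval B → P = Q := by
  intro n
  induction n with
  | zero =>
    intro P Q hP hQ _ _ h
    rw [eq_C_of_natDegree_le_zero hP, eq_C_of_natDegree_le_zero hQ] at h ⊢
    rw [eval_C, eval_C] at h
    rw [h]
  | succ n ih =>
    intro P Q hP hQ hPc hQc h
    have e1 := eval_divX_nat P B
    have e2 := eval_divX_nat Q B
    have m1 : P.coeff 0 = Q.coeff 0 := by
      have : P.eval B % B = Q.eval B % B := by rw [h]
      rwa [e1, e2, Nat.mul_add_mod', Nat.mul_add_mod', Nat.mod_eq_of_lt (hPc 0),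
        Nat.mod_eq_of_lt (hQc 0)] at this
    have m2 : (divX P).eval B = (divX Q).eval B := by
      rw [e1, e2, m1] at h
      exact Nat.eq_of_mul_eq_mul_right hB (Nat.add_right_cancel h)
    have m3 := ih (divX P) (divX Q) (by rw [natDegree_divX_eq_natDegree_tsub_one]; omega)
      (by rw [natDegree_divX_eq_natDegree_tsub_one]; omega)
      (fun i => by rw [coeff_divX]; exact hPc _) (fun i => by rw [coeff_divX]; exact hQc _) m2
    rw [← divX_mul_X_add P, ← divX_mul_X_add Q, m3, m1]

theorem key_perm {a b : List ℕ} (ha : a.length < 32) (hb : b.length < 32)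
    (h : (a.map (fun s => 32 ^ s)).sum = (b.map (fun s => 32 ^ s)).sum) : a.Perm b := by
  have h1 : ∀ a : List ℕ, ((a.map (fun s => (X : ℕ[X]) ^ s)).sum).eval 32 =
      (a.map (fun s => 32 ^ s)).sum := by
    intro a
    induction a with
    | nil => simp
    | cons x a ih => simp only [List.map_cons, List.sum_cons, eval_add, ih, eval_pow, eval_X]
  have h2 : ∀ (a : List ℕ) (i : ℕ), ((a.map (fun s => (X : ℕ[X]) ^ s)).sum).coeff i = a.count i := by
    intro a i
    induction a with
    | nil => simp
    | cons x a ih =>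
      rw [List.map_cons, List.sum_cons, coeff_add, ih, coeff_X_pow, List.count_cons]
      by_cases hx : i = x
      · subst hx; simp [add_comm]
      · rw [if_neg hx]
        have : ¬ (x == i) = true := by simpa using fun h => hx h.symm
        simp [this]
  have h3 := poly_unique (B := 32) (by norm_num) _ _ _ (le_max_left _ _) (le_max_right _ _)
    (fun i => by rw [h2 a]; exact (List.count_le_length).trans_lt ha)
    (fun i => by rw [h2 b]; exact (List.count_le_length).trans_lt hb)
    (by rw [h1, h1, h])
  rw [List.perm_iff_count]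
  intro i
  rw [← h2 a, ← h2 b, h3]

/-! ### buckets -/

section bucket

variable {P : Type}

theorem bucket_cons (τ : ℕ) (p : P) (g : ℕ × List P) (r : List (ℕ × List P)) :
    bucket τ p (g :: r) = cond (Nat.beq τ g.1) ((g.1, p :: g.2) :: r) (g :: bucket τ p r) := rfl

theorem bucket_keys (τ : ℕ) (p : P) (gs : List (ℕ × List P)) :
    ∃ ex, (bucket τ p gs).map Prod.fst = gs.map Prod.fst ++ ex := by
  induction gs with
  | nil => exact ⟨[τ], rfl⟩
  | cons g r ih =>
    rw [bucket_cons]
    rcases h : Nat.beq τ g.1 with _ | _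
    · rw [cond_false]
      obtain ⟨ex, hex⟩ := ih
      exact ⟨ex, by rw [List.map_cons, hex]; rfl⟩
    · exact ⟨[], by simp⟩

theorem groups_keys (init : List (ℕ × List Part)) (ps : List Part) :
    ∃ ex, (groups init ps).map Prod.fst = init.map Prod.fst ++ ex := by
  induction ps with
  | nil => exact ⟨[], by simp [groups]⟩
  | cons p ps ih =>
    change ∃ ex, (bucket (key p.1) p (groups init ps)).map Prod.fst = _
    obtain ⟨ex, hex⟩ := ih
    obtain ⟨ex', hex'⟩ := bucket_keys (key p.1) p (groups init ps)
    exact ⟨ex ++ ex', by rw [hex', hex, List.append_assoc]⟩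

theorem groups_mem (init : List (ℕ × List Part)) (hi : ∀ g ∈ init, g.2 = []) (ps : List Part) :
    ∀ g ∈ groups init ps, ∀ p ∈ g.2, key p.1 = g.1 ∧ p ∈ ps := by
  induction ps with
  | nil =>
    intro g hg p hp
    change g ∈ init at hg
    rw [hi g hg] at hp
    simp at hp
  | cons p0 ps ih =>
    have h1 : ∀ gs : List (ℕ × List Part), (∀ g ∈ gs, ∀ p ∈ g.2, key p.1 = g.1 ∧ p ∈ ps) →
        ∀ g ∈ bucket (key p0.1) p0 gs, ∀ p ∈ g.2, key p.1 = g.1 ∧ p ∈ p0 :: ps := by
      intro gs
      induction gs with
      | nil =>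
        intro _ g hg p hp
        change g ∈ [(key p0.1, [p0])] at hg
        rw [List.mem_singleton] at hg
        subst hg
        rw [List.mem_singleton] at hp
        subst hp
        exact ⟨rfl, List.mem_cons_self⟩
      | cons g0 gs ih =>
        intro hgs g hg p hp
        rw [bucket_cons] at hg
        rcases h : Nat.beq (key p0.1) g0.1 with _ | _
        · rw [h, cond_false] at hg
          rcases List.mem_cons.1 hg with rfl | hg
          · have := hgs g List.mem_cons_self p hp
            exact ⟨this.1, List.mem_cons_of_mem _ this.2⟩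
          · exact ih (fun g hg => hgs g (List.mem_cons_of_mem _ hg)) g hg p hp
        · rw [h, cond_true] at hg
          rcases List.mem_cons.1 hg with rfl | hg
          · rcases List.mem_cons.1 hp with rfl | hp
            · exact ⟨Nat.eq_of_beq_eq_true h, List.mem_cons_self⟩
            · have := hgs g0 List.mem_cons_self p hp
              exact ⟨this.1, List.mem_cons_of_mem _ this.2⟩
          · have := hgs g (List.mem_cons_of_mem _ hg) p hp
            exact ⟨this.1, List.mem_cons_of_mem _ this.2⟩
    exact h1 _ ih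

theorem groups_sum (init : List (ℕ × List Part)) (hi : ∀ g ∈ init, g.2 = []) (ps : List Part)
    (f : Part → ℝ) :
    ((groups init ps).map fun g => (g.2.map f).sum).sum = (ps.map f).sum := by
  induction ps with
  | nil =>
    change (init.map fun g => (g.2.map f).sum).sum = _
    have : ∀ l : List (ℕ × List Part), (∀ g ∈ l, g.2 = []) →
        (l.map fun g => (g.2.map f).sum).sum = 0 := by
      intro l
      induction l with
      | nil => simp
      | cons g l ih =>
        intro h
        rw [List.map_cons, List.sum_cons, ih (fun g hg => h g (List.mem_cons_of_mem _ hg)),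
          h g List.mem_cons_self]
        simp
    rw [this init hi]
    simp
  | cons p ps ih =>
    have h1 : ∀ gs : List (ℕ × List Part),
        ((bucket (key p.1) p gs).map fun g => (g.2.map f).sum).sum =
          f p + (gs.map fun g => (g.2.map f).sum).sum := by
      intro gs
      induction gs with
      | nil => simp [bucket]
      | cons g gs ih =>
        rw [bucket_cons]
        rcases h : Nat.beq (key p.1) g.1 with _ | _
        · rw [cond_false, List.map_cons, List.sum_cons, ih, List.map_cons, List.sum_cons]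
          ring
        · rw [cond_true]
          simp only [List.map_cons, List.sum_cons]
          ring
    change ((bucket (key p.1) p (groups init ps)).map fun g => (g.2.map f).sum).sum = _
    rw [h1, ih, List.map_cons, List.sum_cons]

end bucket

/-- a function of the sizes, invariant under permutations -/
def SymF (U : List ℕ → ℝ) : Prop := ∀ a b : List ℕ, a.Perm b → U a = U b

/-- Möbius weight -/
noncomputable def mu (b : ℕ) : ℝ := (-1) ^ (b - 1) * ((b - 1).factorial : ℝ)

theorem fct_eq (n : ℕ) : fct n = n.factorial := by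
  induction n with
  | zero => rfl
  | succ n ih =>
    change (n + 1) * fct n = _
    rw [ih, Nat.factorial_succ]

theorem sg_odd {b : ℕ} (hb : 0 < b) : sg (odd' b) = (-1 : ℝ) ^ (b - 1) := by
  obtain ⟨n, rfl⟩ : ∃ n, b = n + 1 := ⟨b - 1, by omega⟩
  rw [Nat.add_sub_cancel]
  unfold odd' sg
  rcases Nat.even_or_odd n with hn | hn
  · have h1 : (n + 1) % 2 = 1 := by
      obtain ⟨m, rfl⟩ := hn; omega
    change cond (Nat.beq ((n + 1) % 2) 1) 1 (-1) = _
    rw [h1, hn.neg_one_pow]
    rfl
  · have h1 : (n + 1) % 2 = 0 := by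
      obtain ⟨m, rfl⟩ := hn; omega
    change cond (Nat.beq ((n + 1) % 2) 1) 1 (-1) = _
    rw [h1, hn.neg_one_pow]
    rfl

/-- the summand attached to a partition -/
noncomputable def pval (y : ℝ) (k : ℕ) (cs : List (Clu × ℝ)) (p : Part) : ℝ :=
  mu p.1.length * ((1 + y) ^ p.2.2 * (cs.map fun c => GF y c.2 k c.1.e' c.1.c' p.1).prod -
    (1 + y) ^ p.2.1 * (cs.map fun c => GF y c.2 k c.1.e c.1.c p.1).prod)

theorem gval_mkEntries (y : ℝ) (k : ℕ) (cs : List (Clu × ℝ)) (b : ℕ) (hb : 0 < b)
    (l : List Part) (hl : ∀ p ∈ l, p.1.length = b) :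
    gval y k cs (odd' b, mkEntries (opsReal y) l) = (l.map (pval y k cs)).sum := by
  unfold gval mkEntries
  simp only
  rw [lmap_eq, List.map_map, sg_odd hb, ← List.sum_map_mul_left]
  congr 1
  refine List.map_congr_left fun p hp => ?_
  rw [Function.comp_apply]
  unfold ev pval mu
  change (-1 : ℝ) ^ (b - 1) * ((((fct (Nat.pred (len p.1)) : ℕ) : ℝ) * (1 + y) ^ p.2.2) * _ -
    (((fct (Nat.pred (len p.1)) : ℕ) : ℝ) * (1 + y) ^ p.2.1) * _) = _
  rw [fct_eq, len_eq, hl p hp, Nat.pred_eq_sub_one]
  ring

theorem zip_sum (y : ℝ) (k : ℕ) (cs : List (Clu × ℝ)) (U : List ℕ → ℝ) :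
    ∀ (T : List (List ℕ)) (G : List (ℕ × List Part)), G.map Prod.fst = T.map keyS →
    (∀ τ ∈ T, 0 < τ.length) →
    (∀ τ ∈ T, ∀ g ∈ G, g.1 = keyS τ → ∀ p ∈ g.2, p.1.length = τ.length ∧
      U (p.1.map List.length) = U τ) →
    zd (T.map U) ((mkGrp (opsReal y) T G).map (gval y k cs)) =
      (G.map fun g => (g.2.map fun p => U (p.1.map List.length) * pval y k cs p).sum).sum := by
  intro T
  induction T with
  | nil =>
    intro G hG _ _
    have : G = [] := by simpa using hG
    subst this
    simp
  | cons τ T ih =>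
    intro G hG hT h
    cases G with
    | nil => simp at hG
    | cons g G =>
      rw [List.map_cons, List.map_cons, List.cons.injEq] at hG
      change zd (U τ :: T.map U) ((((odd' (len τ), mkEntries (opsReal y) g.2) : Grp ℝ) ::
        mkGrp (opsReal y) T G).map (gval y k cs)) = _
      rw [List.map_cons, zd_cons, List.map_cons, List.sum_cons,
        ih G hG.2 (fun τ hτ => hT τ (List.mem_cons_of_mem _ hτ))
          (fun τ hτ g hg => h τ (List.mem_cons_of_mem _ hτ) g (List.mem_cons_of_mem _ hg))]
      congr 1
      have h1 := h τ List.mem_cons_self g List.mem_cons_self hG.1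
      rw [len_eq, gval_mkEntries y k cs τ.length (hT τ List.mem_cons_self) g.2
        (fun p hp => (h1 p hp).1), ← List.sum_map_mul_left]
      congr 1
      refine List.map_congr_left fun p hp => ?_
      rw [(h1 p hp).2]

theorem grpd_sum {T : Tab} {k : ℕ} (hk0 : 0 < k) (hk : k ≤ 10) (hc : CloseOK T k)
    {NH NH' : List (List ℕ)} (hlen : (grpd T.types NH NH' k).length = T.types.length)
    (y : ℝ) (cs : List (Clu × ℝ)) {U : List ℕ → ℝ} (hU : SymF U) :
    zd (T.types.map U) ((mkGrp (opsReal y) T.types (grpd T.types NH NH' k)).map (gval y k cs)) =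
      ((parts (nthL NH) (nthL NH') k).map fun p => U (p.1.map List.length) * pval y k cs p).sum := by
  obtain ⟨hT, -, -⟩ := hc
  have hi : ∀ g ∈ lmap (fun τ => (keyS τ, ([] : List Part))) T.types, g.2 = [] := by
    intro g hg
    rw [lmap_eq] at hg
    obtain ⟨τ, _, rfl⟩ := List.mem_map.1 hg
    rfl
  have hkeys : (grpd T.types NH NH' k).map Prod.fst = T.types.map keyS := by
    obtain ⟨ex, hex⟩ := groups_keys (lmap (fun τ => (keyS τ, ([] : List Part))) T.types)
      (parts (nthL NH) (nthL NH') k)
    have h1 : (lmap (fun τ => (keyS τ, ([] : List Part))) T.types).map Prod.fst =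
        T.types.map keyS := by
      rw [lmap_eq, List.map_map]
      rfl
    rw [h1] at hex
    have h2 := congrArg List.length hex
    rw [List.length_map, List.length_append, List.length_map] at h2
    change (grpd T.types NH NH' k).length = _ at h2
    have h3 : ex = [] := List.length_eq_zero_iff.1 (by omega)
    rw [h3, List.append_nil] at hex
    exact hex
  have hpos : ∀ τ ∈ T.types, 0 < τ.length := by
    intro τ hτ
    rw [List.length_pos_iff]
    rintro rfl
    have := (hT [] hτ).1
    simp [lsumN] at this
    omega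
  rw [zip_sum y k cs U T.types _ hkeys hpos]
  · exact groups_sum _ hi _ _
  · intro τ hτ g hg hgτ p hp
    obtain ⟨h1, h2⟩ := groups_mem _ hi _ g hg p hp
    have hinv := parts_inv _ _ _ p h2
    have h3 : (p.1.map List.length).Perm τ := by
      refine key_perm ?_ ?_ ?_
      · rw [List.length_map]
        have := hinv.length_le
        omega
      · have := (hT τ hτ).2
        omega
      · rw [← key_eq, ← keyS_eq, h1, hgτ]
    refine ⟨?_, hU _ _ h3⟩
    have := h3.length_eq
    rwa [List.length_map] at this

end Pool.Agent.W_MP_d15038_ex
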