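import Pool.Agent.W_MP_d15038_ex.Check

/-!
# Naturality of the certificate computation, and soundness of the digit comparison
-/

set_option autoImplicit false

open Polynomial

namespace Pool.Agent.W_MP_d15038_ex

theorem len_eq {α : Type} (b : List α) : len b = b.length := by
  induction b with
  | nil => rfl
  | cons a b ih => exact congrArg Nat.succ ih

@[simp] theorem lsum_nil {α A : Type} (z : A) (g : α → A → A) : lsum z g [] = z := rfl
@[simp] theorem lsum_cons {α A : Type} (z : A) (g : α → A → A) (a : α) (l : List α) :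
    lsum z g (a :: l) = g a (lsum z g l) := rfl

/-- `f` commutes with the operations. -/
structure IsHom {A B : Type} (oA : Ops A) (oB : Ops B) (f : A → B) : Prop where
  add : ∀ a b, f (oA.add a b) = oB.add (f a) (f b)
  mul : ∀ a b, f (oA.mul a b) = oB.mul (f a) (f b)
  nat : ∀ n, f (oA.nat n) = oB.nat n
  pw : ∀ n, f (oA.pw n) = oB.pw n
  dpw : ∀ a b, f (oA.dpw a b) = oB.dpw a b

section hom

variable {A B : Type} {oA : Ops A} {oB : Ops B} {f : A → B}

def mapE (f : A → B) (p : Entry A) : Entry B := (p.1, f p.2.1, f p.2.2)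

def mapG (f : A → B) (g : Grp A) : Grp B := (g.1, g.2.map (mapE f))

theorem fac_map (h : IsHom oA oB f) (c0 : ℕ) (d : List (ℕ × ℕ)) (j : ℕ) :
    f (fac oA c0 d j) = fac oB c0 d j := by
  cases j with
  | zero =>
    change f (lsum (oA.nat 0) (fun p acc => oA.add (oA.dpw (Nat.add c0 p.2) c0) acc) d) =
      lsum (oB.nat 0) (fun p acc => oB.add (oB.dpw (Nat.add c0 p.2) c0) acc) d
    induction d with
    | nil => exact h.nat 0
    | cons a d ih => rw [lsum_cons, lsum_cons, h.add, ih, h.dpw]
  | succ j =>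
    change f (lsum (oA.nat 0) (fun p acc => cond (Nat.ble (j+1) p.1)
        (oA.add (oA.mul (oA.nat (bin p.1 (j+1))) (oA.pw (Nat.add c0 p.2))) acc) acc) d) =
      lsum (oB.nat 0) (fun p acc => cond (Nat.ble (j+1) p.1)
        (oB.add (oB.mul (oB.nat (bin p.1 (j+1))) (oB.pw (Nat.add c0 p.2))) acc) acc) d
    induction d with
    | nil => exact h.nat 0
    | cons a d ih =>
      rw [lsum_cons, lsum_cons]
      cases Nat.ble (j+1) a.1
      · exact ih
      · change f (oA.add _ _) = oB.add _ _
        rw [h.add, h.mul, h.nat, h.pw, ih]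

theorem mulEntries_map (h : IsHom oA oB f) (c : Clu) (j : ℕ) (es : List (Entry A)) :
    (mulEntries oA c j es).map (mapE f) = mulEntries oB c j (es.map (mapE f)) := by
  induction es with
  | nil => rfl
  | cons p es ih =>
    change (cond (hasBig p.1 j) _ (mulEntries oA c j es)).map (mapE f) =
      cond (hasBig p.1 j) _ (mulEntries oB c j (es.map (mapE f)))
    cases hasBig p.1 j
    · exact ih
    · change mapE f _ :: (mulEntries oA c j es).map (mapE f) = _ :: mulEntries oB c j (es.map (mapE f))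
      rw [ih]
      congr 1
      unfold mapE
      simp only [h.mul, fac_map h]

theorem lsum_add_map (h : IsHom oA oB f) {α β : Type} (g : α → A) (g' : β → B) (m : α → β)
    (hg : ∀ a, f (g a) = g' (m a)) (l : List α) :
    f (lsum (oA.nat 0) (fun p acc => oA.add (g p) acc) l) =
      lsum (oB.nat 0) (fun p acc => oB.add (g' p) acc) (l.map m) := by
  induction l with
  | nil => exact h.nat 0
  | cons a l ih => rw [List.map_cons, lsum_cons, lsum_cons, h.add, ih, hg]

theorem grpSum_map (h : IsHom oA oB f) (g : Grp A) :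
    Prod.map f f (grpSum oA g) = grpSum oB (mapG f g) := by
  obtain ⟨s, es⟩ := g
  unfold grpSum mapG
  cases s
  · simp only [cond_false, Prod.map_apply]
    rw [lsum_add_map h _ (fun p : Entry B => p.2.1) (mapE f) (fun _ => rfl),
      lsum_add_map h _ (fun p : Entry B => p.2.2) (mapE f) (fun _ => rfl)]
  · simp only [cond_true, Prod.map_apply]
    rw [lsum_add_map h _ (fun p : Entry B => p.2.1) (mapE f) (fun _ => rfl),
      lsum_add_map h _ (fun p : Entry B => p.2.2) (mapE f) (fun _ => rfl)]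

theorem dot_nil_right (o : Ops A) (row : List ℕ) : dot o row [] = (o.nat 0, o.nat 0) := by
  cases row <;> rfl

theorem dot_cons_cons (o : Ops A) (n : ℕ) (row : List ℕ) (p : A × A) (l : List (A × A)) :
    dot o (n :: row) (p :: l) = cond (Nat.beq n 0) (dot o row l)
      (o.add (o.mul (o.nat n) p.1) (dot o row l).1, o.add (o.mul (o.nat n) p.2) (dot o row l).2) :=
  rfl

theorem dot_map (h : IsHom oA oB f) (row : List ℕ) (l : List (A × A)) :
    Prod.map f f (dot oA row l) = dot oB row (l.map (Prod.map f f)) := by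
  induction row generalizing l with
  | nil =>
    change (f (oA.nat 0), f (oA.nat 0)) = (oB.nat 0, oB.nat 0)
    rw [h.nat]
  | cons n row ih =>
    cases l with
    | nil =>
      rw [List.map_nil, dot_nil_right, dot_nil_right, Prod.map_apply, h.nat]
    | cons p l =>
      rw [List.map_cons, dot_cons_cons, dot_cons_cons, ← ih]
      cases Nat.beq n 0
      · simp only [cond_false, Prod.map_apply, h.add, h.mul, h.nat, Prod.map_fst, Prod.map_snd]
      · rfl

theorem outs_nil (o : Ops A) (k : ℕ) (rows : List (List ℕ)) (gs : List (Grp A)) :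
    outs o k rows [] gs = rows.map (fun row => dot o row (gs.map (grpSum o))) := by
  change lmap (fun row => dot o row (lmap (grpSum o) gs)) rows = _
  rw [lmap_eq, lmap_eq]

theorem outs_cons (o : Ops A) (k : ℕ) (rows : List (List ℕ)) (c : Clu) (cs : List Clu)
    (gs : List (Grp A)) :
    outs o k rows (c :: cs) gs = (lrange (k+1)).flatMap (fun j =>
      outs o k rows cs (gs.map (fun g => (g.1, mulEntries o c j g.2)))) := by
  change lbind (fun j => outs o k rows cs (lmap (fun g => (g.1, mulEntries o c j g.2)) gs))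
    (lrange (Nat.succ k)) = _
  rw [lbind_eq]
  simp only [lmap_eq]

theorem outs_map (h : IsHom oA oB f) (k : ℕ) (rows : List (List ℕ)) (cs : List Clu)
    (gs : List (Grp A)) :
    (outs oA k rows cs gs).map (Prod.map f f) = outs oB k rows cs (gs.map (mapG f)) := by
  induction cs generalizing gs with
  | nil =>
    rw [outs_nil, outs_nil, List.map_map, List.map_map]
    refine List.map_congr_left fun row _ => ?_
    rw [Function.comp_apply, dot_map h, List.map_map]
    congr 1
    refine List.map_congr_left fun g _ => ?_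
    exact grpSum_map h g
  | cons c cs ih =>
    rw [outs_cons, outs_cons, List.map_flatMap]
    congr 1
    funext j
    rw [ih, List.map_map, List.map_map]
    congr 1
    refine List.map_congr_left fun g _ => ?_
    simp only [Function.comp_apply, mapG, mulEntries_map h]

theorem mkEntries_map (h : IsHom oA oB f) (ps : List Part) :
    (mkEntries oA ps).map (mapE f) = mkEntries oB ps := by
  unfold mkEntries
  rw [lmap_eq, lmap_eq, List.map_map]
  refine List.map_congr_left fun p _ => ?_
  simp only [Function.comp_apply, mapE, h.mul, h.nat, h.pw]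

theorem mkGrp_map (h : IsHom oA oB f) (T : List (List ℕ)) (G : List (ℕ × List Part)) :
    (mkGrp oA T G).map (mapG f) = mkGrp oB T G := by
  induction T generalizing G with
  | nil => rfl
  | cons τ T ih =>
    cases G with
    | nil => rfl
    | cons g G =>
      change (((odd' (len τ), mkEntries oA g.2) : Grp A) :: mkGrp oA T G).map (mapG f) =
        ((odd' (len τ), mkEntries oB g.2) : Grp B) :: mkGrp oB T G
      rw [List.map_cons, ih]
      simp only [mapG, mkEntries_map h]

end hom

/-! ## the three sets of operations -/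

noncomputable def opsReal (y : ℝ) : Ops ℝ where
  add := fun a b => a + b
  mul := fun a b => a * b
  nat := fun n => n
  pw := fun n => (1 + y) ^ n
  dpw := fun a b => y * ∑ t ∈ Finset.Ico b a, (1 + y) ^ t

noncomputable def opsPoly : Ops ℕ[X] where
  add := fun a b => a + b
  mul := fun a b => a * b
  nat := fun n => n
  pw := fun n => (1 + X) ^ n
  dpw := fun a b => X * ∑ t ∈ Finset.Ico b a, (1 + X) ^ t

theorem geom_Ico (y : ℝ) {a b : ℕ} (h : b ≤ a) :
    y * ∑ t ∈ Finset.Ico b a, (1 + y) ^ t = (1 + y) ^ a - (1 + y) ^ b := by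
  induction a, h using Nat.le_induction with
  | base => simp
  | succ a hab ih =>
    rw [Finset.sum_Ico_succ_top hab, mul_add, ih]
    ring

theorem geom_Ico_nat (Q : ℕ) (a b : ℕ) :
    Q * ∑ t ∈ Finset.Ico b a, (1 + Q) ^ t = (Q + 1) ^ a - (Q + 1) ^ b := by
  rcases le_total b a with h | h
  · have h1 : Q * ∑ t ∈ Finset.Ico b a, (1 + Q) ^ t + (1 + Q) ^ b = (1 + Q) ^ a := by
      have := geom_Ico (Q : ℝ) h
      have h2 : ((Q * ∑ t ∈ Finset.Ico b a, (1 + Q) ^ t + (1 + Q) ^ b : ℕ) : ℝ) =
          (((1 + Q) ^ a : ℕ) : ℝ) := by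
        push_cast
        rw [this]
        ring
      exact_mod_cast h2
    rw [add_comm Q 1, ← h1]
    simp
  · rw [Finset.Ico_eq_empty_of_le h]
    simp only [Finset.sum_empty, mul_zero]
    exact (Nat.sub_eq_zero_of_le (Nat.pow_le_pow_right (Nat.succ_pos Q) h)).symm

theorem hom_nat (Q : ℕ) : IsHom opsPoly (opsNat Q) (fun P => P.eval Q) where
  add := fun a b => eval_add
  mul := fun a b => eval_mul
  nat := fun n => eval_natCast
  pw := fun n => by
    change eval Q ((1 + X) ^ n) = (Q + 1) ^ n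
    rw [eval_pow, eval_add, eval_one, eval_X, add_comm]
  dpw := fun a b => by
    change eval Q (X * ∑ t ∈ Finset.Ico b a, (1 + X) ^ t) = (Q + 1) ^ a - (Q + 1) ^ b
    rw [eval_mul, eval_X, eval_finsetSum, ← geom_Ico_nat]
    simp

theorem hom_real (y : ℝ) : IsHom opsPoly (opsReal y) (fun P => P.eval₂ (Nat.castRingHom ℝ) y) where
  add := fun a b => eval₂_add _ _
  mul := fun a b => eval₂_mul _ _
  nat := fun n => by
    change eval₂ _ _ (n : ℕ[X]) = (n : ℝ)
    rw [eval₂_natCast]
  pw := fun n => by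
    change eval₂ _ _ ((1 + X) ^ n) = (1 + y) ^ n
    rw [eval₂_pow, eval₂_add, eval₂_one, eval₂_X]
  dpw := fun a b => by
    change eval₂ _ _ (X * ∑ t ∈ Finset.Ico b a, (1 + X) ^ t) = y * ∑ t ∈ Finset.Ico b a, (1 + y) ^ t
    rw [eval₂_mul, eval₂_X, eval₂_finsetSum]
    congr 1
    refine Finset.sum_congr rfl fun t _ => ?_
    rw [eval₂_pow, eval₂_add, eval₂_one, eval₂_X]

/-! ## digit comparison -/

theorem digLE_zero (Q a b : ℕ) : digLE Q 0 a b = Nat.beq a 0 := rfl

theorem digLE_succ (Q fuel a b : ℕ) : digLE Q (fuel+1) a b =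
    cond (Nat.beq a 0) true
      (cond (Nat.ble (a % Q) (b % Q)) (digLE Q fuel (a / Q) (b / Q)) false) := rfl

theorem eval_eq_zero_nat {Q : ℕ} (hQ : 0 < Q) {N : ℕ[X]} (h : N.eval Q = 0) : N = 0 := by
  ext n
  rw [coeff_zero]
  by_contra hn
  have h1 : n ∈ N.support := mem_support_iff.2 hn
  rw [eval_eq_sum, sum_def, Finset.sum_eq_zero_iff] at h
  have := h n h1
  rcases Nat.mul_eq_zero.1 this with h2 | h2
  · exact hn h2
  · exact absurd h2 (pow_pos hQ n).ne'

theorem eval₂_nonneg_nat (P : ℕ[X]) {y : ℝ} (hy : 0 ≤ y) :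
    0 ≤ P.eval₂ (Nat.castRingHom ℝ) y := by
  rw [eval₂_eq_sum, sum_def]
  exact Finset.sum_nonneg fun n _ => mul_nonneg (Nat.cast_nonneg _) (pow_nonneg hy n)

theorem eval₂_pos_nat {P : ℕ[X]} (hP : P ≠ 0) {y : ℝ} (hy : 0 < y) :
    0 < P.eval₂ (Nat.castRingHom ℝ) y := by
  rw [eval₂_eq_sum, sum_def]
  obtain ⟨n, hn⟩ := nonempty_support_iff.2 hP
  refine Finset.sum_pos' (fun n _ => mul_nonneg (Nat.cast_nonneg _) (pow_nonneg hy.le n))
    ⟨n, hn, ?_⟩
  refine mul_pos ?_ (pow_pos hy n)
  exact Nat.cast_pos.2 (Nat.pos_of_ne_zero (mem_support_iff.1 hn))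

theorem eval_divX_nat (P : ℕ[X]) (Q : ℕ) : P.eval Q = (divX P).eval Q * Q + P.coeff 0 := by
  conv_lhs => rw [← divX_mul_X_add P]
  simp

theorem digLE_sound (Q : ℕ) (hQ : 0 < Q) (fuel : ℕ) : ∀ N P : ℕ[X],
    N.eval 1 < Q → P.eval 1 < Q → digLE Q fuel (N.eval Q) (P.eval Q) = true →
    (∀ y : ℝ, 0 ≤ y → N.eval₂ (Nat.castRingHom ℝ) y ≤ P.eval₂ (Nat.castRingHom ℝ) y) ∧
    (N.eval Q ≠ P.eval Q → ∀ y : ℝ, 0 < y →
      N.eval₂ (Nat.castRingHom ℝ) y < P.eval₂ (Nat.castRingHom ℝ) y) := by
  have hzero : ∀ N P : ℕ[X], N.eval Q = 0 →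
      (∀ y : ℝ, 0 ≤ y → N.eval₂ (Nat.castRingHom ℝ) y ≤ P.eval₂ (Nat.castRingHom ℝ) y) ∧
      (N.eval Q ≠ P.eval Q → ∀ y : ℝ, 0 < y →
        N.eval₂ (Nat.castRingHom ℝ) y < P.eval₂ (Nat.castRingHom ℝ) y) := by
    intro N P h
    have hN : N = 0 := eval_eq_zero_nat hQ h
    subst hN
    refine ⟨fun y hy => by rw [eval₂_zero]; exact eval₂_nonneg_nat P hy, fun hne y hy => ?_⟩
    rw [eval₂_zero]
    refine eval₂_pos_nat ?_ hy
    rintro rfl
    exact hne rfl
  induction fuel with
  | zero =>
    intro N P _ _ h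
    rw [digLE_zero] at h
    exact hzero N P (Nat.eq_of_beq_eq_true h)
  | succ fuel ih =>
    intro N P hN hP h
    rw [digLE_succ] at h
    by_cases h0 : N.eval Q = 0
    · exact hzero N P h0
    have hb : Nat.beq (N.eval Q) 0 = false := by
      rcases hbb : Nat.beq (N.eval Q) 0 with _ | _
      · rfl
      · exact absurd (Nat.eq_of_beq_eq_true hbb) h0
    rw [hb, cond_false] at h
    have h1 : Nat.ble (N.eval Q % Q) (P.eval Q % Q) = true ∧
        digLE Q fuel (N.eval Q / Q) (P.eval Q / Q) = true := by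
      rcases hbb : Nat.ble (N.eval Q % Q) (P.eval Q % Q) with _ | _
      · rw [hbb, cond_false] at h
        exact absurd h (by simp)
      · rw [hbb, cond_true] at h
        exact ⟨rfl, h⟩
    have e1 := eval_divX_nat N Q
    have e2 := eval_divX_nat P Q
    have f1 := eval_divX_nat N 1
    have f2 := eval_divX_nat P 1
    have c1 : N.coeff 0 < Q := by omega
    have c2 : P.coeff 0 < Q := by omega
    have m1 : N.eval Q % Q = N.coeff 0 := by
      rw [e1, Nat.mul_add_mod', Nat.mod_eq_of_lt c1]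
    have m2 : P.eval Q % Q = P.coeff 0 := by
      rw [e2, Nat.mul_add_mod', Nat.mod_eq_of_lt c2]
    have d1 : N.eval Q / Q = (divX N).eval Q := by
      rw [e1, Nat.add_div_of_dvd_right (Dvd.intro_left _ rfl), Nat.mul_div_cancel _ hQ,
        Nat.div_eq_of_lt c1, Nat.add_zero]
    have d2 : P.eval Q / Q = (divX P).eval Q := by
      rw [e2, Nat.add_div_of_dvd_right (Dvd.intro_left _ rfl), Nat.mul_div_cancel _ hQ,
        Nat.div_eq_of_lt c2, Nat.add_zero]
    have hle : N.coeff 0 ≤ P.coeff 0 := by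
      rw [← m1, ← m2]; exact Nat.le_of_ble_eq_true h1.1
    have h2 := h1.2
    rw [d1, d2] at h2
    obtain ⟨i1, i2⟩ := ih (divX N) (divX P) (by omega) (by omega) h2
    have g1 : ∀ (R : ℕ[X]) (y : ℝ), R.eval₂ (Nat.castRingHom ℝ) y =
        (divX R).eval₂ (Nat.castRingHom ℝ) y * y + R.coeff 0 := by
      intro R y
      conv_lhs => rw [← divX_mul_X_add R]
      simp
    have hle' : ((N.coeff 0 : ℕ) : ℝ) ≤ P.coeff 0 := Nat.cast_le.2 hle
    refine ⟨fun y hy => ?_, fun hne y hy => ?_⟩
    · rw [g1 N, g1 P]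
      have := i1 y hy
      nlinarith [mul_le_mul_of_nonneg_right this hy]
    · rw [g1 N, g1 P]
      rcases eq_or_lt_of_le hle with h3 | h3
      · have h4 : (divX N).eval Q ≠ (divX P).eval Q := by
          intro h5
          apply hne
          rw [e1, e2, h5, h3]
        have := mul_lt_mul_of_pos_right (i2 h4 y hy) hy
        linarith
      · have h4 : ((N.coeff 0 : ℕ) : ℝ) < P.coeff 0 := Nat.cast_lt.2 h3
        have := mul_le_mul_of_nonneg_right (i1 y hy.le) hy.le
        linarith

end Pool.Agent.W_MP_d15038_ex
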