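import Pool.Agent.W_MP_d15038_ex.Count

/-!
# Graphs with the same components have the same reliability
-/

set_option autoImplicit false
set_option linter.unusedSectionVars false
set_option linter.unusedSimpArgs false

open Finset

namespace Pool.Agent.W_MP_d15038_ex

open scoped Classical

section iso

variable {V : Type} [Fintype V]

theorem rel_iso {H1 H2 : SimpleGraph V} (π : V ≃ V) (h : ∀ x y, H1.Adj x y ↔ H2.Adj (π x) (π y))
    {q : ℝ} (hq : 0 < q) : RelE (Ec H1) q = RelE (Ec H2) q := by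
  have hprod : ∀ (m : ℕ) (τ : V → Fin m), ∏ e ∈ Ec H2, wte q τ e =
      ∏ e ∈ Ec H1, wte q (fun x => τ (π x)) e := by
    intro m τ
    have p1 : 0 < ∏ e ∈ Ec H2, wte q τ e := prod_pos fun e _ => wte_pos hq _ e
    have p2 : 0 < ∏ e ∈ Ec H1, wte q (fun x => τ (π x)) e := prod_pos fun e _ => wte_pos hq _ e
    have key : (∏ e ∈ Ec H2, wte q τ e) ^ 2 = (∏ e ∈ Ec H1, wte q (fun x => τ (π x)) e) ^ 2 := by
      unfold Ec
      rw [prod_sq, prod_sq, ← π.prod_comp]
      refine prod_congr rfl fun x _ => ?_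
      rw [← π.prod_comp]
      refine prod_congr rfl fun y _ => ?_
      unfold dw
      congr 1
      rw [SimpleGraph.compl_adj, SimpleGraph.compl_adj, h x y]
      apply propext
      constructor
      · rintro ⟨⟨h1, h2⟩, h3⟩
        exact ⟨⟨fun h' => h1 (congrArg π h'), h2⟩, h3⟩
      · rintro ⟨⟨h1, h2⟩, h3⟩
        exact ⟨⟨fun h' => h1 (π.injective h'), h2⟩, h3⟩
    exact (pow_left_inj₀ p1.le p2.le two_ne_zero).1 key
  have hsum : ∀ m : ℕ, ∑ τ : V → Fin m, ∏ e ∈ Ec H2, wte q τ e =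
      ∑ τ : V → Fin m, ∏ e ∈ Ec H1, wte q τ e := by
    intro m
    refine Fintype.sum_equiv (π.symm.arrowCongr (Equiv.refl (Fin m))) _ _ fun τ => ?_
    rw [hprod]
    rfl
  have hP : ∀ m : ℕ, ∑ τ : V → Fin m, ∏ e ∈ Ec H1, wte q τ e =
      (∑ S ∈ (Ec H1).powerset, Polynomial.C ((1 - q) ^ S.card * q ^ (Ec H1 \ S).card) *
      Polynomial.X ^ Nat.card (gr S).ConnectedComponent).eval (m : ℝ) := by
    intro m
    have := fk_one (Ec H1) q m
    rw [Polynomial.eval_finsetSum]
    refine Eq.trans (by convert this) ?_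
    refine sum_congr rfl fun S _ => ?_
    rw [Polynomial.eval_mul, Polynomial.eval_C, Polynomial.eval_pow, Polynomial.eval_X]
  rw [rel_eq_coeff (Ec H1) q _ (fun m => by convert hP m),
    rel_eq_coeff (Ec H2) q _ (fun m => by
      have := (hsum m).trans (hP m)
      convert this)]

/-- list of a component, with adjacency given by positions -/
structure Sh (H : SimpleGraph V) (A : ℕ → ℕ → ℕ → Prop) (ℓ : ℕ) (C : H.ConnectedComponent)
    (S : List V) : Prop where
  nd : S.Nodup
  mem : ∀ v, v ∈ S ↔ H.connectedComponentMk v = C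
  len : S.length = 2 ∨ S.length = ℓ
  adj : ∀ (i j : ℕ) (hi : i < S.length) (hj : j < S.length),
    H.Adj S[i] S[j] ↔ A S.length i j

variable {H : SimpleGraph V} {A : ℕ → ℕ → ℕ → Prop} {ℓ : ℕ}

/-- positions in components -/
noncomputable def shEquiv (L : H.ConnectedComponent → List V) (hL : ∀ C, Sh H A ℓ C (L C)) :
    (Σ C : H.ConnectedComponent, Fin (L C).length) ≃ V :=
  Equiv.ofBijective (fun p => (L p.1)[p.2]) (by
    constructor
    · rintro ⟨C, i⟩ ⟨D, j⟩ hij
      simp only at hij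
      have h1 := ((hL C).mem _).1 (List.getElem_mem i.2)
      have h2 := ((hL D).mem _).1 (List.getElem_mem j.2)
      have h3 : C = D := by
        rw [← h1, ← h2]
        exact congrArg _ hij
      subst h3
      have h4 : i = j := by
        have := (hL C).nd
        rw [List.nodup_iff_injective_get] at this
        exact this hij
      rw [h4]
    · intro v
      have h1 := ((hL (H.connectedComponentMk v)).mem v).2 rfl
      obtain ⟨i, hi, h2⟩ := List.mem_iff_getElem.1 h1
      exact ⟨⟨_, ⟨i, hi⟩⟩, h2⟩)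

theorem shEquiv_apply (L : H.ConnectedComponent → List V) (hL : ∀ C, Sh H A ℓ C (L C))
    (p : Σ C : H.ConnectedComponent, Fin (L C).length) :
    shEquiv L hL p = (L p.1)[p.2] := rfl

theorem sh_adj (L : H.ConnectedComponent → List V) (hL : ∀ C, Sh H A ℓ C (L C))
    (C D : H.ConnectedComponent) (i : Fin (L C).length) (j : Fin (L D).length) :
    H.Adj (shEquiv L hL ⟨C, i⟩) (shEquiv L hL ⟨D, j⟩) ↔ C = D ∧ A (L C).length i j := by
  rw [shEquiv_apply, shEquiv_apply]
  constructor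
  · intro h
    have h1 := ((hL C).mem _).1 (List.getElem_mem i.2)
    have h2 := ((hL D).mem _).1 (List.getElem_mem j.2)
    have h3 : C = D := by
      rw [← h1, ← h2, SimpleGraph.ConnectedComponent.eq]
      exact h.reachable
    subst h3
    exact ⟨rfl, ((hL C).adj i j i.2 j.2).1 h⟩
  · rintro ⟨rfl, h⟩
    exact ((hL C).adj i j i.2 j.2).2 h

/-- sum of the degrees in a component with `n` vertices -/
noncomputable def gA (A : ℕ → ℕ → ℕ → Prop) (n : ℕ) : ℕ :=
  ∑ i : Fin n, ∑ j : Fin n, if A n i j then 1 else 0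

/-- number of components with `k` vertices -/
noncomputable def nk (L : H.ConnectedComponent → List V) (k : ℕ) : ℕ :=
  Fintype.card {C : H.ConnectedComponent // (L C).length = k}

theorem sum_by_len (L : H.ConnectedComponent → List V) (hL : ∀ C, Sh H A ℓ C (L C)) (hℓ : ℓ ≠ 2)
    (F : ℕ → ℕ) : ∑ C, F (L C).length = nk L 2 * F 2 + nk L ℓ * F ℓ := by
  have h1 : ∑ C, F (L C).length = (∑ C ∈ univ.filter (fun C => (L C).length = 2), F 2) +
      ∑ C ∈ univ.filter (fun C => (L C).length = ℓ), F ℓ := by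
    rw [← sum_filter_add_sum_filter_not univ (fun C => (L C).length = 2)]
    congr 1
    · refine sum_congr rfl fun C hC => ?_
      rw [(mem_filter.1 hC).2]
    · have h2 : univ.filter (fun C => ¬ (L C).length = 2) =
          univ.filter (fun C => (L C).length = ℓ) := by
        ext C
        simp only [mem_filter, mem_univ, true_and]
        have := (hL C).len
        omega
      rw [h2]
      refine sum_congr rfl fun C hC => ?_
      rw [(mem_filter.1 hC).2]
  rw [h1, sum_const, sum_const, smul_eq_mul, smul_eq_mul]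
  unfold nk
  rw [Fintype.card_subtype, Fintype.card_subtype]

theorem sh_card (L : H.ConnectedComponent → List V) (hL : ∀ C, Sh H A ℓ C (L C)) (hℓ : ℓ ≠ 2) :
    Fintype.card V = nk L 2 * 2 + nk L ℓ * ℓ := by
  rw [← sum_by_len L hL hℓ (fun n => n), ← Fintype.card_congr (shEquiv L hL), Fintype.card_sigma]
  simp

theorem sh_edges (L : H.ConnectedComponent → List V) (hL : ∀ C, Sh H A ℓ C (L C)) (hℓ : ℓ ≠ 2) :
    2 * H.edgeFinset.card = nk L 2 * gA A 2 + nk L ℓ * gA A ℓ := by
  rw [← sum_by_len L hL hℓ (gA A), two_edges, ← (shEquiv L hL).sum_comp, Fintype.sum_sigma]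
  refine sum_congr rfl fun C _ => ?_
  unfold gA
  refine sum_congr rfl fun i _ => ?_
  rw [← (shEquiv L hL).sum_comp, Fintype.sum_sigma]
  simp only [sh_adj L hL]
  rw [Finset.sum_eq_single C]
  · simp
  · intro D _ hD
    refine sum_eq_zero fun j _ => ?_
    rw [if_neg]
    rintro ⟨h, _⟩
    exact hD h.symm
  · intro h
    exact absurd (mem_univ _) h

theorem sh_iso {H1 H2 : SimpleGraph V} {L1 : H1.ConnectedComponent → List V}
    {L2 : H2.ConnectedComponent → List V} (hL1 : ∀ C, Sh H1 A ℓ C (L1 C))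
    (hL2 : ∀ C, Sh H2 A ℓ C (L2 C)) (hn : ∀ k, nk L1 k = nk L2 k) :
    ∃ π : V ≃ V, ∀ x y, H1.Adj x y ↔ H2.Adj (π x) (π y) := by
  have he : ∀ k, Nonempty ({C : H1.ConnectedComponent // (L1 C).length = k} ≃
      {C : H2.ConnectedComponent // (L2 C).length = k}) := fun k => Fintype.card_eq.1 (hn k)
  set β : H1.ConnectedComponent ≃ H2.ConnectedComponent :=
    Equiv.ofFiberEquiv (f := fun C => (L1 C).length) (g := fun C => (L2 C).length)
      (fun k => (he k).some) with hβ
  have hlen : ∀ C, (L2 (β C)).length = (L1 C).length := fun C =>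
    Equiv.ofFiberEquiv_map (f := fun C => (L1 C).length) (g := fun C => (L2 C).length)
      (fun k => (he k).some) C
  set e : (Σ C : H1.ConnectedComponent, Fin (L1 C).length) ≃
      (Σ C : H2.ConnectedComponent, Fin (L2 C).length) :=
    Equiv.sigmaCongr β (fun C => finCongr (hlen C).symm) with he'
  refine ⟨(shEquiv L1 hL1).symm.trans (e.trans (shEquiv L2 hL2)), fun x y => ?_⟩
  obtain ⟨⟨C, i⟩, rfl⟩ := (shEquiv L1 hL1).surjective x
  obtain ⟨⟨D, j⟩, rfl⟩ := (shEquiv L1 hL1).surjective y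
  simp only [Equiv.trans_apply, Equiv.symm_apply_apply]
  have e1 : ∀ (C : H1.ConnectedComponent) (i : Fin (L1 C).length),
      e ⟨C, i⟩ = ⟨β C, finCongr (hlen C).symm i⟩ := fun C i => rfl
  rw [e1, e1, sh_adj, sh_adj, β.injective.eq_iff]
  have h3 : A (L2 (β C)).length (i : ℕ) (j : ℕ) ↔ A (L1 C).length i j := by rw [hlen C]
  exact and_congr Iff.rfl h3.symm

/-- main statement on equal component structure -/
theorem rel_eq_of_sh {H1 H2 : SimpleGraph V} {L1 : H1.ConnectedComponent → List V}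
    {L2 : H2.ConnectedComponent → List V} (hL1 : ∀ C, Sh H1 A ℓ C (L1 C))
    (hL2 : ∀ C, Sh H2 A ℓ C (L2 C)) (hℓ : ℓ ≠ 2) (h2 : gA A 2 = 2) (hg : ℓ < gA A ℓ)
    (hE : H1.edgeFinset.card = H2.edgeFinset.card) {q : ℝ} (hq : 0 < q) :
    RelE (Ec H1) q = RelE (Ec H2) q := by
  have c1 := sh_card L1 hL1 hℓ
  have c2 := sh_card L2 hL2 hℓ
  have d1 := sh_edges L1 hL1 hℓ
  have d2 := sh_edges L2 hL2 hℓ
  rw [h2] at d1 d2
  rw [hE, d2] at d1
  rw [c2] at c1
  have hℓt : nk L1 ℓ = nk L2 ℓ := by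
    obtain ⟨g, hg'⟩ : ∃ g, gA A ℓ = ℓ + (g + 1) := ⟨gA A ℓ - ℓ - 1, by omega⟩
    rw [hg'] at d1
    have : nk L2 ℓ * (g + 1) = nk L1 ℓ * (g + 1) := by
      linarith
    exact (Nat.eq_of_mul_eq_mul_right (Nat.succ_pos g) this).symm
  have h2t : nk L1 2 = nk L2 2 := by
    rw [hℓt] at c1
    omega
  obtain ⟨π, hπ⟩ := sh_iso hL1 hL2 (fun k => by
    by_cases hk2 : k = 2
    · rw [hk2, h2t]
    by_cases hkℓ : k = ℓ
    · rw [hkℓ, hℓt]
    · have : ∀ {H : SimpleGraph V} {L : H.ConnectedComponent → List V}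
          (hL : ∀ C, Sh H A ℓ C (L C)), nk L k = 0 := by
        intro H L hL
        unfold nk
        rw [Fintype.card_eq_zero_iff]
        refine ⟨fun C => ?_⟩
        have h1 := (hL C.1).len
        have h2 := C.2
        omega
      rw [this hL1, this hL2])
  exact rel_iso π hπ hq

/-! ### the shapes -/

/-- positions adjacent: path for `b = true`, complete for `b = false` -/
def Apos (b : Bool) (_n i j : ℕ) : Prop :=
  if b then (i + 1 = j ∨ j + 1 = i) else i ≠ j

theorem sh_of_comp {S : List V} (hS : IsComp H S) {x : V} (hx : x ∈ S) (b : Bool)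
    (hlen : S.length = 2 ∨ S.length = ℓ)
    (hadj : ∀ (i j : ℕ) (hi : i < S.length) (hj : j < S.length),
      H.Adj S[i] S[j] ↔ Apos b S.length i j) :
    Sh H (Apos b) ℓ (H.connectedComponentMk x) S := by
  refine ⟨hS.nd, fun v => ?_, hlen, hadj⟩
  rw [SimpleGraph.ConnectedComponent.eq]
  exact ⟨fun hv => hS.cn v hv x hx, fun hv => hS.reach hx hv.symm⟩

theorem IsK2.sh {x y : V} (h : IsK2 H x y) (b : Bool) :
    Sh H (Apos b) ℓ (H.connectedComponentMk x) [x, y] := by
  have hxy : H.Adj x y := h.1.adj (by simp)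
  refine sh_of_comp h.comp (by simp) b (Or.inl rfl) fun i j hi hj => ?_
  simp only [List.length_cons, List.length_nil] at hi hj
  interval_cases i <;> interval_cases j <;> cases b <;> simp [Apos, hxy, hxy.symm]

theorem XTri.sh {S : List V} (h : XTri H S) {x : V} (hx : x ∈ S) :
    Sh H (Apos false) 3 (H.connectedComponentMk x) S := by
  obtain ⟨a, b, c, rfl, h⟩ := h
  obtain ⟨h0, h1, h2, h3⟩ := id h
  have a1 : H.Adj a b := h1.adj (by simp)
  have a2 : H.Adj b c := h2.adj (by simp)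
  have a3 : H.Adj c a := h3.adj (by simp)
  refine sh_of_comp h.comp hx false (Or.inr rfl) fun i j hi hj => ?_
  simp only [List.length_cons, List.length_nil] at hi hj
  interval_cases i <;> interval_cases j <;>
    simp [Apos, a1, a1.symm, a2, a2.symm, a3, a3.symm]

theorem XP3.sh {S : List V} (h : XP3 H S) {x : V} (hx : x ∈ S) :
    Sh H (Apos true) 3 (H.connectedComponentMk x) S := by
  obtain ⟨a, b, c, rfl, h⟩ := h
  obtain ⟨h0, h1, h2, h3⟩ := id h
  have a1 : H.Adj a b := h1.adj (by simp)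
  have a2 : H.Adj b c := h2.adj (by simp)
  have a3 : ¬ H.Adj a c := fun h' => a2.ne ((h1.one c).1 h').symm
  have a3' : ¬ H.Adj c a := fun h' => a3 h'.symm
  refine sh_of_comp h.comp hx true (Or.inr rfl) fun i j hi hj => ?_
  simp only [List.length_cons, List.length_nil] at hi hj
  interval_cases i <;> interval_cases j <;>
    simp [Apos, a1, a1.symm, a2, a2.symm, a3, a3']

theorem XP4.sh {S : List V} (h : XP4 H S) {x : V} (hx : x ∈ S) :
    Sh H (Apos true) 4 (H.connectedComponentMk x) S := by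
  obtain ⟨a, b, c, d, rfl, h⟩ := h
  obtain ⟨h0, h1, h2, h3, h4⟩ := id h
  have a1 : H.Adj a b := h1.adj (by simp)
  have a2 : H.Adj b c := h2.adj (by simp)
  have a3 : H.Adj c d := h3.adj (by simp)
  simp only [List.nodup_cons, List.mem_cons, List.not_mem_nil, or_false, not_false_eq_true,
    List.nodup_nil, and_true, not_or] at h0
  have b1 : ¬ H.Adj a c := fun h' => a2.ne ((h1.one c).1 h').symm
  have b2 : ¬ H.Adj a d := fun h' => h0.2.1.2 ((h1.one d).1 h').symm
  have b3 : ¬ H.Adj b d := fun h' => a2.ne ((h4.one b).1 h'.symm)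
  have b1' : ¬ H.Adj c a := fun h' => b1 h'.symm
  have b2' : ¬ H.Adj d a := fun h' => b2 h'.symm
  have b3' : ¬ H.Adj d b := fun h' => b3 h'.symm
  refine sh_of_comp h.comp hx true (Or.inr rfl) fun i j hi hj => ?_
  simp only [List.length_cons, List.length_nil] at hi hj
  interval_cases i <;> interval_cases j <;>
    simp [Apos, a1, a1.symm, a2, a2.symm, a3, a3.symm, b1, b1', b2, b2', b3, b3']

theorem AllKX.lists {X : SimpleGraph V → List V → Prop} {b : Bool} (h : AllKX X H)
    (hX : ∀ {S : List V}, X H S → ∀ {x : V}, x ∈ S →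
      Sh H (Apos b) ℓ (H.connectedComponentMk x) S) :
    ∃ L : H.ConnectedComponent → List V, ∀ C, Sh H (Apos b) ℓ C (L C) := by
  have h1 : ∀ C : H.ConnectedComponent, ∃ S, Sh H (Apos b) ℓ C S := by
    intro C
    induction C using SimpleGraph.ConnectedComponent.ind with
    | _ v =>
      rcases h v with ⟨w, k⟩ | ⟨S, hS, hv⟩
      · exact ⟨_, k.sh b⟩
      · exact ⟨S, hX hS hv⟩
  exact ⟨fun C => (h1 C).choose, fun C => (h1 C).choose_spec⟩

theorem gA_two (b : Bool) : gA (Apos b) 2 = 2 := by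
  unfold gA
  simp only [Fin.sum_univ_two, Apos]
  cases b <;> simp

theorem gA_tri : gA (Apos false) 3 = 6 := by
  unfold gA
  simp only [Fin.sum_univ_three, Apos]
  simp

theorem gA_P3 : gA (Apos true) 3 = 4 := by
  unfold gA
  simp only [Fin.sum_univ_three, Apos]
  simp

theorem gA_P4 : gA (Apos true) 4 = 6 := by
  unfold gA
  simp only [Fin.sum_univ_four, Apos]
  simp

theorem rel_eq_tri {H1 H2 : SimpleGraph V} (h1 : AllKX XTri H1) (h2 : AllKX XTri H2)
    (hE : H1.edgeFinset.card = H2.edgeFinset.card) {q : ℝ} (hq : 0 < q) :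
    RelE (Ec H1) q = RelE (Ec H2) q := by
  obtain ⟨L1, hL1⟩ := h1.lists (fun hS _ hx => hS.sh hx)
  obtain ⟨L2, hL2⟩ := h2.lists (fun hS _ hx => hS.sh hx)
  exact rel_eq_of_sh hL1 hL2 (by norm_num) (gA_two _) (by rw [gA_tri]; norm_num) hE hq

theorem rel_eq_P3 {H1 H2 : SimpleGraph V} (h1 : AllKX XP3 H1) (h2 : AllKX XP3 H2)
    (hE : H1.edgeFinset.card = H2.edgeFinset.card) {q : ℝ} (hq : 0 < q) :
    RelE (Ec H1) q = RelE (Ec H2) q := by
  obtain ⟨L1, hL1⟩ := h1.lists (fun hS _ hx => hS.sh hx)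
  obtain ⟨L2, hL2⟩ := h2.lists (fun hS _ hx => hS.sh hx)
  exact rel_eq_of_sh hL1 hL2 (by norm_num) (gA_two _) (by rw [gA_P3]; norm_num) hE hq

theorem rel_eq_P4 {H1 H2 : SimpleGraph V} (h1 : AllKX XP4 H1) (h2 : AllKX XP4 H2)
    (hE : H1.edgeFinset.card = H2.edgeFinset.card) {q : ℝ} (hq : 0 < q) :
    RelE (Ec H1) q = RelE (Ec H2) q := by
  obtain ⟨L1, hL1⟩ := h1.lists (fun hS _ hx => hS.sh hx)
  obtain ⟨L2, hL2⟩ := h2.lists (fun hS _ hx => hS.sh hx)
  exact rel_eq_of_sh hL1 hL2 (by norm_num) (gA_two _) (by rw [gA_P4]; norm_num) hE hq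

end iso

end Pool.Agent.W_MP_d15038_ex
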