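import Pool.Agent.W_MP_d15038_ex.Struct
import Pool.Agent.W_MP_d15038_ex.Cmp

/-!
# Components of an optimal graph which contain a leaf
-/

set_option autoImplicit false
set_option linter.unusedSectionVars false
set_option linter.unusedSimpArgs false

open Finset

namespace Pool.Agent.W_MP_d15038_ex

open scoped Classical

section leaf

variable {V : Type} [Fintype V] {H : SimpleGraph V} {q : ℝ}

/-- the standing assumptions -/
structure Good (H : SimpleGraph V) (q : ℝ) : Prop where
  q0 : 0 < q
  q1 : q < 1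
  opt : Opt H q
  lo : Fintype.card V < 2 * H.edgeFinset.card
  hi : H.edgeFinset.card + 2 ≤ Fintype.card V

theorem Good.sum_deg (_h : Good H q) : ∑ x, H.degree x = 2 * H.edgeFinset.card :=
  H.sum_degrees_eq_twice_card_edges

theorem Good.nb (h : Good H q) : ¬ Better H q := h.opt.not_lt

theorem Good.pos (h : Good H q) (v : V) : 0 < H.degree v := by
  by_contra hcon
  have hv : H.degree v = 0 := by omega
  have hno : ∀ x, ¬ H.Adj v x := fun x hx => by
    have : 0 < H.degree v := (SimpleGraph.degree_pos_iff_exists_adj _ _).2 ⟨x, hx⟩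
    omega
  obtain ⟨u, hu⟩ : ∃ u, 2 ≤ H.degree u := by
    by_contra hc
    push Not at hc
    have h1 : ∑ x, H.degree x ≤ ∑ _x : V, 1 := sum_le_sum fun x _ => by
      have := hc x
      omega
    rw [h.sum_deg, sum_const, card_univ, smul_eq_mul, mul_one] at h1
    have := h.lo
    omega
  obtain ⟨z, hz⟩ := (SimpleGraph.degree_pos_iff_exists_adj _ _).1 (show 0 < H.degree u by omega)
  have huv : u ≠ v := by rintro rfl; omega
  have := h.opt.M2 h.q0 h.q1 huv hz (v := v) (by rintro rfl; exact hno u hz.symm) (hno z)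
    (fun x hx => absurd hx (hno x))
  omega

theorem Good.leaf1 (h : Good H q) {v w : V} (hv : Nb H v [w]) : H.degree w ≤ 2 := by
  by_contra hcon
  push Not at hcon
  have hvw : H.Adj v w := hv.adj (by simp)
  obtain ⟨l, h1, h2, h3⟩ := exists_Nb_cons hvw.symm
  obtain ⟨z, hz⟩ := List.exists_mem_of_length_pos (show 0 < l.length by omega)
  have hzv : v ≠ z := by
    rintro rfl
    exact (List.nodup_cons.1 h1).1 hz
  have hwz : H.Adj w z := h2.adj (List.mem_cons_of_mem _ hz)
  have := h.opt.M2 h.q0 h.q1 hvw.ne.symm hwz hzv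
    (fun h' => hwz.ne ((hv.one z).1 h').symm)
    (fun x hx hxw => absurd ((hv.one x).1 hx) hxw)
  have hd := hv.deg_le
  simp at hd
  omega

theorem Good.leaf2 (h : Good H q) {v w x : V} (hv : Nb H v [w]) (hwx : H.Adj w x) (hxv : x ≠ v) :
    H.degree x ≤ 2 := by
  by_contra hcon
  push Not at hcon
  obtain ⟨l, h1, h2, h3⟩ := exists_Nb_cons hwx.symm
  obtain ⟨z, hz⟩ := List.exists_mem_of_length_pos (show 0 < l.length by omega)
  have hwz : w ≠ z := by
    rintro rfl
    exact (List.nodup_cons.1 h1).1 hz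
  have hxz : H.Adj x z := h2.adj (List.mem_cons_of_mem _ hz)
  have hvz : v ≠ z := by
    rintro rfl
    exact hwx.ne ((hv.one x).1 hxz.symm).symm
  have := h.opt.M2 h.q0 h.q1 hxv hxz hvz
    (fun h' => hwz ((hv.one z).1 h').symm)
    (fun y hy _ => by rw [(hv.one y).1 hy]; exact hwx.symm)
  have hd := hv.deg_le
  simp at hd
  omega

theorem Good.le_four (h : Good H q) {v w : V} (hv : Nb H v [w]) (u : V) : H.degree u ≤ 4 := by
  have hw := h.leaf1 hv
  have hd := hv.deg_le
  simp at hd
  by_cases huv : u = v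
  · subst huv; omega
  by_cases huw : u = w
  · subst huw; omega
  by_cases hadj : H.Adj u w
  · have := h.leaf2 hv hadj.symm huv
    omega
  · have := h.opt.U1 h.q0 h.q1 hv.one huv huw hadj
    omega

theorem Good.le_three (h : Good H q) {v w : V} (hv : IsK2 H v w) (u : V) : H.degree u ≤ 3 := by
  have hd := hv.1.deg_le
  have hd' := hv.2.deg_le
  simp at hd hd'
  by_cases huv : u = v
  · subst huv; omega
  by_cases huw : u = w
  · subst huw; omega
  by_cases hadj : H.Adj u w
  · exact absurd ((hv.2.one u).1 hadj.symm) huv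
  · have := h.opt.U1 h.q0 h.q1 hv.1.one huv huw hadj
    omega

/-- the component of a leaf -/
theorem Good.leaf_class (h : Good H q) {v1 v2 : V} (h1 : Nb H v1 [v2]) :
    IsK2 H v1 v2 ∨ (∃ c, IsP3 H v1 v2 c) ∨ ∃ c d, IsP4 H v1 v2 c d := by
  have hs : ∀ x y, H.Adj x y → H.Adj y x := fun x y h => h.symm
  have hi : ∀ x, ¬ H.Adj x x := fun x h => h.ne rfl
  have a1 : H.Adj v1 v2 := h1.adj (by simp)
  have f1 := h1.one
  have d2 := h.leaf1 h1
  have p2 := h.pos v2
  rcases (show H.degree v2 = 1 ∨ H.degree v2 = 2 by omega) with e2 | e2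
  · exact Or.inl ⟨h1, nb_one a1.symm e2⟩
  obtain ⟨v3, n31, h2⟩ := nb_two a1.symm e2
  have a2 : H.Adj v2 v3 := h2.adj (by simp)
  have f2 := h2.two
  have d3 := h.leaf2 h1 a2 n31
  have p3 := h.pos v3
  rcases (show H.degree v3 = 1 ∨ H.degree v3 = 2 by omega) with e3 | e3
  · refine Or.inr (Or.inl ⟨v3, ?_, h1, h2, nb_one a2.symm e3⟩)
    simp only [List.nodup_cons, List.mem_cons, List.not_mem_nil, or_false, not_false_eq_true,
      List.nodup_nil, and_true, not_or]
    repeat' apply And.intro
    all_goals grind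
  obtain ⟨v4, n42, h3⟩ := nb_two a2.symm e3
  have a3 : H.Adj v3 v4 := h3.adj (by simp)
  have f3 := h3.two
  have d4 := h.le_four h1 v4
  have p4 := h.pos v4
  rcases (show H.degree v4 = 1 ∨ H.degree v4 = 2 ∨ H.degree v4 = 3 ∨ H.degree v4 = 4 by omega)
    with e4 | e4 | e4 | e4
  · refine Or.inr (Or.inr ⟨v3, v4, ?_, h1, h2, h3, nb_one a3.symm e4⟩)
    simp only [List.nodup_cons, List.mem_cons, List.not_mem_nil, or_false, not_false_eq_true,
      List.nodup_nil, and_true, not_or]
    repeat' apply And.intro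
    all_goals grind
  · obtain ⟨v5, n53, h4⟩ := nb_two a3.symm e4
    have a4 : H.Adj v4 v5 := h4.adj (by simp)
    have f4 := h4.two
    have d5 := h.le_four h1 v5
    have p5 := h.pos v5
    exfalso
    rcases (show H.degree v5 = 1 ∨ H.degree v5 = 2 ∨ H.degree v5 = 3 ∨ H.degree v5 = 4 by omega)
      with e5 | e5 | e5 | e5
    · have h5 := nb_one a4.symm e5
      have f5 := h5.one
      refine h.nb (cmp_P5 h.q0 h.q1 ?_ h1 h2 h3 h4 h5)
      simp only [List.nodup_cons, List.mem_cons, List.not_mem_nil, or_false, not_false_eq_true,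
        List.nodup_nil, and_true, not_or]
      repeat' apply And.intro
      all_goals grind
    · obtain ⟨v6, n64, h5⟩ := nb_two a4.symm e5
      have a5 : H.Adj v5 v6 := h5.adj (by simp)
      have f5 := h5.two
      refine h.nb (cmp_R1a h.q0 h.q1 ?_ h4 h1 h2 h5)
      simp only [List.nodup_cons, List.mem_cons, List.not_mem_nil, or_false, not_false_eq_true,
        List.nodup_nil, and_true, not_or]
      repeat' apply And.intro
      all_goals grind
    · obtain ⟨a, b, m1, m2, m3, h5⟩ := nb_three a4.symm e5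
      have a5 : H.Adj v5 a := h5.adj (by simp)
      have a6 : H.Adj v5 b := h5.adj (by simp)
      have f5 := h5.three
      refine h.nb (cmp_C4m3 h.q0 h.q1 ?_ h5 h1 h2 h3 h4)
      simp only [List.nodup_cons, List.mem_cons, List.not_mem_nil, or_false, not_false_eq_true,
        List.nodup_nil, and_true, not_or]
      repeat' apply And.intro
      all_goals grind
    · obtain ⟨a, b, c, m1, m2, m3, m4, m5, m6, h5⟩ := nb_four a4.symm e5
      have a5 : H.Adj v5 a := h5.adj (by simp)
      have a6 : H.Adj v5 b := h5.adj (by simp)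
      have a7 : H.Adj v5 c := h5.adj (by simp)
      have f5 := h5.four
      refine h.nb (cmp_C4m4 h.q0 h.q1 ?_ h5 h1 h2 h3 h4)
      simp only [List.nodup_cons, List.mem_cons, List.not_mem_nil, or_false, not_false_eq_true,
        List.nodup_nil, and_true, not_or]
      repeat' apply And.intro
      all_goals grind
  · exfalso
    obtain ⟨a, b, m1, m2, m3, h4⟩ := nb_three a3.symm e4
    have a5 : H.Adj v4 a := h4.adj (by simp)
    have a6 : H.Adj v4 b := h4.adj (by simp)
    have f4 := h4.three
    refine h.nb (cmp_R1u3 h.q0 h.q1 ?_ h4 h1 h2 h3)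
    simp only [List.nodup_cons, List.mem_cons, List.not_mem_nil, or_false, not_false_eq_true,
      List.nodup_nil, and_true, not_or]
    repeat' apply And.intro
    all_goals grind
  · exfalso
    obtain ⟨a, b, c, m1, m2, m3, m4, m5, m6, h4⟩ := nb_four a3.symm e4
    have a5 : H.Adj v4 a := h4.adj (by simp)
    have a6 : H.Adj v4 b := h4.adj (by simp)
    have a7 : H.Adj v4 c := h4.adj (by simp)
    have f4 := h4.four
    refine h.nb (cmp_R1u4 h.q0 h.q1 ?_ h4 h1 h2 h3)
    simp only [List.nodup_cons, List.mem_cons, List.not_mem_nil, or_false, not_false_eq_true,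
      List.nodup_nil, and_true, not_or]
    repeat' apply And.intro
    all_goals grind

end leaf

end Pool.Agent.W_MP_d15038_ex
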