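import Pool.Agent.W_MP_d15038_ex.Pattern

/-!
# Local comparison of two graphs which differ only at the hubs
-/

set_option autoImplicit false
set_option linter.unusedSectionVars false
set_option linter.unusedSimpArgs false

open Finset

namespace Pool.Agent.W_MP_d15038_ex

open scoped Classical

section loc

variable {V : Type} [Fintype V] {k r : ℕ}

/-- difference of the reliabilities -/
theorem rel_diff (hk0 : 0 < k) {H H' : SimpleGraph V} {f : Fin k → V} (hf : Function.Injective f)
    {NH NH' : ℕ → List ℕ} (hN : HubNH H f NH) (hN' : HubNH H' f NH') (hEY : EY H f = EY H' f)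
    {q y : ℝ} (hq : 0 < q) (hqy : q * (1 + y) = 1) :
    RelE (Ec H') q - RelE (Ec H) q =
      ∑ S ∈ (EY H f).powerset, ((1 - q) ^ S.card * q ^ (EY H f \ S).card) *
        (q ^ tri k * ((parts NH NH' k).map fun p => mu p.1.length *
        ((1 + y) ^ p.2.2 * ∏ C : (gr S).ConnectedComponent, gfun k (aC H' f q C) p.1 -
          (1 + y) ^ p.2.1 * ∏ C : (gr S).ConnectedComponent, gfun k (aC H f q C) p.1)).sum) := by
  rw [rel_formula hk0 hf hN (NH' := NH') hq hqy, rel_formula hk0 hf hN' (NH' := NH) hq hqy,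
    ← hEY, ← sum_sub_distrib]
  refine sum_congr rfl fun S _ => ?_
  rw [← mul_sub, ← mul_sub]
  congr 2
  rw [parts_swap NH NH' k, List.map_map]
  have : ∀ l : List Part, (l.map fun p => mu p.1.length *
        ((1 + y) ^ p.2.2 * ∏ C : (gr S).ConnectedComponent, gfun k (aC H' f q C) p.1 -
          (1 + y) ^ p.2.1 * ∏ C : (gr S).ConnectedComponent, gfun k (aC H f q C) p.1)).sum =
      (l.map ((fun p => mu p.1.length *
        ((1 + y) ^ p.2.1 * ∏ C : (gr S).ConnectedComponent, gfun k (aC H' f q C) p.1)) ∘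
          fun p : Part => ((p.1, p.2.2, p.2.1) : Part))).sum -
      (l.map (fun p => mu p.1.length *
        ((1 + y) ^ p.2.1 * ∏ C : (gr S).ConnectedComponent, gfun k (aC H f q C) p.1))).sum := by
    intro l
    induction l with
    | nil => simp
    | cons a l ih =>
      simp only [List.map_cons, List.sum_cons, Function.comp_apply] at ih ⊢
      rw [ih]
      ring
  rw [this]

/-- data of the graph at the hubs -/
structure HubData (H : SimpleGraph V) (f : Fin k → V) (g : Fin r → V) (NH MH : List (List ℕ)) :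
    Prop where
  nh : HubNH H f (nthL NH)
  mh : ∀ (i : Fin k) (y : V), y ∉ Set.range f →
    (H.Adj (f i) y ↔ ∃ j : Fin r, (j : ℕ) ∈ nthL MH i ∧ g j = y)

variable {f : Fin k → V} {g : Fin r → V}

/-- component of a mark -/
noncomputable def comp (hgf : ∀ j, g j ∉ Set.range f) (S : Finset (Sym2 (Off f))) (j : Fin r) :
    (gr S).ConnectedComponent := (gr S).connectedComponentMk ⟨g j, hgf j⟩

/-- size of a cluster -/
noncomputable def cC {S : Finset (Sym2 (Off f))} (C : (gr S).ConnectedComponent) : ℕ :=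
  (univ.filter (fun y => (gr S).connectedComponentMk y = C)).card

theorem cC_pos {S : Finset (Sym2 (Off f))} (C : (gr S).ConnectedComponent) : 0 < cC C := by
  refine card_pos.2 ⟨C.out, ?_⟩
  rw [mem_filter]
  exact ⟨mem_univ _, Quot.out_eq C⟩

theorem marks_le (hg : Function.Injective g) (hgf : ∀ j, g j ∉ Set.range f)
    {S : Finset (Sym2 (Off f))} (C : (gr S).ConnectedComponent) :
    (cls r (comp hgf S) C).length ≤ cC C := by
  rw [length_cls]
  unfold cC
  refine card_le_card_of_injOn (fun j => ⟨g j, hgf j⟩) ?_ ?_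
  · intro j hj
    rw [mem_coe, mem_filter] at hj ⊢
    exact ⟨mem_univ _, hj.2⟩
  · intro a _ b _ h
    exact hg (congrArg Subtype.val h)

theorem aC_eq {H : SimpleGraph V} {NH MH : List (List ℕ)} (hd : HubData H f g NH MH)
    (hg : Function.Injective g) (hgf : ∀ j, g j ∉ Set.range f) (q : ℝ)
    {S : Finset (Sym2 (Off f))} (C : (gr S).ConnectedComponent) (i : Fin k) :
    aC H f q C i = q ^ (cC C - (cls r (comp hgf S) C).length) *
      q ^ ((cls r (comp hgf S) C).length - cntIn (cls r (comp hgf S) C) (nthL MH i)) := by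
  have h1 : ((univ.filter (fun y => (gr S).connectedComponentMk y = C)).filter
      (fun y : Off f => H.Adj (f i) y)).card = cntIn (cls r (comp hgf S) C) (nthL MH i) := by
    rw [cntIn_eq, filter_cls r (comp hgf S) C (fun a => a ∈ nthL MH i)]
    symm
    refine card_bij (fun j _ => ⟨g j, hgf j⟩) ?_ ?_ ?_
    · intro j hj
      rw [mem_filter] at hj
      rw [mem_filter, mem_filter]
      exact ⟨⟨mem_univ _, hj.2.1⟩, (hd.mh i _ (hgf j)).2 ⟨j, hj.2.2, rfl⟩⟩
    · intro a _ b _ h
      exact hg (congrArg Subtype.val h)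
    · intro y hy
      rw [mem_filter, mem_filter] at hy
      obtain ⟨j, h1, h2⟩ := (hd.mh i y y.2).1 hy.2
      have h3 : (⟨g j, hgf j⟩ : Off f) = y := Subtype.ext h2
      refine ⟨j, ?_, h3⟩
      rw [mem_filter]
      refine ⟨mem_univ _, ?_, h1⟩
      unfold comp
      rw [h3]
      exact hy.1.2
  have h2 := marks_le hg hgf C
  have h3 : cntIn (cls r (comp hgf S) C) (nthL MH i) ≤ (cls r (comp hgf S) C).length := by
    rw [cntIn_eq]
    exact List.length_filter_le _ _
  have h4 := card_filter_add_card_filter_not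
    (s := univ.filter (fun y => (gr S).connectedComponentMk y = C))
    (fun y : Off f => H.Adj (f i) y)
  unfold aC
  rw [prod_ite, prod_const_one, one_mul, prod_const, ← pow_add]
  congr 1
  unfold cC at *
  omega

theorem nth_mkClu (k : ℕ) (MH MH' : List (List ℕ)) (bl : List ℕ) {i : ℕ} (hi : i < k) :
    nth (mkClu k MH MH' bl).e i = bl.length - cntIn bl (nthL MH i) ∧
    nth (mkClu k MH MH' bl).e' i = bl.length - cntIn bl (nthL MH' i) := by
  have h1 : ∀ M : List (List ℕ),
      nth (lmap (fun h => Nat.sub (len bl) (cntIn bl (nthL M h))) (lrange k)) i =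
      bl.length - cntIn bl (nthL M i) := by
    intro M
    rw [nth_eq, lmap_eq, lrange_eq, List.getD_eq_getElem?_getD, List.getElem?_map,
      List.getElem?_range hi, Option.map_some, Option.getD_some, len_eq]
    rfl
  exact ⟨h1 MH, h1 MH'⟩

/-- normalisation -/
noncomputable def Mx (k : ℕ) (MH MH' : List (List ℕ)) (bl : List ℕ) : ℕ :=
  max (eblk (mkClu k MH MH' bl).e (lrange k)) (eblk (mkClu k MH MH' bl).e' (lrange k))

theorem mkClu_c (k : ℕ) (MH MH' : List (List ℕ)) (bl : List ℕ) :
    eblk (mkClu k MH MH' bl).e (lrange k) + (mkClu k MH MH' bl).c = Mx k MH MH' bl ∧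
    eblk (mkClu k MH MH' bl).e' (lrange k) + (mkClu k MH MH' bl).c' = Mx k MH MH' bl := by
  constructor
  · change eblk (mkClu k MH MH' bl).e (lrange k) +
      (max (eblk (mkClu k MH MH' bl).e (lrange k)) (eblk (mkClu k MH MH' bl).e' (lrange k)) -
        eblk (mkClu k MH MH' bl).e (lrange k)) = _
    unfold Mx
    omega
  · change eblk (mkClu k MH MH' bl).e' (lrange k) +
      (max (eblk (mkClu k MH MH' bl).e (lrange k)) (eblk (mkClu k MH MH' bl).e' (lrange k)) -
        eblk (mkClu k MH MH' bl).e' (lrange k)) = _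
    unfold Mx
    omega

theorem prod_comps {Ω : Type*} [Fintype Ω] {as : List Ω} (h : as.Nodup) (F : Ω → ℝ) :
    ∏ C, F C = (as.map F).prod * ∏ C ∈ univ.filter (fun C => C ∉ as), F C := by
  rw [← List.prod_toFinset _ h]
  have h1 : univ.filter (fun C : Ω => C ∉ as) = univ \ as.toFinset := by
    ext C
    simp
  rw [h1, mul_comm, prod_sdiff (subset_univ _)]

theorem comps_H {H : SimpleGraph V} {NH MH : List (List ℕ)} (hd : HubData H f g NH MH)
    (hg : Function.Injective g) (hgf : ∀ j, g j ∉ Set.range f) {q y : ℝ}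
    (hqy : q * (1 + y) = 1) {S : Finset (Sym2 (Off f))} {as : List (gr S).ConnectedComponent}
    (has : as.Nodup) (has' : ∀ C, C ∈ as ↔ ∃ j, comp hgf S j = C) {κ : List (List ℕ)}
    (hκ : PInv k κ) (e : List ℕ → List ℕ) (c0 M : List ℕ → ℕ)
    (he : ∀ bl, ∀ i < k, nth (e bl) i = bl.length - cntIn bl (nthL MH i))
    (hM : ∀ bl, eblk (e bl) (lrange k) + c0 bl = M bl) :
    ∏ C : (gr S).ConnectedComponent, gfun k (aC H f q C) κ =
      (as.map fun C => q ^ M (cls r (comp hgf S) C)).prod *
      ((as.map fun C => GF y (q ^ (cC C - (cls r (comp hgf S) C).length)) k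
        (e (cls r (comp hgf S) C)) (c0 (cls r (comp hgf S) C)) κ).prod *
      ∏ C ∈ univ.filter (fun C => C ∉ as), uf k (q ^ cC C) (κ.map List.length)) := by
  rw [prod_comps has, ← mul_assoc, ← List.prod_map_mul]
  congr 1
  · congr 1
    refine List.map_congr_left fun C _ => ?_
    rw [← hM, ← gfun_GF hqy _ _ hκ]
    congr 1
    funext i
    rw [aC_eq hd hg hgf q C i, he _ _ i.2]
  · refine prod_congr rfl fun C hC => ?_
    rw [mem_filter] at hC
    rw [← gfun_uf hκ]
    congr 1
    funext i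
    rw [aC_eq hd hg hgf q C i]
    have h1 : cls r (comp hgf S) C = [] := by
      rw [cls_eq_nil]
      intro j hj
      exact hC.2 ((has' C).2 ⟨j, hj⟩)
    rw [h1]
    simp

theorem term_eq {H H' : SimpleGraph V} {NH MH NH' MH' : List (List ℕ)}
    (hd : HubData H f g NH MH) (hd' : HubData H' f g NH' MH')
    (hg : Function.Injective g) (hgf : ∀ j, g j ∉ Set.range f) {q y : ℝ}
    (hqy : q * (1 + y) = 1) {S : Finset (Sym2 (Off f))} {as : List (gr S).ConnectedComponent}
    (has : as.Nodup) (has' : ∀ C, C ∈ as ↔ ∃ j, comp hgf S j = C) :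
    ((parts (nthL NH) (nthL NH') k).map fun p => mu p.1.length *
        ((1 + y) ^ p.2.2 * ∏ C : (gr S).ConnectedComponent, gfun k (aC H' f q C) p.1 -
          (1 + y) ^ p.2.1 * ∏ C : (gr S).ConnectedComponent, gfun k (aC H f q C) p.1)).sum =
    (as.map fun C => q ^ Mx k MH MH' (cls r (comp hgf S) C)).prod *
    ((parts (nthL NH) (nthL NH') k).map fun p =>
      (∏ C ∈ univ.filter (fun C => C ∉ as), uf k (q ^ cC C) (p.1.map List.length)) *
      pval y k (((as.map (cls r (comp hgf S))).map (mkClu k MH MH')).zip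
        (as.map fun C => q ^ (cC C - (cls r (comp hgf S) C).length))) p).sum := by
  rw [← List.sum_map_mul_left]
  congr 1
  refine List.map_congr_left fun p hp => ?_
  have hκ := parts_inv _ _ _ p hp
  rw [comps_H hd hg hgf hqy has has' hκ (fun bl => (mkClu k MH MH' bl).e)
      (fun bl => (mkClu k MH MH' bl).c) (Mx k MH MH')
      (fun bl i hi => (nth_mkClu k MH MH' bl hi).1) (fun bl => (mkClu_c k MH MH' bl).1),
    comps_H hd' hg hgf hqy has has' hκ (fun bl => (mkClu k MH MH' bl).e')
      (fun bl => (mkClu k MH MH' bl).c') (Mx k MH MH')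
      (fun bl i hi => (nth_mkClu k MH MH' bl hi).2) (fun bl => (mkClu_c k MH MH' bl).2)]
  unfold pval
  rw [List.map_map, List.zip_map', List.map_map, List.map_map]
  simp only [Function.comp_def]
  ring

/-- the local comparison theorem -/
theorem local_lt {H H' : SimpleGraph V} {NH MH NH' MH' : List (List ℕ)}
    (hf : Function.Injective f)
    (hd : HubData H f g NH MH) (hd' : HubData H' f g NH' MH')
    (hg : Function.Injective g) (hgf : ∀ j, g j ∉ Set.range f)
    (hEY : EY H f = EY H' f)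
    {T : Tab}
    (hk0 : 0 < k) (hk : k ≤ 10) (hc : CloseOK T k)
    (h : CertOK T k r NH NH' MH MH') {q : ℝ} (hq0 : 0 < q) (hq1 : q < 1) :
    RelE (Ec H) q < RelE (Ec H') q := by
  obtain ⟨y, hy⟩ : ∃ y, y = q⁻¹ - 1 := ⟨_, rfl⟩
  have hqy : q * (1 + y) = 1 := by
    rw [hy, add_sub_cancel, mul_inv_cancel₀ hq0.ne']
  have hy0 : 0 < y := by
    rw [hy, sub_pos]
    exact (one_lt_inv₀ hq0).2 hq1
  have hdiff := rel_diff hk0 hf hd.nh hd'.nh hEY hq0 hqy
  have ht : ∀ {S : Finset (Sym2 (Off f))} (C : (gr S).ConnectedComponent),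
      0 < q ^ cC C ∧ q ^ cC C < 1 := fun C =>
    ⟨pow_pos hq0 _, pow_lt_one₀ hq0.le hq1 (cC_pos C).ne'⟩
  have hprod : ∀ {S : Finset (Sym2 (Off f))} (as : List (gr S).ConnectedComponent),
      0 < (as.map fun C => q ^ Mx k MH MH' (cls r (comp hgf S) C)).prod := by
    intro S as
    refine List.prod_pos ?_
    intro x hx
    obtain ⟨C, _, rfl⟩ := List.mem_map.1 hx
    exact pow_pos hq0 _
  have hw : ∀ S : Finset (Sym2 (Off f)), 0 < (1 - q) ^ S.card * q ^ (EY H f \ S).card := fun S =>
    mul_pos (pow_pos (sub_pos.2 hq1) _) (pow_pos hq0 _)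
  rw [← sub_pos, hdiff]
  refine sum_pos' (fun S _ => ?_) ⟨∅, empty_mem_powerset _, ?_⟩
  · refine mul_nonneg (hw S).le (mul_nonneg (pow_pos hq0 _).le ?_)
    obtain ⟨p0, hp0, as, h1, h2, h3⟩ := pattern_exists r (comp hgf S)
    rw [term_eq hd hd' hg hgf hqy h1 h2, ← h3]
    refine mul_nonneg (hprod as).le (cert_nonneg hk0 hk hc h hy0.le hp0 _ ?_ ?_ _ _
      (fun C _ => ht C))
    · intro x hx
      obtain ⟨C, _, rfl⟩ := List.mem_map.1 hx
      exact ⟨(pow_pos hq0 _).le, pow_le_one₀ hq0.le hq1.le⟩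
    · rw [h3]
      simp
  · refine mul_pos (hw ∅) (mul_pos (pow_pos hq0 _) ?_)
    have hinj : Function.Injective (comp hgf ∅ : Fin r → _) := by
      intro a b hab
      unfold comp at hab
      rw [SimpleGraph.ConnectedComponent.eq] at hab
      have hbot : (gr (∅ : Finset (Sym2 (Off f)))) = ⊥ := by
        unfold gr
        simp
      rw [hbot, SimpleGraph.reachable_bot] at hab
      exact hg (congrArg Subtype.val hab)
    obtain ⟨as, h1, h2, h3⟩ := pattern_disc r (comp hgf ∅) hinj
    rw [term_eq hd hd' hg hgf hqy h1 h2, ← h3]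
    refine mul_pos (hprod as) (cert_pos hk0 hk hc h hy0 _ ?_ ?_ _ _
      (fun C _ => ht C))
    · intro x hx
      obtain ⟨C, _, rfl⟩ := List.mem_map.1 hx
      exact ⟨pow_pos hq0 _, pow_le_one₀ hq0.le hq1.le⟩
    · rw [h3]
      simp

end loc

end Pool.Agent.W_MP_d15038_ex
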