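import Pool.Agent.W_MP_d15038_ex.Color

/-!
# The reliability of a complement graph in terms of hubs and clusters
-/

set_option autoImplicit false
set_option linter.unusedSectionVars false
set_option linter.unusedSimpArgs false

open Finset

namespace Pool.Agent.W_MP_d15038_ex

open scoped Classical

/-! ### squares -/

section squares

variable {W C : Type*} [Fintype W]

omit [Fintype W] in
/-- pair weight -/
noncomputable def dw (G : SimpleGraph W) (q : ℝ) (τ : W → C) (x z : W) : ℝ :=
  if G.Adj x z ∧ τ x ≠ τ z then q else 1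

theorem prod_sq (G : SimpleGraph W) [Fintype G.edgeSet] (q : ℝ) (τ : W → C) :
    (∏ e ∈ G.edgeFinset, wte q τ e) ^ 2 =
      ∏ x : W, ∏ z : W, dw G q τ x z := by
  unfold dw
  rw [← Fintype.prod_prod_type' (f := fun x z => if G.Adj x z ∧ τ x ≠ τ z then q else 1),
    ← Finset.prod_fiberwise univ (fun p : W × W => s(p.1, p.2))]
  rw [← Finset.prod_subset (Finset.subset_univ G.edgeFinset)]
  · rw [← Finset.prod_pow]
    refine prod_congr rfl fun e => ?_
    refine Sym2.inductionOn e fun a b hab => ?_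
    rw [SimpleGraph.mem_edgeFinset, SimpleGraph.mem_edgeSet] at hab
    have hne : a ≠ b := hab.ne
    have h1 : (univ.filter fun p : W × W => s(p.1, p.2) = s(a, b)) = {(a, b), (b, a)} := by
      ext ⟨x, z⟩
      simp only [mem_filter, mem_univ, true_and, Sym2.eq_iff, mem_insert, mem_singleton,
        Prod.mk.injEq]
    rw [h1, prod_pair (by simp [hne])]
    unfold wte
    rw [Sym2.map_mk]
    simp only [Sym2.mk_isDiag_iff]
    by_cases h : τ a = τ b
    · simp [h]
    · have h' : ¬ τ b = τ a := fun h2 => h h2.symm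
      simp [h, h', hab, hab.symm, sq]
  · intro e _
    refine Sym2.inductionOn e fun a b hab => ?_
    rw [SimpleGraph.mem_edgeFinset, SimpleGraph.mem_edgeSet] at hab
    refine prod_eq_one fun p hp => ?_
    rw [mem_filter] at hp
    rw [if_neg]
    rintro ⟨h, _⟩
    have h2 := hp.2
    rw [Sym2.eq_iff] at h2
    rcases h2 with ⟨h3, h4⟩ | ⟨h3, h4⟩
    · rw [h3, h4] at h; exact hab h
    · rw [h3, h4] at h; exact hab h.symm

theorem HW_sq (q : ℝ) (NH : ℕ → List ℕ) (A : ℕ → ℕ → Prop) (hs : ∀ i j, A i j → A j i) :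
    ∀ (k : ℕ) (σ : Fin k → C), (∀ i < k, ∀ j < i, j ∈ NH i ↔ A j i) →
    (HW q NH k σ) ^ 2 = ∏ i : Fin k, ∏ j : Fin k,
      (if i ≠ j ∧ ¬ A i j ∧ σ i ≠ σ j then q else 1) := by
  intro k
  induction k with
  | zero => intro σ _; simp [HW]
  | succ k ih =>
    intro σ hA
    have h1 := ih (fun i => σ i.castSucc) (fun i hi => hA i (hi.trans (Nat.lt_succ_self k)))
    rw [HW, mul_pow, h1, Fin.prod_univ_castSucc]
    simp only [Fin.prod_univ_castSucc (n := k)]
    rw [prod_mul_distrib]
    simp only [Fin.val_castSucc, Fin.val_last, ne_eq, Fin.castSucc_inj, not_true_eq_false,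
      false_and, if_false, mul_one]
    rw [mul_assoc]
    congr 1
    rw [sq]
    congr 1
    · refine prod_congr rfl fun i _ => ?_
      have h2 := hA k (Nat.lt_succ_self k) i i.2
      have h3 : ¬ (Fin.castSucc i = Fin.last k) := (Fin.castSucc_lt_last i).ne
      by_cases h4 : σ i.castSucc = σ (Fin.last k)
      · simp [h4]
      · by_cases h5 : A i k
        · simp [h2, h4, h5]
        · simp [h2, h4, h5, h3]
    · refine prod_congr rfl fun i _ => ?_
      have h2 := hA k (Nat.lt_succ_self k) i i.2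
      have h3 : ¬ (Fin.last k = Fin.castSucc i) := (Fin.castSucc_lt_last i).ne'
      by_cases h4 : σ i.castSucc = σ (Fin.last k)
      · simp [h4]
      · have h4' : ¬ σ (Fin.last k) = σ i.castSucc := fun h => h4 h.symm
        by_cases h5 : A i k
        · simp [h2, h4, h5, hs _ _ h5]
        · have h5' : ¬ A k i := fun h => h5 (hs _ _ h)
          simp [h2, h4, h4', h5, h5', h3]

theorem HW_pos {q : ℝ} (hq : 0 < q) (NH : ℕ → List ℕ) : ∀ (k : ℕ) (σ : Fin k → C),
    0 < HW q NH k σ := by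
  intro k
  induction k with
  | zero => intro σ; simp [HW]
  | succ k ih =>
    intro σ
    rw [HW]
    refine mul_pos (ih _) (prod_pos fun i _ => ?_)
    split_ifs
    · exact one_pos
    · exact hq

theorem wte_pos {q : ℝ} (hq : 0 < q) (τ : W → C) (e : Sym2 W) : 0 < wte q τ e := by
  unfold wte
  split_ifs
  · exact one_pos
  · exact hq

end squares

/-! ### hubs -/

section hubs

variable {V : Type*} [Fintype V] {k : ℕ}

/-- vertices which are not hubs -/
abbrev Off (f : Fin k → V) := {v : V // v ∉ Set.range f}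

/-- edges of the complement between non-hubs -/
noncomputable def EY (H : SimpleGraph V) (f : Fin k → V) : Finset (Sym2 (Off f)) :=
  ((H.comap (Subtype.val : Off f → V))ᶜ).edgeFinset

/-- the complement edges -/
noncomputable def Ec (H : SimpleGraph V) : Finset (Sym2 V) := Hᶜ.edgeFinset

/-- hub data -/
structure HubNH (H : SimpleGraph V) (f : Fin k → V) (NH : ℕ → List ℕ) : Prop where
  nd : ∀ i < k, (NH i).Nodup
  lt : ∀ i < k, ∀ a ∈ NH i, a < i
  adj : ∀ i j : Fin k, j < i → ((j : ℕ) ∈ NH i ↔ H.Adj (f j) (f i))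

/-- the equivalence -/
noncomputable def eqv (f : Fin k → V) (hf : Function.Injective f) : Fin k ⊕ Off f ≃ V :=
  Equiv.ofBijective (Sum.elim f Subtype.val) (by
    constructor
    · rintro (a | a) (b | b) h
      · exact congrArg _ (hf h)
      · exact absurd ⟨a, h⟩ b.2
      · exact absurd ⟨b, h.symm⟩ a.2
      · exact congrArg _ (Subtype.ext h)
    · intro v
      by_cases h : v ∈ Set.range f
      · obtain ⟨i, hi⟩ := h
        exact ⟨Sum.inl i, hi⟩
      · exact ⟨Sum.inr ⟨v, h⟩, rfl⟩)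

/-- cross weight -/
noncomputable def cw (H : SimpleGraph V) (f : Fin k → V) (q : ℝ) {C : Type*} (y : V) (i : Fin k)
    (s t : C) : ℝ := if H.Adj (f i) y ∨ s = t then 1 else q

theorem weight_split {H : SimpleGraph V} {f : Fin k → V} (hf : Function.Injective f)
    {NH : ℕ → List ℕ} (hN : HubNH H f NH) {q : ℝ} (hq : 0 < q) {C : Type*} (τ : V → C) :
    ∏ e ∈ Ec H, wte q τ e = HW q NH k (fun i => τ (f i)) *
      ((∏ y : Off f, ∏ i : Fin k, cw H f q y i (τ (f i)) (τ y)) *
        ∏ e ∈ EY H f, wte q (fun y : Off f => τ y) e) := by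
  have p1 : 0 < ∏ e ∈ Ec H, wte q τ e := prod_pos fun e _ => wte_pos hq τ e
  have p2 : 0 < HW q NH k (fun i => τ (f i)) := HW_pos hq NH k _
  have p3 : 0 < ∏ y : Off f, ∏ i : Fin k, cw H f q y i (τ (f i)) (τ y) := by
    refine prod_pos fun y _ => prod_pos fun i _ => ?_
    unfold cw
    split_ifs
    · exact one_pos
    · exact hq
  have p4 : 0 < ∏ e ∈ EY H f, wte q (fun y : Off f => τ y) e := prod_pos fun e _ => wte_pos hq _ e
  have key : (∏ e ∈ Ec H, wte q τ e) ^ 2 = (HW q NH k (fun i => τ (f i)) *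
      ((∏ y : Off f, ∏ i : Fin k, cw H f q y i (τ (f i)) (τ y)) *
        ∏ e ∈ EY H f, wte q (fun y : Off f => τ y) e)) ^ 2 := by
    have s1 := prod_sq Hᶜ q τ
    have s2 := HW_sq q NH (fun i j => ∃ (hi : i < k) (hj : j < k), H.Adj (f ⟨i, hi⟩) (f ⟨j, hj⟩))
      (fun i j ⟨hi, hj, h⟩ => ⟨hj, hi, h.symm⟩) k (fun i => τ (f i)) (fun i hi j hj => by
        have := hN.adj ⟨i, hi⟩ ⟨j, hj.trans hi⟩ hj
        rw [this]
        exact ⟨fun h => ⟨_, _, h⟩, fun ⟨_, _, h⟩ => h⟩)
    have s3 := prod_sq ((H.comap (Subtype.val : Off f → V))ᶜ) q (fun y : Off f => τ y)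
    rw [mul_pow, mul_pow]
    unfold Ec EY
    rw [s1, s2, s3]
    rw [← (eqv f hf).prod_comp, Fintype.prod_sum_type]
    have t1 : ∀ a, (∏ z : V, dw Hᶜ q τ (eqv f hf a) z) =
        (∏ j : Fin k, dw Hᶜ q τ (eqv f hf a) (f j)) *
        ∏ y : Off f, dw Hᶜ q τ (eqv f hf a) y := by
      intro a
      rw [← (eqv f hf).prod_comp, Fintype.prod_sum_type]
      rfl
    simp only [t1]
    rw [prod_mul_distrib, prod_mul_distrib]
    have u1 : (∏ i : Fin k, ∏ j : Fin k, dw Hᶜ q τ (eqv f hf (Sum.inl i)) (f j)) = ∏ i : Fin k, ∏ j : Fin k,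
        (if i ≠ j ∧ ¬ (∃ (hi : (i : ℕ) < k) (hj : (j : ℕ) < k), H.Adj (f ⟨i, hi⟩) (f ⟨j, hj⟩)) ∧
          τ (f i) ≠ τ (f j) then q else 1) := by
      refine prod_congr rfl fun i _ => prod_congr rfl fun j _ => ?_
      change dw Hᶜ q τ (f i) (f j) = _
      unfold dw
      congr 1
      rw [SimpleGraph.compl_adj]
      apply propext
      constructor
      · rintro ⟨⟨h1, h2⟩, h3⟩
        exact ⟨fun h => h1 (congrArg _ h), fun ⟨_, _, h⟩ => h2 h, h3⟩
      · rintro ⟨h1, h2, h3⟩
        exact ⟨⟨fun h => h1 (hf h), fun h => h2 ⟨i.2, j.2, h⟩⟩, h3⟩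
    have u2 : (∏ i : Fin k, ∏ y : Off f, dw Hᶜ q τ (eqv f hf (Sum.inl i)) y) =
        ∏ y : Off f, ∏ i : Fin k, cw H f q y i (τ (f i)) (τ y) := by
      rw [prod_comm]
      refine prod_congr rfl fun y _ => prod_congr rfl fun i _ => ?_
      change dw Hᶜ q τ (f i) y = _
      unfold cw dw
      rw [SimpleGraph.compl_adj]
      have : f i ≠ y := fun h => y.2 ⟨i, h⟩
      by_cases h1 : H.Adj (f i) y
      · simp [h1]
      · by_cases h2 : τ (f i) = τ y
        · simp [h1, h2]
        · simp [h1, h2, this]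
    have u3 : (∏ y : Off f, ∏ i : Fin k, dw Hᶜ q τ (eqv f hf (Sum.inr y)) (f i)) =
        ∏ y : Off f, ∏ i : Fin k, cw H f q y i (τ (f i)) (τ y) := by
      refine prod_congr rfl fun y _ => prod_congr rfl fun i _ => ?_
      change dw Hᶜ q τ y (f i) = _
      unfold cw dw
      rw [SimpleGraph.compl_adj, H.adj_comm]
      have : (y : V) ≠ f i := fun h => y.2 ⟨i, h.symm⟩
      by_cases h1 : H.Adj (f i) y
      · simp [h1]
      · by_cases h2 : τ (f i) = τ y
        · simp [h1, h2]
        · have h2' : ¬ τ y = τ (f i) := fun h => h2 h.symm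
          simp [h1, h2, h2', this]
    have u4 : (∏ y : Off f, ∏ y' : Off f, dw Hᶜ q τ (eqv f hf (Sum.inr y)) y') =
        ∏ y : Off f, ∏ y' : Off f, dw ((H.comap (Subtype.val : Off f → V))ᶜ) q
          (fun y : Off f => τ y) y y' := by
      refine prod_congr rfl fun y _ => prod_congr rfl fun y' _ => ?_
      change dw Hᶜ q τ y y' = _
      unfold dw
      congr 1
      rw [SimpleGraph.compl_adj, SimpleGraph.compl_adj, SimpleGraph.comap_adj]
      apply propext
      constructor
      · rintro ⟨⟨h1, h2⟩, h3⟩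
        exact ⟨⟨fun h => h1 (congrArg _ h), h2⟩, h3⟩
      · rintro ⟨⟨h1, h2⟩, h3⟩
        exact ⟨⟨fun h => h1 (Subtype.ext h), h2⟩, h3⟩
    rw [u1, u2, u3, u4]
    ring
  exact (pow_left_inj₀ p1.le (mul_pos p2 (mul_pos p3 p4)).le two_ne_zero).1 key

/-- the factor of a cluster at a class -/
noncomputable def phi (k : ℕ) (a : Fin k → ℝ) (x : List ℕ) : ℝ :=
  ∏ i : Fin k, if (i : ℕ) ∈ x then 1 else a i

/-- the factor of a cluster at a partition -/
noncomputable def gfun (k : ℕ) (a : Fin k → ℝ) (κ : List (List ℕ)) : ℝ :=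
  (κ.map (phi k a)).sum - κ.length * phi k a []

/-- the parameters of a cluster -/
noncomputable def aC (H : SimpleGraph V) (f : Fin k → V) (q : ℝ) {S : Finset (Sym2 (Off f))}
    (C : (gr S).ConnectedComponent) (i : Fin k) : ℝ :=
  ∏ y ∈ univ.filter (fun y => (gr S).connectedComponentMk y = C), if H.Adj (f i) y then 1 else q

theorem psi_eq (H : SimpleGraph V) (f : Fin k → V) (q : ℝ) {S : Finset (Sym2 (Off f))}
    (C : (gr S).ConnectedComponent) {m : ℕ} (σ : Fin k → Fin m) (c : Fin m) :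
    (∏ y ∈ univ.filter (fun y => (gr S).connectedComponentMk y = C),
      ∏ i : Fin k, cw H f q y i (σ i) c) =
      phi k (aC H f q C) (cls k σ c) := by
  rw [prod_comm]
  unfold phi cw
  refine prod_congr rfl fun i _ => ?_
  have hm := mem_cls k σ c i
  by_cases h : σ i = c
  · rw [if_pos (hm.2 ⟨i.2, h⟩)]
    simp [h]
  · rw [if_neg (fun h2 => by obtain ⟨_, h'⟩ := hm.1 h2; exact h h')]
    unfold aC
    simp [h]

theorem fk_general' {Y : Type*} [Fintype Y] [inst : DecidableEq Y] (E : Finset (Sym2 Y))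
    (q : ℝ) (m : ℕ) (ψ : Y → Fin m → ℝ) :
    ∑ τ : Y → Fin m, (∏ y, ψ y (τ y)) * ∏ e ∈ E, wte q τ e =
      ∑ S ∈ E.powerset, ((1 - q) ^ S.card * q ^ (E \ S).card) *
        ∏ C : (gr S).ConnectedComponent, ∑ c : Fin m,
          ∏ y ∈ univ.filter (fun y => (gr S).connectedComponentMk y = C), ψ y c := by
  obtain rfl : inst = (fun a b => Classical.propDecidable (a = b)) := Subsingleton.elim _ _
  exact fk_general E q m ψ

theorem color_formula {H : SimpleGraph V} {f : Fin k → V} (hf : Function.Injective f)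
    {NH NH' : ℕ → List ℕ} (hN : HubNH H f NH) {q y : ℝ} (hq : 0 < q) (hqy : q * (1 + y) = 1)
    (m : ℕ) :
    ∑ τ : V → Fin m, ∏ e ∈ Ec H, wte q τ e =
      ∑ S ∈ (EY H f).powerset, ((1 - q) ^ S.card * q ^ (EY H f \ S).card) *
        ((parts NH NH' k).map fun p => (m.descFactorial p.1.length : ℝ) * q ^ tri k *
        ((1 + y) ^ p.2.1 * ∏ C : (gr S).ConnectedComponent,
          (gfun k (aC H f q C) p.1 + m * phi k (aC H f q C) []))).sum := by
  have h1 : ∑ τ : V → Fin m, ∏ e ∈ Ec H, wte q τ e = ∑ σ : Fin k → Fin m,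
      ∑ τ : Off f → Fin m, HW q NH k σ * ((∏ y : Off f, ∏ i : Fin k,
        cw H f q y i (σ i) (τ y)) * ∏ e ∈ EY H f, wte q τ e) := by
    rw [← Fintype.sum_prod_type' (f := fun (σ : Fin k → Fin m) (τ : Off f → Fin m) =>
      HW q NH k σ * ((∏ y : Off f, ∏ i : Fin k,
        cw H f q y i (σ i) (τ y)) * ∏ e ∈ EY H f, wte q τ e))]
    refine Fintype.sum_equiv (((eqv f hf).symm.arrowCongr (Equiv.refl (Fin m))).trans
      (Equiv.sumArrowEquivProdArrow _ _ _)) _ _ fun τ => ?_
    rw [weight_split hf hN hq τ]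
    rfl
  rw [h1]
  have h2 : ∀ σ : Fin k → Fin m, ∑ τ : Off f → Fin m, HW q NH k σ * ((∏ y : Off f, ∏ i : Fin k,
        cw H f q y i (σ i) (τ y)) * ∏ e ∈ EY H f, wte q τ e) =
      ∑ S ∈ (EY H f).powerset, ((1 - q) ^ S.card * q ^ (EY H f \ S).card) *
        (HW q NH k σ * ∏ C : (gr S).ConnectedComponent,
          (((kap k σ).map (phi k (aC H f q C))).sum +
            ((m : ℝ) - (kap k σ).card) * phi k (aC H f q C) [])) := by
    intro σ
    have hfk : ∑ τ : Off f → Fin m, (∏ y : Off f, ∏ i : Fin k, cw H f q y i (σ i) (τ y)) *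
        ∏ e ∈ EY H f, wte q τ e = ∑ S ∈ (EY H f).powerset,
        ((1 - q) ^ S.card * q ^ (EY H f \ S).card) * ∏ C : (gr S).ConnectedComponent, ∑ c : Fin m,
        ∏ y ∈ univ.filter (fun y => (gr S).connectedComponentMk y = C),
        ∏ i : Fin k, cw H f q y i (σ i) c := by
      exact fk_general' (EY H f) q m (fun y c => ∏ i : Fin k, cw H f q y i (σ i) c)
    rw [← mul_sum, hfk, mul_sum]
    refine sum_congr rfl fun S _ => ?_
    have h3 : ∀ C : (gr S).ConnectedComponent, (∑ c : Fin m,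
        ∏ y ∈ univ.filter (fun y => (gr S).connectedComponentMk y = C),
        ∏ i : Fin k, cw H f q y i (σ i) c) =
        ((kap k σ).map (phi k (aC H f q C))).sum +
            ((m : ℝ) - (kap k σ).card) * phi k (aC H f q C) [] := by
      intro C
      rw [← kap_sum σ (phi k (aC H f q C))]
      exact sum_congr rfl fun c _ => psi_eq H f q C σ c
    rw [prod_congr rfl fun C _ => h3 C]
    ring
  rw [sum_congr rfl fun σ _ => h2 σ, sum_comm]
  refine sum_congr rfl fun S _ => ?_
  rw [← mul_sum]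
  congr 1
  have h4 := color_sum hqy (m := m) NH NH' k hN.nd hN.lt (fun κ =>
    ∏ C : (gr S).ConnectedComponent, ((κ.map (phi k (aC H f q C))).sum +
            ((m : ℝ) - κ.card) * phi k (aC H f q C) []))
  rw [h4]
  congr 1
  refine List.map_congr_left fun p _ => ?_
  congr 2
  refine prod_congr rfl fun C _ => ?_
  unfold gfun
  rw [Multiset.map_coe, Multiset.sum_coe, Multiset.coe_card]
  ring

/-! ### the linear coefficient -/

open Polynomial in
theorem desc_coeff (b : ℕ) (hb : 0 < b) (R : ℝ[X]) :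
    (descPochhammer ℝ b * R).coeff 1 = mu b * R.eval 0 := by
  obtain ⟨n, rfl⟩ : ∃ n, b = n + 1 := ⟨b - 1, by omega⟩
  rw [descPochhammer_succ_left, mul_assoc, coeff_X_mul, coeff_zero_eq_eval_zero, eval_mul,
    eval_comp]
  congr 1
  unfold mu
  rw [Nat.add_sub_cancel]
  simp only [eval_sub, eval_X, eval_one, zero_sub]
  clear hb
  induction n with
  | zero => simp
  | succ n ih =>
    rw [descPochhammer_succ_right, eval_mul, ih]
    simp only [eval_sub, eval_X, eval_natCast]
    rw [Nat.factorial_succ, pow_succ]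
    push_cast
    ring

open Polynomial in
theorem rel_formula (hk0 : 0 < k) {H : SimpleGraph V} {f : Fin k → V} (hf : Function.Injective f)
    {NH NH' : ℕ → List ℕ} (hN : HubNH H f NH) {q y : ℝ} (hq : 0 < q) (hqy : q * (1 + y) = 1) :
    RelE (Ec H) q = ∑ S ∈ (EY H f).powerset, ((1 - q) ^ S.card * q ^ (EY H f \ S).card) *
        (q ^ tri k * ((parts NH NH' k).map fun p => mu p.1.length *
        ((1 + y) ^ p.2.1 * ∏ C : (gr S).ConnectedComponent, gfun k (aC H f q C) p.1)).sum) := by
  have h1 := rel_eq_coeff (Ec H) q (∑ S ∈ (EY H f).powerset,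
    C ((1 - q) ^ S.card * q ^ (EY H f \ S).card) *
      ((parts NH NH' k).map fun p => descPochhammer ℝ p.1.length * (C (q ^ tri k * (1 + y) ^ p.2.1) *
        ∏ D : (gr S).ConnectedComponent,
          (C (gfun k (aC H f q D) p.1) + X * C (phi k (aC H f q D) [])))).sum) (by
    intro m
    rw [color_formula hf hN (NH' := NH') hq hqy m, eval_finsetSum]
    refine sum_congr rfl fun S _ => ?_
    rw [eval_mul, eval_C]
    congr 1
    rw [← Polynomial.coe_evalRingHom, map_list_sum, List.map_map]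
    congr 1
    refine List.map_congr_left fun p _ => ?_
    rw [Function.comp_apply, map_mul, map_mul, map_prod]
    simp only [coe_evalRingHom, eval_add, eval_mul, eval_C, eval_X,
      descPochhammer_eval_eq_descFactorial]
    ring)
  rw [h1, finsetSum_coeff]
  refine sum_congr rfl fun S _ => ?_
  rw [coeff_C_mul]
  congr 1
  have h2 : ∀ l : List ℝ[X], l.sum.coeff 1 = (l.map fun P => P.coeff 1).sum := by
    intro l
    induction l with
    | nil => simp
    | cons a l ih => simp [ih]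
  rw [h2, List.map_map, ← List.sum_map_mul_left]
  congr 1
  refine List.map_congr_left fun p hp => ?_
  have hlen : 0 < p.1.length :=
    List.length_pos_iff.2 ((parts_inv _ _ _ p hp).ne_nil hk0)
  rw [Function.comp_apply, desc_coeff _ hlen, ← Polynomial.coe_evalRingHom, map_mul, map_prod]
  simp only [coe_evalRingHom, eval_add, eval_mul, eval_C, eval_X, zero_mul, add_zero]
  ring

end hubs

end Pool.Agent.W_MP_d15038_ex
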