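import Pool.Agent.W_MP_d15038_ex.Surg

/-!
# Moving one edge
-/

set_option autoImplicit false
set_option linter.unusedSectionVars false
set_option linter.unusedSimpArgs false

open Finset

namespace Pool.Agent.W_MP_d15038_ex

open scoped Classical

section move

variable {V : Type} [Fintype V]

/-- sum of the squares of the degrees -/
noncomputable def dsq (H : SimpleGraph V) : ℕ := ∑ x, (H.degree x) ^ 2

/-- move the edge `uz` to `vz` -/
def mv (H : SimpleGraph V) (u v z : V) : SimpleGraph V where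
  Adj x y := (H.Adj x y ∧ s(x, y) ≠ s(u, z)) ∨ (s(x, y) = s(v, z) ∧ x ≠ y)
  symm := ⟨by
    rintro x y (⟨h1, h2⟩ | ⟨h1, h2⟩)
    · exact Or.inl ⟨h1.symm, by rwa [Sym2.eq_swap]⟩
    · exact Or.inr ⟨by rwa [Sym2.eq_swap], h2.symm⟩⟩
  loopless := ⟨by
    rintro x (⟨h1, h2⟩ | ⟨h1, h2⟩)
    · exact h1.ne rfl
    · exact h2 rfl⟩

variable {H : SimpleGraph V} {u v z : V}

theorem mv_edges (huz : H.Adj u z) (hvz : v ≠ z) :
    (mv H u v z).edgeFinset = insert s(v, z) (H.edgeFinset.erase s(u, z)) := by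
  ext e
  refine Sym2.inductionOn e fun x y => ?_
  rw [SimpleGraph.mem_edgeFinset, SimpleGraph.mem_edgeSet, mem_insert, mem_erase,
    SimpleGraph.mem_edgeFinset, SimpleGraph.mem_edgeSet]
  change (H.Adj x y ∧ s(x, y) ≠ s(u, z)) ∨ (s(x, y) = s(v, z) ∧ x ≠ y) ↔ _
  constructor
  · rintro (⟨h1, h2⟩ | ⟨h1, _⟩)
    · exact Or.inr ⟨h2, h1⟩
    · exact Or.inl h1
  · rintro (h | ⟨h1, h2⟩)
    · refine Or.inr ⟨h, ?_⟩
      rintro rfl
      rw [Sym2.eq_iff] at h
      rcases h with ⟨h1, h2⟩ | ⟨h1, h2⟩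
      · exact hvz (h1.symm.trans h2)
      · exact hvz (h2.symm.trans h1)
    · exact Or.inl ⟨h2, h1⟩

theorem mv_card (huz : H.Adj u z) (hvz : v ≠ z) (hn : ¬ H.Adj v z) :
    (mv H u v z).edgeFinset.card = H.edgeFinset.card := by
  rw [mv_edges huz hvz, card_insert_of_notMem, card_erase_of_mem]
  · have : 0 < H.edgeFinset.card := card_pos.2 ⟨s(u, z), by
      rw [SimpleGraph.mem_edgeFinset, SimpleGraph.mem_edgeSet]; exact huz⟩
    omega
  · rw [SimpleGraph.mem_edgeFinset, SimpleGraph.mem_edgeSet]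
    exact huz
  · rw [mem_erase, SimpleGraph.mem_edgeFinset, SimpleGraph.mem_edgeSet]
    exact fun h => hn h.2

theorem mv_adj_off {x y : V} (hxu : x ≠ u) (hyu : y ≠ u) (hxv : x ≠ v) (hyv : y ≠ v) :
    (mv H u v z).Adj x y ↔ H.Adj x y := by
  change (H.Adj x y ∧ s(x, y) ≠ s(u, z)) ∨ (s(x, y) = s(v, z) ∧ x ≠ y) ↔ _
  constructor
  · rintro (⟨h1, _⟩ | ⟨h1, _⟩)
    · exact h1
    · rw [Sym2.eq_iff] at h1
      rcases h1 with ⟨h1, _⟩ | ⟨_, h1⟩
      · exact absurd h1 hxv
      · exact absurd h1 hyv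
  · intro h
    refine Or.inl ⟨h, ?_⟩
    intro h1
    rw [Sym2.eq_iff] at h1
    rcases h1 with ⟨h1, _⟩ | ⟨_, h1⟩
    · exact absurd h1 hxu
    · exact absurd h1 hyu

theorem mv_adj_u (huv : u ≠ v) (huz : u ≠ z) (x : V) :
    (mv H u v z).Adj u x ↔ H.Adj u x ∧ x ≠ z := by
  change (H.Adj u x ∧ s(u, x) ≠ s(u, z)) ∨ (s(u, x) = s(v, z) ∧ u ≠ x) ↔ _
  simp only [ne_eq, Sym2.eq_iff]
  constructor
  · rintro (⟨h1, h2⟩ | ⟨h1, h2⟩)
    · exact ⟨h1, fun h => h2 (Or.inl ⟨trivial, h⟩)⟩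
    · rcases h1 with ⟨h1, _⟩ | ⟨h1, _⟩
      · exact absurd h1 huv
      · exact absurd h1 huz
  · rintro ⟨h1, h2⟩
    refine Or.inl ⟨h1, ?_⟩
    rintro (⟨_, h⟩ | ⟨h, _⟩)
    · exact h2 h
    · exact huz h

theorem mv_adj_v (huv : u ≠ v) (hvz : v ≠ z) (x : V) :
    (mv H u v z).Adj v x ↔ H.Adj v x ∨ x = z := by
  change (H.Adj v x ∧ s(v, x) ≠ s(u, z)) ∨ (s(v, x) = s(v, z) ∧ v ≠ x) ↔ _
  simp only [ne_eq, Sym2.eq_iff]
  constructor
  · rintro (⟨h1, h2⟩ | ⟨h1, h2⟩)
    · exact Or.inl h1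
    · rcases h1 with ⟨_, h1⟩ | ⟨h1, _⟩
      · exact Or.inr h1
      · exact absurd h1 hvz
  · rintro (h1 | rfl)
    · refine Or.inl ⟨h1, ?_⟩
      rintro (⟨h, _⟩ | ⟨h, _⟩)
      · exact huv h.symm
      · exact hvz h
    · exact Or.inr ⟨Or.inl ⟨trivial, rfl⟩, hvz⟩

theorem mv_deg_u (huv : u ≠ v) (huz : H.Adj u z) :
    (mv H u v z).degree u + 1 = H.degree u := by
  rw [← SimpleGraph.card_neighborFinset_eq_degree, ← SimpleGraph.card_neighborFinset_eq_degree]
  have h1 : (mv H u v z).neighborFinset u = (H.neighborFinset u).erase z := by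
    ext x
    rw [SimpleGraph.mem_neighborFinset, mem_erase, SimpleGraph.mem_neighborFinset,
      mv_adj_u huv huz.ne]
    tauto
  have h2 : z ∈ H.neighborFinset u := by rwa [SimpleGraph.mem_neighborFinset]
  rw [h1, card_erase_of_mem h2]
  have : 0 < (H.neighborFinset u).card := card_pos.2 ⟨z, h2⟩
  omega

theorem mv_deg_v (huv : u ≠ v) (hvz : v ≠ z) (hn : ¬ H.Adj v z) :
    (mv H u v z).degree v = H.degree v + 1 := by
  rw [← SimpleGraph.card_neighborFinset_eq_degree, ← SimpleGraph.card_neighborFinset_eq_degree]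
  have h1 : (mv H u v z).neighborFinset v = insert z (H.neighborFinset v) := by
    ext x
    rw [SimpleGraph.mem_neighborFinset, mem_insert, SimpleGraph.mem_neighborFinset,
      mv_adj_v huv hvz]
    tauto
  rw [h1, card_insert_of_notMem]
  rwa [SimpleGraph.mem_neighborFinset]

theorem mv_deg_other (huv : u ≠ v) (huz : H.Adj u z) (hvz : v ≠ z) (hn : ¬ H.Adj v z) {x : V}
    (hxu : x ≠ u) (hxv : x ≠ v) : (mv H u v z).degree x = H.degree x := by
  rw [← SimpleGraph.card_neighborFinset_eq_degree, ← SimpleGraph.card_neighborFinset_eq_degree]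
  by_cases hxz : x = z
  · subst hxz
    have h1 : (mv H u v x).neighborFinset x = insert v ((H.neighborFinset x).erase u) := by
      ext w
      rw [SimpleGraph.mem_neighborFinset, mem_insert, mem_erase, SimpleGraph.mem_neighborFinset,
        SimpleGraph.adj_comm]
      by_cases hwu : w = u
      · subst hwu
        rw [mv_adj_u huv huz.ne]
        simp [huv]
      · by_cases hwv : w = v
        · subst hwv
          rw [mv_adj_v huv hvz]
          simp
        · rw [mv_adj_off hwu hxu hwv hxv, SimpleGraph.adj_comm]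
          simp [hwu, hwv]
    rw [h1, card_insert_of_notMem, card_erase_of_mem]
    · have : 0 < (H.neighborFinset x).card := card_pos.2 ⟨u, by
        rw [SimpleGraph.mem_neighborFinset]; exact huz.symm⟩
      omega
    · rw [SimpleGraph.mem_neighborFinset]; exact huz.symm
    · rw [mem_erase, SimpleGraph.mem_neighborFinset]
      exact fun h => hn h.2.symm
  · congr 1
    ext w
    rw [SimpleGraph.mem_neighborFinset, SimpleGraph.mem_neighborFinset, SimpleGraph.adj_comm,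
      SimpleGraph.adj_comm H]
    by_cases hwu : w = u
    · subst hwu
      rw [mv_adj_u huv huz.ne]
      simp [hxz]
    · by_cases hwv : w = v
      · subst hwv
        rw [mv_adj_v huv hvz]
        simp [hxz]
      · exact mv_adj_off hwu hxu hwv hxv

theorem mv_dsq (huv : u ≠ v) (huz : H.Adj u z) (hvz : v ≠ z) (hn : ¬ H.Adj v z)
    (hdeg : H.degree v + 2 ≤ H.degree u) : dsq (mv H u v z) < dsq H := by
  unfold dsq
  have e1 : ∀ f : V → ℕ, ∑ x, f x = f u + (f v + ∑ x ∈ (univ.erase u).erase v, f x) := by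
    intro f
    rw [← add_sum_erase univ f (mem_univ u), ← add_sum_erase (univ.erase u) f
      (mem_erase.2 ⟨huv.symm, mem_univ v⟩)]
  rw [e1, e1]
  have e2 : ∑ x ∈ (univ.erase u).erase v, ((mv H u v z).degree x) ^ 2 =
      ∑ x ∈ (univ.erase u).erase v, (H.degree x) ^ 2 := by
    refine sum_congr rfl fun x hx => ?_
    rw [mem_erase, mem_erase] at hx
    rw [mv_deg_other huv huz hvz hn hx.2.1 hx.1]
  have h1 := mv_deg_u huv huz (H := H)
  have h2 := mv_deg_v huv hvz hn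
  rw [e2, h2]
  have h3 : ((mv H u v z).degree u) ^ 2 + (H.degree v + 1) ^ 2 <
      (H.degree u) ^ 2 + (H.degree v) ^ 2 := by
    rw [← h1] at hdeg ⊢
    nlinarith
  omega

/-- optimal at `q`, with the least sum of squared degrees -/
structure Opt (H : SimpleGraph V) (q : ℝ) : Prop where
  max : ∀ H' : SimpleGraph V, H'.edgeFinset.card = H.edgeFinset.card →
    RelE (Ec H') q ≤ RelE (Ec H) q
  min : ∀ H' : SimpleGraph V, H'.edgeFinset.card = H.edgeFinset.card →
    RelE (Ec H') q = RelE (Ec H) q → dsq H ≤ dsq H'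

theorem Opt.no_move {q : ℝ} (h : Opt H q) (huv : u ≠ v) (huz : H.Adj u z) (hvz : v ≠ z)
    (hn : ¬ H.Adj v z) (hle : RelE (Ec H) q ≤ RelE (Ec (mv H u v z)) q) :
    H.degree u ≤ H.degree v + 1 := by
  by_contra hcon
  have h1 := mv_card huz hvz hn
  have h2 := h.min _ h1 (le_antisymm (h.max _ h1) hle)
  have h3 := mv_dsq huv huz hvz hn (by omega)
  omega

theorem Opt.not_lt {q : ℝ} (h : Opt H q) : ¬ ∃ H' : SimpleGraph V,
    H'.edgeFinset.card = H.edgeFinset.card ∧ RelE (Ec H) q < RelE (Ec H') q := by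
  rintro ⟨H', h1, h2⟩
  exact absurd (h.max H' h1) (not_le.2 h2)

/-- existence -/
theorem exists_opt (H0 : SimpleGraph V) (q : ℝ) : ∃ H : SimpleGraph V,
    H.edgeFinset.card = H0.edgeFinset.card ∧ Opt H q := by
  have hfin : Fintype (SimpleGraph V) := Fintype.ofFinite _
  obtain ⟨H1, h1, h2⟩ := exists_max_image (univ.filter fun H : SimpleGraph V =>
    H.edgeFinset.card = H0.edgeFinset.card) (fun H => RelE (Ec H) q) ⟨H0, by simp⟩
  rw [mem_filter] at h1
  obtain ⟨H2, h3, h4⟩ := exists_min_image (univ.filter fun H : SimpleGraph V =>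
    H.edgeFinset.card = H0.edgeFinset.card ∧ RelE (Ec H) q = RelE (Ec H1) q) (fun H => dsq H)
    ⟨H1, by simp [h1.2]⟩
  rw [mem_filter] at h3
  refine ⟨H2, h3.2.1, ?_, ?_⟩
  · intro H' h
    rw [h3.2.2]
    exact h2 H' (by rw [mem_filter]; exact ⟨mem_univ _, h.trans h3.2.1⟩)
  · intro H' h h'
    exact h4 H' (by rw [mem_filter]; exact ⟨mem_univ _, h.trans h3.2.1, h'.trans h3.2.2⟩)

end move

end Pool.Agent.W_MP_d15038_ex
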