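import Pool.Agent.W_MP_d15038_ex.Moves

/-!
# Moving an edge to a leaf
-/

set_option autoImplicit false
set_option linter.unusedSectionVars false
set_option linter.unusedSimpArgs false

open Finset

namespace Pool.Agent.W_MP_d15038_ex

open scoped Classical

/-! ### real inequalities -/

theorem real_key {η a y t : ℝ} (h0 : 0 ≤ η) (h1 : η ≤ 1) (ha0 : 0 ≤ a) (ha1 : a ≤ 1)
    (hy : y = η ^ 3 * a) (ht0 : 0 ≤ t) (hty : t ≤ y) (hy0 : 0 < y) :
    t + a * y - 2 * (a * t * y) ≤ η * (a + t * y - 2 * (a * t * y)) := by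
  -- linear in `t`; the values at `0` and `y`
  have f0 : 0 ≤ η * a - a * y := by
    rw [hy]
    have h2 : η ^ 2 * a ≤ 1 := by
      have : η ^ 2 ≤ 1 := by nlinarith
      nlinarith [mul_nonneg (sq_nonneg η) ha0]
    have h3 : η * a - a * (η ^ 3 * a) = η * a * (1 - η ^ 2 * a) := by ring
    rw [h3]
    exact mul_nonneg (mul_nonneg h0 ha0) (by linarith)
  have g1 : 0 ≤ (1 + η) - η ^ 2 * a * (1 + η) * (1 + η ^ 2) + 2 * η ^ 5 * a ^ 2 := by
    have e1 : (1 + η) - η ^ 2 * a * (1 + η) * (1 + η ^ 2) + 2 * η ^ 5 * a ^ 2 =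
        (1 - η) * ((1 + η) ^ 2 - η ^ 4) +
        (1 - a) * (η ^ 2 * ((1 - η ^ 3) + (η - η ^ 3) + (η ^ 2 - η ^ 3))) +
        2 * η ^ 5 * (1 - a) ^ 2 := by ring
    rw [e1]
    have p2 : η ^ 2 ≤ 1 := by nlinarith
    have p3 : η ^ 3 ≤ η ^ 2 := by nlinarith [sq_nonneg η]
    have p3' : η ^ 2 ≤ η := by nlinarith
    have p4 : η ^ 4 ≤ 1 := by nlinarith [sq_nonneg (η ^ 2), sq_nonneg η]
    have q1 : 0 ≤ (1 + η) ^ 2 - η ^ 4 := by nlinarith
    have q2 : 0 ≤ (1 - η ^ 3) + (η - η ^ 3) + (η ^ 2 - η ^ 3) := by linarith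
    have q3 : 0 ≤ 2 * η ^ 5 := by positivity
    have := mul_nonneg (sub_nonneg.2 h1) q1
    have := mul_nonneg (sub_nonneg.2 ha1) (mul_nonneg (sq_nonneg η) q2)
    have := mul_nonneg q3 (sq_nonneg (1 - a))
    linarith
  have f1 : 0 ≤ η * (a + y * y - 2 * (a * y * y)) - (y + a * y - 2 * (a * y * y)) := by
    have e1 : η * (a + y * y - 2 * (a * y * y)) - (y + a * y - 2 * (a * y * y)) =
        η * a * (1 - η) * ((1 + η) - η ^ 2 * a * (1 + η) * (1 + η ^ 2) + 2 * η ^ 5 * a ^ 2) := by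
      rw [hy]
      ring
    rw [e1]
    exact mul_nonneg (mul_nonneg (mul_nonneg h0 ha0) (by linarith)) g1
  have key : y * (η * (a + t * y - 2 * (a * t * y)) - (t + a * y - 2 * (a * t * y))) =
      (y - t) * (η * a - a * y) +
      t * (η * (a + y * y - 2 * (a * y * y)) - (y + a * y - 2 * (a * y * y))) := by ring
  have h4 : 0 ≤ y * (η * (a + t * y - 2 * (a * t * y)) - (t + a * y - 2 * (a * t * y))) := by
    rw [key]
    exact add_nonneg (mul_nonneg (by linarith) f0) (mul_nonneg ht0 f1)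
  have h5 := nonneg_of_mul_nonneg_right h4 hy0
  linarith

theorem UV_le {a y t : ℝ} (hta : t ≤ a) (hy1 : y ≤ 1) :
    t + a * y - 2 * (a * t * y) ≤ a + t * y - 2 * (a * t * y) := by
  nlinarith

theorem OU_le {a y t : ℝ} (ht0 : 0 ≤ t) (ha1 : a ≤ 1) (hy1 : y ≤ 1) :
    a * t + a * y + t * y - 3 * (a * t * y) ≤ t + a * y - 2 * (a * t * y) := by
  nlinarith [mul_nonneg ht0 (mul_nonneg (sub_nonneg.2 ha1) (sub_nonneg.2 hy1))]

theorem OV_le {a y t : ℝ} (ha0 : 0 ≤ a) (ht1 : t ≤ 1) (hy1 : y ≤ 1) :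
    a * t + a * y + t * y - 3 * (a * t * y) ≤ a + t * y - 2 * (a * t * y) := by
  nlinarith [mul_nonneg ha0 (mul_nonneg (sub_nonneg.2 ht1) (sub_nonneg.2 hy1))]

theorem O_nonneg {a y t : ℝ} (ha0 : 0 ≤ a) (ht0 : 0 ≤ t) (hy0 : 0 ≤ y) (ha1 : a ≤ 1)
    (ht1 : t ≤ 1) (hy1 : y ≤ 1) : 0 ≤ a * t + a * y + t * y - 3 * (a * t * y) := by
  nlinarith [mul_nonneg (mul_nonneg ha0 ht0) (sub_nonneg.2 hy1),
    mul_nonneg (mul_nonneg ha0 hy0) (sub_nonneg.2 ht1),
    mul_nonneg (mul_nonneg ht0 hy0) (sub_nonneg.2 ha1)]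

theorem cluster_key {h q a y t : ℝ} (hh0 : 0 < h) (hh1 : h < 1) (hq : q = h ^ 3) {b m : ℕ}
    (ha0 : 0 < a) (ha1 : a ≤ 1) (hy1 : y ≤ 1) (hab : t = a * q ^ b) (hym : t = y * q ^ m)
    (hy0 : 0 < y) (ht0 : 0 < t) :
    h ^ m * (t + a * y - 2 * (a * t * y)) ≤ h ^ b * (a + t * y - 2 * (a * t * y)) := by
  have hq0 : 0 < q := hq ▸ pow_pos hh0 3
  have hq1 : q ≤ 1 := hq ▸ pow_le_one₀ hh0.le hh1.le
  have hta : t ≤ a := by
    rw [hab]
    exact mul_le_of_le_one_right ha0.le (pow_le_one₀ hq0.le hq1)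
  have hty : t ≤ y := by
    rw [hym]
    exact mul_le_of_le_one_right hy0.le (pow_le_one₀ hq0.le hq1)
  have hU : 0 ≤ t + a * y - 2 * (a * t * y) :=
    (O_nonneg ha0.le ht0.le hy0.le ha1 (hta.trans ha1) hy1).trans (OU_le ht0.le ha1 hy1)
  rcases le_or_gt b m with hbm | hbm
  · exact mul_le_mul (pow_le_pow_of_le_one hh0.le hh1.le hbm) (UV_le hta hy1) hU
      (pow_pos hh0 _).le
  · obtain ⟨j, rfl⟩ : ∃ j, b = m + j := ⟨b - m, by omega⟩
    have hη : y = (h ^ j) ^ 3 * a := by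
      have h1 : y * q ^ m = a * q ^ (m + j) := hym.symm.trans hab
      rw [pow_add, ← mul_assoc, mul_right_comm] at h1
      have h2 := mul_right_cancel₀ (pow_pos hq0 m).ne' h1
      rw [h2, hq, ← pow_mul, ← pow_mul, mul_comm 3 j, mul_comm]
    have := real_key (pow_pos hh0 j).le (pow_le_one₀ hh0.le hh1.le) ha0.le ha1 hη ht0.le hty hy0
    rw [pow_add, mul_assoc (h ^ m)]
    exact mul_le_mul_of_nonneg_left this (pow_pos hh0 m).le

section U1

variable {V : Type} [Fintype V] {H : SimpleGraph V} {u v w z : V}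

theorem parts_three (NH NH' : ℕ → List ℕ) : ∃ a1 a2 a3 a4 a5 b1 b2 b3 b4 b5 : ℕ,
    parts NH NH' 3 = [([[2, 1, 0]], a1, b1), ([[2], [1, 0]], a2, b2), ([[2, 1], [0]], a3, b3),
      ([[1], [2, 0]], a4, b4), ([[2], [1], [0]], a5, b5)] ∧
    (NH 0 = [] → NH 1 = [] → NH 2 = [1] → a1 = 3 ∧ a2 = 2 ∧ a3 = 1 ∧ a4 = 2 ∧ a5 = 1) ∧
    (NH' 0 = [] → NH' 1 = [] → NH' 2 = [1] → b1 = 3 ∧ b2 = 2 ∧ b3 = 1 ∧ b4 = 2 ∧ b5 = 1) := by
  refine ⟨_, _, _, _, _, _, _, _, _, _, rfl, ?_, ?_⟩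
  · intro h0 h1 h2
    rw [h0, h1, h2]
    exact ⟨rfl, rfl, rfl, rfl, rfl⟩
  · intro h0 h1 h2
    rw [h0, h1, h2]
    exact ⟨rfl, rfl, rfl, rfl, rfl⟩

variable {k : ℕ} {f : Fin k → V}

/-- the number of neighbours in a cluster -/
noncomputable def nC (H : SimpleGraph V) (f : Fin k → V) {S : Finset (Sym2 (Off f))}
    (C : (gr S).ConnectedComponent) (i : Fin k) : ℕ :=
  ((univ.filter (fun y => (gr S).connectedComponentMk y = C)).filter
    (fun y : Off f => H.Adj (f i) y)).card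

theorem aC_pow (H : SimpleGraph V) (q : ℝ) {S : Finset (Sym2 (Off f))}
    (C : (gr S).ConnectedComponent) (i : Fin k) : aC H f q C i * q ^ nC H f C i = q ^ cC C := by
  have h4 := card_filter_add_card_filter_not
    (s := univ.filter (fun y => (gr S).connectedComponentMk y = C))
    (fun y : Off f => H.Adj (f i) y)
  unfold aC
  rw [prod_ite, prod_const_one, one_mul, prod_const, ← pow_add]
  congr 1
  unfold nC cC at *
  omega

theorem sum_nC (H : SimpleGraph V) (S : Finset (Sym2 (Off f))) (i : Fin k) :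
    ∑ C : (gr S).ConnectedComponent, nC H f C i =
      (univ.filter (fun y : Off f => H.Adj (f i) y)).card := by
  rw [card_eq_sum_card_fiberwise (f := fun y : Off f => (gr S).connectedComponentMk y)
    (t := univ) (fun _ _ => mem_coe.2 (mem_univ _))]
  refine sum_congr rfl fun C _ => ?_
  unfold nC
  congr 1
  ext y
  simp only [mem_filter, mem_univ, true_and]
  tauto

theorem move_U1 {q : ℝ} (hq0 : 0 < q) (hq1 : q < 1) (hv : ∀ x, H.Adj v x ↔ x = w)
    (huv : u ≠ v) (huw : u ≠ w) (hnuw : ¬ H.Adj u w) (huz : H.Adj u z)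
    (hdeg : H.degree w + 3 ≤ H.degree u) :
    RelE (Ec H) q ≤ RelE (Ec (mv H u v z)) q := by
  have hvw : H.Adj v w := (hv w).2 rfl
  have hvz : v ≠ z := by
    rintro rfl
    exact huw ((hv u).1 huz.symm)
  have hwz : w ≠ z := by
    rintro rfl
    exact hnuw huz
  have hn : ¬ H.Adj v z := fun h => hwz ((hv z).1 h).symm
  have hnuv : ¬ H.Adj u v := fun h => huw ((hv u).1 h.symm)
  obtain ⟨y, hy⟩ : ∃ y, y = q⁻¹ - 1 := ⟨_, rfl⟩
  have hqy : q * (1 + y) = 1 := by
    rw [hy, add_sub_cancel, mul_inv_cancel₀ hq0.ne']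
  have hy0 : 0 < y := by
    rw [hy, sub_pos]
    exact (one_lt_inv₀ hq0).2 hq1
  set f : Fin 3 → V := ![u, v, w] with hfd
  have hf : Function.Injective f := by
    intro i j h
    fin_cases i <;> fin_cases j <;>
      simp [hfd, huv, huv.symm, huw, huw.symm, hvw.ne, hvw.ne.symm] at h ⊢
  have hu : u ∈ Set.range f := ⟨0, rfl⟩
  have hv' : v ∈ Set.range f := ⟨1, rfl⟩
  have hz : z ∉ Set.range f := by
    rintro ⟨i, hi⟩
    fin_cases i
    · exact huz.ne hi
    · exact hvz hi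
    · exact hwz hi
  set NH : ℕ → List ℕ := fun i => if i = 2 then [1] else [] with hNH
  have hadj : ∀ G : SimpleGraph V, ¬ G.Adj u v → ¬ G.Adj u w → G.Adj v w → HubNH G f NH := by
    intro G h1 h2 h3
    refine ⟨?_, ?_, ?_⟩
    · intro i _
      simp only [hNH]
      split_ifs <;> simp
    · intro i _ a ha
      simp only [hNH] at ha
      split_ifs at ha with h
      · rw [List.mem_singleton] at ha
        omega
      · simp at ha
    · intro i j hij
      fin_cases i <;> fin_cases j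
      · simp at hij
      · simp at hij
      · simp at hij
      · simp [hNH, hfd, h1]
      · simp at hij
      · simp at hij
      · simp [hNH, hfd, h2]
      · simp [hNH, hfd, h3]
      · simp at hij
  have hN1 := hadj H hnuv hnuw hvw
  have hN2 := hadj (mv H u v z) (fun h => hnuv ((mv_adj_u huv huz.ne v).1 h).1)
    (fun h => hnuw ((mv_adj_u huv huz.ne w).1 h).1) ((mv_adj_v huv hvz w).2 (Or.inl hvw))
  have hd := rel_diff (by norm_num : 0 < 3) hf hN1 hN2 (EY_mv hu hv') hq0 hqy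
  rw [← sub_nonneg, hd]
  refine sum_nonneg fun S _ => ?_
  refine mul_nonneg (mul_pos (pow_pos (sub_pos.2 hq1) _) (pow_pos hq0 _)).le
    (mul_nonneg (pow_pos hq0 _).le ?_)
  obtain ⟨a1, a2, a3, a4, a5, b1, b2, b3, b4, b5, hp, hpa, hpb⟩ := parts_three NH NH
  obtain ⟨rfl, rfl, rfl, rfl, rfl⟩ := hpa rfl rfl rfl
  obtain ⟨rfl, rfl, rfl, rfl, rfl⟩ := hpb rfl rfl rfl
  rw [hp]
  clear hp hpa hpb hd hN1 hN2 hadj
  set Z := (gr S).connectedComponentMk ⟨z, hz⟩ with hZ
  have g1 : ∀ a : Fin 3 → ℝ, gfun 3 a [[2, 1, 0]] = 1 - a 0 * a 1 * a 2 := by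
    intro a
    simp [gfun, phi, Fin.prod_univ_three]
  have g2 : ∀ a : Fin 3 → ℝ, gfun 3 a [[2], [1, 0]] = a 0 * a 1 + a 2 - 2 * (a 0 * a 1 * a 2) := by
    intro a
    simp [gfun, phi, Fin.prod_univ_three]
  have g3 : ∀ a : Fin 3 → ℝ, gfun 3 a [[2, 1], [0]] = a 0 + a 1 * a 2 - 2 * (a 0 * a 1 * a 2) := by
    intro a
    simp [gfun, phi, Fin.prod_univ_three]
  have g4 : ∀ a : Fin 3 → ℝ, gfun 3 a [[1], [2, 0]] = a 1 + a 0 * a 2 - 2 * (a 0 * a 1 * a 2) := by
    intro a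
    simp [gfun, phi, Fin.prod_univ_three]
    ring
  have g5 : ∀ a : Fin 3 → ℝ, gfun 3 a [[2], [1], [0]] =
      a 0 * a 1 + a 0 * a 2 + a 1 * a 2 - 3 * (a 0 * a 1 * a 2) := by
    intro a
    simp [gfun, phi, Fin.prod_univ_three]
    ring
  simp only [List.map_cons, List.map_nil, List.sum_cons, List.sum_nil, g1, g2, g3, g4, g5,
    List.length_cons, List.length_nil]
  clear g1 g2 g3 g4 g5
  have hD0 := aD_mv huv huz.ne hvz hu hv' hz q S (H := H) 0
  have hD1 := aD_mv huv huz.ne hvz hu hv' hz q S (H := H) 1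
  have a0 : aC H f q Z 0 = aD H f q hz S 0 := by
    rw [aC_split H q hz S 0]
    simp only [hfd, Matrix.cons_val_zero, huz, if_true, one_mul]
  have a1 : aC H f q Z 1 = q * aD H f q hz S 1 := by
    rw [aC_split H q hz S 1, if_neg]
    exact hn
  have a0' : aC (mv H u v z) f q Z 0 = q * aD H f q hz S 0 := by
    rw [aC_split _ q hz S 0, hD0, if_neg]
    exact fun h => ((mv_adj_u huv huz.ne z).1 h).2 rfl
  have a1' : aC (mv H u v z) f q Z 1 = aD H f q hz S 1 := by
    rw [aC_split _ q hz S 1, hD1, if_pos, one_mul]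
    exact (mv_adj_v huv hvz z).2 (Or.inr rfl)
  have a2' : aC (mv H u v z) f q Z 2 = aC H f q Z 2 :=
    aC_mv_other hu hv' q Z (fun h => huw h.symm) (fun h => hvw.ne h.symm)
  have hne : ∀ {C : (gr S).ConnectedComponent}, C ≠ Z → ∀ i : Fin 3,
      aC (mv H u v z) f q C i = aC H f q C i := fun hC i =>
    aC_mv_ne huv huz.ne hvz hu hv' hz q hC i
  -- products
  set F1 : (Fin 3 → ℝ) → ℝ := fun a => 1 - a 0 * a 1 * a 2 with hF1
  set F2 : (Fin 3 → ℝ) → ℝ := fun a => a 0 * a 1 + a 2 - 2 * (a 0 * a 1 * a 2) with hF2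
  set FV : (Fin 3 → ℝ) → ℝ := fun a => a 0 + a 1 * a 2 - 2 * (a 0 * a 1 * a 2) with hFV
  set FU : (Fin 3 → ℝ) → ℝ := fun a => a 1 + a 0 * a 2 - 2 * (a 0 * a 1 * a 2) with hFU
  set FO : (Fin 3 → ℝ) → ℝ := fun a => a 0 * a 1 + a 0 * a 2 + a 1 * a 2 -
    3 * (a 0 * a 1 * a 2) with hFO
  have hprod : ∀ F : (Fin 3 → ℝ) → ℝ, ∏ C : (gr S).ConnectedComponent,
      F (aC (mv H u v z) f q C) = F (aC (mv H u v z) f q Z) *
      ∏ C ∈ univ.erase Z, F (aC H f q C) := by
    intro F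
    rw [← mul_prod_erase univ _ (mem_univ Z)]
    congr 1
    refine prod_congr rfl fun C hC => ?_
    rw [mem_erase] at hC
    congr 1
    funext i
    exact hne hC.1 i
  have hprod0 : ∀ F : (Fin 3 → ℝ) → ℝ, ∏ C : (gr S).ConnectedComponent,
      F (aC H f q C) = F (aC H f q Z) * ∏ C ∈ univ.erase Z, F (aC H f q C) := by
    intro F
    rw [← mul_prod_erase univ _ (mem_univ Z)]
  have p1 := hprod F1
  have p2 := hprod F2
  have p3 := hprod FV
  have p4 := hprod FU
  have p5 := hprod FO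
  have r1 := hprod0 F1
  have r2 := hprod0 F2
  have r3 := hprod0 FV
  have r4 := hprod0 FU
  have r5 := hprod0 FO
  simp only [hF1, hF2, hFV, hFU, hFO] at p1 p2 p3 p4 p5 r1 r2 r3 r4 r5
  rw [p1, p2, p3, p4, p5, r1, r2, r3, r4, r5]
  clear p1 p2 p3 p4 p5 r1 r2 r3 r4 r5 hprod hprod0
  rw [a0, a1, a0', a1', a2']
  set A := aD H f q hz S 0 with hA
  set B := aD H f q hz S 1 with hB
  set x := aC H f q Z 2 with hx
  set P1 := ∏ C ∈ univ.erase Z, (1 - aC H f q C 0 * aC H f q C 1 * aC H f q C 2)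
  set P2 := ∏ C ∈ univ.erase Z, (aC H f q C 0 * aC H f q C 1 + aC H f q C 2 -
    2 * (aC H f q C 0 * aC H f q C 1 * aC H f q C 2))
  set PV := ∏ C ∈ univ.erase Z, (aC H f q C 0 + aC H f q C 1 * aC H f q C 2 -
    2 * (aC H f q C 0 * aC H f q C 1 * aC H f q C 2)) with hPV
  set PU := ∏ C ∈ univ.erase Z, (aC H f q C 1 + aC H f q C 0 * aC H f q C 2 -
    2 * (aC H f q C 0 * aC H f q C 1 * aC H f q C 2)) with hPU
  set PO := ∏ C ∈ univ.erase Z, (aC H f q C 0 * aC H f q C 1 + aC H f q C 0 * aC H f q C 2 +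
    aC H f q C 1 * aC H f q C 2 - 3 * (aC H f q C 0 * aC H f q C 1 * aC H f q C 2)) with hPO
  have m1 : mu (0 + 1) = 1 := by simp [mu]
  have m2 : mu (0 + 1 + 1) = -1 := by simp [mu]
  have m3 : mu (0 + 1 + 1 + 1) = 2 := by simp [mu]
  rw [m1, m2, m3]
  -- facts on clusters
  have hC1 : ∀ C : (gr S).ConnectedComponent, nC H f C 1 = 0 := by
    intro C
    unfold nC
    rw [card_eq_zero, filter_eq_empty_iff]
    intro y' _ h
    have h2 : H.Adj v y' := h
    rw [hv] at h2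
    exact y'.2 ⟨2, h2.symm⟩
  have ht : ∀ C : (gr S).ConnectedComponent, aC H f q C 1 = q ^ cC C := by
    intro C
    have := aC_pow H q C (1 : Fin 3) (f := f)
    rwa [hC1, pow_zero, mul_one] at this
  have hta : ∀ C : (gr S).ConnectedComponent, aC H f q C 1 = aC H f q C 0 * q ^ nC H f C 0 := by
    intro C
    rw [ht, aC_pow]
  have htw : ∀ C : (gr S).ConnectedComponent, aC H f q C 1 = aC H f q C 2 * q ^ nC H f C 2 := by
    intro C
    rw [ht, aC_pow]
  have hA0 : 0 < A := aD_pos hq0 H hz S 0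
  have hB0 : 0 < B := aD_pos hq0 H hz S 1
  have hx0 : 0 < x := aC_pos hq0 H Z 2
  have hx1 : x ≤ 1 := aC_le_one hq0 hq1.le H Z 2
  have hbZ : 0 < nC H f Z 0 := by
    unfold nC
    refine card_pos.2 ⟨⟨z, hz⟩, ?_⟩
    rw [mem_filter, mem_filter]
    exact ⟨⟨mem_univ _, rfl⟩, huz⟩
  have hBA : q * B = A * q ^ nC H f Z 0 := by
    have := hta Z
    rwa [a0, a1] at this
  have hposs : ∀ (C : (gr S).ConnectedComponent) (i : Fin 3), 0 < aC H f q C i := fun C i =>
    aC_pos hq0 H C i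
  have hle1 : ∀ (C : (gr S).ConnectedComponent) (i : Fin 3), aC H f q C i ≤ 1 := fun C i =>
    aC_le_one hq0 hq1.le H C i
  have hcO : ∀ C : (gr S).ConnectedComponent, 0 ≤ aC H f q C 0 * aC H f q C 1 +
      aC H f q C 0 * aC H f q C 2 +
    aC H f q C 1 * aC H f q C 2 - 3 * (aC H f q C 0 * aC H f q C 1 * aC H f q C 2) := fun C =>
    O_nonneg (hposs C 0).le (hposs C 1).le (hposs C 2).le (hle1 C 0) (hle1 C 1) (hle1 C 2)
  have hcOU : ∀ C : (gr S).ConnectedComponent, aC H f q C 0 * aC H f q C 1 +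
      aC H f q C 0 * aC H f q C 2 +
    aC H f q C 1 * aC H f q C 2 - 3 * (aC H f q C 0 * aC H f q C 1 * aC H f q C 2) ≤
    aC H f q C 1 + aC H f q C 0 * aC H f q C 2 -
    2 * (aC H f q C 0 * aC H f q C 1 * aC H f q C 2) := fun C =>
    OU_le (hposs C 1).le (hle1 C 0) (hle1 C 2)
  have hcOV : ∀ C : (gr S).ConnectedComponent, aC H f q C 0 * aC H f q C 1 +
      aC H f q C 0 * aC H f q C 2 +
    aC H f q C 1 * aC H f q C 2 - 3 * (aC H f q C 0 * aC H f q C 1 * aC H f q C 2) ≤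
    aC H f q C 0 + aC H f q C 1 * aC H f q C 2 -
    2 * (aC H f q C 0 * aC H f q C 1 * aC H f q C 2) := fun C =>
    OV_le (hposs C 0).le (hle1 C 1) (hle1 C 2)
  have hcUV : ∀ C : (gr S).ConnectedComponent, aC H f q C 1 + aC H f q C 0 * aC H f q C 2 -
    2 * (aC H f q C 0 * aC H f q C 1 * aC H f q C 2) ≤
    aC H f q C 0 + aC H f q C 1 * aC H f q C 2 -
    2 * (aC H f q C 0 * aC H f q C 1 * aC H f q C 2) := fun C => by
    refine UV_le ?_ (hle1 C 2)
    rw [hta C]
    exact mul_le_of_le_one_right (hposs C 0).le (pow_le_one₀ hq0.le hq1.le)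
  have hPO0 : 0 ≤ PO := prod_nonneg fun C _ => hcO C
  have hPOU : PO ≤ PU := prod_le_prod (fun C _ => hcO C) (fun C _ => hcOU C)
  have hPOV : PO ≤ PV := prod_le_prod (fun C _ => hcO C) (fun C _ => hcOV C)
  have hPU0 : 0 ≤ PU := hPO0.trans hPOU
  have hPUV : PU ≤ PV := prod_le_prod (fun C _ => (hcO C).trans (hcOU C)) (fun C _ => hcUV C)
  -- the main inequality
  have hB_le : B ≤ A := by
    obtain ⟨j, hj⟩ : ∃ j, nC H f Z 0 = j + 1 := ⟨nC H f Z 0 - 1, by omega⟩
    rw [hj, pow_succ] at hBA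
    have h1 : B = A * q ^ j := by
      have : q * B = q * (A * q ^ j) := by rw [hBA]; ring
      exact mul_left_cancel₀ hq0.ne' this
    rw [h1]
    exact mul_le_of_le_one_right hA0.le (pow_le_one₀ hq0.le hq1.le)
  have main : B * PU ≤ q * A * PV := by
    rcases Nat.lt_or_ge 1 (nC H f Z 0) with h2 | h2
    · obtain ⟨j, hj⟩ : ∃ j, nC H f Z 0 = j + 2 := ⟨nC H f Z 0 - 2, by omega⟩
      rw [hj, pow_add] at hBA
      have h1 : B = (q * A) * q ^ j := by
        have : q * B = q * (q * A * q ^ j) := by rw [hBA]; ring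
        exact mul_left_cancel₀ hq0.ne' this
      have h3 : B ≤ q * A := by
        rw [h1]
        exact mul_le_of_le_one_right (mul_pos hq0 hA0).le (pow_le_one₀ hq0.le hq1.le)
      exact mul_le_mul h3 hPUV hPU0 (mul_pos hq0 hA0).le
    · have h3 : nC H f Z 0 = 1 := by omega
      rw [h3, pow_one] at hBA
      have h4 : B = A := mul_left_cancel₀ hq0.ne' (by rw [hBA]; ring)
      obtain ⟨h, hh0, hhq⟩ : ∃ h : ℝ, 0 < h ∧ h ^ 3 = q :=
        ⟨q ^ ((1 : ℝ) / 3), Real.rpow_pos_of_pos hq0 _, by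
          rw [← Real.rpow_natCast, ← Real.rpow_mul hq0.le]; norm_num⟩
      have hh1 : h < 1 := by
        by_contra hc
        push Not at hc
        have := one_le_pow₀ hc (n := 3)
        linarith
      have h5 : ∏ C ∈ univ.erase Z, (h ^ nC H f C 2 * (aC H f q C 1 + aC H f q C 0 * aC H f q C 2 -
          2 * (aC H f q C 0 * aC H f q C 1 * aC H f q C 2))) ≤
          ∏ C ∈ univ.erase Z, (h ^ nC H f C 0 * (aC H f q C 0 + aC H f q C 1 * aC H f q C 2 -
          2 * (aC H f q C 0 * aC H f q C 1 * aC H f q C 2))) := by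
        refine prod_le_prod (fun C _ => ?_) (fun C _ => ?_)
        · exact mul_nonneg (pow_pos hh0 _).le ((hcO C).trans (hcOU C))
        · exact cluster_key hh0 hh1 hhq.symm (hposs C 0) (hle1 C 0) (hle1 C 2) (hta C) (htw C)
            (hposs C 2) (hposs C 1)
      rw [prod_mul_distrib, prod_mul_distrib, prod_pow_eq_pow_sum, prod_pow_eq_pow_sum,
        ← hPU, ← hPV] at h5
      have s1 := sum_nC H S (0 : Fin 3) (f := f)
      have s2 := sum_nC H S (2 : Fin 3) (f := f)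
      rw [← add_sum_erase univ _ (mem_univ Z)] at s1 s2
      have c1 : (univ.filter (fun y : Off f => H.Adj (f 0) y)).card = H.degree u := by
        rw [← SimpleGraph.card_neighborFinset_eq_degree]
        refine card_bij (fun y _ => (y : V)) ?_ ?_ ?_
        · intro y' hy'
          rw [mem_filter] at hy'
          rw [SimpleGraph.mem_neighborFinset]
          exact hy'.2
        · intro a _ b _ hab
          exact Subtype.ext hab
        · intro y' hy'
          rw [SimpleGraph.mem_neighborFinset] at hy'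
          refine ⟨⟨y', ?_⟩, ?_, rfl⟩
          · rintro ⟨i, hi⟩
            fin_cases i
            · exact hy'.ne hi
            · exact hnuv ((show v = y' from hi) ▸ hy')
            · exact hnuw ((show w = y' from hi) ▸ hy')
          · rw [mem_filter]
            exact ⟨mem_univ _, hy'⟩
      have c2 : (univ.filter (fun y : Off f => H.Adj (f 2) y)).card + 1 ≤ H.degree w := by
        rw [← SimpleGraph.card_neighborFinset_eq_degree]
        have hmem : v ∈ H.neighborFinset w := by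
          rw [SimpleGraph.mem_neighborFinset]
          exact hvw.symm
        have h6 : (univ.filter (fun y : Off f => H.Adj (f 2) y)).card ≤
            ((H.neighborFinset w).erase v).card := by
          refine card_le_card_of_injOn (fun y => (y : V)) ?_ ?_
          · intro y' hy'
            rw [mem_coe, mem_filter] at hy'
            rw [mem_coe, mem_erase, SimpleGraph.mem_neighborFinset]
            exact ⟨off_ne hv' y', hy'.2⟩
          · intro a _ b _ hab
            exact Subtype.ext hab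
        rw [card_erase_of_mem hmem] at h6
        have : 0 < (H.neighborFinset w).card := card_pos.2 ⟨v, hmem⟩
        omega
      rw [c1] at s1
      have h7 : (∑ C ∈ univ.erase Z, nC H f C 2) + 3 ≤ ∑ C ∈ univ.erase Z, nC H f C 0 := by
        omega
      have h8 : h ^ (∑ C ∈ univ.erase Z, nC H f C 0) ≤
          h ^ (∑ C ∈ univ.erase Z, nC H f C 2) * h ^ 3 := by
        rw [← pow_add]
        exact pow_le_pow_of_le_one hh0.le hh1.le h7
      have h9 : h ^ (∑ C ∈ univ.erase Z, nC H f C 2) * PU ≤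
          h ^ (∑ C ∈ univ.erase Z, nC H f C 2) * (h ^ 3 * PV) := by
        refine h5.trans ?_
        rw [← mul_assoc]
        exact mul_le_mul_of_nonneg_right h8 (hPU0.trans hPUV)
      have h10 : PU ≤ h ^ 3 * PV := le_of_mul_le_mul_left h9 (pow_pos hh0 _)
      rw [hhq] at h10
      rw [h4, mul_assoc, mul_left_comm]
      exact mul_le_mul_of_nonneg_left h10 hA0.le
  have hX : 0 ≤ q * (A - B * x) * PV - (B - A * x) * PU - 2 * q * x * (A - B) * PO := by
    have e : q * (A - B * x) * PV - (B - A * x) * PU - 2 * q * x * (A - B) * PO =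
        (1 - x) * (q * A * PV - B * PU) + q * x * (A - B) * (PV - PO) +
        q * x * (A - B) * (PU - PO) + x * (A - B) * (1 - q) * PU := by ring
    rw [e]
    have t1 := mul_nonneg (sub_nonneg.2 hx1) (sub_nonneg.2 main)
    have t0 := mul_nonneg (mul_pos hq0 hx0).le (sub_nonneg.2 hB_le)
    have t2 := mul_nonneg t0 (sub_nonneg.2 hPOV)
    have t3 := mul_nonneg t0 (sub_nonneg.2 hPOU)
    have t4 := mul_nonneg (mul_nonneg (mul_nonneg hx0.le (sub_nonneg.2 hB_le))
      (sub_nonneg.2 hq1.le)) hPU0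
    linarith
  set Y := 1 + y with hY
  have hY0 : 0 < Y := by linarith
  have hfin : (0 : ℝ) ≤ Y ^ 2 * (1 - q) *
      (q * (A - B * x) * PV - (B - A * x) * PU - 2 * q * x * (A - B) * PO) :=
    mul_nonneg (mul_nonneg (sq_nonneg _) (by linarith)) hX
  refine hfin.trans (le_of_eq ?_)
  have hqY : q * Y = 1 := hqy
  linear_combination (Y * (1 - q) * ((A - B * x) * PV - 2 * x * (A - B) * PO)) * hqY

theorem Opt.U1 {q : ℝ} (hq0 : 0 < q) (hq1 : q < 1) (h : Opt H q) (hv : ∀ x, H.Adj v x ↔ x = w)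
    (huv : u ≠ v) (huw : u ≠ w) (hnuw : ¬ H.Adj u w) : H.degree u ≤ H.degree w + 2 := by
  by_contra hcon
  push Not at hcon
  have h0 : 0 < H.degree u := by omega
  rw [SimpleGraph.degree_pos_iff_exists_adj] at h0
  obtain ⟨z, huz⟩ := h0
  have hvw : H.Adj v w := (hv w).2 rfl
  have hvz : v ≠ z := by
    rintro rfl
    exact huw ((hv u).1 huz.symm)
  have hwz : w ≠ z := by
    rintro rfl
    exact hnuw huz
  have hn : ¬ H.Adj v z := fun h => hwz ((hv z).1 h).symm
  have h1 := h.no_move huv huz hvz hn (move_U1 hq0 hq1 hv huv huw hnuw huz (by omega))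
  have h2 : H.degree v ≤ 1 := by
    rw [← SimpleGraph.card_neighborFinset_eq_degree]
    refine card_le_one.2 fun a ha b hb => ?_
    rw [SimpleGraph.mem_neighborFinset, hv] at ha hb
    rw [ha, hb]
  omega

end U1

end Pool.Agent.W_MP_d15038_ex
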