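import Pool.Agent.W_MP_d15038_ex.Move

/-!
# The two general moves
-/

set_option autoImplicit false
set_option linter.unusedSectionVars false
set_option linter.unusedSimpArgs false

open Finset

namespace Pool.Agent.W_MP_d15038_ex

open scoped Classical

section gen

variable {V : Type} [Fintype V] {H : SimpleGraph V} {u v z : V} {k : ℕ} {f : Fin k → V}

theorem mv_adj_ne (huv : u ≠ v) (huz : u ≠ z) (hvz : v ≠ z) {x y : V}
    (hyu : y ≠ u) (hyv : y ≠ v) (hyz : y ≠ z) : (mv H u v z).Adj x y ↔ H.Adj x y := by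
  by_cases hxu : x = u
  · subst hxu
    rw [mv_adj_u huv huz]
    simp [hyz]
  · by_cases hxv : x = v
    · subst hxv
      rw [mv_adj_v huv hvz]
      simp [hyz]
    · exact mv_adj_off hxu hyu hxv hyv

theorem off_ne (hu : u ∈ Set.range f) (y : Off f) : (y : V) ≠ u := by
  rintro h
  exact y.2 (h ▸ hu)

theorem EY_mv (hu : u ∈ Set.range f) (hv : v ∈ Set.range f) :
    EY H f = EY (mv H u v z) f := by
  have hcm : H.comap (Subtype.val : Off f → V) = (mv H u v z).comap (Subtype.val : Off f → V) := by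
    ext y y'
    rw [SimpleGraph.comap_adj, SimpleGraph.comap_adj,
      mv_adj_off (off_ne hu y) (off_ne hu y') (off_ne hv y) (off_ne hv y')]
  unfold EY
  ext e
  rw [SimpleGraph.mem_edgeFinset, SimpleGraph.mem_edgeFinset, hcm]

theorem aC_mv_ne (huv : u ≠ v) (huz : u ≠ z) (hvz : v ≠ z) (hu : u ∈ Set.range f)
    (hv : v ∈ Set.range f) (hz : z ∉ Set.range f) (q : ℝ) {S : Finset (Sym2 (Off f))}
    {C : (gr S).ConnectedComponent} (hC : C ≠ (gr S).connectedComponentMk ⟨z, hz⟩) (i : Fin k) :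
    aC (mv H u v z) f q C i = aC H f q C i := by
  unfold aC
  refine prod_congr rfl fun y hy => ?_
  rw [mem_filter] at hy
  have hyz : (y : V) ≠ z := by
    rintro h
    apply hC
    rw [← hy.2]
    congr 1
    exact Subtype.ext h
  simp only [mv_adj_ne huv huz hvz (off_ne hu y) (off_ne hv y) hyz]

theorem aC_mv_other (hu : u ∈ Set.range f)
    (hv : v ∈ Set.range f) (q : ℝ) {S : Finset (Sym2 (Off f))}
    (C : (gr S).ConnectedComponent) {i : Fin k} (hiu : f i ≠ u) (hiv : f i ≠ v) :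
    aC (mv H u v z) f q C i = aC H f q C i := by
  unfold aC
  refine prod_congr rfl fun y _ => ?_
  simp only [mv_adj_off hiu (off_ne hu y) hiv (off_ne hv y)]

/-- the factor without `z` -/
noncomputable def aD (H : SimpleGraph V) (f : Fin k → V) (q : ℝ) (hz : z ∉ Set.range f)
    (S : Finset (Sym2 (Off f))) (i : Fin k) : ℝ :=
  ∏ y ∈ (univ.filter (fun y => (gr S).connectedComponentMk y =
    (gr S).connectedComponentMk ⟨z, hz⟩)).erase ⟨z, hz⟩, if H.Adj (f i) y then 1 else q

theorem aC_split (H : SimpleGraph V) (q : ℝ) (hz : z ∉ Set.range f) (S : Finset (Sym2 (Off f)))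
    (i : Fin k) : aC H f q ((gr S).connectedComponentMk ⟨z, hz⟩) i =
      (if H.Adj (f i) z then 1 else q) * aD H f q hz S i := by
  unfold aC aD
  have hmem : (⟨z, hz⟩ : Off f) ∈ univ.filter (fun y => (gr S).connectedComponentMk y =
      (gr S).connectedComponentMk ⟨z, hz⟩) := by
    rw [mem_filter]
    exact ⟨mem_univ _, rfl⟩
  rw [← mul_prod_erase _ _ hmem]

theorem aD_mv (huv : u ≠ v) (huz : u ≠ z) (hvz : v ≠ z) (hu : u ∈ Set.range f)
    (hv : v ∈ Set.range f) (hz : z ∉ Set.range f) (q : ℝ) (S : Finset (Sym2 (Off f)))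
    (i : Fin k) : aD (mv H u v z) f q hz S i = aD H f q hz S i := by
  unfold aD
  refine prod_congr rfl fun y hy => ?_
  rw [mem_erase] at hy
  have hyz : (y : V) ≠ z := fun h => hy.1 (Subtype.ext h)
  simp only [mv_adj_ne huv huz hvz (off_ne hu y) (off_ne hv y) hyz]

theorem aD_pos {q : ℝ} (hq : 0 < q) (H : SimpleGraph V) (hz : z ∉ Set.range f)
    (S : Finset (Sym2 (Off f))) (i : Fin k) : 0 < aD H f q hz S i := by
  refine prod_pos fun y _ => ?_
  split_ifs
  · exact one_pos
  · exact hq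

theorem aC_pos {q : ℝ} (hq : 0 < q) (H : SimpleGraph V) {S : Finset (Sym2 (Off f))}
    (C : (gr S).ConnectedComponent) (i : Fin k) : 0 < aC H f q C i := by
  refine prod_pos fun y _ => ?_
  split_ifs
  · exact one_pos
  · exact hq

theorem aC_le_one {q : ℝ} (hq : 0 < q) (hq1 : q ≤ 1) (H : SimpleGraph V)
    {S : Finset (Sym2 (Off f))} (C : (gr S).ConnectedComponent) (i : Fin k) :
    aC H f q C i ≤ 1 := by
  refine prod_le_one (fun y _ => ?_) (fun y _ => ?_)
  · split_ifs
    · exact zero_le_one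
    · exact hq.le
  · split_ifs
    · exact le_rfl
    · exact hq1

end gen

section M2

variable {V : Type} [Fintype V] {H : SimpleGraph V} {u v z : V}

theorem parts_two (NH NH' : ℕ → List ℕ) : parts NH NH' 2 =
    [([[1, 0]], Nat.add (Nat.add 0 (len (NH 0))) (Nat.add (len [0]) (cntOut [0] (NH 1))),
      Nat.add (Nat.add 0 (len (NH' 0))) (Nat.add (len [0]) (cntOut [0] (NH' 1)))),
     ([[1], [0]], Nat.add (Nat.add 0 (len (NH 0))) (len (NH 1)),
      Nat.add (Nat.add 0 (len (NH' 0))) (len (NH' 1)))] := rfl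

theorem move_M2 {q : ℝ} (hq0 : 0 < q) (hq1 : q < 1) (huv : u ≠ v) (huz : H.Adj u z)
    (hvz : v ≠ z) (hn : ¬ H.Adj v z) (hsub : ∀ x, H.Adj v x → x ≠ u → H.Adj u x) :
    RelE (Ec H) q ≤ RelE (Ec (mv H u v z)) q := by
  obtain ⟨y, hy⟩ : ∃ y, y = q⁻¹ - 1 := ⟨_, rfl⟩
  have hqy : q * (1 + y) = 1 := by
    rw [hy, add_sub_cancel, mul_inv_cancel₀ hq0.ne']
  have hy0 : 0 < y := by
    rw [hy, sub_pos]
    exact (one_lt_inv₀ hq0).2 hq1
  set f : Fin 2 → V := ![u, v] with hfd
  have hf : Function.Injective f := by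
    intro i j h
    fin_cases i <;> fin_cases j <;> simp [hfd, huv, huv.symm] at h ⊢
  have hu : u ∈ Set.range f := ⟨0, rfl⟩
  have hv : v ∈ Set.range f := ⟨1, rfl⟩
  have hz : z ∉ Set.range f := by
    rintro ⟨i, hi⟩
    fin_cases i
    · exact huz.ne hi
    · exact hvz hi
  set NH : ℕ → List ℕ := fun i => if i = 1 ∧ H.Adj u v then [0] else [] with hNH
  have hadj : ∀ G : SimpleGraph V, (G.Adj u v ↔ H.Adj u v) → HubNH G f NH := by
    intro G hG
    refine ⟨?_, ?_, ?_⟩
    · intro i _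
      simp only [hNH]
      split_ifs <;> simp
    · intro i _ a ha
      simp only [hNH] at ha
      split_ifs at ha with h
      · rw [List.mem_singleton] at ha
        omega
      · simp at ha
    · intro i j hij
      fin_cases i <;> fin_cases j
      · simp at hij
      · simp at hij
      · simp [hNH, hfd, hG]
      · simp at hij
  have hN1 := hadj H Iff.rfl
  have hN2 := hadj (mv H u v z) (by
    rw [mv_adj_u huv huz.ne]
    simp [hvz])
  have hd := rel_diff two_pos hf hN1 hN2 (EY_mv hu hv) hq0 hqy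
  rw [← sub_nonneg, hd]
  refine sum_nonneg fun S _ => ?_
  refine mul_nonneg (mul_pos (pow_pos (sub_pos.2 hq1) _) (pow_pos hq0 _)).le
    (mul_nonneg (pow_pos hq0 _).le ?_)
  rw [parts_two]
  set Z := (gr S).connectedComponentMk ⟨z, hz⟩ with hZ
  have g1 : ∀ a : Fin 2 → ℝ, gfun 2 a [[1, 0]] = 1 - a 0 * a 1 := by
    intro a
    simp [gfun, phi, Fin.prod_univ_two]
  have g2 : ∀ a : Fin 2 → ℝ, gfun 2 a [[1], [0]] = a 0 + a 1 - 2 * (a 0 * a 1) := by
    intro a
    simp [gfun, phi, Fin.prod_univ_two]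
  simp only [List.map_cons, List.map_nil, List.sum_cons, List.sum_nil, g1, g2, List.length_cons,
    List.length_nil]
  have hD0 := aD_mv huv huz.ne hvz hu hv hz q S (H := H) 0
  have hD1 := aD_mv huv huz.ne hvz hu hv hz q S (H := H) 1
  have a0 : aC H f q Z 0 = aD H f q hz S 0 := by
    rw [aC_split H q hz S 0]
    simp only [hfd, Matrix.cons_val_zero, huz, if_true, one_mul]
  have a1 : aC H f q Z 1 = q * aD H f q hz S 1 := by
    rw [aC_split H q hz S 1, if_neg]
    exact hn
  have a0' : aC (mv H u v z) f q Z 0 = q * aD H f q hz S 0 := by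
    rw [aC_split _ q hz S 0, hD0, if_neg]
    exact fun h => ((mv_adj_u huv huz.ne z).1 h).2 rfl
  have a1' : aC (mv H u v z) f q Z 1 = aD H f q hz S 1 := by
    rw [aC_split _ q hz S 1, hD1, if_pos, one_mul]
    exact (mv_adj_v huv hvz z).2 (Or.inr rfl)
  have hle : aD H f q hz S 1 ≤ aD H f q hz S 0 := by
    unfold aD
    refine prod_le_prod (fun y _ => ?_) (fun y _ => ?_)
    · split_ifs
      · exact zero_le_one
      · exact hq0.le
    · change (if H.Adj v y then (1 : ℝ) else q) ≤ if H.Adj u y then 1 else q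
      by_cases h1 : H.Adj v y
      · rw [if_pos h1, if_pos (hsub y h1 (off_ne hu y))]
      · rw [if_neg h1]
        split_ifs
        · exact hq1.le
        · exact le_rfl
  have e1 : ∏ C : (gr S).ConnectedComponent,
      (1 - aC (mv H u v z) f q C 0 * aC (mv H u v z) f q C 1) =
      ∏ C : (gr S).ConnectedComponent, (1 - aC H f q C 0 * aC H f q C 1) := by
    refine prod_congr rfl fun C _ => ?_
    by_cases hC : C = Z
    · rw [hC, a0, a1, a0', a1']
      ring
    · rw [aC_mv_ne huv huz.ne hvz hu hv hz q hC, aC_mv_ne huv huz.ne hvz hu hv hz q hC]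
  rw [e1]
  have e2 : ∏ C : (gr S).ConnectedComponent, (aC (mv H u v z) f q C 0 + aC (mv H u v z) f q C 1 -
      2 * (aC (mv H u v z) f q C 0 * aC (mv H u v z) f q C 1)) =
      (aC (mv H u v z) f q Z 0 + aC (mv H u v z) f q Z 1 -
      2 * (aC (mv H u v z) f q Z 0 * aC (mv H u v z) f q Z 1)) *
      ∏ C ∈ univ.erase Z, (aC H f q C 0 + aC H f q C 1 - 2 * (aC H f q C 0 * aC H f q C 1)) := by
    rw [← mul_prod_erase univ _ (mem_univ Z)]
    congr 1
    refine prod_congr rfl fun C hC => ?_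
    rw [mem_erase] at hC
    rw [aC_mv_ne huv huz.ne hvz hu hv hz q hC.1, aC_mv_ne huv huz.ne hvz hu hv hz q hC.1]
  have e3 : ∏ C : (gr S).ConnectedComponent, (aC H f q C 0 + aC H f q C 1 -
      2 * (aC H f q C 0 * aC H f q C 1)) =
      (aC H f q Z 0 + aC H f q Z 1 - 2 * (aC H f q Z 0 * aC H f q Z 1)) *
      ∏ C ∈ univ.erase Z, (aC H f q C 0 + aC H f q C 1 - 2 * (aC H f q C 0 * aC H f q C 1)) := by
    rw [← mul_prod_erase univ _ (mem_univ Z)]
  rw [e2, e3]
  have hP : 0 ≤ ∏ C ∈ univ.erase Z,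
      (aC H f q C 0 + aC H f q C 1 - 2 * (aC H f q C 0 * aC H f q C 1)) := by
    refine prod_nonneg fun C _ => ?_
    have h1 := aC_pos hq0 H C 0
    have h2 := aC_pos hq0 H C 1
    have h3 := aC_le_one hq0 hq1.le H C 0
    have h4 := aC_le_one hq0 hq1.le H C 1
    nlinarith
  set P := ∏ C ∈ univ.erase Z,
      (aC H f q C 0 + aC H f q C 1 - 2 * (aC H f q C 0 * aC H f q C 1))
  rw [a0, a1, a0', a1']
  have m1 : mu (0 + 1 + 1) = -1 := by simp [mu]
  have m0 : mu (0 + 1) = 1 := by simp [mu]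
  rw [m1, m0]
  set A := aD H f q hz S 0
  set B := aD H f q hz S 1
  set Y := (1 + y) ^ ((Nat.add 0 (len (NH 0))).add (len (NH 1)))
  have hY : 0 < Y := pow_pos (by linarith) _
  have : (0 : ℝ) ≤ Y * (P * ((1 - q) * (A - B))) :=
    mul_nonneg hY.le (mul_nonneg hP (mul_nonneg (by linarith) (by linarith)))
  linarith

theorem Opt.M2 {q : ℝ} (hq0 : 0 < q) (hq1 : q < 1) (h : Opt H q) (huv : u ≠ v) (huz : H.Adj u z)
    (hvz : v ≠ z) (hn : ¬ H.Adj v z) (hsub : ∀ x, H.Adj v x → x ≠ u → H.Adj u x) :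
    H.degree u ≤ H.degree v + 1 :=
  h.no_move huv huz hvz hn (move_M2 hq0 hq1 huv huz hvz hn hsub)

end M2

end Pool.Agent.W_MP_d15038_ex
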