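import Pool.Agent.W_MP_d15038_ex.Master

/-!
# Patterns of marks, and the factor of a marked cluster
-/

set_option autoImplicit false
set_option linter.unusedSectionVars false
set_option linter.unusedSimpArgs false

open Finset

namespace Pool.Agent.W_MP_d15038_ex

open scoped Classical

theorem nthL_nil (n : ℕ) : nthL [] n = [] := rfl
theorem nthL_cons_zero (a : List ℕ) (l : List (List ℕ)) : nthL (a :: l) 0 = a := rfl
theorem nthL_cons_succ (a : List ℕ) (l : List (List ℕ)) (n : ℕ) :
    nthL (a :: l) (n + 1) = nthL l n := rfl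

theorem nthL_eq (l : List (List ℕ)) (n : ℕ) : nthL l n = l.getD n [] := by
  induction l generalizing n with
  | nil => simp [nthL_nil]
  | cons a l ih =>
    cases n with
    | zero => simp [nthL_cons_zero]
    | succ n => rw [nthL_cons_succ, ih]; simp

theorem nth_eq (l : List ℕ) (n : ℕ) : nth l n = l.getD n 0 := by
  induction l generalizing n with
  | nil => simp [nth]
  | cons a l ih =>
    cases n with
    | zero => rfl
    | succ n =>
      change nth l n = _
      rw [ih]
      simp

theorem cntIn_eq (bl M : List ℕ) : cntIn bl M = (bl.filter (fun a => a ∈ M)).length := by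
  induction bl with
  | nil => rfl
  | cons a bl ih =>
    change cond (memb a M) (Nat.succ (cntIn bl M)) (cntIn bl M) = _
    rw [List.filter_cons]
    rcases h : memb a M with _ | _
    · have h1 : a ∉ M := fun h2 => by rw [(memb_eq a M).2 h2] at h; cases h
      rw [cond_false, ih]
      simp [h1]
    · have h1 : a ∈ M := (memb_eq a M).1 h
      rw [cond_true, ih]
      simp [h1]

theorem eblk_eq (e b : List ℕ) : eblk e b = (b.map (nth e)).sum := by
  induction b with
  | nil => rfl
  | cons a b ih =>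
    change nth e a + eblk e b = _
    rw [ih]
    rfl

/-! ### patterns -/

theorem ins_mem (k : ℕ) (N N' : List ℕ) (e e' : ℕ) (b : List ℕ) (κ2 : List (List ℕ)) :
    ∀ κ1 : List (List ℕ), ∃ p ∈ ins k N N' e e' (κ1 ++ b :: κ2), p.1 = κ1 ++ (k :: b) :: κ2 := by
  intro κ1
  induction κ1 with
  | nil => exact ⟨_, List.mem_cons_self, rfl⟩
  | cons a κ1 ih =>
    obtain ⟨p, hp, hp1⟩ := ih
    refine ⟨(a :: p.1, p.2), ?_, ?_⟩
    · change _ ∈ _ :: lmap (fun p => (a :: p.1, p.2)) (ins k N N' e e' (κ1 ++ b :: κ2))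
      rw [lmap_eq]
      exact List.mem_cons_of_mem _ (List.mem_map_of_mem hp)
    · rw [hp1]
      rfl

section pattern

variable {Ω : Type*}

theorem cls_succ (r : ℕ) (f : Fin (r + 1) → Ω) (ω : Ω) :
    cls (r + 1) f ω = if f (Fin.last r) = ω then r :: cls r (fun i => f i.castSucc) ω
      else cls r (fun i => f i.castSucc) ω := rfl

theorem cls_eq_nil {r : ℕ} {f : Fin r → Ω} {ω : Ω} : cls r f ω = [] ↔ ∀ j, f j ≠ ω := by
  rw [List.eq_nil_iff_forall_not_mem]
  constructor
  · intro h j hj
    exact h j ((mem_cls r f ω j).2 ⟨j.2, hj⟩)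
  · intro h a ha
    obtain ⟨h1, h2⟩ := (mem_cls r f ω a).1 ha
    exact h _ h2

theorem pattern_exists : ∀ (r : ℕ) (f : Fin r → Ω), ∃ p ∈ parts noN noN r, ∃ as : List Ω,
    as.Nodup ∧ (∀ ω, ω ∈ as ↔ ∃ j, f j = ω) ∧ p.1 = as.map (cls r f) := by
  intro r
  induction r with
  | zero =>
    intro f
    refine ⟨([], 0, 0), by simp [parts], [], by simp, fun ω => ?_, rfl⟩
    simp
  | succ r ih =>
    intro f
    obtain ⟨p, hp, as, h1, h2, h3⟩ := ih (fun i => f i.castSucc)
    by_cases hm : f (Fin.last r) ∈ as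
    · obtain ⟨l1, l2, h4⟩ := List.append_of_mem hm
      rw [h4, List.map_append, List.map_cons] at h3
      obtain ⟨p', hp', h5⟩ := ins_mem r (noN r) (noN r) p.2.1 p.2.2
        (cls r (fun i => f i.castSucc) (f (Fin.last r)))
        (l2.map (cls r (fun i => f i.castSucc))) (l1.map (cls r (fun i => f i.castSucc)))
      rw [← h3] at hp'
      refine ⟨p', ?_, as, h1, fun ω => ?_, ?_⟩
      · rw [parts_succ]
        exact List.mem_flatMap.2 ⟨p, hp, List.mem_append.2 (Or.inl hp')⟩
      · constructor
        · intro h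
          obtain ⟨j, hj⟩ := (h2 ω).1 h
          exact ⟨j.castSucc, hj⟩
        · rintro ⟨j, rfl⟩
          rcases Fin.eq_castSucc_or_eq_last j with ⟨j, rfl⟩ | rfl
          · exact (h2 _).2 ⟨j, rfl⟩
          · exact hm
      · rw [h4, List.nodup_append] at h1
        have h6 := (List.nodup_cons.1 h1.2.1).1
        rw [h5, h4, List.map_append, List.map_cons]
        have e1 : l1.map (cls (r + 1) f) = l1.map (cls r (fun i => f i.castSucc)) := by
          refine List.map_congr_left fun ω hω => ?_
          rw [cls_succ, if_neg]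
          intro h7
          exact h1.2.2 ω hω _ List.mem_cons_self h7.symm
        have e2 : l2.map (cls (r + 1) f) = l2.map (cls r (fun i => f i.castSucc)) := by
          refine List.map_congr_left fun ω hω => ?_
          rw [cls_succ, if_neg]
          intro h7
          exact h6 (h7 ▸ hω)
        rw [e1, e2, cls_succ r f (f (Fin.last r)), if_pos rfl]
    · refine ⟨([r] :: p.1, p.2.1 + (noN r).length, p.2.2 + (noN r).length), ?_,
        f (Fin.last r) :: as, List.nodup_cons.2 ⟨hm, h1⟩, fun ω => ?_, ?_⟩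
      · rw [parts_succ]
        exact List.mem_flatMap.2 ⟨p, hp, List.mem_append.2 (Or.inr (List.mem_singleton.2 rfl))⟩
      · rw [List.mem_cons]
        constructor
        · rintro (rfl | h)
          · exact ⟨_, rfl⟩
          · obtain ⟨j, hj⟩ := (h2 ω).1 h
            exact ⟨j.castSucc, hj⟩
        · rintro ⟨j, rfl⟩
          rcases Fin.eq_castSucc_or_eq_last j with ⟨j, rfl⟩ | rfl
          · exact Or.inr ((h2 _).2 ⟨j, rfl⟩)
          · exact Or.inl rfl
      · rw [List.map_cons, cls_succ, if_pos rfl]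
        have e1 : cls r (fun i => f i.castSucc) (f (Fin.last r)) = [] := by
          rw [cls_eq_nil]
          intro j hj
          exact hm ((h2 _).2 ⟨j, hj⟩)
        have e2 : as.map (cls (r + 1) f) = as.map (cls r (fun i => f i.castSucc)) := by
          refine List.map_congr_left fun ω hω => ?_
          rw [cls_succ, if_neg]
          intro h7
          exact hm (h7 ▸ hω)
        rw [e1, e2, ← h3]

theorem pattern_disc : ∀ (r : ℕ) (f : Fin r → Ω), Function.Injective f → ∃ as : List Ω,
    as.Nodup ∧ (∀ ω, ω ∈ as ↔ ∃ j, f j = ω) ∧ discPat r = as.map (cls r f) := by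
  intro r
  induction r with
  | zero =>
    intro f _
    exact ⟨[], by simp, fun ω => by simp, rfl⟩
  | succ r ih =>
    intro f hf
    obtain ⟨as, h1, h2, h3⟩ := ih (fun i => f i.castSucc)
      (fun i j h => Fin.castSucc_injective _ (hf h))
    have hm : f (Fin.last r) ∉ as := by
      intro h
      obtain ⟨j, hj⟩ := (h2 _).1 h
      exact (Fin.castSucc_lt_last j).ne (hf hj)
    refine ⟨f (Fin.last r) :: as, List.nodup_cons.2 ⟨hm, h1⟩, fun ω => ?_, ?_⟩
    · rw [List.mem_cons]
      constructor
      · rintro (rfl | h)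
        · exact ⟨_, rfl⟩
        · obtain ⟨j, hj⟩ := (h2 ω).1 h
          exact ⟨j.castSucc, hj⟩
      · rintro ⟨j, rfl⟩
        rcases Fin.eq_castSucc_or_eq_last j with ⟨j, rfl⟩ | rfl
        · exact Or.inr ((h2 _).2 ⟨j, rfl⟩)
        · exact Or.inl rfl
    · rw [List.map_cons, cls_succ, if_pos rfl]
      have e1 : cls r (fun i => f i.castSucc) (f (Fin.last r)) = [] := by
        rw [cls_eq_nil]
        intro j hj
        exact hm ((h2 _).2 ⟨j, hj⟩)
      have e2 : as.map (cls (r + 1) f) = as.map (cls r (fun i => f i.castSucc)) := by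
        refine List.map_congr_left fun ω hω => ?_
        rw [cls_succ, if_neg]
        intro h7
        exact hm (h7 ▸ hω)
      rw [e1, e2, ← h3]
      rfl

theorem filter_cls (r : ℕ) (f : Fin r → Ω) (ω : Ω) (P : ℕ → Prop) [DecidablePred P] :
    ((cls r f ω).filter (fun a => P a)).length =
      (univ.filter fun j : Fin r => f j = ω ∧ P j).card := by
  rw [← List.toFinset_card_of_nodup ((nodup_cls r f ω).filter _), ← card_map Fin.valEmbedding]
  congr 1
  ext a
  simp only [List.mem_toFinset, List.mem_filter, decide_eq_true_eq, mem_map, mem_filter, mem_univ,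
    true_and, Fin.valEmbedding_apply, mem_cls]
  constructor
  · rintro ⟨⟨h1, h2⟩, h3⟩
    exact ⟨⟨a, h1⟩, ⟨h2, h3⟩, rfl⟩
  · rintro ⟨j, ⟨h2, h3⟩, rfl⟩
    exact ⟨⟨j.2, h2⟩, h3⟩

theorem length_cls (r : ℕ) (f : Fin r → Ω) (ω : Ω) :
    (cls r f ω).length = (univ.filter fun j : Fin r => f j = ω).card := by
  have := filter_cls r f ω (fun _ => True)
  simpa using this

end pattern

/-! ### factors -/

theorem phi_pow {k : ℕ} {q y s : ℝ} (hqy : q * (1 + y) = 1) (e : List ℕ) (x : List ℕ)
    (hx : x.Nodup) (hx' : ∀ a ∈ x, a < k) :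
    phi k (fun i => s * q ^ nth e i) x =
      q ^ (eblk e (lrange k)) * (s ^ (k - x.length) * (1 + y) ^ eblk e x) := by
  unfold phi
  have h1 : ∏ i : Fin k, (if (i : ℕ) ∈ x then (1 : ℝ) else s * q ^ nth e i) =
      ∏ i ∈ (range k) \ x.toFinset, (s * q ^ nth e i) := by
    rw [Fin.prod_univ_eq_prod_range (fun i => if i ∈ x then (1 : ℝ) else s * q ^ nth e i) k,
      prod_ite, prod_const_one, one_mul]
    refine prod_congr ?_ fun _ _ => rfl
    ext a
    simp [mem_filter]
  have hsub : x.toFinset ⊆ range k := by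
    intro a ha
    rw [List.mem_toFinset] at ha
    exact mem_range.2 (hx' a ha)
  have h2 : eblk e (lrange k) = (∑ i ∈ (range k) \ x.toFinset, nth e i) + eblk e x := by
    rw [eblk_eq, eblk_eq, lrange_eq, ← List.sum_toFinset _ hx, sum_sdiff hsub,
      ← List.sum_toFinset _ List.nodup_range, List.toFinset_range]
  have h3 : ((range k) \ x.toFinset).card = k - x.length := by
    rw [card_sdiff_of_subset hsub, card_range, List.toFinset_card_of_nodup hx]
  rw [h1, prod_mul_distrib, prod_const, h3, prod_pow_eq_pow_sum, h2, pow_add]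
  have h4 : q ^ eblk e x * (1 + y) ^ eblk e x = 1 := by rw [← mul_pow, hqy, one_pow]
  linear_combination (-(s ^ (k - x.length)) * q ^ (∑ i ∈ (range k) \ x.toFinset, nth e i)) * h4

theorem gfun_GF {k : ℕ} {q y s : ℝ} (hqy : q * (1 + y) = 1) (e : List ℕ) (c0 : ℕ)
    {κ : List (List ℕ)} (hκ : PInv k κ) :
    gfun k (fun i => s * q ^ nth e i) κ =
      q ^ (eblk e (lrange k) + c0) * GF y s k e c0 κ := by
  unfold gfun GF
  have h1 : κ.map (phi k (fun i => s * q ^ nth e i)) =
      κ.map (fun b => q ^ (eblk e (lrange k)) * (s ^ (k - b.length) * (1 + y) ^ eblk e b)) := by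
    refine List.map_congr_left fun b hb => ?_
    exact phi_pow hqy e b (hκ.nd b hb) (hκ.lt b hb)
  rw [h1, List.sum_map_mul_left, phi_pow hqy e [] List.nodup_nil (by simp)]
  have h2 : (κ.map fun b => s ^ (k - b.length) * (1 + y) ^ (c0 + eblk e b)).sum =
      (1 + y) ^ c0 * (κ.map fun b => s ^ (k - b.length) * (1 + y) ^ eblk e b).sum := by
    rw [← List.sum_map_mul_left]
    congr 1
    refine List.map_congr_left fun b _ => ?_
    ring
  rw [h2]
  have h4 : q ^ c0 * (1 + y) ^ c0 = 1 := by rw [← mul_pow, hqy, one_pow]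
  have h5 : eblk e [] = 0 := rfl
  rw [h5, pow_add, List.length_nil]
  simp only [pow_zero, mul_one, Nat.sub_zero]
  linear_combination (-(q ^ eblk e (lrange k) * (κ.map fun b => s ^ (k - b.length) * (1 + y) ^ eblk e b).sum) +
    q ^ eblk e (lrange k) * (κ.length * s ^ k)) * h4

theorem gfun_uf {k : ℕ} {t : ℝ} {κ : List (List ℕ)} (hκ : PInv k κ) :
    gfun k (fun _ => t) κ = uf k t (κ.map List.length) := by
  have h1 : ∀ x : List ℕ, x.Nodup → (∀ a ∈ x, a < k) → phi k (fun _ => t) x = t ^ (k - x.length) := by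
    intro x hx hx'
    have := phi_pow (k := k) (q := 1) (y := 0) (s := t) (by norm_num) [] x hx hx'
    simpa using this
  unfold gfun uf
  rw [h1 [] List.nodup_nil (by simp), List.map_map, List.length_map]
  congr 2
  refine List.map_congr_left fun b hb => ?_
  rw [h1 b (hκ.nd b hb) (hκ.lt b hb)]
  rfl

end Pool.Agent.W_MP_d15038_ex
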