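import Pool.Agent.W_MP_d15038_ex.Hom

/-!
# From the boolean check to real inequalities between the outputs
-/

set_option autoImplicit false

open Polynomial

namespace Pool.Agent.W_MP_d15038_ex

theorem cond_false_right {b c : Bool} (h : cond b c false = true) : b = true ∧ c = true := by
  cases b
  · exact absurd h (by simp)
  · exact ⟨rfl, h⟩

theorem cond_false_left {b c : Bool} (h : cond b false c = true) : b = false ∧ c = true := by
  cases b
  · exact ⟨rfl, h⟩
  · exact absurd h (by simp)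

theorem allLE_cons (Q fuel : ℕ) (a : ℕ × ℕ) (l : List (ℕ × ℕ)) (b : ℕ × ℕ) (m : List (ℕ × ℕ)) :
    allLE Q fuel (a :: l) (b :: m) = cond (Nat.ble Q b.1) false (cond (Nat.ble Q b.2) false
        (cond (digLE Q fuel a.2 a.1) (allLE Q fuel l m) false)) := rfl

theorem not_ble {a b : ℕ} (h : Nat.ble a b = false) : b < a := by
  by_contra h1
  rw [Nat.ble_eq_true_of_le (not_lt.1 h1)] at h
  exact absurd h (by simp)

theorem allLE_sound (Q : ℕ) (hQ : 0 < Q) (fuel : ℕ) (L : List (ℕ[X] × ℕ[X]))
    (h : allLE Q fuel (L.map (Prod.map (fun P => P.eval Q) (fun P => P.eval Q)))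
      (L.map (Prod.map (fun P => P.eval 1) (fun P => P.eval 1))) = true) :
    ∀ p ∈ L, (∀ y : ℝ, 0 ≤ y → p.2.eval₂ (Nat.castRingHom ℝ) y ≤ p.1.eval₂ (Nat.castRingHom ℝ) y) ∧
    (p.2.eval Q ≠ p.1.eval Q → ∀ y : ℝ, 0 < y →
      p.2.eval₂ (Nat.castRingHom ℝ) y < p.1.eval₂ (Nat.castRingHom ℝ) y) := by
  induction L with
  | nil => intro p hp; simp at hp
  | cons a L ih =>
    rw [List.map_cons, List.map_cons, allLE_cons] at h
    obtain ⟨h1, h⟩ := cond_false_left h
    obtain ⟨h2, h⟩ := cond_false_left h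
    obtain ⟨h3, h⟩ := cond_false_right h
    intro p hp
    rcases List.mem_cons.1 hp with rfl | hp
    · exact digLE_sound Q hQ fuel _ _ (not_ble h2) (not_ble h1) h3
    · exact ih h p hp

theorem outs_real_eq (y : ℝ) (k : ℕ) (rows : List (List ℕ)) (cs : List Clu) (T : List (List ℕ))
    (G : List (ℕ × List Part)) :
    outs (opsReal y) k rows cs (mkGrp (opsReal y) T G) =
      (outs opsPoly k rows cs (mkGrp opsPoly T G)).map
        (Prod.map (fun P => P.eval₂ (Nat.castRingHom ℝ) y) (fun P => P.eval₂ (Nat.castRingHom ℝ) y)) := by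
  rw [outs_map (hom_real y), mkGrp_map (hom_real y)]

theorem outs_nat_eq (Q : ℕ) (k : ℕ) (rows : List (List ℕ)) (cs : List Clu) (T : List (List ℕ))
    (G : List (ℕ × List Part)) :
    outs (opsNat Q) k rows cs (mkGrp (opsNat Q) T G) =
      (outs opsPoly k rows cs (mkGrp opsPoly T G)).map
        (Prod.map (fun P => P.eval Q) (fun P => P.eval Q)) := by
  rw [outs_map (hom_nat Q), mkGrp_map (hom_nat Q)]

theorem checkPattern_sound {T : Tab} {k : ℕ} {G : List (ℕ × List Part)} {MH MH' : List (List ℕ)}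
    {Q fuel : ℕ} {pat : List (List ℕ)} (hQ : 0 < Q)
    (h : checkPattern T k G MH MH' Q fuel pat = true) {y : ℝ} (hy : 0 ≤ y) :
    ∀ p ∈ outs (opsReal y) k T.rows (pat.map (mkClu k MH MH')) (mkGrp (opsReal y) T.types G),
      p.2 ≤ p.1 := by
  unfold checkPattern at h
  rw [lmap_eq, outs_nat_eq, outs_nat_eq] at h
  have h1 := allLE_sound Q hQ fuel _ h
  rw [outs_real_eq]
  intro p hp
  obtain ⟨p', hp', rfl⟩ := List.mem_map.1 hp
  exact (h1 p' hp').1 y hy

theorem strict_sound {T : Tab} {k r : ℕ} {G : List (ℕ × List Part)} {MH MH' : List (List ℕ)}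
    {Q fuel : ℕ} (hQ : 0 < Q)
    (h : checkPattern T k G MH MH' Q fuel (discPat r) = true)
    (hs : strictCheck T k r G MH MH' Q = true) {y : ℝ} (hy : 0 < y) :
    ∃ p l, outs (opsReal y) k T.rows ((discPat r).map (mkClu k MH MH'))
      (mkGrp (opsReal y) T.types G) = p :: l ∧ p.2 < p.1 := by
  unfold checkPattern at h
  unfold strictCheck at hs
  rw [lmap_eq, outs_nat_eq] at h hs
  rw [outs_nat_eq] at h
  have h1 := allLE_sound Q hQ fuel _ h
  rw [outs_real_eq]
  rcases hl : outs opsPoly k T.rows ((discPat r).map (mkClu k MH MH')) (mkGrp opsPoly T.types G)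
    with _ | ⟨a, l⟩
  · rw [hl, List.map_nil] at hs
    exact absurd hs (by simp [headNe])
  · rw [hl] at hs h1
    refine ⟨_, _, List.map_cons, ?_⟩
    refine (h1 a List.mem_cons_self).2 ?_ y hy
    intro h2
    change cond (Nat.beq (a.1.eval Q) (a.2.eval Q)) false true = true at hs
    rw [h2, Nat.beq_refl] at hs
    exact absurd hs (by simp)

theorem ball_sound {α : Type} {f : α → Bool} {l : List α} (h : ball f l = true) :
    ∀ a ∈ l, f a = true := by
  induction l with
  | nil => intro a ha; simp at ha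
  | cons b l ih =>
    change cond (f b) (ball f l) false = true at h
    obtain ⟨h1, h2⟩ := cond_false_right h
    intro a ha
    rcases List.mem_cons.1 ha with rfl | ha
    · exact h1
    · exact ih h2 a ha

theorem check_sound {T : Tab} {k r : ℕ} {NH NH' MH MH' : List (List ℕ)} {Q fuel : ℕ}
    (h : check T k r NH NH' MH MH' Q fuel = true) :
    (grpd T.types NH NH' k).length = T.types.length ∧
    strictCheck T k r (grpd T.types NH NH' k) MH MH' Q = true ∧
    ∀ p ∈ parts noN noN r, checkPattern T k (grpd T.types NH NH' k) MH MH' Q fuel p.1 = true := by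
  unfold check at h
  obtain ⟨h1, h⟩ := cond_false_right h
  obtain ⟨h2, h⟩ := cond_false_right h
  refine ⟨?_, h2, ball_sound h⟩
  have := Nat.eq_of_beq_eq_true h1
  rwa [len_eq, len_eq] at this

end Pool.Agent.W_MP_d15038_ex
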