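import Pool.Agent.W_MP_d15038_ex.SurgList
import Pool.Agent.W_MP_d15038_ex.MoveU

/-!
# Small components
-/

set_option autoImplicit false
set_option linter.unusedSectionVars false
set_option linter.unusedSimpArgs false

open Finset

namespace Pool.Agent.W_MP_d15038_ex

open scoped Classical

section nb

variable {V : Type} {H : SimpleGraph V}

theorem Nb.adj {v x : V} {l : List V} (h : Nb H v l) (hx : x ∈ l) : H.Adj v x := (h x).2 hx

theorem Nb.ne {x y z : V} {l : List V} (h : Nb H x l) (hyz : H.Adj y z) (hz : z ∉ l) : y ≠ x := by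
  rintro rfl
  exact hz ((h z).1 hyz)

theorem Nb.perm {v : V} {l l' : List V} (h : Nb H v l) (hp : l.Perm l') : Nb H v l' := fun x => by
  rw [h x, hp.mem_iff]

theorem Nb.swap {v a b : V} (h : Nb H v [a, b]) : Nb H v [b, a] := h.perm (List.Perm.swap _ _ _)

theorem Nb.one {v a : V} (h : Nb H v [a]) : ∀ x, H.Adj v x ↔ x = a := fun x => by
  rw [h x, List.mem_singleton]

theorem Nb.two {v a b : V} (h : Nb H v [a, b]) : ∀ x, H.Adj v x ↔ x = a ∨ x = b := fun x => by
  rw [h x]; simp

theorem Nb.three {v a b c : V} (h : Nb H v [a, b, c]) : ∀ x, H.Adj v x ↔ x = a ∨ x = b ∨ x = c :=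
  fun x => by rw [h x]; simp

theorem Nb.four {v a b c d : V} (h : Nb H v [a, b, c, d]) :
    ∀ x, H.Adj v x ↔ x = a ∨ x = b ∨ x = c ∨ x = d := fun x => by rw [h x]; simp

variable [Fintype V]

theorem Nb.deg {v : V} {l : List V} (h : Nb H v l) (hl : l.Nodup) : H.degree v = l.length := by
  rw [← SimpleGraph.card_neighborFinset_eq_degree, ← List.toFinset_card_of_nodup hl]
  congr 1
  ext x
  rw [SimpleGraph.mem_neighborFinset, h x, List.mem_toFinset]

theorem Nb.deg_le {v : V} {l : List V} (h : Nb H v l) : H.degree v ≤ l.length := by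
  rw [← SimpleGraph.card_neighborFinset_eq_degree]
  refine le_trans (card_le_card (t := l.toFinset) fun x hx => ?_) (List.toFinset_card_le l)
  rw [SimpleGraph.mem_neighborFinset, h x] at hx
  exact List.mem_toFinset.2 hx

theorem exists_Nb (H : SimpleGraph V) (v : V) :
    ∃ l : List V, l.Nodup ∧ Nb H v l ∧ l.length = H.degree v := by
  refine ⟨(H.neighborFinset v).toList, nodup_toList _, fun x => ?_, ?_⟩
  · rw [mem_toList, SimpleGraph.mem_neighborFinset]
  · rw [length_toList, SimpleGraph.card_neighborFinset_eq_degree]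

theorem exists_Nb_cons {v a : V} (h : H.Adj v a) :
    ∃ l : List V, (a :: l).Nodup ∧ Nb H v (a :: l) ∧ l.length + 1 = H.degree v := by
  obtain ⟨l, h1, h2, h3⟩ := exists_Nb H v
  have h4 : a ∈ l := (h2 a).1 h
  have h5 := List.perm_cons_erase h4
  refine ⟨l.erase a, h5.nodup_iff.1 h1, h2.perm h5, ?_⟩
  rw [← h3, h5.length_eq]
  simp

theorem nb_one {v a : V} (h : H.Adj v a) (hd : H.degree v = 1) : Nb H v [a] := by
  obtain ⟨l, h1, h2, h3⟩ := exists_Nb_cons h
  have : l = [] := List.length_eq_zero_iff.1 (by omega)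
  subst this
  exact h2

theorem nb_two {v a : V} (h : H.Adj v a) (hd : H.degree v = 2) : ∃ b, b ≠ a ∧ Nb H v [a, b] := by
  obtain ⟨l, h1, h2, h3⟩ := exists_Nb_cons h
  obtain ⟨b, rfl⟩ := List.length_eq_one_iff.1 (show l.length = 1 by omega)
  refine ⟨b, ?_, h2⟩
  rintro rfl
  simp at h1

theorem nb_three {v a : V} (h : H.Adj v a) (hd : H.degree v = 3) :
    ∃ b c, b ≠ a ∧ c ≠ a ∧ b ≠ c ∧ Nb H v [a, b, c] := by
  obtain ⟨l, h1, h2, h3⟩ := exists_Nb_cons h
  obtain ⟨b, c, rfl⟩ := List.length_eq_two.1 (show l.length = 2 by omega)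
  refine ⟨b, c, ?_, ?_, ?_, h2⟩ <;> rintro rfl <;> simp at h1

theorem nb_four {v a : V} (h : H.Adj v a) (hd : H.degree v = 4) :
    ∃ b c d, b ≠ a ∧ c ≠ a ∧ d ≠ a ∧ b ≠ c ∧ b ≠ d ∧ c ≠ d ∧ Nb H v [a, b, c, d] := by
  obtain ⟨l, h1, h2, h3⟩ := exists_Nb_cons h
  obtain ⟨b, c, d, rfl⟩ := List.length_eq_three.1 (show l.length = 3 by omega)
  refine ⟨b, c, d, ?_, ?_, ?_, ?_, ?_, ?_, h2⟩ <;> rintro rfl <;> simp at h1

/-! ### components -/

omit [Fintype V] in
/-- `S` lists a component -/
structure IsComp (H : SimpleGraph V) (S : List V) : Prop where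
  nd : S.Nodup
  cl : ∀ x ∈ S, ∀ y, H.Adj x y → y ∈ S
  cn : ∀ x ∈ S, ∀ y ∈ S, H.Reachable x y

theorem IsComp.reach {S : List V} (h : IsComp H S) {x y : V} (hx : x ∈ S)
    (hxy : H.Reachable x y) : y ∈ S := by
  obtain ⟨w⟩ := hxy
  induction w with
  | nil => exact hx
  | @cons a b c hab _ ih => exact ih (h.cl a hx b hab)

theorem IsComp.disj {S T : List V} (hS : IsComp H S) (hT : IsComp H T) {x : V} (hx : x ∈ T)
    (hx' : x ∉ S) : ∀ y ∈ T, y ∉ S := fun y hy hy' =>
  hx' (hS.reach hy' (hT.cn y hy x hx))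

theorem IsComp.same {S T : List V} (hS : IsComp H S) (hT : IsComp H T) {x : V} (hx : x ∈ S)
    (hx' : x ∈ T) : S.Perm T := by
  rw [List.perm_ext_iff_of_nodup hS.nd hT.nd]
  exact fun y => ⟨fun h => hT.reach hx' (hS.cn x hx y h), fun h => hS.reach hx (hT.cn x hx' y h)⟩

theorem IsComp.disj_len {S T : List V} (hS : IsComp H S) (hT : IsComp H T)
    (hlen : S.length ≠ T.length) : ∀ y ∈ T, y ∉ S := fun _ hy hy' =>
  hlen (hS.same hT hy' hy).length_eq

theorem nodup_app {α : Type} {l1 l2 : List α} (h1 : l1.Nodup) (h2 : l2.Nodup)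
    (h : ∀ x ∈ l2, x ∉ l1) : (l1 ++ l2).Nodup := by
  rw [List.nodup_append]
  exact ⟨h1, h2, fun a ha b hb hab => h b hb (hab ▸ ha)⟩

theorem IsComp.mk' {S : List V} (a : V) (nd : S.Nodup) (cl : ∀ x ∈ S, ∀ y, H.Adj x y → y ∈ S)
    (h : ∀ x ∈ S, H.Reachable a x) : IsComp H S :=
  ⟨nd, cl, fun x hx y hy => (h x hx).symm.trans (h y hy)⟩

omit [Fintype V] in
/-- component `K_2` -/
def IsK2 (H : SimpleGraph V) (a b : V) : Prop := Nb H a [b] ∧ Nb H b [a]

omit [Fintype V] in
/-- component `P_3` -/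
def IsP3 (H : SimpleGraph V) (a b c : V) : Prop :=
  [a, b, c].Nodup ∧ Nb H a [b] ∧ Nb H b [a, c] ∧ Nb H c [b]

omit [Fintype V] in
/-- component `P_4` -/
def IsP4 (H : SimpleGraph V) (a b c d : V) : Prop :=
  [a, b, c, d].Nodup ∧ Nb H a [b] ∧ Nb H b [a, c] ∧ Nb H c [b, d] ∧ Nb H d [c]

omit [Fintype V] in
/-- component `K_3` -/
def IsTri (H : SimpleGraph V) (a b c : V) : Prop :=
  [a, b, c].Nodup ∧ Nb H a [c, b] ∧ Nb H b [a, c] ∧ Nb H c [b, a]

omit [Fintype V] in
/-- component `C_4` -/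
def IsC4 (H : SimpleGraph V) (a b c d : V) : Prop :=
  [a, b, c, d].Nodup ∧ Nb H a [d, b] ∧ Nb H b [a, c] ∧ Nb H c [b, d] ∧ Nb H d [c, a]

omit [Fintype V] in
/-- component `C_5` -/
def IsC5 (H : SimpleGraph V) (a b c d e : V) : Prop :=
  [a, b, c, d, e].Nodup ∧ Nb H a [e, b] ∧ Nb H b [a, c] ∧ Nb H c [b, d] ∧ Nb H d [c, e] ∧
    Nb H e [d, a]

theorem IsK2.comp {a b : V} (h : IsK2 H a b) : IsComp H [a, b] := by
  obtain ⟨h1, h2⟩ := h
  have a1 : H.Adj a b := h1.adj (by simp)
  refine IsComp.mk' a ?_ ?_ ?_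
  · simp [a1.ne]
  · intro x hx y hxy
    simp only [List.mem_cons, List.not_mem_nil, or_false] at hx ⊢
    rcases hx with rfl | rfl
    · rw [h1.one] at hxy; simp [hxy]
    · rw [h2.one] at hxy; simp [hxy]
  · intro x hx
    simp only [List.mem_cons, List.not_mem_nil, or_false] at hx
    rcases hx with rfl | rfl
    · exact SimpleGraph.Reachable.refl _
    · exact a1.reachable

theorem IsP3.comp {a b c : V} (h : IsP3 H a b c) : IsComp H [a, b, c] := by
  obtain ⟨h0, h1, h2, h3⟩ := h
  have a1 : H.Adj a b := h1.adj (by simp)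
  have a2 : H.Adj b c := h2.adj (by simp)
  refine IsComp.mk' a h0 ?_ ?_
  · intro x hx y hxy
    simp only [List.mem_cons, List.not_mem_nil, or_false] at hx ⊢
    rcases hx with rfl | rfl | rfl
    · rw [h1.one] at hxy; simp [hxy]
    · rw [h2.two] at hxy; tauto
    · rw [h3.one] at hxy; simp [hxy]
  · intro x hx
    simp only [List.mem_cons, List.not_mem_nil, or_false] at hx
    rcases hx with rfl | rfl | rfl
    · exact SimpleGraph.Reachable.refl _
    · exact a1.reachable
    · exact a1.reachable.trans a2.reachable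

theorem IsTri.comp {a b c : V} (h : IsTri H a b c) : IsComp H [a, b, c] := by
  obtain ⟨h0, h1, h2, h3⟩ := h
  have a1 : H.Adj a b := h1.adj (by simp)
  have a2 : H.Adj b c := h2.adj (by simp)
  refine IsComp.mk' a h0 ?_ ?_
  · intro x hx y hxy
    simp only [List.mem_cons, List.not_mem_nil, or_false] at hx ⊢
    rcases hx with rfl | rfl | rfl
    · rw [h1.two] at hxy; tauto
    · rw [h2.two] at hxy; tauto
    · rw [h3.two] at hxy; tauto
  · intro x hx
    simp only [List.mem_cons, List.not_mem_nil, or_false] at hx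
    rcases hx with rfl | rfl | rfl
    · exact SimpleGraph.Reachable.refl _
    · exact a1.reachable
    · exact a1.reachable.trans a2.reachable

theorem IsP4.comp {a b c d : V} (h : IsP4 H a b c d) : IsComp H [a, b, c, d] := by
  obtain ⟨h0, h1, h2, h3, h4⟩ := h
  have a1 : H.Adj a b := h1.adj (by simp)
  have a2 : H.Adj b c := h2.adj (by simp)
  have a3 : H.Adj c d := h3.adj (by simp)
  refine IsComp.mk' a h0 ?_ ?_
  · intro x hx y hxy
    simp only [List.mem_cons, List.not_mem_nil, or_false] at hx ⊢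
    rcases hx with rfl | rfl | rfl | rfl
    · rw [h1.one] at hxy; simp [hxy]
    · rw [h2.two] at hxy; tauto
    · rw [h3.two] at hxy; tauto
    · rw [h4.one] at hxy; simp [hxy]
  · intro x hx
    simp only [List.mem_cons, List.not_mem_nil, or_false] at hx
    rcases hx with rfl | rfl | rfl | rfl
    · exact SimpleGraph.Reachable.refl _
    · exact a1.reachable
    · exact a1.reachable.trans a2.reachable
    · exact (a1.reachable.trans a2.reachable).trans a3.reachable

theorem IsC4.comp {a b c d : V} (h : IsC4 H a b c d) : IsComp H [a, b, c, d] := by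
  obtain ⟨h0, h1, h2, h3, h4⟩ := h
  have a1 : H.Adj a b := h1.adj (by simp)
  have a2 : H.Adj b c := h2.adj (by simp)
  have a3 : H.Adj c d := h3.adj (by simp)
  refine IsComp.mk' a h0 ?_ ?_
  · intro x hx y hxy
    simp only [List.mem_cons, List.not_mem_nil, or_false] at hx ⊢
    rcases hx with rfl | rfl | rfl | rfl
    · rw [h1.two] at hxy; tauto
    · rw [h2.two] at hxy; tauto
    · rw [h3.two] at hxy; tauto
    · rw [h4.two] at hxy; tauto
  · intro x hx
    simp only [List.mem_cons, List.not_mem_nil, or_false] at hx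
    rcases hx with rfl | rfl | rfl | rfl
    · exact SimpleGraph.Reachable.refl _
    · exact a1.reachable
    · exact a1.reachable.trans a2.reachable
    · exact (a1.reachable.trans a2.reachable).trans a3.reachable

theorem IsC5.comp {a b c d e : V} (h : IsC5 H a b c d e) : IsComp H [a, b, c, d, e] := by
  obtain ⟨h0, h1, h2, h3, h4, h5⟩ := h
  have a1 : H.Adj a b := h1.adj (by simp)
  have a2 : H.Adj b c := h2.adj (by simp)
  have a3 : H.Adj c d := h3.adj (by simp)
  have a4 : H.Adj d e := h4.adj (by simp)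
  refine IsComp.mk' a h0 ?_ ?_
  · intro x hx y hxy
    simp only [List.mem_cons, List.not_mem_nil, or_false] at hx ⊢
    rcases hx with rfl | rfl | rfl | rfl | rfl
    · rw [h1.two] at hxy; tauto
    · rw [h2.two] at hxy; tauto
    · rw [h3.two] at hxy; tauto
    · rw [h4.two] at hxy; tauto
    · rw [h5.two] at hxy; tauto
  · intro x hx
    simp only [List.mem_cons, List.not_mem_nil, or_false] at hx
    rcases hx with rfl | rfl | rfl | rfl | rfl
    · exact SimpleGraph.Reachable.refl _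
    · exact a1.reachable
    · exact a1.reachable.trans a2.reachable
    · exact (a1.reachable.trans a2.reachable).trans a3.reachable
    · exact ((a1.reachable.trans a2.reachable).trans a3.reachable).trans a4.reachable

end nb

end Pool.Agent.W_MP_d15038_ex
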