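import Pool.Agent.W_MP_d15038_ex.Local

/-!
# Rewiring a graph at the hubs
-/

set_option autoImplicit false
set_option linter.unusedSectionVars false
set_option linter.unusedSimpArgs false

open Finset

namespace Pool.Agent.W_MP_d15038_ex

open scoped Classical

/-- hub-hub data -/
def NHof (k : ℕ) (A : List (List ℕ)) : List (List ℕ) :=
  (List.range k).map fun i => (A.getD i []).filter (fun a => a < i)

/-- hub-mark data -/
def MHof (k : ℕ) (A : List (List ℕ)) : List (List ℕ) :=
  (List.range k).map fun i => ((A.getD i []).filter (fun a => k ≤ a)).map (fun a => a - k)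

/-- edge count data -/
def cntE (k : ℕ) (A : List (List ℕ)) : ℕ :=
  ((List.range k).map fun i => ((A.getD i []).filter (fun a => a < k)).length +
    2 * ((A.getD i []).filter (fun a => k ≤ a)).length).sum

/-- consistency of the data -/
def DataOK (k r : ℕ) (A : List (List ℕ)) : Prop :=
  (∀ i < k, (A.getD i []).Nodup) ∧ (∀ i < k, ∀ j ∈ A.getD i [], j < k + r) ∧
  (∀ i < k, i ∉ A.getD i []) ∧ (∀ i < k, ∀ j ∈ A.getD i [], j < k → i ∈ A.getD j [])

section surg

variable {V : Type} {k r : ℕ}

/-- description of a graph at the hubs -/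
def HubD (H : SimpleGraph V) (F : Fin (k + r) → V) (A : List (List ℕ)) : Prop :=
  ∀ (i : Fin k) (x : V), H.Adj (F (Fin.castAdd r i)) x ↔
    ∃ a : Fin (k + r), (a : ℕ) ∈ A.getD i [] ∧ F a = x

/-- the hubs -/
abbrev fH (F : Fin (k + r) → V) : Fin k → V := fun i => F (Fin.castAdd r i)
/-- the marks -/
abbrev gH (F : Fin (k + r) → V) : Fin r → V := fun j => F (Fin.natAdd k j)

/-- rewired graph -/
def surg (H : SimpleGraph V) (F : Fin (k + r) → V) (hF : Function.Injective F)
    (A : List (List ℕ)) (hA : DataOK k r A) : SimpleGraph V where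
  Adj x y := (x ∉ Set.range (fH F) ∧ y ∉ Set.range (fH F) ∧ H.Adj x y) ∨
    (∃ (i : Fin k) (a : Fin (k + r)), (a : ℕ) ∈ A.getD i [] ∧ fH F i = x ∧ F a = y) ∨
    (∃ (i : Fin k) (a : Fin (k + r)), (a : ℕ) ∈ A.getD i [] ∧ fH F i = y ∧ F a = x)
  symm := ⟨by
    rintro x y (⟨h1, h2, h3⟩ | h | h)
    · exact Or.inl ⟨h2, h1, h3.symm⟩
    · exact Or.inr (Or.inr h)
    · exact Or.inr (Or.inl h)⟩
  loopless := ⟨by
    rintro x (⟨h1, h2, h3⟩ | ⟨i, a, h1, h2, h3⟩ | ⟨i, a, h1, h2, h3⟩)
    · exact h3.ne rfl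
    · have h4 : Fin.castAdd r i = a := hF (h2.trans h3.symm)
      subst h4
      exact hA.2.2.1 i i.2 h1
    · have h4 : Fin.castAdd r i = a := hF (h2.trans h3.symm)
      subst h4
      exact hA.2.2.1 i i.2 h1⟩

theorem surg_hub (H : SimpleGraph V) (F : Fin (k + r) → V) (hF : Function.Injective F)
    (A : List (List ℕ)) (hA : DataOK k r A) : HubD (surg H F hF A hA) F A := by
  intro i x
  constructor
  · rintro (⟨h1, _, _⟩ | ⟨j, a, h1, h2, h3⟩ | ⟨j, a, h1, h2, h3⟩)
    · exact absurd ⟨i, rfl⟩ h1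
    · have h4 : Fin.castAdd r j = Fin.castAdd r i := hF h2
      have h5 : j = i := Fin.castAdd_injective _ _ h4
      subst h5
      exact ⟨a, h1, h3⟩
    · have h4 : a = Fin.castAdd r i := hF h3
      subst h4
      refine ⟨Fin.castAdd r j, ?_, h2⟩
      exact hA.2.2.2 j j.2 _ h1 i.2
  · rintro ⟨a, h1, h2⟩
    exact Or.inr (Or.inl ⟨i, a, h1, rfl, h2⟩)

theorem surg_off (H : SimpleGraph V) (F : Fin (k + r) → V) (hF : Function.Injective F)
    (A : List (List ℕ)) (hA : DataOK k r A) {x y : V} (hx : x ∉ Set.range (fH F))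
    (hy : y ∉ Set.range (fH F)) : (surg H F hF A hA).Adj x y ↔ H.Adj x y := by
  constructor
  · rintro (⟨_, _, h⟩ | ⟨j, a, h1, h2, h3⟩ | ⟨j, a, h1, h2, h3⟩)
    · exact h
    · exact absurd ⟨j, h2⟩ hx
    · exact absurd ⟨j, h2⟩ hy
  · intro h
    exact Or.inl ⟨hx, hy, h⟩

variable [Fintype V]

theorem HubD.adj {H : SimpleGraph V} {F : Fin (k + r) → V} {A : List (List ℕ)}
    (hF : Function.Injective F) (h : HubD H F A) (i : Fin k) (a : Fin (k + r)) :
    H.Adj (fH F i) (F a) ↔ (a : ℕ) ∈ A.getD i [] := by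
  rw [h i (F a)]
  constructor
  · rintro ⟨b, h1, h2⟩
    rwa [← hF h2]
  · intro h1
    exact ⟨a, h1, rfl⟩

theorem fH_inj {F : Fin (k + r) → V} (hF : Function.Injective F) : Function.Injective (fH F) :=
  fun _ _ h => Fin.castAdd_injective _ _ (hF h)

theorem gH_inj {F : Fin (k + r) → V} (hF : Function.Injective F) : Function.Injective (gH F) :=
  fun _ _ h => Fin.natAdd_injective _ _ (hF h)

theorem gH_off {F : Fin (k + r) → V} (hF : Function.Injective F) (j : Fin r) :
    gH F j ∉ Set.range (fH F) := by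
  rintro ⟨i, hi⟩
  have := hF hi
  have h2 := congrArg Fin.val this
  rw [Fin.val_castAdd, Fin.val_natAdd] at h2
  omega

theorem getD_NHof (k : ℕ) (A : List (List ℕ)) {i : ℕ} (hi : i < k) :
    nthL (NHof k A) i = (A.getD i []).filter (fun a => a < i) := by
  rw [nthL_eq, NHof, List.getD_eq_getElem?_getD, List.getElem?_map, List.getElem?_range hi]
  rfl

theorem getD_MHof (k : ℕ) (A : List (List ℕ)) {i : ℕ} (hi : i < k) :
    nthL (MHof k A) i = ((A.getD i []).filter (fun a => k ≤ a)).map (fun a => a - k) := by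
  rw [nthL_eq, MHof, List.getD_eq_getElem?_getD, List.getElem?_map, List.getElem?_range hi]
  rfl

theorem HubD.data {H : SimpleGraph V} {F : Fin (k + r) → V} {A : List (List ℕ)}
    (hF : Function.Injective F) (h : HubD H F A) (hA : DataOK k r A) :
    HubData H (fH F) (gH F) (NHof k A) (MHof k A) := by
  constructor
  · constructor
    · intro i hi
      rw [getD_NHof k A hi]
      exact (hA.1 i hi).filter _
    · intro i hi a ha
      rw [getD_NHof k A hi] at ha
      simpa using (List.mem_filter.1 ha).2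
    · intro i j hij
      rw [getD_NHof k A i.2, List.mem_filter, SimpleGraph.adj_comm]
      have h1 := h.adj hF i (Fin.castAdd r j)
      rw [Fin.val_castAdd] at h1
      constructor
      · rintro ⟨h2, _⟩
        exact h1.2 h2
      · intro h2
        exact ⟨h1.1 h2, by simpa using hij⟩
  · intro i x hx
    rw [getD_MHof k A i.2]
    change H.Adj (F (Fin.castAdd r i)) x ↔ _
    rw [h i x]
    constructor
    · rintro ⟨a, h1, rfl⟩
      rcases lt_or_ge (a : ℕ) k with h2 | h2
      · exact absurd ⟨⟨a, h2⟩, congrArg F (Fin.ext rfl)⟩ hx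
      · refine ⟨⟨a - k, by omega⟩, ?_, ?_⟩
        · refine List.mem_map.2 ⟨a, List.mem_filter.2 ⟨h1, by simpa using h2⟩, rfl⟩
        · change F (Fin.natAdd k ⟨(a : ℕ) - k, _⟩) = F a
          congr 1
          apply Fin.ext
          rw [Fin.val_natAdd]
          simp only
          omega
    · rintro ⟨j, h1, rfl⟩
      obtain ⟨a, h2, h3⟩ := List.mem_map.1 h1
      rw [List.mem_filter] at h2
      have h4 : k ≤ a := by simpa using h2.2
      refine ⟨Fin.natAdd k j, ?_, rfl⟩
      rw [Fin.val_natAdd]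
      have : k + (j : ℕ) = a := by omega
      rw [this]
      exact h2.1

theorem two_edges (G : SimpleGraph V) : 2 * G.edgeFinset.card =
    ∑ x : V, ∑ z : V, (if G.Adj x z then 1 else 0) := by
  rw [← SimpleGraph.sum_degrees_eq_twice_card_edges]
  refine sum_congr rfl fun x _ => ?_
  rw [← SimpleGraph.card_neighborFinset_eq_degree, SimpleGraph.neighborFinset_eq_filter,
    card_filter]

theorem edges_split (G : SimpleGraph V) {f : Fin k → V} (hf : Function.Injective f) :
    2 * G.edgeFinset.card = (∑ i : Fin k, ((univ.filter fun j : Fin k => G.Adj (f i) (f j)).card +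
      2 * (univ.filter fun y : Off f => G.Adj (f i) y).card)) +
      ∑ y : Off f, ∑ y' : Off f, (if G.Adj y y' then 1 else 0) := by
  rw [two_edges, ← (eqv f hf).sum_comp, Fintype.sum_sum_type]
  have t1 : ∀ a, (∑ z : V, (if G.Adj (eqv f hf a) z then 1 else 0)) =
      (∑ j : Fin k, (if G.Adj (eqv f hf a) (f j) then 1 else 0)) +
      ∑ y : Off f, (if G.Adj (eqv f hf a) y then 1 else 0) := by
    intro a
    rw [← (eqv f hf).sum_comp, Fintype.sum_sum_type]
    rfl
  simp only [t1]
  rw [sum_add_distrib, sum_add_distrib, sum_add_distrib]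
  have e1 : ∀ i : Fin k, eqv f hf (Sum.inl i) = f i := fun _ => rfl
  have e2 : ∀ y : Off f, eqv f hf (Sum.inr y) = y := fun _ => rfl
  simp only [e1, e2]
  have e3 : ∑ y : Off f, ∑ i : Fin k, (if G.Adj y (f i) then 1 else 0) =
      ∑ i : Fin k, (univ.filter fun y : Off f => G.Adj (f i) y).card := by
    rw [sum_comm]
    refine sum_congr rfl fun i _ => ?_
    rw [card_filter]
    refine sum_congr rfl fun y _ => ?_
    rw [G.adj_comm]
  rw [e3]
  have e4 : ∀ i : Fin k, (univ.filter fun j : Fin k => G.Adj (f i) (f j)).card =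
      ∑ j : Fin k, (if G.Adj (f i) (f j) then 1 else 0) := fun i => card_filter _ _
  have e5 : ∀ i : Fin k, (univ.filter fun y : Off f => G.Adj (f i) y).card =
      ∑ y : Off f, (if G.Adj (f i) y then 1 else 0) := fun i => card_filter _ _
  rw [← mul_sum]
  simp only [e4, e5]
  ring

theorem HubD.count {H : SimpleGraph V} {F : Fin (k + r) → V} {A : List (List ℕ)}
    (hF : Function.Injective F) (h : HubD H F A) (hA : DataOK k r A) :
    2 * H.edgeFinset.card = cntE k A +
      ∑ y : Off (fH F), ∑ y' : Off (fH F), (if H.Adj y y' then 1 else 0) := by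
  rw [edges_split H (fH_inj hF)]
  congr 1
  unfold cntE
  rw [← List.sum_toFinset _ List.nodup_range, List.toFinset_range,
    ← Fin.sum_univ_eq_sum_range (fun i => ((A.getD i []).filter (fun a => a < k)).length +
    2 * ((A.getD i []).filter (fun a => k ≤ a)).length) k]
  refine sum_congr rfl fun i _ => ?_
  have h1 : (univ.filter fun j : Fin k => H.Adj (fH F i) (fH F j)).card =
      ((A.getD i []).filter (fun a => a < k)).length := by
    rw [← List.toFinset_card_of_nodup ((hA.1 i i.2).filter _), ← card_map Fin.valEmbedding]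
    congr 1
    ext a
    simp only [mem_map, mem_filter, mem_univ, true_and, Fin.valEmbedding_apply, List.mem_toFinset,
      List.mem_filter, decide_eq_true_eq]
    constructor
    · rintro ⟨j, h2, rfl⟩
      exact ⟨(h.adj hF i (Fin.castAdd r j)).1 h2, j.2⟩
    · rintro ⟨h2, h3⟩
      exact ⟨⟨a, h3⟩, (h.adj hF i (Fin.castAdd r ⟨a, h3⟩)).2 h2, rfl⟩
  have h2 : (univ.filter fun y : Off (fH F) => H.Adj (fH F i) y).card =
      ((A.getD i []).filter (fun a => k ≤ a)).length := by
    rw [← List.toFinset_card_of_nodup ((hA.1 i i.2).filter _)]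
    symm
    refine card_bij (fun a ha => ⟨F ⟨a, hA.2.1 i i.2 a (by
      simp only [List.mem_toFinset, List.mem_filter] at ha
      exact ha.1)⟩, ?_⟩) ?_ ?_ ?_
    · rintro ⟨j, hj⟩
      have h3 := congrArg Fin.val (hF hj)
      simp only [List.mem_toFinset, List.mem_filter, decide_eq_true_eq] at ha
      simp only [Fin.val_castAdd] at h3
      have := j.2
      omega
    · intro a ha
      simp only [List.mem_toFinset, List.mem_filter, decide_eq_true_eq] at ha
      rw [mem_filter]
      exact ⟨mem_univ _, (h.adj hF i _).2 ha.1⟩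
    · intro a ha b hb hab
      have h3 := hF (congrArg Subtype.val hab)
      exact congrArg Fin.val h3
    · intro y hy
      rw [mem_filter] at hy
      obtain ⟨a, h3, h4⟩ := (h i y).1 hy.2
      refine ⟨a, ?_, Subtype.ext h4⟩
      simp only [List.mem_toFinset, List.mem_filter, decide_eq_true_eq]
      refine ⟨h3, ?_⟩
      by_contra h5
      exact y.2 ⟨⟨a, by omega⟩, Eq.trans (congrArg F (Fin.ext rfl)) h4⟩
  rw [h1, h2]

/-- the complete local comparison -/
theorem surgery {H : SimpleGraph V} {F : Fin (k + r) → V} {A A' : List (List ℕ)}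
    (hF : Function.Injective F) (h : HubD H F A) (hA : DataOK k r A) (hA' : DataOK k r A')
    (hcnt : cntE k A = cntE k A') {T : Tab}
    (hk0 : 0 < k) (hk : k ≤ 10) (hc : CloseOK T k)
    {NH NH' MH MH' : List (List ℕ)} (e1 : NHof k A = NH) (e2 : NHof k A' = NH')
    (e3 : MHof k A = MH) (e4 : MHof k A' = MH')
    (hch : CertOK T k r NH NH' MH MH') {q : ℝ} (hq0 : 0 < q) (hq1 : q < 1) :
    ∃ H' : SimpleGraph V, H'.edgeFinset.card = H.edgeFinset.card ∧
      RelE (Ec H) q < RelE (Ec H') q := by
  subst e1 e2 e3 e4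
  have h' := surg_hub H F hF A' hA'
  have hoff : ∀ y y' : Off (fH F), (surg H F hF A' hA').Adj y y' ↔ H.Adj y y' := fun y y' =>
    surg_off H F hF A' hA' y.2 y'.2
  refine ⟨surg H F hF A' hA', ?_, ?_⟩
  · have c1 := h.count hF hA
    have c2 := h'.count hF hA'
    simp only [hoff] at c2
    omega
  · refine local_lt (fH_inj hF) (h.data hF hA) (h'.data hF hA') (gH_inj hF) (gH_off hF) ?_
      hk0 hk hc hch hq0 hq1
    have hcm : H.comap (Subtype.val : Off (fH F) → V) =
        (surg H F hF A' hA').comap (Subtype.val : Off (fH F) → V) := by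
      ext y y'
      rw [SimpleGraph.comap_adj, SimpleGraph.comap_adj, hoff]
    unfold EY
    ext e
    rw [SimpleGraph.mem_edgeFinset, SimpleGraph.mem_edgeFinset, hcm]

end surg

end Pool.Agent.W_MP_d15038_ex
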