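import Pool.Agent.W_MP_d15038_ex.Surg

/-!
# Rewiring, with lists of vertices
-/

set_option autoImplicit false
set_option linter.unusedSectionVars false
set_option linter.unusedSimpArgs false

open Finset

namespace Pool.Agent.W_MP_d15038_ex

open scoped Classical

instance (k r : ℕ) (A : List (List ℕ)) : Decidable (DataOK k r A) := by
  unfold DataOK
  infer_instance

section

variable {V : Type}

/-- the neighbours of `v` are the members of `l` -/
def Nb (H : SimpleGraph V) (v : V) (l : List V) : Prop := ∀ x, H.Adj v x ↔ x ∈ l

/-- neighbour lists, given by positions in `L` -/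
def LocAux (H : SimpleGraph V) (L : List V) : List V → List (List ℕ) → Prop
  | _, [] => True
  | [], _ :: _ => False
  | v :: vs, a :: as => Nb H v (a.filterMap (fun j => L[j]?)) ∧ LocAux H L vs as

theorem LocAux.get {H : SimpleGraph V} {L : List V} : ∀ {vs : List V} {as : List (List ℕ)},
    LocAux H L vs as → ∀ i < as.length, ∃ v, vs[i]? = some v ∧
      Nb H v ((as.getD i []).filterMap (fun j => L[j]?)) := by
  intro vs
  induction vs with
  | nil =>
    intro as h i hi
    cases as with
    | nil => simp at hi
    | cons a as => exact absurd h (by simp [LocAux])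
  | cons v vs ih =>
    intro as h i hi
    cases as with
    | nil => simp at hi
    | cons a as =>
      cases i with
      | zero => exact ⟨v, rfl, h.1⟩
      | succ i =>
        obtain ⟨v', h1, h2⟩ := ih h.2 i (by simpa using hi)
        exact ⟨v', by simpa using h1, by simpa using h2⟩

variable [Fintype V]

/-- some graph with the same number of edges is better -/
def Better (H : SimpleGraph V) (q : ℝ) : Prop :=
  ∃ H' : SimpleGraph V, H'.edgeFinset.card = H.edgeFinset.card ∧
    RelE (Ec H) q < RelE (Ec H') q

theorem surgery_list {H : SimpleGraph V} {k r : ℕ} {A A' : List (List ℕ)} {L : List V}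
    (hnd : L.Nodup) (hlen : L.length = k + r) (hAk : A.length = k) (hloc : LocAux H L L A)
    (hA : DataOK k r A) (hA' : DataOK k r A') (hcnt : cntE k A = cntE k A') {q : ℝ}
    (hq0 : 0 < q) (hq1 : q < 1) {T : Tab} (hk0 : 0 < k) (hk : k ≤ 10)
    (hc : CloseOK T k)
    {NH NH' MH MH' : List (List ℕ)} (e1 : NHof k A = NH) (e2 : NHof k A' = NH')
    (e3 : MHof k A = MH) (e4 : MHof k A' = MH')
    (hch : CertOK T k r NH NH' MH MH') : Better H q := by
  set F : Fin (k + r) → V := fun a => L.get (a.cast hlen.symm) with hF
  have hinj : Function.Injective F := by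
    intro a b h
    have := (List.nodup_iff_injective_get.1 hnd) h
    have h2 := congrArg Fin.val this
    exact Fin.ext h2
  have hget : ∀ (a : Fin (k + r)), L[(a : ℕ)]? = some (F a) := by
    intro a
    rw [List.getElem?_eq_getElem (by rw [hlen]; exact a.2)]
    rfl
  have hD : HubD H F A := by
    intro i x
    obtain ⟨v, h1, h2⟩ := hloc.get i (by rw [hAk]; exact i.2)
    have h3 := hget (Fin.castAdd r i)
    rw [Fin.val_castAdd, h1] at h3
    have h4 : v = F (Fin.castAdd r i) := Option.some.inj h3
    rw [← h4, h2 x, List.mem_filterMap]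
    constructor
    · rintro ⟨a, h5, h6⟩
      have h7 : a < k + r := by
        rw [← hlen]
        by_contra hcon
        rw [List.getElem?_eq_none (by omega)] at h6
        cases h6
      refine ⟨⟨a, h7⟩, h5, ?_⟩
      have h8 := hget ⟨a, h7⟩
      rw [h6] at h8
      exact (Option.some.inj h8).symm
    · rintro ⟨a, h5, h6⟩
      exact ⟨a, h5, by rw [hget a, h6]⟩
  exact surgery hinj hD hA hA' hcnt hk0 hk hc e1 e2 e3 e4 hch hq0 hq1

end

end Pool.Agent.W_MP_d15038_ex
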