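import Pool.Agent.W_MP_d15038_ex.Cone

/-!
# Tables of partition types
-/

set_option autoImplicit false
set_option maxRecDepth 10000000

namespace Pool.Agent.W_MP_d15038_ex

/-- types and cone rows for `k = 4` -/
def tab4 : Tab where
  types := [[1, 1, 1, 1], [2, 1, 1], [2, 2], [3, 1], [4]]
  rows := [[1, 1, 1, 1, 1], [0, 1, 2, 3, 6], [0, 0, 1, 0, 3], [0, 0, 0, 1, 4], [0, 0, 0, 0, 1]]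

/-- types and cone rows for `k = 5` -/
def tab5 : Tab where
  types := [[1, 1, 1, 1, 1], [2, 1, 1, 1], [2, 2, 1], [3, 1, 1], [3, 2], [4, 1], [5]]
  rows := [[1, 1, 1, 1, 1, 1, 1], [0, 1, 2, 3, 4, 6, 10], [0, 0, 1, 0, 3, 3, 15], [0, 0, 0, 1, 1, 4, 10], [0, 0, 0, 0, 1, 0, 10], [0, 0, 0, 0, 0, 1, 5], [0, 0, 0, 0, 0, 0, 1]]

/-- types and cone rows for `k = 6` -/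
def tab6 : Tab where
  types := [[1, 1, 1, 1, 1, 1], [2, 1, 1, 1, 1], [2, 2, 1, 1], [3, 1, 1, 1], [2, 2, 2], [3, 2, 1], [4, 1, 1], [3, 3], [4, 2], [5, 1], [6]]
  rows := [[1, 1, 1, 1, 1, 1, 1, 1, 1, 1, 1], [0, 1, 2, 3, 3, 4, 6, 6, 7, 10, 15], [0, 0, 1, 0, 3, 3, 3, 9, 9, 15, 45], [0, 0, 0, 1, 0, 1, 4, 2, 4, 10, 20], [0, 0, 0, 0, 1, 0, 0, 0, 3, 0, 15], [0, 0, 0, 0, 0, 1, 0, 6, 4, 10, 60], [0, 0, 0, 0, 0, 0, 1, 0, 1, 5, 15], [0, 0, 0, 0, 0, 0, 0, 1, 0, 0, 10], [0, 0, 0, 0, 0, 0, 0, 0, 1, 0, 15], [0, 0, 0, 0, 0, 0, 0, 0, 0, 1, 6], [0, 0, 0, 0, 0, 0, 0, 0, 0, 0, 1]]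

/-- types and cone rows for `k = 7` -/
def tab7 : Tab where
  types := [[1, 1, 1, 1, 1, 1, 1], [2, 1, 1, 1, 1, 1], [2, 2, 1, 1, 1], [3, 1, 1, 1, 1], [2, 2, 2, 1], [3, 2, 1, 1], [4, 1, 1, 1], [3, 2, 2], [3, 3, 1], [4, 2, 1], [5, 1, 1], [4, 3], [5, 2], [6, 1], [7]]
  rows := [[1, 1, 1, 1, 1, 1, 1, 1, 1, 1, 1, 1, 1, 1, 1], [0, 1, 2, 3, 3, 4, 6, 5, 6, 7, 10, 9, 11, 15, 21], [0, 0, 1, 0, 3, 3, 3, 7, 9, 9, 15, 21, 25, 45, 105], [0, 0, 0, 1, 0, 1, 4, 1, 2, 4, 10, 5, 10, 20, 35], [0, 0, 0, 0, 1, 0, 0, 3, 0, 3, 0, 9, 15, 15, 105], [0, 0, 0, 0, 0, 1, 0, 2, 6, 4, 10, 18, 20, 60, 210], [0, 0, 0, 0, 0, 0, 1, 0, 0, 1, 5, 1, 5, 15, 35], [0, 0, 0, 0, 0, 0, 0, 1, 0, 0, 0, 3, 10, 0, 105], [0, 0, 0, 0, 0,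 0, 0, 0, 1, 0, 0, 4, 0, 10, 70], [0, 0, 0, 0, 0, 0, 0, 0, 0, 1, 0, 3, 5, 15, 105], [0, 0, 0, 0, 0, 0, 0, 0, 0, 0, 1, 0, 1, 6, 21], [0, 0, 0, 0, 0, 0, 0, 0, 0, 0, 0, 1, 0, 0, 35], [0, 0, 0, 0, 0, 0, 0, 0, 0, 0, 0, 0, 1, 0, 21], [0, 0, 0, 0, 0, 0, 0, 0, 0, 0, 0, 0, 0, 1, 7], [0, 0, 0, 0, 0, 0, 0, 0, 0, 0, 0, 0, 0, 0, 1]]

/-- types and cone rows for `k = 8` -/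
def tab8 : Tab where
  types := [[1, 1, 1, 1, 1, 1, 1, 1], [2, 1, 1, 1, 1, 1, 1], [2, 2, 1, 1, 1, 1], [3, 1, 1, 1, 1, 1], [2, 2, 2, 1, 1], [3, 2, 1, 1, 1], [4, 1, 1, 1, 1], [2, 2, 2, 2], [3, 2, 2, 1], [3, 3, 1, 1], [4, 2, 1, 1], [5, 1, 1, 1], [3, 3, 2], [4, 2, 2], [4, 3, 1], [5, 2, 1], [6, 1, 1], [4, 4], [5, 3], [6, 2], [7, 1], [8]]
  rows := [[1, 1, 1, 1, 1, 1, 1, 1, 1, 1, 1, 1, 1, 1, 1, 1, 1, 1, 1, 1, 1, 1], [0, 1, 2, 3, 3, 4, 6, 4, 5, 6, 7, 10, 7, 8, 9, 11, 15, 12, 13, 16, 21, 28], [0, 0, 1, 0, 3, 3, 3, 6, 7, 9, 9, 15, 15, 16, 21, 25, 45, 42, 45, 60, 105, 210], [0, 0, 0, 1, 0, 1, 4, 0, 1, 2, 4, 10, 2, 4, 5, 10, 20, 8, 11, 20, 35, 56], [0, 0, 0, 0, 1, 0, 0, 4, 3, 0, 3, 0, 9, 12, 9, 15,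 15, 36, 45, 60, 105, 420], [0, 0, 0, 0, 0, 1, 0, 0, 2, 6, 4, 10, 8, 8, 18, 20, 60, 48, 50, 80, 210, 560], [0, 0, 0, 0, 0, 0, 1, 0, 0, 0, 1, 5, 0, 1, 1, 5, 15, 2, 5, 15, 35, 70], [0, 0, 0, 0, 0, 0, 0, 1, 0, 0, 0, 0, 0, 3, 0, 0, 0, 9, 0, 15, 0, 105], [0, 0, 0, 0, 0, 0, 0, 0, 1, 0, 0, 0, 6, 4, 3, 10, 0, 24, 45, 60, 105, 840], [0, 0, 0, 0, 0, 0, 0, 0, 0, 1, 0, 0, 1, 0, 4, 0, 10, 16, 10, 10, 70, 280], [0, 0, 0, 0, 0, 0, 0, 0, 0, 0, 1, 0, 0, 2, 3, 5, 15, 12, 15, 30, 105, 420], [0, 0, 0, 0, 0, 0, 0, 0, 0, 0, 0, 1, 0, 0, 0, 1, 6, 0, 1, 6, 21, 56], [0, 0, 0, 0, 0, 0, 0, 0, 0, 0, 0, 0, 1, 0, 0, 0, 0, 0, 10, 10, 0, 280], [0, 0, 0, 0, 0, 0, 0, 0, 0, 0, 0, 0, 0, 1, 0, 0, 0, 6, 0, 15, 0, 210], [0, 0,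 0, 0, 0, 0, 0, 0, 0, 0, 0, 0, 0, 0, 1, 0, 0, 8, 5, 0, 35, 280], [0, 0, 0, 0, 0, 0, 0, 0, 0, 0, 0, 0, 0, 0, 0, 1, 0, 0, 3, 6, 21, 168], [0, 0, 0, 0, 0, 0, 0, 0, 0, 0, 0, 0, 0, 0, 0, 0, 1, 0, 0, 1, 7, 28], [0, 0, 0, 0, 0, 0, 0, 0, 0, 0, 0, 0, 0, 0, 0, 0, 0, 1, 0, 0, 0, 35], [0, 0, 0, 0, 0, 0, 0, 0, 0, 0, 0, 0, 0, 0, 0, 0, 0, 0, 1, 0, 0, 56], [0, 0, 0, 0, 0, 0, 0, 0, 0, 0, 0, 0, 0, 0, 0, 0, 0, 0, 0, 1, 0, 28], [0, 0, 0, 0, 0, 0, 0, 0, 0, 0, 0, 0, 0, 0, 0, 0, 0, 0, 0, 0, 1, 8], [0, 0, 0, 0, 0, 0, 0, 0, 0, 0, 0, 0, 0, 0, 0, 0, 0, 0, 0, 0, 0, 1]]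

/-- types and cone rows for `k = 9` -/
def tab9 : Tab where
  types := [[1, 1, 1, 1, 1, 1, 1, 1, 1], [2, 1, 1, 1, 1, 1, 1, 1], [2, 2, 1, 1, 1, 1, 1], [3, 1, 1, 1, 1, 1, 1], [2, 2, 2, 1, 1, 1], [3, 2, 1, 1, 1, 1], [4, 1, 1, 1, 1, 1], [2, 2, 2, 2, 1], [3, 2, 2, 1, 1], [3, 3, 1, 1, 1], [4, 2, 1, 1, 1], [5, 1, 1, 1, 1], [3, 2, 2, 2], [3, 3, 2, 1], [4, 2, 2, 1], [4, 3, 1, 1], [5, 2, 1, 1], [6, 1, 1, 1], [3, 3, 3], [4, 3, 2], [4, 4, 1], [5, 2, 2], [5, 3, 1], [6, 2, 1], [7, 1, 1], [5, 4], [6, 3], [7, 2], [8, 1], [9]]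
  rows := [[1, 1, 1, 1, 1, 1, 1, 1, 1, 1, 1, 1, 1, 1, 1, 1, 1, 1, 1, 1, 1, 1, 1, 1, 1, 1, 1, 1, 1, 1], [0, 1, 2, 3, 3, 4, 6, 4, 5, 6, 7, 10, 6, 7, 8, 9, 11, 15, 9, 10, 12, 12, 13, 16, 21, 16, 18, 22, 28, 36], [0, 0, 1, 0, 3, 3, 3, 6, 7, 9, 9, 15, 12, 15, 16, 21, 25, 45, 27, 30, 42, 36, 45, 60, 105, 78, 90, 126, 210, 378], [0, 0, 0, 1, 0, 1, 4, 0, 1, 2, 4, 10, 1, 2, 4, 5, 10, 20, 3, 5, 8, 10, 11, 20, 35, 14, 21, 35, 56, 84], [0, 0, 0, 0, 1, 0, 0, 4, 3, 0, 3, 0, 10, 9, 12, 9, 15, 15, 27, 30, 36, 40, 45, 60, 105, 120, 150, 210, 420, 1260], [0, 0, 0, 0, 0, 1, 0, 0, 2, 6, 4, 10, 3, 8, 8, 18, 20, 60, 18, 23, 48, 30, 50, 80, 210, 110, 135, 245, 560, 1260], [0, 0, 0, 0, 0, 0, 1, 0, 0, 0, 1, 5, 0,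 0, 1, 1, 5, 15, 0, 1, 2, 5, 5, 15, 35, 6, 15, 35, 70, 126], [0, 0, 0, 0, 0, 0, 0, 1, 0, 0, 0, 0, 3, 0, 3, 0, 0, 0, 0, 9, 9, 15, 0, 15, 0, 45, 45, 105, 105, 945], [0, 0, 0, 0, 0, 0, 0, 0, 1, 0, 0, 0, 3, 6, 4, 3, 10, 0, 27, 21, 24, 30, 45, 60, 105, 150, 225, 315, 840, 3780], [0, 0, 0, 0, 0, 0, 0, 0, 0, 1, 0, 0, 0, 1, 0, 4, 0, 10, 3, 4, 16, 0, 10, 10, 70, 40, 30, 70, 280, 840], [0, 0, 0, 0, 0, 0, 0, 0, 0, 0, 1, 0, 0, 0, 2, 3, 5, 15, 0, 4, 12, 10, 15, 30, 105, 40, 60, 140, 420, 1260], [0, 0, 0, 0, 0, 0, 0, 0, 0, 0, 0, 1, 0, 0, 0, 0, 1, 6, 0, 0, 0, 1, 1, 6, 21, 1, 6, 21, 56, 126], [0, 0, 0, 0, 0, 0, 0, 0, 0, 0, 0, 0, 1, 0, 0, 0, 0, 0, 0, 3, 0, 10, 0, 0, 0, 30, 15, 105, 0, 1260], [0, 0, 0, 0,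 0, 0, 0, 0, 0, 0, 0, 0, 0, 1, 0, 0, 0, 0, 9, 4, 0, 0, 10, 10, 0, 40, 90, 70, 280, 2520], [0, 0, 0, 0, 0, 0, 0, 0, 0, 0, 0, 0, 0, 0, 1, 0, 0, 0, 0, 3, 6, 5, 0, 15, 0, 30, 45, 105, 210, 1890], [0, 0, 0, 0, 0, 0, 0, 0, 0, 0, 0, 0, 0, 0, 0, 1, 0, 0, 0, 1, 8, 0, 5, 0, 35, 30, 15, 35, 280, 1260], [0, 0, 0, 0, 0, 0, 0, 0, 0, 0, 0, 0, 0, 0, 0, 0, 1, 0, 0, 0, 0, 2, 3, 6, 21, 6, 18, 42, 168, 756], [0, 0, 0, 0, 0, 0, 0, 0, 0, 0, 0, 0, 0, 0, 0, 0, 0, 1, 0, 0, 0, 0, 0, 1, 7, 0, 1, 7, 28, 84], [0, 0, 0, 0, 0, 0, 0, 0, 0, 0, 0, 0, 0, 0, 0, 0, 0, 0, 1, 0, 0, 0, 0, 0, 0, 0, 10, 0, 0, 280], [0, 0, 0, 0, 0, 0, 0, 0, 0, 0, 0, 0, 0, 0, 0, 0, 0, 0, 0, 1, 0, 0, 0, 0, 0, 10, 15, 35, 0, 1260], [0, 0, 0, 0, 0, 0,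 0, 0, 0, 0, 0, 0, 0, 0, 0, 0, 0, 0, 0, 0, 1, 0, 0, 0, 0, 5, 0, 0, 35, 315], [0, 0, 0, 0, 0, 0, 0, 0, 0, 0, 0, 0, 0, 0, 0, 0, 0, 0, 0, 0, 0, 1, 0, 0, 0, 3, 0, 21, 0, 378], [0, 0, 0, 0, 0, 0, 0, 0, 0, 0, 0, 0, 0, 0, 0, 0, 0, 0, 0, 0, 0, 0, 1, 0, 0, 4, 6, 0, 56, 504], [0, 0, 0, 0, 0, 0, 0, 0, 0, 0, 0, 0, 0, 0, 0, 0, 0, 0, 0, 0, 0, 0, 0, 1, 0, 0, 3, 7, 28, 252], [0, 0, 0, 0, 0, 0, 0, 0, 0, 0, 0, 0, 0, 0, 0, 0, 0, 0, 0, 0, 0, 0, 0, 0, 1, 0, 0, 1, 8, 36], [0, 0, 0, 0, 0, 0, 0, 0, 0, 0, 0, 0, 0, 0, 0, 0, 0, 0, 0, 0, 0, 0, 0, 0, 0, 1, 0, 0, 0, 126], [0, 0, 0, 0, 0, 0, 0, 0, 0, 0, 0, 0, 0, 0, 0, 0, 0, 0, 0, 0, 0, 0, 0, 0, 0, 0, 1, 0, 0, 84], [0, 0, 0, 0, 0, 0, 0, 0, 0, 0, 0, 0, 0, 0, 0, 0, 0, 0,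 0, 0, 0, 0, 0, 0, 0, 0, 0, 1, 0, 36], [0, 0, 0, 0, 0, 0, 0, 0, 0, 0, 0, 0, 0, 0, 0, 0, 0, 0, 0, 0, 0, 0, 0, 0, 0, 0, 0, 0, 1, 9], [0, 0, 0, 0, 0, 0, 0, 0, 0, 0, 0, 0, 0, 0, 0, 0, 0, 0, 0, 0, 0, 0, 0, 0, 0, 0, 0, 0, 0, 1]]

end Pool.Agent.W_MP_d15038_ex
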